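import Pool.Agent.H40.CH3.Defs

/-!
# WT: the ring of Witt vectors of a perfect field is an admissible coefficient ring
-/

namespace Pool.Agent.H40.CH3

theorem isWitt_wittVector (p n : ℕ) [Fact p.Prime] (k : Type*) [Field k] [CharP k p]
    [PerfectRing k p] :
    IsWitt p n (WittVector.constantCoeff : WittVector p k →+* k) where
  surj a := ⟨WittVector.teichmuller p a, by
    rw [WittVector.constantCoeff_apply, WittVector.teichmuller_coeff_zero]⟩
  ker w := by
    rw [← RingHom.mem_ker, WittVector.ker_constantCoeff, Ideal.mem_span_singleton]
  ne := by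
    intro h
    exact WittVector.p_nonzero p k h
  unit w hw := WittVector.isUnit_of_coeff_zero_ne_zero w hw
  sep w hw := by
    by_contra hne
    obtain ⟨j, b, hb, rfl⟩ := WittVector.exists_eq_pow_p_mul w hne
    have h1 := hw (j + 1)
    rw [pow_succ, mul_dvd_mul_iff_left (pow_ne_zero _ (WittVector.p_nonzero p k))] at h1
    apply hb
    have h2 : b ∈ RingHom.ker (WittVector.constantCoeff : WittVector p k →+* k) := by
      rw [WittVector.ker_constantCoeff, Ideal.mem_span_singleton]
      exact h1
    exact h2
  frob := ⟨WittVector.frobenius, fun w => by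
    rw [WittVector.constantCoeff_apply, WittVector.constantCoeff_apply,
      WittVector.coeff_frobenius_charP]⟩
  teich a ha := ⟨WittVector.teichmuller p a, by
    rw [WittVector.constantCoeff_apply, WittVector.teichmuller_coeff_zero], by
    rw [← map_pow, ha]⟩

end Pool.Agent.H40.CH3
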