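import Pool.Agent.H40.CH3.Mn
import Pool.Agent.H40.CH3.Wt

/-!
# WF: Chai's Hope over the Witt vectors of a perfect field containing the field with `p ^ n` elements

`n = m + 1`, `W = W(k)`, `F` over `W⟦v_1, .., v_m⟧` the `p`-typical formal group law with Hazewinkel
logarithm (`v_n = 1`, `v_i = 0` for `i > n`), the Lubin-Tate universal deformation of the Honda
formal group law of height `n`.
-/

open PowerSeries

namespace Pool.Agent.H40.CH3

open Pool.Agent.H13.CA

theorem prim_of_galois {k : Type*} [Field k] (p : ℕ) [Fact p.Prime] {h : ℕ} (hh : 1 ≤ h)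
    (e : GaloisField p h →+* k) : ∃ ζ : k, IsPrimitiveRoot ζ (p ^ h - 1) := by
  classical
  have : Fintype (GaloisField p h) := Fintype.ofFinite _
  have hcard : Fintype.card (GaloisField p h) = p ^ h := by
    rw [← Nat.card_eq_fintype_card]
    exact GaloisField.card p h (by omega)
  obtain ⟨g, hg⟩ := IsCyclic.exists_generator (α := (GaloisField p h)ˣ)
  have hord : orderOf g = p ^ h - 1 := by
    rw [orderOf_eq_card_of_forall_mem_zpowers hg, Nat.card_eq_fintype_card, Fintype.card_units,
      hcard]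
  have h1 : IsPrimitiveRoot g (p ^ h - 1) := hord ▸ IsPrimitiveRoot.orderOf g
  have h2 : IsPrimitiveRoot (g : GaloisField p h) (p ^ h - 1) := IsPrimitiveRoot.coe_units_iff.mpr h1
  exact ⟨e g, h2.map_of_injective e.injective⟩

/-- Chai's Hope -/
theorem chai_mixed (p : ℕ) [Fact p.Prime] (m : ℕ) (k : Type*) [Field k] [CharP k p]
    [PerfectRing k p] (e : GaloisField p (m + 1) →+* k)
    (F : FormalGroup (MvPowerSeries (Fin m) (WittVector p k))) (hF : IsHaz p m F) (N : ℕ)
    (P : Ideal (MvPowerSeries (Fin m) (WittVector p k))) (hP : P.IsPrime)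
    (hst : ∀ θ : PowerSeries k,
      IsHom (spc WittVector.constantCoeff F) (spc WittVector.constantCoeff F) θ →
      IsUnit (coeff 1 θ) → (X : k⟦X⟧) ^ N ∣ θ - X →
        ∃ a : Lift (WittVector p k) F,
          PowerSeries.map (resd WittVector.constantCoeff m) a.f = θ ∧
          P.map (a.g : MvPowerSeries (Fin m) (WittVector p k) →+*
            MvPowerSeries (Fin m) (WittVector p k)) ≤ P) :
    P = ⊥ ∨ ∃ j, j ≤ m ∧ P = Ideal.span ({x | ∃ i : Fin m, i.val < j ∧ x = MvPowerSeries.X i} ∪
      {(p : MvPowerSeries (Fin m) (WittVector p k))}) :=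
  chai_witt (isWitt_wittVector p (m + 1) k) (prim_of_galois p (Nat.succ_le_succ (Nat.zero_le m)) e)
    hF N P hP hst

end Pool.Agent.H40.CH3
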