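import Pool.Agent.H40.CH3.Fg0

/-!
# FG0b: congruences, homomorphisms to the additive group

`fa_sub_dvd`: `F(X, Y) - X - Y` has only monomials `X^i Y^j`, `i, j ≥ 1` (`FormalGroup.add_zero`,
`zero_add`), or: coefficientwise.  `lead`: `a^i - b^i = (a - b) (..)` with `(..)` divisible by `X` for
`i ≥ 2`.  `hom_Ga_unique`: `d = l - l'` satisfies `d(F(X, Y)) = d(X) + d(Y)`, coefficient of `Y`:
`d'(X) * F_2(X, 0) = coeff 1 d = 0` and `F_2(X, 0) = 1 + ..` is a unit, so `d' = 0`.
`group_unique`: `l(G(X,Y)) = l(G'(X,Y))` and `l` is cancellable (inverse series).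
-/

open PowerSeries

namespace Pool.Agent.H40.CH3

open Pool.Agent.H13.CA

variable {R S : Type*} [CommRing R] [CommRing S]

private theorem cs0 (G : MvPowerSeries (Fin 2) R) (n : ℕ) :
    PowerSeries.coeff n (MvPowerSeries.subst ![(X : R⟦X⟧), 0] G : R⟦X⟧) =
      MvPowerSeries.coeff (Finsupp.single 0 n) G := by
  rw [PowerSeries.coeff, MvPowerSeries.coeff_subst, finsum_eq_single _ (Finsupp.single 0 n)]
  · simp [PowerSeries.coeff_X_pow]
  · intro d hd
    by_cases hd₁ : d 1 = 0
    · have h0 : d 0 ≠ n := by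
        intro h
        apply hd
        ext i
        fin_cases i
        · simp [h]
        · simp [hd₁]
      simp [hd₁, PowerSeries.coeff_X_pow]
      intro h
      exact absurd h.symm h0
    simp [hd₁]
  · exact MvPowerSeries.HasSubst.X_zero

private theorem cs1 (G : MvPowerSeries (Fin 2) R) (n : ℕ) :
    PowerSeries.coeff n (MvPowerSeries.subst ![0, (X : R⟦X⟧)] G : R⟦X⟧) =
      MvPowerSeries.coeff (Finsupp.single 1 n) G := by
  rw [PowerSeries.coeff, MvPowerSeries.coeff_subst, finsum_eq_single _ (Finsupp.single 1 n)]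
  · simp [PowerSeries.coeff_X_pow]
  · intro d hd
    by_cases hd₁ : d 0 = 0
    · have h0 : d 1 ≠ n := by
        intro h
        apply hd
        ext i
        fin_cases i
        · simp [hd₁]
        · simp [h]
      simp [hd₁, PowerSeries.coeff_X_pow]
      intro h
      exact absurd h.symm h0
    simp [hd₁]
  · exact MvPowerSeries.HasSubst.zero_X

private theorem split (F : FormalGroup R) : ∃ H : MvPowerSeries (Fin 2) R,
    F.toPowerSeries = MvPowerSeries.X 0 + MvPowerSeries.X 1 +
      MvPowerSeries.X 0 * (MvPowerSeries.X 1 * H) := by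
  have e0 : ∀ n, MvPowerSeries.coeff (Finsupp.single 0 n) F.toPowerSeries =
      if n = 1 then 1 else 0 := by
    intro n
    rw [← cs0, F.add_zero PowerSeries.HasSubst.X']
    exact PowerSeries.coeff_X n
  have e1 : ∀ n, MvPowerSeries.coeff (Finsupp.single 1 n) F.toPowerSeries =
      if n = 1 then 1 else 0 := by
    intro n
    rw [← cs1, F.zero_add PowerSeries.HasSubst.X']
    exact PowerSeries.coeff_X n
  have h0 : (MvPowerSeries.X 0 : MvPowerSeries (Fin 2) R) ∣
      F.toPowerSeries - MvPowerSeries.X 0 - MvPowerSeries.X 1 := by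
    rw [MvPowerSeries.X_dvd_iff]
    intro m hm
    have hm' : m = Finsupp.single 1 (m 1) := by
      ext i
      fin_cases i
      · simp [hm]
      · simp
    rw [hm', map_sub, map_sub, e1, MvPowerSeries.coeff_X, MvPowerSeries.coeff_X]
    by_cases h1 : m 1 = 1
    · rw [if_pos h1, h1, if_neg, if_pos rfl]
      · ring
      · intro h
        have := Finsupp.ext_iff.1 h 0
        simp at this
    · rw [if_neg h1, if_neg, if_neg]
      · ring
      · intro h
        have := Finsupp.ext_iff.1 h 1
        simp at this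
        exact h1 this
      · intro h
        have := Finsupp.ext_iff.1 h 0
        simp at this
  obtain ⟨D, hD⟩ := h0
  have h1 : (MvPowerSeries.X 1 : MvPowerSeries (Fin 2) R) ∣ D := by
    rw [MvPowerSeries.X_dvd_iff]
    intro m hm
    have hm' : m + Finsupp.single 0 1 = Finsupp.single 0 (m 0 + 1) := by
      ext i
      fin_cases i
      · simp
      · simp [hm]
    have h2 : MvPowerSeries.coeff m D = MvPowerSeries.coeff (m + Finsupp.single 0 1)
        (MvPowerSeries.X 0 * D) := by
      rw [add_comm m, MvPowerSeries.X_def, MvPowerSeries.coeff_add_monomial_mul, one_mul]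
    rw [h2, ← hD, hm', map_sub, map_sub, e0, MvPowerSeries.coeff_X, MvPowerSeries.coeff_X]
    by_cases h1 : m 0 = 0
    · rw [if_pos (by omega), h1, if_pos rfl, if_neg]
      · ring
      · intro h
        have := Finsupp.ext_iff.1 h 0
        simp at this
    · rw [if_neg (by omega), if_neg, if_neg]
      · ring
      · intro h
        have := Finsupp.ext_iff.1 h 1
        simp at this
      · intro h
        have := Finsupp.ext_iff.1 h 0
        simp at this
        exact h1 this
  obtain ⟨H, hH⟩ := h1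
  refine ⟨H, ?_⟩
  rw [← hH, ← hD]
  ring

/-- `F(a, b) = a + b + a b (..)` -/
theorem fa_sub_dvd (F : FormalGroup R) {a b : R⟦X⟧} (ha : constantCoeff a = 0)
    (hb : constantCoeff b = 0) : a * b ∣ fa F a b - a - b := by
  obtain ⟨H, hH⟩ := split F
  have hab := hasSubst_pair (hs_zero ha) (hs_zero hb)
  refine ⟨MvPowerSeries.subst ![a, b] H, ?_⟩
  unfold fa
  rw [hH, MvPowerSeries.subst_add hab, MvPowerSeries.subst_add hab, MvPowerSeries.subst_mul hab,
    MvPowerSeries.subst_mul hab, MvPowerSeries.subst_X hab, MvPowerSeries.subst_X hab]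
  change a + b + a * (b * _) - a - b = a * b * _
  ring

private theorem pow_congr {N : ℕ} {a b : R⟦X⟧} (h : (X : R⟦X⟧) ^ N ∣ a - b) (n : ℕ) :
    (X : R⟦X⟧) ^ N ∣ a ^ n - b ^ n := h.trans (sub_dvd_pow_sub_pow a b n)

private theorem coeff_congr {N : ℕ} {a b : R⟦X⟧} (h : (X : R⟦X⟧) ^ N ∣ a - b) {m : ℕ}
    (hm : m < N) : PowerSeries.coeff m a = PowerSeries.coeff m b := by
  have h1 := PowerSeries.X_pow_dvd_iff.1 h m hm
  rw [map_sub] at h1
  exact sub_eq_zero.1 h1

/-- congruence for the substitution in a series of two variables -/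
private theorem mv_congr (G : MvPowerSeries (Fin 2) R) {N : ℕ} {a b a' b' : R⟦X⟧}
    (ha : constantCoeff a = 0)
    (hb : constantCoeff b = 0) (ha' : constantCoeff a' = 0) (hb' : constantCoeff b' = 0)
    (h1 : (X : R⟦X⟧) ^ N ∣ a - a') (h2 : (X : R⟦X⟧) ^ N ∣ b - b') :
    (X : R⟦X⟧) ^ N ∣ MvPowerSeries.subst ![a, b] G - MvPowerSeries.subst ![a', b'] G := by
  rw [PowerSeries.X_pow_dvd_iff]
  intro m hm
  rw [map_sub, sub_eq_zero]
  simp only [PowerSeries.coeff]
  rw [MvPowerSeries.coeff_subst (hasSubst_pair (hs_zero ha) (hs_zero hb)),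
    MvPowerSeries.coeff_subst (hasSubst_pair (hs_zero ha') (hs_zero hb'))]
  refine finsum_congr fun d => ?_
  congr 1
  rw [Finsupp.prod_fintype _ _ (fun i => pow_zero _), Finsupp.prod_fintype _ _ (fun i => pow_zero _),
    Fin.prod_univ_two, Fin.prod_univ_two]
  refine coeff_congr (N := N) ?_ hm
  have e1 := pow_congr h1 (d 0)
  have e2 := pow_congr h2 (d 1)
  have e3 : a ^ d 0 * b ^ d 1 - a' ^ d 0 * b' ^ d 1 =
      (a ^ d 0 - a' ^ d 0) * b ^ d 1 + a' ^ d 0 * (b ^ d 1 - b' ^ d 1) := by ring
  change (X : R⟦X⟧) ^ N ∣ a ^ d 0 * b ^ d 1 - a' ^ d 0 * b' ^ d 1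
  rw [e3]
  exact dvd_add (Dvd.dvd.mul_right e1 _) (Dvd.dvd.mul_left e2 _)

theorem fa_congr (F : FormalGroup R) {N : ℕ} {a b a' b' : R⟦X⟧} (ha : constantCoeff a = 0)
    (hb : constantCoeff b = 0) (ha' : constantCoeff a' = 0) (hb' : constantCoeff b' = 0)
    (h1 : (X : R⟦X⟧) ^ N ∣ a - a') (h2 : (X : R⟦X⟧) ^ N ∣ b - b') :
    (X : R⟦X⟧) ^ N ∣ fa F a b - fa F a' b' :=
  mv_congr F.toPowerSeries ha hb ha' hb' h1 h2

private theorem ps_congr (g : R⟦X⟧) {N : ℕ} {a b : R⟦X⟧} (ha : constantCoeff a = 0)
    (hb : constantCoeff b = 0) (h : (X : R⟦X⟧) ^ N ∣ a - b) :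
    (X : R⟦X⟧) ^ N ∣ PowerSeries.subst a g - PowerSeries.subst b g := by
  rw [PowerSeries.X_pow_dvd_iff]
  intro m hm
  rw [map_sub, sub_eq_zero, PowerSeries.coeff_subst' (hs_zero ha),
    PowerSeries.coeff_subst' (hs_zero hb)]
  refine finsum_congr fun d => ?_
  congr 1
  exact coeff_congr (pow_congr h d) hm

/-- a series `X + ..` preserves leading terms of differences -/
theorem lead (g : R⟦X⟧) (h0 : constantCoeff g = 0) (h1 : coeff 1 g = 1) {N : ℕ} {a b : R⟦X⟧}
    (ha : constantCoeff a = 0) (hb : constantCoeff b = 0) (h : (X : R⟦X⟧) ^ N ∣ a - b) :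
    (X : R⟦X⟧) ^ (N + 1) ∣ PowerSeries.subst a g - PowerSeries.subst b g - (a - b) := by
  have h2 : (X : R⟦X⟧) ^ 2 ∣ g - X := by
    rw [PowerSeries.X_pow_dvd_iff]
    intro m hm
    rw [map_sub, PowerSeries.coeff_X]
    interval_cases m
    · rw [PowerSeries.coeff_zero_eq_constantCoeff_apply, h0]
      simp
    · rw [h1]
      simp
  obtain ⟨f, hf⟩ := h2
  have hg : g = X + X ^ 2 * f := by rw [← hf]; ring
  have hs : ∀ c : R⟦X⟧, constantCoeff c = 0 →
      PowerSeries.subst c g = c + c ^ 2 * PowerSeries.subst c f := by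
    intro c hc
    rw [hg, PowerSeries.subst_add (hs_zero hc), PowerSeries.subst_mul (hs_zero hc),
      PowerSeries.subst_pow (hs_zero hc), PowerSeries.subst_X (hs_zero hc)]
  have e : PowerSeries.subst a g - PowerSeries.subst b g - (a - b) =
      (a - b) * ((a + b) * PowerSeries.subst a f) +
        b ^ 2 * (PowerSeries.subst a f - PowerSeries.subst b f) := by
    rw [hs a ha, hs b hb]
    ring
  rw [e, pow_succ]
  have hXa : (X : R⟦X⟧) ∣ a := PowerSeries.X_dvd_iff.2 ha
  have hXb : (X : R⟦X⟧) ∣ b := PowerSeries.X_dvd_iff.2 hb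
  refine dvd_add (mul_dvd_mul h (Dvd.dvd.mul_right (dvd_add hXa hXb) _)) ?_
  rw [mul_comm ((X : R⟦X⟧) ^ N)]
  exact mul_dvd_mul (hXb.trans (dvd_pow_self b two_ne_zero)) (ps_congr f ha hb h)

private theorem cc_fa (F : FormalGroup R) {a b : R⟦X⟧} (ha : constantCoeff a = 0)
    (hb : constantCoeff b = 0) : constantCoeff (fa F a b) = 0 := cc_F_subst F ha hb

/-- homomorphisms to the additive group: `f(F(a, b)) = f(a) + f(b)` -/
private theorem hom_Ga {F : FormalGroup R} {f : R⟦X⟧} (hf : IsHom F FormalGroup.𝔾ₐ f)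
    {σ : Type*} {a b : MvPowerSeries σ R} (ha : PowerSeries.HasSubst a)
    (hb : PowerSeries.HasSubst b) :
    PowerSeries.subst (MvPowerSeries.subst ![a, b] F.toPowerSeries) f =
      PowerSeries.subst a f + PowerSeries.subst b f := by
  rw [hf.eval ha hb]
  have hs := hasSubst_pair (hs_subst ha hf.1) (hs_subst hb hf.1)
  change MvPowerSeries.subst _ (MvPowerSeries.X 0 + MvPowerSeries.X 1) = _
  rw [MvPowerSeries.subst_add hs, MvPowerSeries.subst_X hs, MvPowerSeries.subst_X hs]
  rfl

/-- homomorphisms to the additive group over a field of characteristic zero are determined by the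
linear coefficient (`l'(X) * F_2(X, 0) = l'(0)`) -/
theorem hom_Ga_unique {K : Type*} [Field K] [CharZero K] {G : FormalGroup K} {l l' : K⟦X⟧}
    (hl : IsHom G FormalGroup.𝔾ₐ l) (hl' : IsHom G FormalGroup.𝔾ₐ l') (h : coeff 1 l = coeff 1 l') :
    l = l' := by
  have hX : constantCoeff (X : K⟦X⟧) = 0 := PowerSeries.constantCoeff_X
  have hc := cc_fa G hX hX
  have key : ∀ m, PowerSeries.coeff m (l - l') = 0 := by
    intro m
    induction m using Nat.strong_induction_on with
    | _ m ih =>
      rcases Nat.lt_or_ge m 2 with hm | hm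
      · interval_cases m
        · rw [PowerSeries.coeff_zero_eq_constantCoeff_apply, map_sub, hl.1, hl'.1, sub_zero]
        · rw [map_sub, h, sub_self]
      · have hd : (X : K⟦X⟧) ^ m ∣ l - l' := PowerSeries.X_pow_dvd_iff.2 ih
        obtain ⟨u, hu⟩ := hd
        obtain ⟨t, ht⟩ := fa_sub_dvd G hX hX
        have hs : fa G X X = X * (2 + X * t) := by
          have : fa G X X = X + X + X * X * t := by rw [← ht]; ring
          rw [this]
          ring
        have e1 : PowerSeries.subst (fa G X X) (l - l') = 2 * (l - l') := by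
          rw [PowerSeries.subst_sub (hs_zero hc)]
          have a1 := hom_Ga hl (a := (X : K⟦X⟧)) (b := (X : K⟦X⟧)) PowerSeries.HasSubst.X'
            PowerSeries.HasSubst.X'
          have a2 := hom_Ga hl' (a := (X : K⟦X⟧)) (b := (X : K⟦X⟧)) PowerSeries.HasSubst.X'
            PowerSeries.HasSubst.X'
          have b1 : PowerSeries.subst (X : K⟦X⟧) l = l := PowerSeries.X_subst l
          have b2 : PowerSeries.subst (X : K⟦X⟧) l' = l' := PowerSeries.X_subst l'
          rw [b1] at a1
          rw [b2] at a2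
          change PowerSeries.subst (fa G X X) l = l + l at a1
          change PowerSeries.subst (fa G X X) l' = l' + l' at a2
          rw [a1, a2]
          ring
        have e2 : PowerSeries.subst (fa G X X) (l - l') =
            X ^ m * ((2 + X * t) ^ m * PowerSeries.subst (fa G X X) u) := by
          rw [hu, PowerSeries.subst_mul (hs_zero hc), PowerSeries.subst_pow (hs_zero hc),
            PowerSeries.subst_X (hs_zero hc)]
          have e9 : fa G X X ^ m = X ^ m * (2 + X * t) ^ m := by rw [hs, mul_pow]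
          rw [e9]
          ring
        rw [e1, hu] at e2
        have e3 : (2 : K⟦X⟧) * u = (2 + X * t) ^ m * PowerSeries.subst (fa G X X) u := by
          have hne : (X : K⟦X⟧) ^ m ≠ 0 := pow_ne_zero _ PowerSeries.X_ne_zero
          apply mul_left_cancel₀ hne
          rw [← e2]
          ring
        have e4 := congrArg (constantCoeff (R := K)) e3
        have e5 : constantCoeff (PowerSeries.subst (fa G X X) u : K⟦X⟧) = constantCoeff u := by
          have hu2 : u = C (constantCoeff u) + (u - C (constantCoeff u)) := by ring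
          have h0 : constantCoeff (u - C (constantCoeff u)) = 0 := by
            rw [map_sub, PowerSeries.constantCoeff_C, sub_self]
          conv_lhs => rw [hu2]
          rw [PowerSeries.subst_add (hs_zero hc), map_add, cc_subst hc h0, add_zero,
            PowerSeries.subst_C]
          exact PowerSeries.constantCoeff_C _
        rw [map_mul, map_mul, map_pow, map_add, map_mul, hX, zero_mul, add_zero, e5] at e4
        have e6 : constantCoeff (2 : K⟦X⟧) = 2 := map_ofNat _ 2
        rw [e6] at e4
        have e7 : constantCoeff u = 0 := by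
          by_contra hne
          have e8 : (2 : K) = 2 ^ m := mul_right_cancel₀ hne e4
          have e9 : (2 : ℕ) = 2 ^ m := by exact_mod_cast e8
          have : 2 ^ 1 < 2 ^ m := Nat.pow_lt_pow_right (by norm_num) (by omega)
          omega
        rw [hu, PowerSeries.coeff_X_pow_mul', if_pos le_rfl, Nat.sub_self,
          PowerSeries.coeff_zero_eq_constantCoeff_apply, e7]
  have h0 : l - l' = 0 := by
    ext m
    rw [key m, map_zero]
  exact sub_eq_zero.1 h0

/-- two formal group laws over a field with the same logarithm are equal -/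
theorem group_unique {K : Type*} [Field K] {G G' : FormalGroup K} {l : K⟦X⟧}
    (hl : IsHom G FormalGroup.𝔾ₐ l) (hl' : IsHom G' FormalGroup.𝔾ₐ l) (h : coeff 1 l ≠ 0) :
    G = G' := by
  obtain ⟨f, hf, hu, h1, h2⟩ := hl.inv' (isUnit_iff_ne_zero.2 h)
  obtain ⟨f', hf', hu', h1', h2'⟩ := hl'.inv' (isUnit_iff_ne_zero.2 h)
  have e : f = f' := by
    have a1 : PowerSeries.subst (PowerSeries.subst f' l : K⟦X⟧) f = f := by
      rw [h2']
      exact PowerSeries.X_subst f
    rw [← subst_subst' hl.1 hf'.1, h1, PowerSeries.subst_X (hs_zero hf'.1)] at a1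
    exact a1.symm
  subst e
  exact hf.target_unique hf' hu

end Pool.Agent.H40.CH3
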