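import Pool.Agent.H40.CH3.An2
import Pool.Agent.H40.CH3.Fg0b
import Pool.Agent.H84.CA.Ac

/-!
# HX2: the functional equation lemma

`G` over the fraction field `K` of `A` with logarithm `l`.  Coefficient `n` of `G`, `|n| = d`, by
strong induction on `d`: `g0` over `A` = truncation of `G` to degrees `< d`.
`l(G) = l(X) + l(Y) =: h`, `coeff n h = coeff n G + ∑_(k≥1) l_k coeff n (g0 ^ (p^k))`,
`l_k = p⁻¹ ∑_(i=1..k) v_i σ^i(l_(k-i))` (row recursion), `g0 ^ (p^i) ≡ Φ_i g0 mod p`,
`Φ_i = expand (p^i) ∘ map σ^i`, hence `σ^i(l_j) ((g0 ^ (p^i)) ^ (p^j) - (Φ_i g0) ^ (p^j)) ∈ p A`, and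
`∑_j σ^i(l_j) coeff n ((Φ_i g0) ^ (p^j)) = σ^i (coeff (n / p^i) h)`.
-/

open PowerSeries

namespace Pool.Agent.H40.CH3

open Pool.Agent.H13.CA Pool.Agent.H84.CA

section Series

variable {τ : Type*} {K : Type*} [Field K]

private theorem oI_mono {a b : ℕ} (h : a ≤ b) {f : MvPowerSeries τ K} (hf : f ∈ oI τ K b) :
    f ∈ oI τ K a := fun x hx => hf x (by omega)

private theorem oI_pow {a : ℕ} {f : MvPowerSeries τ K} (hf : f ∈ oI τ K a) (r : ℕ) :
    f ^ r ∈ oI τ K (a * r) := by
  induction r with
  | zero => intro x hx; omega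
  | succ r ih => rw [pow_succ, Nat.mul_succ]; exact oI_mul ih hf

private theorem oI_one_iff {f : MvPowerSeries τ K} :
    f ∈ oI τ K 1 ↔ MvPowerSeries.constantCoeff f = 0 := by
  constructor
  · intro h
    rw [← MvPowerSeries.coeff_zero_eq_constantCoeff_apply]
    exact h 0 (by simp)
  · intro h x hx
    have : x = 0 := (Finsupp.degree_eq_zero_iff x).1 (by omega)
    rw [this, MvPowerSeries.coeff_zero_eq_constantCoeff_apply, h]

/-- powers of two series which agree in degrees `< d` -/
private theorem oI_pow_sub {d : ℕ} {f g : MvPowerSeries τ K} (hf : f ∈ oI τ K 1)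
    (hg : g ∈ oI τ K 1) (h : f - g ∈ oI τ K d) {r : ℕ} (hr : 2 ≤ r) :
    f ^ r - g ^ r ∈ oI τ K (d + 1) := by
  rw [← Commute.geom_sum₂_mul (Commute.all f g) r, add_comm]
  refine oI_mul (Ideal.sum_mem _ fun i hi => ?_) h
  have hi' := Finset.mem_range.mp hi
  have h1 := oI_mul (oI_pow hf i) (oI_pow hg (r - 1 - i))
  exact oI_mono (by omega) h1

variable (p : ℕ) (l : K⟦X⟧)

private theorem coeff_log (hp : 1 < p) (hl' : ∀ j, (∀ k, j ≠ p ^ k) → coeff j l = 0)
    {u : MvPowerSeries τ K} (hu : u ∈ oI τ K 1) {n : τ →₀ ℕ} {N : ℕ} (hN : n.degree < N) :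
    MvPowerSeries.coeff n (PowerSeries.subst u l) =
      ∑ k ∈ Finset.range N, coeff (p ^ k) l * MvPowerSeries.coeff n (u ^ p ^ k) := by
  have hs : PowerSeries.HasSubst u := by
    rw [PowerSeries.HasSubst, oI_one_iff.mp hu]
    exact IsNilpotent.zero
  rw [PowerSeries.coeff_subst hs]
  have hz : ∀ d : ℕ, n.degree < d → MvPowerSeries.coeff n (u ^ d) = 0 := by
    intro d hd
    exact oI_pow hu d n (by omega)
  rw [finsum_eq_sum_of_support_subset (s := (Finset.range N).image fun k => p ^ k)]
  · rw [Finset.sum_image (fun a _ b _ hab => Nat.pow_right_injective hp hab)]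
    simp only [smul_eq_mul]
  · intro d hd
    rw [Function.mem_support] at hd
    by_cases h1 : ∃ k, d = p ^ k
    · obtain ⟨k, rfl⟩ := h1
      rw [Finset.coe_image, Set.mem_image]
      refine ⟨k, ?_, rfl⟩
      rw [Finset.mem_coe, Finset.mem_range]
      by_contra hk
      apply hd
      have : k < p ^ k := Nat.lt_pow_self hp
      rw [hz _ (by omega), smul_zero]
    · exfalso
      apply hd
      push_neg at h1
      rw [hl' d h1, zero_smul]

/-- triangular summation -/
private theorem tri {M : ℕ} (f : ℕ → ℕ → K) (hf : ∀ i j, M ≤ i + j → f i j = 0) :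
    ∑ k ∈ Finset.range M, ∑ i ∈ Finset.range (k + 1), f i (k - i) =
      ∑ i ∈ Finset.range M, ∑ j ∈ Finset.range M, f i j := by
  have h1 : ∀ i ∈ Finset.range M, ∑ j ∈ Finset.range M, f i j =
      ∑ j ∈ Finset.range (M - i), f i j := by
    intro i _
    refine (Finset.sum_subset (Finset.range_mono (Nat.sub_le _ _)) ?_).symm
    intro j _ hj
    rw [Finset.mem_range, not_lt] at hj
    exact hf i j (by omega)
  rw [Finset.sum_congr rfl h1, Finset.range_eq_Ico]
  rw [Finset.sum_sigma', Finset.sum_sigma']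
  refine Finset.sum_bij' (fun x _ => ⟨x.2, x.1 - x.2⟩) (fun x _ => ⟨x.1 + x.2, x.1⟩) ?_ ?_ ?_ ?_ ?_
  · rintro ⟨k, i⟩ h
    simp only [Finset.mem_sigma, Finset.mem_Ico, Finset.mem_range] at h ⊢
    omega
  · rintro ⟨i, j⟩ h
    simp only [Finset.mem_sigma, Finset.mem_Ico, Finset.mem_range] at h ⊢
    omega
  · rintro ⟨k, i⟩ h
    simp only [Finset.mem_sigma, Finset.mem_Ico, Finset.mem_range] at h
    simp only [Sigma.mk.injEq, heq_eq_eq, and_true]
    omega
  · rintro ⟨i, j⟩ h
    simp only [Sigma.mk.injEq, heq_eq_eq, true_and]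
    omega
  · rintro ⟨k, i⟩ h
    rfl

end Series

section Frob

variable {τ : Type*} {p : ℕ} (hp : p ≠ 0)

/-- `Φ_i = expand (p ^ i) ∘ map (σ ^ i)` -/
private noncomputable def Fr {R : Type*} [CommRing R] (σ : R →+* R) (i : ℕ) :
    MvPowerSeries τ R →+* MvPowerSeries τ R :=
  (MvPowerSeries.expand (p ^ i) (pow_ne_zero i hp) : MvPowerSeries τ R →ₐ[R] _).toRingHom.comp
    (MvPowerSeries.map (σ ^ i))

private theorem Fr_apply {R : Type*} [CommRing R] (σ : R →+* R) (i : ℕ) (u : MvPowerSeries τ R) :
    Fr hp σ i u = MvPowerSeries.expand (p ^ i) (pow_ne_zero i hp) (MvPowerSeries.map (σ ^ i) u) :=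
  rfl

private theorem Fr_map {A K : Type*} [CommRing A] [CommRing K] (g : A →+* K) (σ : A →+* A)
    (s : K →+* K) (hs : ∀ a, s (g a) = g (σ a)) (i : ℕ) (u : MvPowerSeries τ A) :
    MvPowerSeries.map g (Fr hp σ i u) = Fr hp s i (MvPowerSeries.map g u) := by
  have h1 : ∀ a, (s ^ i) (g a) = g ((σ ^ i) a) := by
    induction i with
    | zero => intro a; rfl
    | succ i ih =>
      intro a
      rw [pow_succ, pow_succ]
      show (s ^ i) (s (g a)) = g ((σ ^ i) (σ a))
      rw [hs, ih]
  rw [Fr_apply, Fr_apply, MvPowerSeries.map_expand]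
  congr 1
  ext n
  rw [MvPowerSeries.coeff_map, MvPowerSeries.coeff_map, MvPowerSeries.coeff_map,
    MvPowerSeries.coeff_map, h1]

/-- coefficients of `Φ_(i+1) w` depend only on the coefficients of `w` of smaller degree -/
private theorem Fr_coeff {K : Type*} [Field K] (hp1 : 1 < p) (s : K →+* K) (i : ℕ)
    {w w' : MvPowerSeries τ K} {d : ℕ} (h : w - w' ∈ oI τ K d) :
    Fr hp s (i + 1) w - Fr hp s (i + 1) w' ∈ oI τ K (d + 1) ∨ d = 0 := by
  by_cases hd : d = 0
  · exact Or.inr hd
  left
  rw [← map_sub]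
  intro n hn
  rw [Fr_apply]
  by_cases hdv : ∀ j, p ^ (i + 1) ∣ n j
  · choose c hc using hdv
    obtain ⟨n', rfl⟩ : ∃ n' : τ →₀ ℕ, n = (p ^ (i + 1)) • n' := by
      refine ⟨n.mapRange (fun x => x / p ^ (i + 1)) (Nat.zero_div _), ?_⟩
      ext j
      rw [Finsupp.smul_apply, Finsupp.mapRange_apply, smul_eq_mul]
      exact (Nat.mul_div_cancel' ⟨c j, hc j⟩).symm
    rw [MvPowerSeries.coeff_expand_smul, MvPowerSeries.coeff_map, h n' ?_, map_zero]
    rw [map_nsmul, smul_eq_mul] at hn
    have h2 : 2 ≤ p ^ (i + 1) := by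
      calc 2 ≤ p := hp1
        _ = p ^ 1 := (pow_one p).symm
        _ ≤ p ^ (i + 1) := Nat.pow_le_pow_right (by omega) (by omega)
    by_cases h3 : n'.degree = 0
    · omega
    · have h4 : 2 * n'.degree ≤ p ^ (i + 1) * n'.degree := Nat.mul_le_mul_right _ h2
      omega
  · push_neg at hdv
    obtain ⟨j, hj⟩ := hdv
    exact MvPowerSeries.coeff_expand_of_not_dvd _ _ _ hj

private theorem Fr_oI {K : Type*} [Field K] (s : K →+* K) (i : ℕ)
    {w : MvPowerSeries τ K} (h : w ∈ oI τ K 1) : Fr hp s i w ∈ oI τ K (p ^ i) := by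
  intro n hn
  rw [Fr_apply]
  by_cases hdv : ∀ j, p ^ i ∣ n j
  · choose c hc using hdv
    obtain ⟨n', rfl⟩ : ∃ n' : τ →₀ ℕ, n = (p ^ i) • n' := by
      refine ⟨n.mapRange (fun x => x / p ^ i) (Nat.zero_div _), ?_⟩
      ext j
      rw [Finsupp.smul_apply, Finsupp.mapRange_apply, smul_eq_mul]
      exact (Nat.mul_div_cancel' ⟨c j, hc j⟩).symm
    rw [MvPowerSeries.coeff_expand_smul, MvPowerSeries.coeff_map, h n' ?_, map_zero]
    rw [map_nsmul, smul_eq_mul] at hn
    by_contra h3
    have : p ^ i * 1 ≤ p ^ i * n'.degree := Nat.mul_le_mul_left _ (by omega)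
    omega
  · push_neg at hdv
    obtain ⟨j, hj⟩ := hdv
    exact MvPowerSeries.coeff_expand_of_not_dvd _ _ _ hj

/-- Frobenius congruence -/
private theorem Fr_cong {A : Type*} [CommRing A] (hpp : p.Prime) (σ : A →+* A)
    (hσp : ∀ a, (p : A) ∣ σ a - a ^ p) (i : ℕ) (u : MvPowerSeries τ A) :
    (p : MvPowerSeries τ A) ∣ u ^ p ^ i - Fr hp σ i u := by
  have hcast : (p : MvPowerSeries τ A) = MvPowerSeries.C (p : A) := (map_natCast _ _).symm
  have hσi : ∀ a, (p : A) ∣ (σ ^ i) a - a ^ p ^ i := by
    induction i with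
    | zero => intro a; rw [pow_zero, pow_zero, pow_one]; exact ⟨0, by simp⟩
    | succ i ih =>
      intro a
      have h1 : (p : A) ∣ (σ ^ i) (σ a) - (σ ^ i) (a ^ p) := by
        rw [← map_sub]
        obtain ⟨c, hc⟩ := hσp a
        exact ⟨(σ ^ i) c, by rw [hc, map_mul, map_natCast]⟩
      have h2 := ih (a ^ p)
      rw [← pow_mul, ← pow_succ'] at h2
      rw [pow_succ]
      show (p : A) ∣ (σ ^ i) (σ a) - _
      have h3 := dvd_add h1 h2
      rwa [sub_add_sub_cancel] at h3
  by_cases hu : (p : A) ∈ nonunits A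
  · haveI : Fact p.Prime := ⟨hpp⟩
    haveI := CharP.quotient A p hu
    haveI : ExpChar (A ⧸ Ideal.span {(p : A)}) p := ExpChar.prime hpp
    set q := Ideal.Quotient.mk (Ideal.span {(p : A)}) with hq
    have h1 : MvPowerSeries.map q (u ^ p ^ i - Fr hp σ i u) = 0 := by
      rw [map_sub, sub_eq_zero, map_pow, ← MvPowerSeries.map_iterateFrobenius_expand p hp,
        Fr_apply, MvPowerSeries.map_expand, MvPowerSeries.map_expand]
      congr 1
      ext n
      rw [MvPowerSeries.coeff_map, MvPowerSeries.coeff_map, MvPowerSeries.coeff_map,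
        MvPowerSeries.coeff_map, iterateFrobenius_def, ← map_pow, ← sub_eq_zero, ← map_sub,
        hq, Ideal.Quotient.eq_zero_iff_mem, Ideal.mem_span_singleton, ← dvd_neg, neg_sub]
      exact hσi _
    have h2 : ∀ n, ∃ c, MvPowerSeries.coeff n (u ^ p ^ i - Fr hp σ i u) = (p : A) * c := by
      intro n
      have h3 := congrArg (MvPowerSeries.coeff n) h1
      rw [MvPowerSeries.coeff_map, map_zero, hq, Ideal.Quotient.eq_zero_iff_mem,
        Ideal.mem_span_singleton] at h3
      exact h3
    choose c hc using h2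
    refine ⟨fun n => c n, ?_⟩
    ext n
    rw [hc n, hcast, MvPowerSeries.coeff_C_mul]
    rfl
  · rw [mem_nonunits_iff, not_not] at hu
    rw [hcast]
    exact (hu.map (MvPowerSeries.C (σ := τ) (R := A))).dvd

end Frob

theorem fel {A K : Type*} [CommRing A] [IsDomain A] [Field K] [Algebra A K] [IsFractionRing A K]
    {p : ℕ} (hp : p.Prime) (hp0 : (p : A) ≠ 0) (σ : A →+* A) (hσ : Function.Injective σ)
    (hσp : ∀ a, (p : A) ∣ σ a - a ^ p) (v : ℕ → A) (hv : ∀ i, σ (v i) = v i ^ p) (l : K⟦X⟧)
    (hl : ∀ k, (p : K) ^ k * coeff (p ^ k) l = algebraMap A K (hz p v k))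
    (hl' : ∀ j, (∀ k, j ≠ p ^ k) → coeff j l = 0) (G : FormalGroup K)
    (hG : IsHom G FormalGroup.𝔾ₐ l) (n : Fin 2 →₀ ℕ) :
    ∃ a : A, algebraMap A K a = MvPowerSeries.coeff n G.toPowerSeries := by
  classical
  have hinj : Function.Injective (algebraMap A K) := IsFractionRing.injective A K
  have hpK : (p : K) ≠ 0 := by
    intro h
    apply hp0
    apply hinj
    rw [map_natCast, h, map_zero]
  have hpn : p ≠ 0 := hp.ne_zero
  have hp1 : 1 < p := hp.one_lt
  -- the extension of `σ`
  set s : K →+* K := IsFractionRing.lift (A := A) (K := K)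
    (g := (algebraMap A K).comp σ) (hinj.comp hσ) with hsdef
  have hs : ∀ a, s (algebraMap A K a) = algebraMap A K (σ a) := fun a =>
    IsFractionRing.lift_algebraMap _ a
  have hsi : ∀ i a, (s ^ i) (algebraMap A K a) = algebraMap A K ((σ ^ i) a) := by
    intro i
    induction i with
    | zero => intro a; rfl
    | succ i ih =>
      intro a
      rw [pow_succ, pow_succ]
      show (s ^ i) (s _) = algebraMap A K ((σ ^ i) (σ a))
      rw [hs, ih]
  have hσv : ∀ i j, (σ ^ i) (v j) = v j ^ p ^ i := by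
    intro i
    induction i with
    | zero => intro j; rw [pow_zero, pow_zero, pow_one]; rfl
    | succ i ih =>
      intro j
      rw [pow_succ]
      show (σ ^ i) (σ (v j)) = _
      rw [hv, map_pow, ih, ← pow_mul, ← pow_succ]
  -- the coefficients of the logarithm
  set vL : ℕ → K := fun i => algebraMap A K (v i) with hvL
  have hlk : ∀ k, coeff (p ^ k) l = lg p vL k := by
    intro k
    rw [lg, ← hz_map (algebraMap A K) p v k, ← hl k, mul_div_cancel_left₀ _ (pow_ne_zero _ hpK)]
  have hls : ∀ i j, (s ^ i) (coeff (p ^ j) l) = lg p (fun a => vL a ^ p ^ i) j := by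
    intro i j
    rw [hlk, lg, lg, map_div₀, map_pow, map_natCast, ← hz_map (algebraMap A K) p v j, hsi,
      hz_map (σ ^ i), hz_map (algebraMap A K)]
    congr 2
    funext a
    rw [hσv, map_pow]
  have hint : ∀ i j, ∃ a : A, (s ^ i) (coeff (p ^ j) l) = algebraMap A K a / (p : K) ^ j := by
    intro i j
    refine ⟨(σ ^ i) (hz p v j), ?_⟩
    rw [← hsi, ← hl j, map_mul, map_pow, map_natCast, mul_div_cancel_left₀ _ (pow_ne_zero _ hpK)]
  -- row recursion
  have hrow : ∀ k, (p : K) * coeff (p ^ (k + 1)) l =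
      ∑ i ∈ Finset.range (k + 1), vL (i + 1) * (s ^ (i + 1)) (coeff (p ^ (k - i)) l) := by
    intro k
    have h1 := yc_row hpK vL (k := 0) (M := k + 1) (Nat.succ_pos k)
    rw [yc, if_neg (by omega)] at h1
    simp only [pow_zero, pow_one, Nat.sub_zero, zero_add] at h1
    rw [hlk, h1]
    refine Finset.sum_congr rfl fun i hi => ?_
    have hi' := Finset.mem_range.mp hi
    rw [yc, if_neg (by omega), hls]
    congr 2
    omega
  have hl0 : coeff 1 l = 1 := by
    have := hl 0
    rw [pow_zero, pow_zero, one_mul, hz_zero, map_one] at this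
    exact this
  -- the two truncated sums
  set Cs : ℕ → MvPowerSeries (Fin 2) K → (Fin 2 →₀ ℕ) → K := fun M u n =>
    ∑ i ∈ Finset.range M, ∑ j ∈ Finset.range M, vL (i + 1) * (s ^ (i + 1)) (coeff (p ^ j) l) *
      MvPowerSeries.coeff n ((u ^ p ^ (i + 1)) ^ p ^ j) with hCs
  set Bs : ℕ → MvPowerSeries (Fin 2) K → (Fin 2 →₀ ℕ) → K := fun M u n =>
    ∑ i ∈ Finset.range M, ∑ j ∈ Finset.range M, vL (i + 1) * (s ^ (i + 1)) (coeff (p ^ j) l) *
      MvPowerSeries.coeff n ((Fr hpn s (i + 1) u) ^ p ^ j) with hBs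
  have hC : ∀ (M : ℕ) (u : MvPowerSeries (Fin 2) K) (n : Fin 2 →₀ ℕ), u ∈ oI (Fin 2) K 1 →
      n.degree < M → (p : K) * (MvPowerSeries.coeff n (PowerSeries.subst u l) -
        MvPowerSeries.coeff n u) = Cs M u n := by
    intro M u n hu hM
    rw [coeff_log p l hp1 hl' hu (N := M + 1) (by omega), Finset.sum_range_succ']
    rw [pow_zero, pow_one, hl0, one_mul, add_sub_cancel_right, Finset.mul_sum]
    have h1 : ∀ k ∈ Finset.range M, (p : K) * (coeff (p ^ (k + 1)) l *
        MvPowerSeries.coeff n (u ^ p ^ (k + 1))) =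
        ∑ i ∈ Finset.range (k + 1), vL (i + 1) * (s ^ (i + 1)) (coeff (p ^ (k - i)) l) *
          MvPowerSeries.coeff n ((u ^ p ^ (i + 1)) ^ p ^ (k - i)) := by
      intro k _
      rw [← mul_assoc, hrow k, Finset.sum_mul]
      refine Finset.sum_congr rfl fun i hi => ?_
      have hi' := Finset.mem_range.mp hi
      rw [← pow_mul, ← pow_add]
      congr 4
      omega
    rw [Finset.sum_congr rfl h1]
    refine tri (fun i j => vL (i + 1) * (s ^ (i + 1)) (coeff (p ^ j) l) *
          MvPowerSeries.coeff n ((u ^ p ^ (i + 1)) ^ p ^ j)) ?_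
    intro i j hij
    have h2 : MvPowerSeries.coeff n ((u ^ p ^ (i + 1)) ^ p ^ j) = 0 := by
      rw [← pow_mul, ← pow_add]
      refine oI_pow hu _ n ?_
      have h3 : i + 1 + j < p ^ (i + 1 + j) := Nat.lt_pow_self hp1
      omega
    rw [h2, mul_zero]
  have hB : ∀ (M : ℕ) (u : MvPowerSeries (Fin 2) K) (n : Fin 2 →₀ ℕ), u ∈ oI (Fin 2) K 1 →
      n.degree < M → Bs M u n = ∑ i ∈ Finset.range M, vL (i + 1) *
        MvPowerSeries.coeff n (Fr hpn s (i + 1) (PowerSeries.subst u l)) := by
    intro M u n hu hM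
    simp only [hBs]
    refine Finset.sum_congr rfl fun i _ => ?_
    -- finite sum agreeing with `subst u l` in small degrees
    have h1 : PowerSeries.subst u l -
        (∑ j ∈ Finset.range M, MvPowerSeries.C (coeff (p ^ j) l) * u ^ p ^ j :
          MvPowerSeries (Fin 2) K) ∈ oI (Fin 2) K M := by
      intro x hx
      rw [map_sub, sub_eq_zero, coeff_log p l hp1 hl' hu hx, map_sum]
      refine Finset.sum_congr rfl fun j _ => ?_
      rw [MvPowerSeries.coeff_C_mul]
    have hM0 : M ≠ 0 := by omega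
    have h2 := (Fr_coeff hpn hp1 s i h1).resolve_right hM0
    have h3 := h2 n (by omega)
    rw [map_sub, sub_eq_zero] at h3
    rw [h3, map_sum, map_sum, Finset.mul_sum]
    refine Finset.sum_congr rfl fun j _ => ?_
    have h4 : Fr hpn s (i + 1) (MvPowerSeries.C (coeff (p ^ j) l) * u ^ p ^ j) =
        MvPowerSeries.C ((s ^ (i + 1)) (coeff (p ^ j) l)) * (Fr hpn s (i + 1) u) ^ p ^ j := by
      rw [map_mul, map_pow]
      congr 1
      rw [Fr_apply, MvPowerSeries.map_C, MvPowerSeries.expand_C]
    rw [h4, MvPowerSeries.coeff_C_mul, mul_assoc]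
  -- the group law
  set g : MvPowerSeries (Fin 2) K := G.toPowerSeries with hg
  have hg1 : g ∈ oI (Fin 2) K 1 := oI_one_iff.mpr G.zero_constantCoeff
  have hX : ∀ j : Fin 2, (MvPowerSeries.X j : MvPowerSeries (Fin 2) K) ∈ oI (Fin 2) K 1 :=
    fun j => X_mem_oI j
  have hlog : PowerSeries.subst g l = PowerSeries.subst (MvPowerSeries.X 0) l +
      PowerSeries.subst (MvPowerSeries.X 1) l := by
    rw [hg, hG.2]
    have hsX : ∀ j : Fin 2, PowerSeries.HasSubst (MvPowerSeries.X j : MvPowerSeries (Fin 2) K) :=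
      fun j => PowerSeries.HasSubst.X j
    have h0 : ∀ j : Fin 2, PowerSeries.HasSubst (PowerSeries.subst
        (MvPowerSeries.X j : MvPowerSeries (Fin 2) K) l) := fun j => hs_subst (hsX j) hG.1
    show MvPowerSeries.subst _ (MvPowerSeries.X 0 + MvPowerSeries.X 1) = _
    rw [MvPowerSeries.subst_add (hasSubst_pair (h0 0) (h0 1)),
      MvPowerSeries.subst_X (hasSubst_pair (h0 0) (h0 1)),
      MvPowerSeries.subst_X (hasSubst_pair (h0 0) (h0 1))]
    rfl
  -- strong induction on the degree
  obtain ⟨d, hd⟩ : ∃ d, n.degree = d := ⟨_, rfl⟩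
  induction d using Nat.strong_induction_on generalizing n with
  | _ d ih =>
    rcases Nat.lt_or_ge d 2 with hd2 | hd2
    · rcases Nat.lt_or_ge d 1 with hd1 | hd1
      · have hn0 : n = 0 := (Finsupp.degree_eq_zero_iff n).1 (by omega)
        refine ⟨0, ?_⟩
        rw [hn0, MvPowerSeries.coeff_zero_eq_constantCoeff_apply, map_zero]
        exact G.zero_constantCoeff.symm
      · have hn1 : n = Finsupp.single 0 1 ∨ n = Finsupp.single 1 1 := by
          have hdeg : n 0 + n 1 = 1 := by
            have h1 := hd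
            rw [Finsupp.degree_eq_sum, Fin.sum_univ_two] at h1
            omega
          rcases Nat.eq_zero_or_pos (n 0) with h0 | h0
          · right
            ext j
            fin_cases j
            · simpa using h0
            · simp
              omega
          · left
            ext j
            fin_cases j
            · simp
              omega
            · simp
              omega
        refine ⟨1, ?_⟩
        rw [map_one]
        rcases hn1 with h | h
        · rw [h]; exact G.lin_coeff_X.symm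
        · rw [h]; exact G.lin_coeff_Y.symm
    · -- the truncation
      have hex : ∀ x : Fin 2 →₀ ℕ, ∃ a : A, x.degree < d →
          algebraMap A K a = MvPowerSeries.coeff x g := by
        intro x
        by_cases hx : x.degree < d
        · obtain ⟨a, ha⟩ := ih x.degree hx x rfl
          exact ⟨a, fun _ => ha⟩
        · exact ⟨0, fun h => absurd h hx⟩
      choose a ha using hex
      set g0 : MvPowerSeries (Fin 2) A := fun x => if x.degree < d then a x else 0 with hg0
      set gh : MvPowerSeries (Fin 2) K := MvPowerSeries.map (algebraMap A K) g0 with hgh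
      have hghc : ∀ x, MvPowerSeries.coeff x gh =
          if x.degree < d then MvPowerSeries.coeff x g else 0 := by
        intro x
        rw [hgh, MvPowerSeries.coeff_map]
        show algebraMap A K (if x.degree < d then a x else 0) = _
        split_ifs with hx
        · exact ha x hx
        · exact map_zero _
      have hsub : g - gh ∈ oI (Fin 2) K d := by
        intro x hx
        rw [map_sub, hghc, if_pos hx, sub_self]
      have hgh1 : gh ∈ oI (Fin 2) K 1 := by
        have h1 := Ideal.sub_mem _ hg1 (oI_mono (by omega : 1 ≤ d) hsub)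
        rwa [sub_sub_cancel] at h1
      set M : ℕ := d + 1 with hM
      have hnM : n.degree < M := by omega
      -- higher powers agree
      have hsp : ∀ u : MvPowerSeries (Fin 2) K, u ∈ oI (Fin 2) K 1 →
          MvPowerSeries.coeff n (PowerSeries.subst u l) - MvPowerSeries.coeff n u =
            ∑ k ∈ Finset.range M, coeff (p ^ (k + 1)) l *
              MvPowerSeries.coeff n (u ^ p ^ (k + 1)) := by
        intro u hu
        rw [coeff_log p l hp1 hl' hu (N := M + 1) (by omega), Finset.sum_range_succ', pow_zero,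
          pow_one, hl0, one_mul, add_sub_cancel_right]
      have h1 : MvPowerSeries.coeff n (PowerSeries.subst g l) - MvPowerSeries.coeff n g =
          MvPowerSeries.coeff n (PowerSeries.subst gh l) - MvPowerSeries.coeff n gh := by
        rw [hsp g hg1, hsp gh hgh1]
        refine Finset.sum_congr rfl fun k _ => ?_
        congr 1
        have h2 := oI_pow_sub hg1 hgh1 hsub (r := p ^ (k + 1)) (by
          calc 2 ≤ p := hp1
            _ = p ^ 1 := (pow_one p).symm
            _ ≤ p ^ (k + 1) := Nat.pow_le_pow_right (by omega) (by omega))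
        have h3 := h2 n (by omega)
        rwa [map_sub, sub_eq_zero] at h3
      have hghn : MvPowerSeries.coeff n gh = 0 := by
        rw [hghc, if_neg (by omega)]
      have h2 : (p : K) * MvPowerSeries.coeff n g =
          (p : K) * MvPowerSeries.coeff n (PowerSeries.subst g l) - Cs M gh n := by
        rw [← hC M gh n hgh1 hnM, ← h1]
        ring
      -- `p * coeff n h = Bs gh`
      have hXn : ∀ j : Fin 2, MvPowerSeries.coeff n (MvPowerSeries.X j : MvPowerSeries (Fin 2) K) =
          0 := by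
        intro j
        rw [MvPowerSeries.coeff_X, if_neg]
        intro h
        rw [h, Finsupp.degree_single] at hd
        omega
      have hXB : ∀ j : Fin 2, (p : K) * MvPowerSeries.coeff n (PowerSeries.subst
          (MvPowerSeries.X j : MvPowerSeries (Fin 2) K) l) = Bs M (MvPowerSeries.X j) n := by
        intro j
        have h3 := hC M (MvPowerSeries.X j) n (hX j) hnM
        rw [hXn j, sub_zero] at h3
        rw [h3]
        simp only [hCs, hBs]
        refine Finset.sum_congr rfl fun i _ => Finset.sum_congr rfl fun j' _ => ?_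
        congr 3
        rw [Fr_apply, MvPowerSeries.map_X, MvPowerSeries.expand_X]
      have hBg : Bs M gh n = (p : K) * MvPowerSeries.coeff n (PowerSeries.subst g l) := by
        rw [hlog, map_add, mul_add, hXB 0, hXB 1, hB M gh n hgh1 hnM, hB M _ n (hX 0) hnM,
          hB M _ n (hX 1) hnM, ← Finset.sum_add_distrib]
        refine Finset.sum_congr rfl fun i _ => ?_
        rw [← mul_add, ← map_add, ← map_add, ← hlog]
        congr 1
        have h4 : PowerSeries.subst gh l - PowerSeries.subst g l ∈ oI (Fin 2) K d := by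
          intro x hx
          rw [map_sub, sub_eq_zero, coeff_log p l hp1 hl' hgh1 (N := d) hx,
            coeff_log p l hp1 hl' hg1 (N := d) hx]
          refine Finset.sum_congr rfl fun k _ => ?_
          congr 1
          have h5 : g ^ p ^ k - gh ^ p ^ k ∈ oI (Fin 2) K d :=
            Ideal.mem_of_dvd _ (sub_dvd_pow_sub_pow g gh (p ^ k)) hsub
          have h6 := h5 x hx
          rw [map_sub, sub_eq_zero] at h6
          exact h6.symm
        have h7 := (Fr_coeff hpn hp1 s i h4).resolve_right (by omega) n (by omega)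
        rwa [map_sub, sub_eq_zero] at h7
      -- the difference is in `p A`
      have hdiff : ∃ b : A, Bs M gh n - Cs M gh n = (p : K) * algebraMap A K b := by
        have hterm : ∀ i j, ∃ b : A, vL (i + 1) * (s ^ (i + 1)) (coeff (p ^ j) l) *
            MvPowerSeries.coeff n ((Fr hpn s (i + 1) gh) ^ p ^ j) -
            vL (i + 1) * (s ^ (i + 1)) (coeff (p ^ j) l) *
            MvPowerSeries.coeff n ((gh ^ p ^ (i + 1)) ^ p ^ j) = (p : K) * algebraMap A K b := by
          intro i j
          obtain ⟨c, hc⟩ := dvd_sub_pow_of_dvd_sub (Fr_cong hpn hp σ hσp (i + 1) g0) j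
          obtain ⟨b, hb⟩ := hint (i + 1) j
          have h8 : MvPowerSeries.coeff n ((gh ^ p ^ (i + 1)) ^ p ^ j) -
              MvPowerSeries.coeff n ((Fr hpn s (i + 1) gh) ^ p ^ j) =
              (p : K) ^ (j + 1) * algebraMap A K (MvPowerSeries.coeff n c) := by
            rw [hgh, ← Fr_map hpn (algebraMap A K) σ s hs, ← map_sub, ← map_pow, ← map_pow,
              ← map_pow, ← map_sub, hc, map_mul, map_pow, map_natCast]
            have h9 : ((p : MvPowerSeries (Fin 2) K)) ^ (j + 1) =
                MvPowerSeries.C ((p : K) ^ (j + 1)) := by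
              rw [map_pow, map_natCast]
            rw [h9, MvPowerSeries.coeff_C_mul, MvPowerSeries.coeff_map]
          refine ⟨-(v (i + 1) * b * MvPowerSeries.coeff n c), ?_⟩
          rw [← mul_sub, ← neg_sub (MvPowerSeries.coeff n ((gh ^ p ^ (i + 1)) ^ p ^ j)), h8, hb,
            map_neg, map_mul, map_mul, pow_succ]
          simp only [hvL]
          field_simp
        choose b hb using hterm
        refine ⟨∑ i ∈ Finset.range M, ∑ j ∈ Finset.range M, b i j, ?_⟩
        simp only [hCs, hBs]
        rw [← Finset.sum_sub_distrib, map_sum, Finset.mul_sum]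
        refine Finset.sum_congr rfl fun i _ => ?_
        rw [← Finset.sum_sub_distrib, map_sum, Finset.mul_sum]
        exact Finset.sum_congr rfl fun j _ => hb i j
      obtain ⟨b, hb⟩ := hdiff
      refine ⟨b, ?_⟩
      have h9 : (p : K) * MvPowerSeries.coeff n g = (p : K) * algebraMap A K b := by
        rw [h2, ← hBg, hb]
      exact (mul_left_cancel₀ hpK h9).symm

end Pool.Agent.H40.CH3
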