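import Pool.Agent.H40.CH3.Hx1
import Pool.Agent.H40.CH3.Hx2

/-!
# HX3: existence of the formal group law with Hazewinkel logarithm

`K = FractionRing A`, `A = W⟦v⟧`.  The logarithm `l = ∑ hz k / p^k X ^ (p^k)` over `K` has an inverse
series; `exists_conj` (Grp) for `𝔾ₐ` gives `G` over `K` with `IsHom G 𝔾ₐ l` (`IsHom.symm`).  By `fel` its
coefficients are in `A`; the axioms of a formal group law descend along the injective map `A → K`
(`exists_descend`).  Commutative: `IsComm` of `𝔾ₐ` transports.
-/

open PowerSeries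

namespace Pool.Agent.H40.CH3

open Pool.Agent.H13.CA

/-- a formal group law with coefficients in a subring -/
theorem exists_descend {A K : Type*} [CommRing A] [Field K] [Algebra A K]
    (hinj : Function.Injective (algebraMap A K)) (G : FormalGroup K)
    (h : ∀ n : Fin 2 →₀ ℕ, ∃ a : A, algebraMap A K a = MvPowerSeries.coeff n G.toPowerSeries) :
    ∃ F : FormalGroup A, F.map (algebraMap A K) = G ∧ (G.IsComm → F.IsComm) := by
  choose a ha using h
  set F0 : MvPowerSeries (Fin 2) A := fun n => a n with hF0
  have hmap : MvPowerSeries.map (algebraMap A K) F0 = G.toPowerSeries := by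
    ext n
    rw [MvPowerSeries.coeff_map]
    exact ha n
  have hminj : ∀ {τ : Type}, Function.Injective
      (MvPowerSeries.map (σ := τ) (algebraMap A K)) := by
    intro τ x y hxy
    ext n
    apply hinj
    rw [← MvPowerSeries.coeff_map, ← MvPowerSeries.coeff_map, hxy]
  have hc : MvPowerSeries.constantCoeff F0 = 0 := by
    apply hinj
    rw [map_zero, ← MvPowerSeries.constantCoeff_map, hmap, G.zero_constantCoeff]
  have hY : ∀ i : Fin 3, PowerSeries.HasSubst (MvPowerSeries.X i : MvPowerSeries (Fin 3) A) :=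
    fun i => PowerSeries.HasSubst.X i
  have hF : ∀ i j : Fin 3, PowerSeries.HasSubst (MvPowerSeries.subst
      ![(MvPowerSeries.X i : MvPowerSeries (Fin 3) A), MvPowerSeries.X j] F0) := by
    intro i j
    rw [PowerSeries.HasSubst, MvPowerSeries.constantCoeff_subst_eq_zero
      (hasSubst_pair (hY i) (hY j)) ?_ hc]
    · exact IsNilpotent.zero
    · intro s
      fin_cases s <;> simp
  let F : FormalGroup A :=
    { toPowerSeries := F0
      zero_constantCoeff := hc
      lin_coeff_X := by
        apply hinj
        rw [map_one, ← MvPowerSeries.coeff_map, hmap, G.lin_coeff_X]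
      lin_coeff_Y := by
        apply hinj
        rw [map_one, ← MvPowerSeries.coeff_map, hmap, G.lin_coeff_Y]
      assoc := by
        apply hminj
        rw [map_pair (hF 0 1) (hY 2), map_pair (hY 0) (hF 1 2), map_pair (hY 0) (hY 1),
          map_pair (hY 1) (hY 2), hmap, MvPowerSeries.map_X, MvPowerSeries.map_X,
          MvPowerSeries.map_X]
        exact G.assoc }
  refine ⟨F, FormalGroup.ext hmap, fun hG => ⟨?_⟩⟩
  apply hminj
  show MvPowerSeries.map (algebraMap A K) F0 = MvPowerSeries.map (algebraMap A K)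
    (MvPowerSeries.subst ![MvPowerSeries.X 1, MvPowerSeries.X 0] F0)
  rw [map_pair (PowerSeries.HasSubst.X 1) (PowerSeries.HasSubst.X 0), hmap, MvPowerSeries.map_X,
    MvPowerSeries.map_X]
  exact hG.comm

variable {W : Type*} [CommRing W] [IsDomain W] {k : Type*} [Field k] {π : W →+* k} {p m : ℕ}
  [Fact p.Prime]

theorem haz_exists (hW : IsWitt p (m + 1) π) :
    ∃ F : FormalGroup (MvPowerSeries (Fin m) W), IsHaz p m F := by
  classical
  have hpp : p.Prime := Fact.out
  have hp1 : 1 < p := hpp.one_lt
  have hdom : IsDomain (MvPowerSeries (Fin m) W) := NoZeroDivisors.to_isDomain _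
  set A := MvPowerSeries (Fin m) W with hA
  haveI : IsDomain A := hdom
  set K := FractionRing A with hK
  have hinj : Function.Injective (algebraMap A K) := IsFractionRing.injective A K
  have hp0 : (p : A) ≠ 0 := by
    intro h
    have h1 := congrArg (MvPowerSeries.constantCoeff (σ := Fin m) (R := W)) h
    rw [map_natCast, map_zero] at h1
    exact hW.ne h1
  have hpK : (p : K) ≠ 0 := by
    intro h
    apply hp0
    apply hinj
    rw [map_natCast, h, map_zero]
  -- the logarithm
  let l : K⟦X⟧ := PowerSeries.mk fun j =>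
    if h : ∃ i, j = p ^ i then algebraMap A K (hz p (vv W m) h.choose) / (p : K) ^ h.choose else 0
  have hl : ∀ i, coeff (p ^ i) l = algebraMap A K (hz p (vv W m) i) / (p : K) ^ i := by
    intro i
    rw [coeff_mk]
    have h : ∃ i', p ^ i = p ^ i' := ⟨i, rfl⟩
    rw [dif_pos h]
    have h2 : h.choose = i := (Nat.pow_right_injective hp1 h.choose_spec).symm
    rw [h2]
  have hl' : ∀ j, (∀ i, j ≠ p ^ i) → coeff j l = 0 := by
    intro j hj
    rw [coeff_mk, dif_neg]
    rintro ⟨i, hi⟩
    exact hj i hi
  have hl'' : ∀ i, (p : K) ^ i * coeff (p ^ i) l = algebraMap A K (hz p (vv W m) i) := by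
    intro i
    rw [hl, mul_div_cancel₀ _ (pow_ne_zero _ hpK)]
  have hlc : constantCoeff l = 0 := by
    rw [← coeff_zero_eq_constantCoeff_apply]
    exact hl' 0 (fun i => (pow_pos hpp.pos i).ne)
  have hl1 : coeff 1 l = 1 := by
    have := hl 0
    rw [pow_zero, pow_zero, div_one, hz_zero, map_one] at this
    exact this
  have hu : IsUnit (coeff 1 l) := by rw [hl1]; exact isUnit_one
  -- the inverse series
  have hr := PowerSeries.subst_substInvOfIsUnit_right l hlc hu
  have hli := PowerSeries.subst_substInvOfIsUnit_left l hlc hu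
  have hc := PowerSeries.constantCoeff_substInvOfIsUnit l hu
  have hu' : IsUnit (coeff 1 (PowerSeries.substInvOfIsUnit l hu)) := by
    rw [PowerSeries.coeff_one_substInvOfIsUnit]
    exact Units.isUnit _
  obtain ⟨G, hG, hGc⟩ := exists_conj (FormalGroup.𝔾ₐ : FormalGroup K) hc hu'
  have hG' : IsHom G FormalGroup.𝔾ₐ l := hG.symm hlc hr hli
  obtain ⟨σ, hσ, hσp, hσX⟩ := exists_sigma hW
  have hv : ∀ i, σ (vv W m i) = vv W m i ^ p := by
    intro i
    unfold vv
    split_ifs with h1 h2
    · exact hσX _
    · rw [map_one, one_pow]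
    · rw [map_zero, zero_pow hpp.ne_zero]
  obtain ⟨F, hF, hFc⟩ := exists_descend hinj G fun n =>
    fel hpp hp0 σ hσ hσp (vv W m) hv l hl'' hl' G hG' n
  refine ⟨F, hFc (hGc inferInstance), l, ?_, hl'', hl'⟩
  rw [hF]
  exact hG'

end Pool.Agent.H40.CH3
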