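import Pool.Agent.H40.CH3.Defs

/-!
# AL1: commutative algebra

`jac`: take `Q` maximal among the primes `⊇ P` not containing `p a` (noetherian).  In `S = R / Q`
every nonzero prime contains `x = p a`.  If the maximal ideal `m` of `S` is not contained in the union
of the (finitely many) minimal primes of `(x)`, take `b ∈ m` outside; a minimal prime of `(b)` has
height `≤ 1` (Krull: `Ideal.height_le_one_of_isPrincipal_of_mem_minimalPrimes`), contains `x`, so contains
a minimal prime of `(x)`, which is nonzero, so equal to it: contradiction.  So (prime avoidance) `m`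
is a minimal prime of `(x)`, of height one: every nonzero prime of `S` is `m`.

`endP`: `P` is stable under `∂^α / α!` since `α! ∂^[α] h ∈ P` and `α! ∉ P` (`p ∉ P`; integers prime to
`p` are units).  If `0 ≠ h ∈ P`, divide by a power of `p` (`p ∉ P`, separatedness) so that some
coefficient `c_α` is not divisible by `p`, a unit; `∂^[α] h` has constant term `c_α`, a unit in `P`.
(Or: choose `h ∈ P` and `α` with `c_α` a unit and `|α|` minimal; if `α ≠ 0`, ...)
-/

namespace Pool.Agent.H40.CH3

private theorem kr {S : Type*} [CommRing S] [IsDomain S] [IsNoetherianRing S] {b : S}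
    {q p' : Ideal S} (hq : q ∈ (Ideal.span {b}).minimalPrimes) (hp : p'.IsPrime) (h0 : p' ≠ ⊥)
    (hle : p' ≤ q) : p' = q := by
  have hq1 := Ideal.height_le_one_of_isPrincipal_of_mem_minimalPrimes (Ideal.span {b}) q hq
  have hqp : q.IsPrime := hq.1.1
  by_contra hne
  have hlt : p' < q := lt_of_le_of_ne hle hne
  have h1 : q.height ≤ (1 : ℕ) := by exact_mod_cast hq1
  have h2 := Ideal.height_le_iff.1 h1 p' hp hlt
  have h3 : p'.height = 0 := by
    have : p'.height < 1 := by exact_mod_cast h2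
    exact Order.lt_one_iff.1 this
  exact h0 (Ideal.height_eq_zero_iff_eq_bot.1 h3)

private theorem jac_dom {S : Type*} [CommRing S] [IsDomain S] [IsNoetherianRing S]
    [IsLocalRing S] (y : S) (hy : y ≠ 0) (h : ∀ q : Ideal S, q.IsPrime → q ≠ ⊥ → y ∈ q)
    (q : Ideal S) (hq : q.IsPrime) (hq0 : q ≠ ⊥) : q = IsLocalRing.maximalIdeal S := by
  have hqm : q ≤ IsLocalRing.maximalIdeal S := IsLocalRing.le_maximalIdeal hq.ne_top
  have hfin := (Ideal.span {y}).finite_minimalPrimes_of_isNoetherianRing S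
  have hmin : ∀ r : Ideal S, r.IsPrime → r ≠ ⊥ → ∃ p ∈ (Ideal.span {y}).minimalPrimes, p ≤ r := by
    intro r hr hr0
    have hle : Ideal.span {y} ≤ r := (Ideal.span_singleton_le_iff_mem _).2 (h r hr hr0)
    obtain ⟨p, hp, hpr⟩ := Ideal.exists_minimalPrimes_le hle
    exact ⟨p, hp, hpr⟩
  have hne : ∀ p ∈ (Ideal.span {y}).minimalPrimes, p ≠ ⊥ := by
    intro p hp h0
    have h1 : y ∈ p := hp.1.2 (Ideal.mem_span_singleton_self y)
    rw [h0] at h1
    exact hy h1
  by_cases hm : ∃ p ∈ (Ideal.span {y}).minimalPrimes, IsLocalRing.maximalIdeal S ≤ p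
  · obtain ⟨p, hp, hmp⟩ := hm
    exact le_antisymm hqm (hmp.trans (kr hp hq hq0 (hqm.trans hmp)).symm.le)
  · exfalso
    have hns : ¬ ((IsLocalRing.maximalIdeal S : Ideal S) : Set S) ⊆
        ⋃ i ∈ (↑hfin.toFinset : Set (Ideal S)), (i : Set S) := by
      intro hs
      have := (Ideal.subset_union_prime (f := fun i : Ideal S => i) ⊥ ⊥
        (fun i hi _ _ => ((Set.Finite.mem_toFinset hfin).1 hi).1.1)).1 hs
      obtain ⟨i, hi, hle⟩ := this
      exact hm ⟨i, (Set.Finite.mem_toFinset hfin).1 hi, hle⟩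
    obtain ⟨b, hbm, hb⟩ := Set.not_subset.1 hns
    have hb' : ∀ p ∈ (Ideal.span {y}).minimalPrimes, b ∉ p := by
      intro p hp hbp
      refine hb (Set.mem_biUnion (x := p) ?_ hbp)
      exact Finset.mem_coe.2 ((Set.Finite.mem_toFinset hfin).2 hp)
    have hble : Ideal.span {b} ≤ IsLocalRing.maximalIdeal S :=
      (Ideal.span_singleton_le_iff_mem _).2 hbm
    haveI : (IsLocalRing.maximalIdeal S).IsPrime := (IsLocalRing.maximalIdeal.isMaximal S).isPrime
    obtain ⟨r, hr, hrm⟩ := Ideal.exists_minimalPrimes_le hble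
    have hbr : b ∈ r := hr.1.2 (Ideal.mem_span_singleton_self b)
    obtain ⟨p₀, hp₀, -⟩ := hmin q hq hq0
    have hr0 : r ≠ ⊥ := by
      intro h0
      rw [h0] at hbr
      have hb0 : b = 0 := hbr
      exact hb' p₀ hp₀ (by rw [hb0]; exact p₀.zero_mem)
    obtain ⟨p, hp, hpr⟩ := hmin r hr.1.1 hr0
    have := kr hr hp.1.1 (hne p hp) hpr
    exact hb' p hp (by rw [this]; exact hbr)

theorem jac {R : Type*} [CommRing R] [IsNoetherianRing R] [IsLocalRing R] (P : Ideal R)
    (hP : P.IsPrime) (x a : R) (hx : x ∉ P) (ha : a ∉ P) :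
    ∃ Q : Ideal R, Q.IsPrime ∧ P ≤ Q ∧ x ∉ Q ∧ a ∉ Q ∧
      ∀ Q' : Ideal R, Q'.IsPrime → Q < Q' → Q' = IsLocalRing.maximalIdeal R := by
  have hxa : x * a ∉ P := fun h => (hP.mem_or_mem h).elim hx ha
  obtain ⟨Q, ⟨hQ, hPQ, hxQ⟩, hmax⟩ := set_has_maximal_iff_noetherian.2
    (inferInstance : IsNoetherian R R) {Q : Ideal R | Q.IsPrime ∧ P ≤ Q ∧ x * a ∉ Q}
    ⟨P, hP, le_rfl, hxa⟩
  refine ⟨Q, hQ, hPQ, fun h => hxQ (Ideal.mul_mem_right _ _ h),
    fun h => hxQ (Ideal.mul_mem_left _ _ h), ?_⟩
  intro Q' hQ' hlt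
  haveI := hQ
  haveI : Nontrivial (R ⧸ Q) := Ideal.Quotient.nontrivial_iff.2 hQ.ne_top
  haveI : IsLocalRing (R ⧸ Q) :=
    IsLocalRing.of_surjective' (Ideal.Quotient.mk Q) Ideal.Quotient.mk_surjective
  have key := jac_dom (S := R ⧸ Q) (Ideal.Quotient.mk Q (x * a))
    (fun h => hxQ (Ideal.Quotient.eq_zero_iff_mem.1 h)) (by
      intro q hq hq0
      by_contra hn
      have hlt : Q < q.comap (Ideal.Quotient.mk Q) := by
        refine lt_of_le_of_ne (fun z hz => ?_) ?_
        · rw [Ideal.mem_comap, Ideal.Quotient.eq_zero_iff_mem.2 hz]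
          exact q.zero_mem
        · intro he
          apply hq0
          rw [eq_bot_iff]
          intro z hz
          obtain ⟨w, rfl⟩ := Ideal.Quotient.mk_surjective z
          have hw : w ∈ Q := by
            rw [he]
            exact hz
          exact Ideal.Quotient.eq_zero_iff_mem.2 hw
      exact hmax (q.comap (Ideal.Quotient.mk Q)) ⟨hq.comap _, hPQ.trans hlt.le, hn⟩ hlt)
  have hQ2 : (Q'.map (Ideal.Quotient.mk Q)).IsPrime :=
    Ideal.map_isPrime_of_surjective Ideal.Quotient.mk_surjective (by rw [Ideal.mk_ker]; exact hlt.le)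
  have hne : Q'.map (Ideal.Quotient.mk Q) ≠ ⊥ := by
    intro h0
    refine absurd (fun z hz => ?_) (not_le_of_gt hlt)
    have : Ideal.Quotient.mk Q z ∈ Q'.map (Ideal.Quotient.mk Q) := Ideal.mem_map_of_mem _ hz
    rw [h0] at this
    exact Ideal.Quotient.eq_zero_iff_mem.1 this
  have h1 := key _ hQ2 hne
  refine le_antisymm (IsLocalRing.le_maximalIdeal hQ'.ne_top) ?_
  intro z hz
  have h2 : Ideal.Quotient.mk Q z ∈ IsLocalRing.maximalIdeal (R ⧸ Q) := by
    rw [IsLocalRing.mem_maximalIdeal, mem_nonunits_iff]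
    intro hu
    obtain ⟨w, hw⟩ := hu.exists_right_inv
    obtain ⟨w, rfl⟩ := Ideal.Quotient.mk_surjective w
    rw [← map_mul, ← map_one (Ideal.Quotient.mk Q), Ideal.Quotient.eq] at hw
    have hQm : Q ≤ IsLocalRing.maximalIdeal R := IsLocalRing.le_maximalIdeal hQ.ne_top
    have h3 : (1 : R) ∈ IsLocalRing.maximalIdeal R := by
      have h4 := (IsLocalRing.maximalIdeal R).sub_mem
        ((IsLocalRing.maximalIdeal R).mul_mem_right w hz) (hQm hw)
      rwa [sub_sub_cancel] at h4
    exact (IsLocalRing.maximalIdeal.isMaximal R).ne_top ((Ideal.eq_top_iff_one _).2 h3)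
  rw [← h1] at h2
  obtain ⟨w, hw, he⟩ := (Ideal.mem_map_iff_of_surjective _ Ideal.Quotient.mk_surjective).1 h2
  have h5 : w - z ∈ Q := Ideal.Quotient.eq.1 he
  have h6 := Q'.sub_mem hw (hlt.le h5)
  rwa [sub_sub_cancel] at h6

variable {W : Type*} [CommRing W] [IsDomain W] {k : Type*} [Field k] {π : W →+* k} {p m : ℕ}
  [Fact p.Prime]

/-- the divided derivative -/
private noncomputable def dd (i : Fin m) (j : ℕ) (f : MvPowerSeries (Fin m) W) :
    MvPowerSeries (Fin m) W :=
  fun β => MvPowerSeries.coeff (β + Finsupp.single i j) f * ((β i + j).choose j : W)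

omit [IsDomain W] in
private theorem coeff_dd (i : Fin m) (j : ℕ) (f : MvPowerSeries (Fin m) W) (β : Fin m →₀ ℕ) :
    MvPowerSeries.coeff β (dd i j f) =
      MvPowerSeries.coeff (β + Finsupp.single i j) f * ((β i + j).choose j : W) := rfl

omit [IsDomain W] in
private theorem coeff_iter (i : Fin m) (f : MvPowerSeries (Fin m) W) (j : ℕ) :
    ∀ β : Fin m →₀ ℕ, MvPowerSeries.coeff β ((MvPowerSeries.pderiv W i)^[j] f) =
      MvPowerSeries.coeff (β + Finsupp.single i j) f * ((j.factorial * (β i + j).choose j : ℕ) : W) := by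
  induction j with
  | zero =>
    intro β
    simp
  | succ j ih =>
    intro β
    have h2 : j.factorial * (β i + 1 + j).choose j * (β i + 1) =
        (j + 1).factorial * (β i + (j + 1)).choose (j + 1) := by
      rw [← Nat.ascFactorial_eq_factorial_mul_choose (β i) (j + 1),
        ← Nat.ascFactorial_eq_factorial_mul_choose (β i + 1) j, Nat.ascFactorial_succ,
        ← Nat.succ_ascFactorial, mul_comm]
    have h1 : (β + Finsupp.single i 1 : Fin m →₀ ℕ) i = β i + 1 := by simp
    rw [Function.iterate_succ_apply', MvPowerSeries.coeff_pderiv, ih, add_assoc,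
      ← Finsupp.single_add, add_comm 1 j, mul_assoc, h1, ← h2]
    congr 1
    push_cast
    rfl

omit [IsDomain W] in
private theorem iter_eq (i : Fin m) (f : MvPowerSeries (Fin m) W) (j : ℕ) :
    (MvPowerSeries.pderiv W i)^[j] f = (j.factorial : MvPowerSeries (Fin m) W) * dd i j f := by
  ext β
  rw [coeff_iter, ← map_natCast (MvPowerSeries.C (σ := Fin m) (R := W)),
    MvPowerSeries.coeff_C_mul, coeff_dd]
  push_cast
  ring

omit [Fact p.Prime] in
private theorem nat_unit (hp : p.Prime) (hW : IsWitt p (m + 1) π) {u : ℕ} (hu : ¬ p ∣ u) :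
    IsUnit (u : W) := by
  refine hW.unit _ fun h0 => ?_
  have hc : IsCoprime (u : ℤ) (p : ℤ) :=
    Nat.isCoprime_iff_coprime.2 ((Nat.Prime.coprime_iff_not_dvd hp).2 hu).symm
  obtain ⟨s, t, hst⟩ := hc
  have h1 : π (p : W) = 0 := (hW.ker _).2 (dvd_refl _)
  have h2 : (s : W) * (u : W) + (t : W) * (p : W) = 1 := by exact_mod_cast congrArg (Int.cast : ℤ → W) hst
  have h3 := congrArg π h2
  rw [map_add, map_mul, map_mul, h0, h1, mul_zero, mul_zero, add_zero, map_one] at h3
  exact zero_ne_one h3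

private theorem nat_notMem (hW : IsWitt p (m + 1) π) (P : Ideal (MvPowerSeries (Fin m) W))
    (hP : P.IsPrime) (hp : (p : MvPowerSeries (Fin m) W) ∉ P) {N : ℕ} (hN : N ≠ 0) :
    (N : MvPowerSeries (Fin m) W) ∉ P := by
  have hpp : p.Prime := Fact.out
  obtain ⟨e, u, hu, rfl⟩ := Nat.exists_eq_pow_mul_and_not_dvd hN p hpp.ne_one
  intro h
  rw [Nat.cast_mul, Nat.cast_pow] at h
  rcases hP.mem_or_mem h with h1 | h1
  · exact hp (hP.mem_of_pow_mem _ h1)
  · have h2 : IsUnit (u : MvPowerSeries (Fin m) W) := by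
      have h3 := (nat_unit hpp hW hu).map (MvPowerSeries.C (σ := Fin m) (R := W))
      rwa [map_natCast] at h3
    exact hP.ne_top (Ideal.eq_top_of_isUnit_mem _ h1 h2)

private theorem iter_mem (P : Ideal (MvPowerSeries (Fin m) W))
    (hd : ∀ x ∈ P, ∀ i, MvPowerSeries.pderiv W i x ∈ P) (i : Fin m)
    {x : MvPowerSeries (Fin m) W} (hx : x ∈ P) (j : ℕ) : (MvPowerSeries.pderiv W i)^[j] x ∈ P := by
  induction j with
  | zero => exact hx
  | succ j ih =>
    rw [Function.iterate_succ_apply']
    exact hd _ ih i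

private theorem no_unit (hW : IsWitt p (m + 1) π) (P : Ideal (MvPowerSeries (Fin m) W))
    (hP : P.IsPrime) (hp : (p : MvPowerSeries (Fin m) W) ∉ P)
    (hd : ∀ x ∈ P, ∀ i, MvPowerSeries.pderiv W i x ∈ P) (N : ℕ) :
    ∀ α : Fin m →₀ ℕ, α.support.card = N → ∀ h ∈ P, ¬ IsUnit (MvPowerSeries.coeff α h) := by
  induction N with
  | zero =>
    intro α hα h hh hu
    have hα0 : α = 0 := Finsupp.support_eq_empty.1 (Finset.card_eq_zero.1 hα)
    subst hα0
    rw [MvPowerSeries.coeff_zero_eq_constantCoeff_apply] at hu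
    exact hP.ne_top (Ideal.eq_top_of_isUnit_mem _ hh
      (MvPowerSeries.isUnit_iff_constantCoeff.2 hu))
  | succ N ih =>
    intro α hα h hh hu
    have hne : α.support.Nonempty := by
      rw [← Finset.card_pos]
      omega
    obtain ⟨i, hi⟩ := hne
    have h1 : ((α i).factorial : MvPowerSeries (Fin m) W) * dd i (α i) h ∈ P := by
      rw [← iter_eq]
      exact iter_mem P hd i hh _
    have h2 : dd i (α i) h ∈ P :=
      (hP.mem_or_mem h1).resolve_left (nat_notMem hW P hP hp (Nat.factorial_ne_zero _))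
    refine ih (α.erase i) ?_ _ h2 ?_
    · rw [Finsupp.support_erase, Finset.card_erase_of_mem hi, hα]
      rfl
    · rw [coeff_dd, Finsupp.erase_add_single, Finsupp.erase_same, zero_add, Nat.choose_self,
        Nat.cast_one, mul_one]
      exact hu

theorem endP (hW : IsWitt p (m + 1) π) (P : Ideal (MvPowerSeries (Fin m) W)) (hP : P.IsPrime)
    (hp : (p : MvPowerSeries (Fin m) W) ∉ P)
    (hd : ∀ x ∈ P, ∀ i, MvPowerSeries.pderiv W i x ∈ P) : P = ⊥ := by
  classical
  rw [eq_bot_iff]
  intro h hh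
  by_contra h0
  have h0' : h ≠ 0 := h0
  have hex : ∃ J : ℕ, ∃ α, ¬ (p : W) ^ J ∣ MvPowerSeries.coeff α h := by
    by_contra hn
    apply h0'
    ext α
    rw [map_zero]
    refine hW.sep _ fun j => ?_
    by_contra hj
    exact hn ⟨j, α, hj⟩
  obtain ⟨α, hα⟩ := Nat.find_spec hex
  have hJ0 : Nat.find hex ≠ 0 := by
    intro h1
    rw [h1, pow_zero] at hα
    exact hα (one_dvd _)
  obtain ⟨j, hj⟩ := Nat.exists_eq_succ_of_ne_zero hJ0
  rw [hj] at hα
  have hall : ∀ β, (p : W) ^ j ∣ MvPowerSeries.coeff β h := by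
    intro β
    by_contra hn
    exact Nat.find_min hex (show j < Nat.find hex by omega) ⟨β, hn⟩
  choose c hc using hall
  let g : MvPowerSeries (Fin m) W := fun β => c β
  have hcg : ∀ β, MvPowerSeries.coeff β g = c β := fun β => rfl
  have hg : h = ((p ^ j : ℕ) : MvPowerSeries (Fin m) W) * g := by
    ext β
    rw [← map_natCast (MvPowerSeries.C (σ := Fin m) (R := W)), MvPowerSeries.coeff_C_mul, hcg, hc β]
    push_cast
    rfl
  have hpp : p.Prime := Fact.out
  have hgP : g ∈ P := by
    rw [hg] at hh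
    exact (hP.mem_or_mem hh).resolve_left
      (nat_notMem hW P hP hp (pow_ne_zero _ hpp.ne_zero))
  refine no_unit hW P hP hp hd _ α rfl g hgP (hW.unit _ fun h1 => ?_)
  rw [hcg, hW.ker] at h1
  apply hα
  rw [hc α, Nat.succ_eq_add_one, pow_succ]
  exact mul_dvd_mul_left _ h1

omit [IsDomain W] in
private theorem mem_span_X (f : MvPowerSeries (Fin m) W)
    (h0 : MvPowerSeries.constantCoeff f = 0) :
    f ∈ Ideal.span (Set.range (MvPowerSeries.X (σ := Fin m) (R := W))) := by
  classical
  let g : Fin m → MvPowerSeries (Fin m) W := fun i β =>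
    if ∀ j < i, β j = 0 then MvPowerSeries.coeff (β + Finsupp.single i 1) f else 0
  have hg : ∀ i β, MvPowerSeries.coeff β (g i) =
      if ∀ j < i, β j = 0 then MvPowerSeries.coeff (β + Finsupp.single i 1) f else 0 :=
    fun i β => rfl
  have hf : f = ∑ i, g i * MvPowerSeries.X i := by
    ext γ
    rw [map_sum]
    by_cases hγ : γ = 0
    · subst hγ
      rw [MvPowerSeries.coeff_zero_eq_constantCoeff_apply, h0]
      symm
      apply Finset.sum_eq_zero
      intro i _
      exact MvPowerSeries.coeff_zero_mul_X _ _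
    · have hne : γ.support.Nonempty := Finsupp.support_nonempty_iff.2 hγ
      have hi₀ : γ (γ.support.min' hne) ≠ 0 :=
        Finsupp.mem_support_iff.1 (Finset.min'_mem _ hne)
      have hlt : ∀ j < γ.support.min' hne, γ j = 0 := by
        intro j hj
        by_contra hn
        exact absurd (Finset.min'_le _ j (Finsupp.mem_support_iff.2 hn)) (not_le_of_gt hj)
      generalize γ.support.min' hne = i₀ at hi₀ hlt
      have hle : ∀ i, γ i ≠ 0 → Finsupp.single i 1 ≤ γ := by
        intro i hi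
        rw [Finsupp.single_le_iff]
        omega
      rw [Finset.sum_eq_single i₀]
      · rw [MvPowerSeries.X, MvPowerSeries.coeff_mul_monomial, if_pos (hle _ hi₀), mul_one, hg,
          if_pos, tsub_add_cancel_of_le (hle _ hi₀)]
        intro j hj
        rw [Finsupp.tsub_apply, hlt j hj, zero_tsub]
      · intro i _ hi
        rw [MvPowerSeries.X, MvPowerSeries.coeff_mul_monomial]
        split_ifs with h1
        · rw [mul_one, hg, if_neg]
          intro h2
          have hγi : γ i ≠ 0 := by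
            have := Finsupp.single_le_iff.1 h1
            omega
          have h3 : ¬ i < i₀ := fun h4 => hγi (hlt i h4)
          have h5 : i₀ < i := lt_of_le_of_ne (not_lt.1 h3) (Ne.symm hi)
          have h6 := h2 i₀ h5
          rw [Finsupp.tsub_apply, Finsupp.single_eq_of_ne (Ne.symm hi), tsub_zero] at h6
          exact hi₀ h6
        · rfl
      · intro h
        exact absurd (Finset.mem_univ _) h
  rw [hf]
  refine Ideal.sum_mem _ fun i _ => ?_
  exact Ideal.mul_mem_left _ _ (Ideal.subset_span ⟨i, rfl⟩)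

/-- the maximal ideal of `W⟦v⟧` is `(p, v_1, .., v_m)` -/
theorem mI_eq (hW : IsWitt p (m + 1) π) :
    mI π m = Ideal.span (Set.range (MvPowerSeries.X (σ := Fin m) (R := W)) ∪
      {(p : MvPowerSeries (Fin m) W)}) := by
  apply le_antisymm
  · intro f hf
    have h1 : π (MvPowerSeries.constantCoeff f) = 0 := hf
    rw [hW.ker] at h1
    obtain ⟨w, hw⟩ := h1
    have h2 : f = (f - MvPowerSeries.C (σ := Fin m) (MvPowerSeries.constantCoeff f)) +
        MvPowerSeries.C (σ := Fin m) w * (p : MvPowerSeries (Fin m) W) := by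
      rw [hw, map_mul, map_natCast]
      ring
    rw [h2]
    refine Ideal.add_mem _ (Ideal.span_mono Set.subset_union_left (mem_span_X _ ?_))
      (Ideal.mul_mem_left _ _ (Ideal.subset_span (Set.mem_union_right _ rfl)))
    rw [map_sub, MvPowerSeries.constantCoeff_C, sub_self]
  · rw [Ideal.span_le]
    rintro f (⟨i, rfl⟩ | hf)
    · show π (MvPowerSeries.constantCoeff (MvPowerSeries.X i)) = 0
      rw [MvPowerSeries.constantCoeff_X, map_zero]
    · have hf' : f = (p : MvPowerSeries (Fin m) W) := hf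
      subst hf'
      show π (MvPowerSeries.constantCoeff (p : MvPowerSeries (Fin m) W)) = 0
      rw [map_natCast]
      exact (hW.ker _).2 (dvd_refl _)

theorem isUnit_of_not_mem_mI (hW : IsWitt p (m + 1) π) {x : MvPowerSeries (Fin m) W}
    (hx : x ∉ mI π m) : IsUnit x := by
  rw [MvPowerSeries.isUnit_iff_constantCoeff]
  exact hW.unit _ hx

end Pool.Agent.H40.CH3
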