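import Pool.Agent.H40.CH3.Al1
import Pool.Agent.H77.CA.Pow

/-!
# AL2: first order Taylor formula

Two ring homomorphisms `x, x' : R → A` which agree on `W`, with `x'(X_i) - x(X_i) ∈ p ^ ρ A`.  For a
polynomial `h` the difference `x'(h) - x(h) - ∑ x(∂_i h) (x'(X_i) - x(X_i))` is in `p ^ (2ρ) A`
(`MvPolynomial.induction_on`; product rule).  General `h = (polynomial) + (tail)`, the tail and its
derivatives in a power of `(X_1, .., X_m)` (order `≥ T`), which is mapped into `p ^ (2ρ) A` by `x` and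
`x'` for large `T` by hypothesis.
-/

namespace Pool.Agent.H40.CH3

variable {W : Type*} [CommRing W] {m : ℕ} {A : Type*} [CommRing A]

/-- the first order defect -/
private noncomputable def df (x x' : MvPowerSeries (Fin m) W →+* A)
    (h : MvPowerSeries (Fin m) W) : A :=
  x' h - x h - ∑ i, x (MvPowerSeries.pderiv W i h) *
    (x' (MvPowerSeries.X i) - x (MvPowerSeries.X i))

private theorem df_add (x x' : MvPowerSeries (Fin m) W →+* A) (g h : MvPowerSeries (Fin m) W) :
    df x x' (g + h) = df x x' g + df x x' h := by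
  unfold df
  simp only [map_add, add_mul, Finset.sum_add_distrib]
  ring

private theorem df_mul (x x' : MvPowerSeries (Fin m) W →+* A) (g h : MvPowerSeries (Fin m) W) :
    df x x' (g * h) = x g * df x x' h + x h * df x x' g + (x' g - x g) * (x' h - x h) := by
  have h1 : ∑ i, x (MvPowerSeries.pderiv W i (g * h)) *
      (x' (MvPowerSeries.X i) - x (MvPowerSeries.X i)) =
      x g * (∑ i, x (MvPowerSeries.pderiv W i h) *
        (x' (MvPowerSeries.X i) - x (MvPowerSeries.X i))) +
      x h * (∑ i, x (MvPowerSeries.pderiv W i g) *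
        (x' (MvPowerSeries.X i) - x (MvPowerSeries.X i))) := by
    rw [Finset.mul_sum, Finset.mul_sum, ← Finset.sum_add_distrib]
    refine Finset.sum_congr rfl fun i _ => ?_
    rw [Derivation.leibniz, smul_eq_mul, smul_eq_mul, map_add, map_mul, map_mul]
    ring
  unfold df
  rw [h1, map_mul, map_mul]
  ring

private theorem df_X (x x' : MvPowerSeries (Fin m) W →+* A) (i : Fin m) :
    df x x' (MvPowerSeries.X i) = 0 := by
  unfold df
  rw [Finset.sum_eq_single i]
  · rw [MvPowerSeries.pderiv_X_self, map_one, one_mul, sub_self]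
  · intro j _ hj
    rw [MvPowerSeries.pderiv_X_of_ne hj.symm, map_zero, zero_mul]
  · intro hi
    exact absurd (Finset.mem_univ i) hi

private theorem diff_dvd (x x' : MvPowerSeries (Fin m) W →+* A) (P : A) (ρ : ℕ)
    (hρ : ∀ i, P ^ ρ ∣ x' (MvPowerSeries.X i) - x (MvPowerSeries.X i))
    {h : MvPowerSeries (Fin m) W} (hd : P ^ (2 * ρ) ∣ df x x' h) : P ^ ρ ∣ x' h - x h := by
  have e : x' h - x h = df x x' h + ∑ i, x (MvPowerSeries.pderiv W i h) *
      (x' (MvPowerSeries.X i) - x (MvPowerSeries.X i)) := by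
    unfold df
    ring
  rw [e]
  refine dvd_add ((pow_dvd_pow P (by omega)).trans hd) ?_
  exact Finset.dvd_sum fun i _ => (hρ i).mul_left _

private theorem df_poly (x x' : MvPowerSeries (Fin m) W →+* A) (P : A)
    (hC : ∀ w : W, x' (MvPowerSeries.C w) = x (MvPowerSeries.C w)) (ρ : ℕ)
    (hρ : ∀ i, P ^ ρ ∣ x' (MvPowerSeries.X i) - x (MvPowerSeries.X i))
    (q : MvPolynomial (Fin m) W) : P ^ (2 * ρ) ∣ df x x' (q : MvPowerSeries (Fin m) W) := by
  induction q using MvPolynomial.induction_on with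
  | C w =>
    have h0 : df x x' (MvPowerSeries.C w) = 0 := by
      unfold df
      rw [hC, sub_self, zero_sub, neg_eq_zero]
      refine Finset.sum_eq_zero fun i _ => ?_
      rw [MvPowerSeries.pderiv_C, map_zero, zero_mul]
    rw [MvPolynomial.coe_C, h0]
    exact dvd_zero _
  | add p q hp hq =>
    rw [MvPolynomial.coe_add, df_add]
    exact dvd_add hp hq
  | mul_X p i hp =>
    rw [MvPolynomial.coe_mul, MvPolynomial.coe_X, df_mul, df_X, mul_zero, zero_add]
    refine dvd_add (hp.mul_left _) ?_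
    rw [two_mul, pow_add]
    exact mul_dvd_mul (diff_dvd x x' P ρ hρ hp) (hρ i)

private theorem der_mem {B : Type*} [CommRing B] [Algebra W B] (D : Derivation W B B)
    (I : Ideal B) (n : ℕ) : ∀ y ∈ I ^ (n + 1), D y ∈ I ^ n := by
  induction n with
  | zero =>
    intro y _
    rw [pow_zero, Ideal.one_eq_top]
    exact Submodule.mem_top
  | succ n ih =>
    intro y hy
    rw [pow_succ] at hy
    refine Submodule.mul_induction_on hy ?_ ?_
    · intro a ha b hb
      rw [Derivation.leibniz, smul_eq_mul, smul_eq_mul]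
      refine Ideal.add_mem _ (Ideal.mul_mem_right _ _ ha) ?_
      rw [pow_succ, mul_comm b]
      exact Ideal.mul_mem_mul (ih a ha) hb
    · intro a b ha hb
      rw [map_add]
      exact Ideal.add_mem _ ha hb

theorem taylor (x x' : MvPowerSeries (Fin m) W →+* A) (P : A)
    (hC : ∀ w : W, x' (MvPowerSeries.C w) = x (MvPowerSeries.C w))
    (hx : ∀ j : ℕ, ∃ T : ℕ, ∀ y ∈ Ideal.span (Set.range (MvPowerSeries.X (σ := Fin m) (R := W))) ^ T,
      P ^ j ∣ x y)
    (hx' : ∀ j : ℕ, ∃ T : ℕ, ∀ y ∈ Ideal.span (Set.range (MvPowerSeries.X (σ := Fin m) (R := W))) ^ T,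
      P ^ j ∣ x' y)
    (ρ : ℕ) (hρ : ∀ i, P ^ ρ ∣ x' (MvPowerSeries.X i) - x (MvPowerSeries.X i))
    (h : MvPowerSeries (Fin m) W) :
    P ^ (2 * ρ) ∣ x' h - x h - ∑ i, x (MvPowerSeries.pderiv W i h) *
      (x' (MvPowerSeries.X i) - x (MvPowerSeries.X i)) := by
  obtain ⟨T₁, hT₁⟩ := hx (2 * ρ)
  obtain ⟨T₂, hT₂⟩ := hx' (2 * ρ)
  set q : MvPolynomial (Fin m) W := MvPowerSeries.truncTotal (T₁ + T₂ + 1) h with hq
  set y : MvPowerSeries (Fin m) W := h - (q : MvPowerSeries (Fin m) W) with hy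
  have hyI : y ∈ Ideal.span (Set.range (MvPowerSeries.X (σ := Fin m) (R := W))) ^
      (T₁ + T₂ + 1) := by
    refine Pool.Agent.H77.CA.pow_of_coeff _ _ fun d hd => ?_
    rw [hy, map_sub, MvPolynomial.coeff_coe, hq, MvPowerSeries.coeff_truncTotal _ hd, sub_self]
  have hdy : P ^ (2 * ρ) ∣ df x x' y := by
    unfold df
    refine dvd_sub (dvd_sub (hT₂ y (Ideal.pow_le_pow_right (by omega) hyI))
      (hT₁ y (Ideal.pow_le_pow_right (by omega) hyI))) ?_
    refine Finset.dvd_sum fun i _ => ?_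
    have h1 := der_mem (MvPowerSeries.pderiv W i)
      (Ideal.span (Set.range (MvPowerSeries.X (σ := Fin m) (R := W)))) (T₁ + T₂) y hyI
    exact (hT₁ _ (Ideal.pow_le_pow_right (by omega) h1)).mul_right _
  have e : h = (q : MvPowerSeries (Fin m) W) + y := by
    rw [hy]
    ring
  have key : P ^ (2 * ρ) ∣ df x x' h := by
    rw [e, df_add]
    exact dvd_add (df_poly x x' P hC ρ hρ q) hdy
  exact key

end Pool.Agent.H40.CH3
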