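import Pool.Agent.H40.CH3.Defs

/-!
# AN0: the filtration `p ^ j A` of `L`, powers of elements of `𝔫`

`pow_small`: `p ^ s ≥ C * M` gives `x ^ (p ^ s) ∈ 𝔫 ^ (C * M) ⊆ (p ^ M)`.
`pow_cong`: `s0` with `p ^ s0 ≥ C`: in `A / p` (characteristic `p`) `(x - y) ^ (p ^ s0) = 0`, so
`x ^ (p ^ s0) ≡ y ^ (p ^ s0) mod p`, then `dvd_sub_pow_of_dvd_sub`.
-/

namespace Pool.Agent.H40.CH3

variable {A L : Type*} [CommRing A] [Field L] [Algebra A L] {p C : ℕ} {𝔫 : Ideal A}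

theorem Stg.neL (h : Stg A L p C 𝔫) : (p : L) ≠ 0 := by
  intro h0
  apply h.ne
  apply h.inj
  rw [map_natCast, h0, map_zero]

theorem In.zero (p : ℕ) (j : ℤ) : In A p j (0 : L) := ⟨0, by rw [map_zero, mul_zero]⟩

theorem In.add {j : ℤ} {x y : L} (hx : In A p j x) (hy : In A p j y) : In A p j (x + y) := by
  obtain ⟨a, rfl⟩ := hx
  obtain ⟨b, rfl⟩ := hy
  exact ⟨a + b, by rw [map_add, mul_add]⟩

theorem In.neg {j : ℤ} {x : L} (hx : In A p j x) : In A p j (-x) := by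
  obtain ⟨a, rfl⟩ := hx
  exact ⟨-a, by rw [map_neg, mul_neg]⟩

theorem In.sub {j : ℤ} {x y : L} (hx : In A p j x) (hy : In A p j y) : In A p j (x - y) := by
  rw [sub_eq_add_neg]
  exact hx.add hy.neg

theorem In.sum {ι : Type*} {s : Finset ι} {j : ℤ} {f : ι → L} (hf : ∀ i ∈ s, In A p j (f i)) :
    In A p j (∑ i ∈ s, f i) :=
  Finset.sum_induction f (In A p j) (fun _ _ => In.add) (In.zero p j) hf

theorem In.mul (hp : (p : L) ≠ 0) {i j : ℤ} {x y : L} (hx : In A p i x) (hy : In A p j y) :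
    In A p (i + j) (x * y) := by
  obtain ⟨a, rfl⟩ := hx
  obtain ⟨b, rfl⟩ := hy
  refine ⟨a * b, ?_⟩
  rw [zpow_add₀ hp, map_mul]
  ring

theorem In.mono (hp : (p : L) ≠ 0) {i j : ℤ} (hij : i ≤ j) {x : L} (hx : In A p j x) :
    In A p i x := by
  obtain ⟨a, rfl⟩ := hx
  obtain ⟨t, ht⟩ := Int.le.dest hij
  refine ⟨(p : A) ^ t * a, ?_⟩
  rw [← ht, zpow_add₀ hp, zpow_natCast, map_mul, map_pow, map_natCast, mul_assoc]

theorem In.alg (p : ℕ) (a : A) : In A p 0 (algebraMap A L a) :=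
  ⟨a, by rw [zpow_zero, one_mul]⟩

theorem In.zpow (p : ℕ) (j : ℤ) : In A p j ((p : L) ^ j) :=
  ⟨1, by rw [map_one, mul_one]⟩

theorem In.npow (p : ℕ) (j : ℕ) : In A p j ((p : L) ^ j) :=
  ⟨1, by rw [map_one, mul_one, zpow_natCast]⟩

theorem In.of_dvd {j : ℕ} {a : A} (h : (p : A) ^ j ∣ a) : In A p j (algebraMap A L a) := by
  obtain ⟨b, rfl⟩ := h
  exact ⟨b, by rw [map_mul, map_pow, map_natCast, zpow_natCast]⟩

theorem In.dvd (h : Stg A L p C 𝔫) {j : ℕ} {a : A} (ha : In A p j (algebraMap A L a)) :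
    (p : A) ^ j ∣ a := by
  obtain ⟨b, hb⟩ := ha
  refine ⟨b, h.inj ?_⟩
  rw [hb, map_mul, map_pow, map_natCast, zpow_natCast]

theorem In.eq_zero (h : Stg A L p C 𝔫) {a : A} (ha : ∀ M : ℕ, In A p M (algebraMap A L a)) :
    a = 0 :=
  h.sep a fun j => (ha j).dvd h

private theorem pow_le (h : Stg A L p C 𝔫) {M N : ℕ} (hN : C * M ≤ N) :
    𝔫 ^ N ≤ Ideal.span {(p : A) ^ M} := by
  refine (Ideal.pow_le_pow_right hN).trans ?_
  rw [pow_mul, ← Ideal.span_singleton_pow]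
  exact Ideal.pow_right_mono h.pow M

private theorem le_ppow (h : Stg A L p C 𝔫) (c : ℕ) : c ≤ p ^ c :=
  (Nat.lt_pow_self h.prime.one_lt).le

theorem pow_small (h : Stg A L p C 𝔫) (M : ℕ) :
    ∃ s0 : ℕ, ∀ x ∈ 𝔫, ∀ s, s0 ≤ s → (p : A) ^ M ∣ x ^ p ^ s := by
  refine ⟨C * M, fun x hx s hs => ?_⟩
  rw [← Ideal.mem_span_singleton]
  refine pow_le h ?_ (Ideal.pow_mem_pow hx _)
  exact (le_ppow h _).trans (Nat.pow_le_pow_right h.prime.pos hs)

theorem pow_cong (h : Stg A L p C 𝔫) :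
    ∃ s0 : ℕ, ∀ x y : A, x - y ∈ 𝔫 → ∀ s, (p : A) ^ (s + 1) ∣ x ^ p ^ (s0 + s) - y ^ p ^ (s0 + s) := by
  refine ⟨C, fun x y hxy s => ?_⟩
  have hp : Fact p.Prime := ⟨h.prime⟩
  have h1 : (p : A) ∣ x ^ p ^ C - y ^ p ^ C := by
    rw [← Ideal.mem_span_singleton, ← Ideal.Quotient.eq_zero_iff_mem]
    have hne : (Ideal.span {(p : A)}) ≠ ⊤ := by
      intro h0
      apply h.top
      rw [eq_top_iff, ← h0, Ideal.span_singleton_le_iff_mem]
      exact h.mem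
    have hnt : Nontrivial (A ⧸ Ideal.span {(p : A)}) := Ideal.Quotient.nontrivial_iff.2 hne
    have hchar : CharP (A ⧸ Ideal.span {(p : A)}) p := by
      rw [CharP.charP_iff_prime_eq_zero h.prime,
        ← map_natCast (Ideal.Quotient.mk (Ideal.span {(p : A)})),
        Ideal.Quotient.eq_zero_iff_mem, Ideal.mem_span_singleton]
    rw [map_sub, map_pow, map_pow, ← sub_pow_char_pow, ← map_sub, ← map_pow,
      Ideal.Quotient.eq_zero_iff_mem]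
    exact h.pow (Ideal.pow_le_pow_right (le_ppow h C) (Ideal.pow_mem_pow hxy _))
  have h2 := dvd_sub_pow_of_dvd_sub h1 s
  rwa [← pow_mul, ← pow_mul, ← pow_add] at h2

/-- elements of a high power of `𝔫` are divisible by a high power of `p` -/
theorem pow_mem_dvd (h : Stg A L p C 𝔫) (M : ℕ) :
    ∃ N0 : ℕ, ∀ N, N0 ≤ N → ∀ x ∈ 𝔫 ^ N, (p : A) ^ M ∣ x := by
  refine ⟨C * M, fun N hN x hx => ?_⟩
  rw [← Ideal.mem_span_singleton]
  exact pow_le h hN hx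

end Pool.Agent.H40.CH3
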