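import Pool.Agent.H40.CH3.An0

/-!
# AN1: growth of the coefficients of the Hazewinkel logarithm

`n = m + 1`.  `p l_k = ∑_(i=1..min(k,n)) l_(k-i) v_i ^ (p ^ (k-i))`, `v_n = 1`.
`lg_bound`: put `λ_k = p ^ (k / n) l_k`.  `λ_k = λ_(k-n) + p^(..) ∑_(i<n) ..` for `k ≥ n`, where the
terms with `1 ≤ i < n` are `p ^ (k/n - 1 - (k-i)/n) v_i ^ (p ^ (k-i)) λ_(k-i)`, exponent `≥ -1`, and
`v_i ^ (p ^ (k-i))` is divisible by `p` as soon as `k - i ≥ s0` (`pow_small`).  So `λ_k` is an
`A`-combination of earlier ones for `k ≥ s0 + n`; for `k < s0 + n` use `p ^ k l_k = hz ∈ A`.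
`lg_cauchy`: `λ_(k+n) - λ_k = p ^ (k / n) ∑_(1 ≤ i < n) v_i ^ (p ^ (k+n-i)) l_(k+n-i)` is in
`p ^ (M' - 1 - c)` if `p ^ M'` divides `v_i ^ (p ^ s)` for `s ≥ k`; then telescope.
-/

namespace Pool.Agent.H40.CH3

variable {A L : Type*} [CommRing A] [Field L] [Algebra A L] {p C : ℕ} {𝔫 : Ideal A}

/-- the recursion for general parameters -/
theorem lg_succ (hp : (p : L) ≠ 0) (v : ℕ → L) (k : ℕ) :
    (p : L) * lg p v (k + 1) = ∑ j ∈ Finset.range (k + 1), v (k + 1 - j) ^ p ^ j * lg p v j := by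
  have hpk : (p : L) ^ k ≠ 0 := pow_ne_zero _ hp
  have h1 : (p : L) * lg p v (k + 1) = hz p v (k + 1) / (p : L) ^ k := by
    rw [lg, pow_succ]
    field_simp
  rw [h1, hz_succ, Finset.sum_div]
  refine Finset.sum_congr rfl fun j hj => ?_
  have hj' : j ≤ k := Nat.lt_succ_iff.1 (Finset.mem_range.1 hj)
  rw [lg]
  have h2 : (p : L) ^ k = (p : L) ^ (k - j) * (p : L) ^ j := by
    rw [← pow_add, Nat.sub_add_cancel hj']
  rw [h2]
  have h3 := pow_ne_zero (k - j) hp
  have h4 := pow_ne_zero j hp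
  field_simp

/-- `l_s` has denominator at most `p ^ s` -/
theorem lg_in (hp : (p : L) ≠ 0) (v : ℕ → A) (s : ℕ) :
    In A p (-(s : ℤ)) (lg p (fun i => algebraMap A L (v i)) s) := by
  refine ⟨hz p v s, ?_⟩
  rw [lg, hz_map, zpow_neg, zpow_natCast, div_eq_inv_mul]

/-- the recursion for admissible parameters -/
private theorem lg_rec (hp : (p : L) ≠ 0) {m : ℕ} {v : ℕ → A} (hv : Par m 𝔫 v) (K : ℕ) :
    (p : L) * lg p (fun i => algebraMap A L (v i)) (K + m + 1) =
      lg p (fun i => algebraMap A L (v i)) K +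
      ∑ x ∈ Finset.range m, algebraMap A L (v (m - x) ^ p ^ (K + (x + 1))) *
        lg p (fun i => algebraMap A L (v i)) (K + (x + 1)) := by
  rw [lg_succ hp, show K + m + 1 = K + (m + 1) from rfl, Finset.sum_range_add,
    Finset.sum_range_succ' _ m]
  have h1 : ∑ x ∈ Finset.range K, algebraMap A L (v (K + (m + 1) - x)) ^ p ^ x *
      lg p (fun i => algebraMap A L (v i)) x = 0 := by
    refine Finset.sum_eq_zero fun x hx => ?_
    have h2 : m + 1 < K + (m + 1) - x := by
      have := Finset.mem_range.1 hx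
      omega
    rw [hv.high _ h2, map_zero]
    by_cases hpx : p ^ x = 0
    · exfalso
      have h3 : p = 0 := eq_zero_of_pow_eq_zero hpx
      exact hp (by rw [h3, Nat.cast_zero])
    · rw [zero_pow hpx, zero_mul]
  have h2 : K + (m + 1) - (K + 0) = m + 1 := by omega
  rw [h1, zero_add, h2, hv.one, map_one, one_pow, one_mul, add_comm]
  refine congrArg₂ (· + ·) rfl (Finset.sum_congr rfl fun x hx => ?_)
  have h3 : K + (m + 1) - (K + (x + 1)) = m - x := by omega
  rw [h3, map_pow]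

theorem lg_bound (h : Stg A L p C 𝔫) {m : ℕ} (hm : 1 ≤ m) : ∃ c : ℕ, ∀ v : ℕ → A, Par m 𝔫 v →
    ∀ k, In A p (-(c : ℤ)) ((p : L) ^ (k / (m + 1)) * lg p (fun i => algebraMap A L (v i)) k) := by
  have hp := h.neL (L := L)
  obtain ⟨s0, hs0⟩ := pow_small h 1
  refine ⟨s0 + (m + 1), fun v hv k => ?_⟩
  induction k using Nat.strong_induction_on with
  | _ k ih =>
    by_cases hk : k < s0 + (m + 1)
    · have h1 := In.mul hp (In.npow (A := A) (L := L) p (k / (m + 1))) (lg_in hp v k)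
      refine In.mono hp ?_ h1
      have h2 : (0 : ℤ) ≤ ((k / (m + 1) : ℕ) : ℤ) := Int.natCast_nonneg _
      push_cast at h2 ⊢
      omega
    · obtain ⟨K, rfl⟩ : ∃ K, k = K + m + 1 := ⟨k - (m + 1), by omega⟩
      have hK : s0 ≤ K := by omega
      have h1 : (p : L) ^ ((K + m + 1) / (m + 1)) * lg p (fun i => algebraMap A L (v i)) (K + m + 1) =
          (p : L) ^ (K / (m + 1)) * lg p (fun i => algebraMap A L (v i)) K +
          ∑ x ∈ Finset.range m, (p : L) ^ (K / (m + 1)) *
            (algebraMap A L (v (m - x) ^ p ^ (K + (x + 1))) *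
              lg p (fun i => algebraMap A L (v i)) (K + (x + 1))) := by
        rw [show K + m + 1 = K + (m + 1) from rfl, Nat.add_div_right K (Nat.succ_pos m), pow_succ, mul_assoc,
          show K + (m + 1) = K + m + 1 from rfl, lg_rec hp hv, mul_add, Finset.mul_sum]
      rw [h1]
      refine In.add (ih K (by omega)) (In.sum fun x hx => ?_)
      have hx' := Finset.mem_range.1 hx
      obtain ⟨b, hb⟩ := hs0 (v (m - x)) (hv.low _ (Nat.sub_le m x)) (K + (x + 1)) (by omega)
      have h2 : (K + (x + 1)) / (m + 1) ≤ K / (m + 1) + 1 := by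
        rw [← Nat.add_div_right K (Nat.succ_pos m)]
        exact Nat.div_le_div_right (by omega)
      have h3 : (p : L) ^ (K / (m + 1)) * (algebraMap A L (v (m - x) ^ p ^ (K + (x + 1))) *
          lg p (fun i => algebraMap A L (v i)) (K + (x + 1))) =
          algebraMap A L b * ((p : L) ^ (K / (m + 1) + 1 - (K + (x + 1)) / (m + 1)) *
            ((p : L) ^ ((K + (x + 1)) / (m + 1)) * lg p (fun i => algebraMap A L (v i)) (K + (x + 1)))) := by
        have h4 : (p : L) ^ (K / (m + 1) + 1 - (K + (x + 1)) / (m + 1)) * (p : L) ^ ((K + (x + 1)) / (m + 1)) =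
            (p : L) ^ (K / (m + 1)) * p := by
          rw [← pow_add, Nat.sub_add_cancel h2, pow_succ]
        rw [hb, map_mul, map_pow, map_natCast, pow_one, ← mul_assoc ((p : L) ^ (K / (m + 1) + 1 - _)), h4]
        ring
      rw [h3]
      have h5 := In.mul hp (In.alg (L := L) p b) (In.mul hp (In.npow (A := A) (L := L) p
        (K / (m + 1) + 1 - (K + (x + 1)) / (m + 1))) (ih (K + (x + 1)) (by omega)))
      refine In.mono hp ?_ h5
      have h6 : (0 : ℤ) ≤ ((K / (m + 1) + 1 - (K + (x + 1)) / (m + 1) : ℕ) : ℤ) := Int.natCast_nonneg _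
      linarith

theorem lg_cauchy (h : Stg A L p C 𝔫) {m : ℕ} (hm : 1 ≤ m) (M : ℕ) :
    ∃ k0 : ℕ, ∀ v : ℕ → A, Par m 𝔫 v → ∀ k k', k0 ≤ k → k0 ≤ k' → k % (m + 1) = k' % (m + 1) →
      In A p M ((p : L) ^ (k / (m + 1)) * lg p (fun i => algebraMap A L (v i)) k -
        (p : L) ^ (k' / (m + 1)) * lg p (fun i => algebraMap A L (v i)) k') := by
  have hp := h.neL (L := L)
  obtain ⟨c, hc⟩ := lg_bound (L := L) h hm
  obtain ⟨s0, hs0⟩ := pow_small h (M + c + 1)
  -- one step
  have hstep : ∀ v : ℕ → A, Par m 𝔫 v → ∀ K, s0 ≤ K → In A p M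
      ((p : L) ^ ((K + (m + 1)) / (m + 1)) * lg p (fun i => algebraMap A L (v i)) (K + (m + 1)) -
        (p : L) ^ (K / (m + 1)) * lg p (fun i => algebraMap A L (v i)) K) := by
    intro v hv K hK
    have h1 : (p : L) ^ ((K + (m + 1)) / (m + 1)) * lg p (fun i => algebraMap A L (v i)) (K + (m + 1)) -
        (p : L) ^ (K / (m + 1)) * lg p (fun i => algebraMap A L (v i)) K =
          ∑ x ∈ Finset.range m, (p : L) ^ (K / (m + 1)) *
            (algebraMap A L (v (m - x) ^ p ^ (K + (x + 1))) *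
              lg p (fun i => algebraMap A L (v i)) (K + (x + 1))) := by
      rw [Nat.add_div_right K (Nat.succ_pos m), pow_succ, mul_assoc,
        show K + (m + 1) = K + m + 1 from rfl, lg_rec hp hv, mul_add, Finset.mul_sum, add_sub_cancel_left]
    rw [h1]
    refine In.sum fun x hx => ?_
    have hx' := Finset.mem_range.1 hx
    have h2 : (K + (x + 1)) / (m + 1) ≤ K / (m + 1) + 1 := by
      rw [← Nat.add_div_right K (Nat.succ_pos m)]
      exact Nat.div_le_div_right (by omega)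
    obtain ⟨b, hb⟩ := hs0 (v (m - x)) (hv.low _ (Nat.sub_le m x)) (K + (x + 1)) (by omega)
    have h3 : (p : L) ^ (K / (m + 1)) * (algebraMap A L (v (m - x) ^ p ^ (K + (x + 1))) *
        lg p (fun i => algebraMap A L (v i)) (K + (x + 1))) =
        algebraMap A L b * ((p : L) ^ (M + c + (K / (m + 1) + 1 - (K + (x + 1)) / (m + 1))) *
          ((p : L) ^ ((K + (x + 1)) / (m + 1)) * lg p (fun i => algebraMap A L (v i)) (K + (x + 1)))) := by
      have h4 : (p : L) ^ (M + c + (K / (m + 1) + 1 - (K + (x + 1)) / (m + 1))) *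
          (p : L) ^ ((K + (x + 1)) / (m + 1)) = (p : L) ^ (K / (m + 1)) * (p : L) ^ (M + c + 1) := by
        rw [← pow_add, ← pow_add]
        congr 1
        omega
      rw [hb, map_mul, map_pow, map_natCast, ← mul_assoc ((p : L) ^ (M + c + _)), h4]
      ring
    rw [h3]
    have h5 := In.mul hp (In.alg (L := L) p b) (In.mul hp (In.npow (A := A) (L := L) p
      (M + c + (K / (m + 1) + 1 - (K + (x + 1)) / (m + 1)))) (hc v hv (K + (x + 1))))
    refine In.mono hp ?_ h5
    push_cast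
    have h6 : (0 : ℤ) ≤ ((K / (m + 1) + 1 - (K + (x + 1)) / (m + 1) : ℕ) : ℤ) := Int.natCast_nonneg _
    linarith
  have hmany : ∀ v : ℕ → A, Par m 𝔫 v → ∀ K, s0 ≤ K → ∀ t : ℕ, In A p M
      ((p : L) ^ ((K + t * (m + 1)) / (m + 1)) * lg p (fun i => algebraMap A L (v i)) (K + t * (m + 1)) -
        (p : L) ^ (K / (m + 1)) * lg p (fun i => algebraMap A L (v i)) K) := by
    intro v hv K hK t
    induction t with
    | zero =>
      rw [zero_mul, add_zero, sub_self]
      exact In.zero p _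
    | succ t ih =>
      have h1 := In.add (hstep v hv (K + t * (m + 1)) (by omega)) ih
      rw [sub_add_sub_cancel] at h1
      rw [add_mul t 1, one_mul, ← add_assoc K]
      exact h1
  refine ⟨s0, fun v hv k k' hk hk' hkk => ?_⟩
  rcases le_total k k' with hle | hle
  · obtain ⟨t, ht⟩ := (Nat.modEq_iff_dvd' hle).1 hkk
    have h1 : k' = k + t * (m + 1) := by
      rw [mul_comm t]
      omega
    rw [h1, ← neg_sub]
    exact In.neg (hmany v hv k hk t)
  · obtain ⟨t, ht⟩ := (Nat.modEq_iff_dvd' hle).1 hkk.symm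
    have h1 : k = k' + t * (m + 1) := by
      rw [mul_comm t]
      omega
    rw [h1]
    exact hmany v hv k' hk' t

/-- powers of admissible parameters are admissible -/
theorem Par.pow {m : ℕ} {v : ℕ → A} (hv : Par m 𝔫 v) (hp : p.Prime) (s : ℕ) :
    Par m 𝔫 (fun i => v i ^ p ^ s) := by
  have hps : p ^ s ≠ 0 := pow_ne_zero _ hp.ne_zero
  refine ⟨fun i hi => ?_, ?_, fun i hi => ?_⟩
  · exact Ideal.pow_mem_of_mem 𝔫 (hv.low i hi) _ (Nat.pos_of_ne_zero hps)
  · show v (m + 1) ^ p ^ s = 1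
    rw [hv.one, one_pow]
  · show v i ^ p ^ s = 0
    rw [hv.high i hi, zero_pow hps]

end Pool.Agent.H40.CH3
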