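import Pool.Agent.H40.CH3.An1

/-!
# AN2: the fundamental solutions

`yc v k M` is the `M`-th term of the solution of the recursion which starts at `k`
(`yc v 0 M = l_M`).  Row recursion: `p * yc v k M = ∑_(i=1..n) v_i ^ (p ^ k) * yc v (k+i) M` for
`k < M` (peel off the first factor instead of the last one; strong induction from `lg_succ`).
Hence (`v_n = 1`) `yc v (k+n) M = p * yc v k M - ∑_(1≤i≤m) v_i ^ (p^k) * yc v (k+i) M`, and `cc` are
the coefficients: `yc v k M = ∑_(i ≤ m) cc v k i * yc v i M` for `k < M + n`.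
-/

open Finset Matrix

namespace Pool.Agent.H40.CH3

variable {A L : Type*} [CommRing A] [Field L] [Algebra A L] {p C : ℕ} {𝔫 : Ideal A}

/-- the solution of the recursion which starts at `k`, its `M`-th term -/
def yc (p : ℕ) (v : ℕ → L) (k M : ℕ) : L := if M < k then 0 else lg p (fun i => v i ^ p ^ k) (M - k)

/-- the coefficients of the solution starting at `k` in terms of those starting at `0, .., m` -/
def cc (p m : ℕ) (v : ℕ → A) (k i : ℕ) : A :=
  if h : k ≤ m then (if k = i then 1 else 0)
  else (p : A) * cc p m v (k - (m + 1)) i -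
    ∑ j : Fin m, v (j.val + 1) ^ p ^ (k - (m + 1)) * cc p m v (k - (m + 1) + (j.val + 1)) i
  termination_by k
  decreasing_by
    · omega
    · have := j.2; omega

theorem cc_low (p m : ℕ) (v : ℕ → A) {k : ℕ} (hk : k ≤ m) (i : ℕ) :
    cc p m v k i = if k = i then 1 else 0 := by
  rw [cc, dif_pos hk]

theorem cc_high (p m : ℕ) (v : ℕ → A) (k i : ℕ) :
    cc p m v (k + (m + 1)) i = (p : A) * cc p m v k i -
      ∑ j ∈ range m, v (j + 1) ^ p ^ k * cc p m v (k + (j + 1)) i := by
  rw [cc, dif_neg (by omega), Finset.sum_range, Nat.add_sub_cancel]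

theorem cc_mem (h : Stg A L p C 𝔫) {m : ℕ} {v : ℕ → A} (hv : Par m 𝔫 v) {k : ℕ} (hk : m < k)
    (i : ℕ) : cc p m v k i ∈ 𝔫 := by
  obtain ⟨K, rfl⟩ : ∃ K, k = K + (m + 1) := ⟨k - (m + 1), by omega⟩
  rw [cc_high]
  refine 𝔫.sub_mem (𝔫.mul_mem_right _ h.mem) (𝔫.sum_mem fun j hj => 𝔫.mul_mem_right _ ?_)
  exact Ideal.pow_mem_of_mem 𝔫 (hv.low _ (Finset.mem_range.1 hj)) _ (Nat.pow_pos h.prime.pos)

private theorem lg_zero (p : ℕ) (w : ℕ → L) : lg p w 0 = 1 := by
  rw [lg, hz_zero, pow_zero, div_one]

private theorem lg_row (hp : (p : L) ≠ 0) (w : ℕ → L) (N : ℕ) :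
    (p : L) * lg p w (N + 1) =
      ∑ i ∈ range (N + 1), w (i + 1) * lg p (fun j => w j ^ p ^ (i + 1)) (N - i) := by
  induction N using Nat.strong_induction_on with
  | _ N ih =>
    apply mul_left_cancel₀ hp
    rw [lg_succ hp, Finset.sum_range_succ' _ N, Finset.sum_range_succ _ N, Nat.sub_self, lg_zero,
      lg_zero, mul_add, mul_add, Finset.mul_sum, Finset.mul_sum, Nat.sub_zero, pow_zero, pow_one]
    refine congrArg₂ (· + ·) ?_ rfl
    have h1 : ∀ j ∈ range N, (p : L) * (w (N + 1 - (j + 1)) ^ p ^ (j + 1) * lg p w (j + 1)) =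
        ∑ i ∈ range (j + 1), w (N - j) ^ p ^ (j + 1) *
          (w (i + 1) * lg p (fun l => w l ^ p ^ (i + 1)) (j - i)) := by
      intro j hj
      rw [← Finset.mul_sum, ← ih j (Finset.mem_range.1 hj), Nat.add_sub_add_right]
      ring
    rw [Finset.sum_congr rfl h1]
    rw [Finset.sum_comm' (s' := fun i => Finset.Ico i N) (t' := range N) (by
      intro x y
      rw [Finset.mem_range, Finset.mem_range, Finset.mem_range, Finset.mem_Ico]
      omega)]
    refine Finset.sum_congr rfl fun i hi => ?_
    have hi' := Finset.mem_range.1 hi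
    rw [Finset.sum_Ico_eq_sum_range]
    obtain ⟨t, ht⟩ : ∃ t, N - i = t + 1 := ⟨N - i - 1, by omega⟩
    have h2 : (p : L) * (w (i + 1) * lg p (fun l => w l ^ p ^ (i + 1)) (N - i)) =
        w (i + 1) * ((p : L) * lg p (fun l => w l ^ p ^ (i + 1)) (N - i)) := by ring
    rw [h2, ht, lg_succ hp, Finset.mul_sum]
    refine Finset.sum_congr rfl fun j hj => ?_
    have hj' := Finset.mem_range.1 hj
    have h3 : N - (i + j) = t + 1 - j := by omega
    have h4 : i + j - i = j := by omega
    have h5 : p ^ (i + j + 1) = p ^ (i + 1) * p ^ j := by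
      rw [← pow_add]
      exact congrArg _ (by omega)
    rw [h3, h4, h5, pow_mul]
    ring

/-- the row recursion -/
theorem yc_row (hp : (p : L) ≠ 0) (v : ℕ → L) {k M : ℕ} (hk : k < M) :
    (p : L) * yc p v k M = ∑ i ∈ range (M - k), v (i + 1) ^ p ^ k * yc p v (k + (i + 1)) M := by
  obtain ⟨N, hN⟩ : ∃ N, M - k = N + 1 := ⟨M - k - 1, by omega⟩
  rw [yc, if_neg (by omega), hN, lg_row hp]
  refine Finset.sum_congr rfl fun i hi => ?_
  have hi' := Finset.mem_range.1 hi
  rw [yc, if_neg (by omega)]
  have h1 : M - (k + (i + 1)) = N - i := by omega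
  have h2 : (fun j => (v j ^ p ^ k) ^ p ^ (i + 1)) = fun j => v j ^ p ^ (k + (i + 1)) := by
    funext j
    rw [← pow_mul, ← pow_add]
  rw [h1, h2]

private theorem yc_zero (v : ℕ → L) {k M : ℕ} (hk : M < k) : yc p v k M = 0 := by
  rw [yc, if_pos hk]

theorem yc_eq (h : Stg A L p C 𝔫) {m : ℕ} {v : ℕ → A} (hv : Par m 𝔫 v) {k M : ℕ}
    (hk : k < M + (m + 1)) :
    yc p (fun i => algebraMap A L (v i)) k M =
      ∑ i ∈ range (m + 1), algebraMap A L (cc p m v k i) *
        yc p (fun i => algebraMap A L (v i)) i M := by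
  have hp := h.neL (L := L)
  induction k using Nat.strong_induction_on with
  | _ k ih =>
    by_cases hkm : k ≤ m
    · rw [Finset.sum_eq_single_of_mem k (Finset.mem_range.2 (Nat.lt_succ_of_le hkm))]
      · rw [cc_low p m v hkm, if_pos rfl, map_one, one_mul]
      · intro i _ hi
        rw [cc_low p m v hkm, if_neg (Ne.symm hi), map_zero, zero_mul]
    · obtain ⟨K, rfl⟩ : ∃ K, k = K + (m + 1) := ⟨k - (m + 1), by omega⟩
      have hK : K < M := by omega
      have h1 := yc_row hp (fun i => algebraMap A L (v i)) hK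
      have h2 : ∑ i ∈ range (M - K), (algebraMap A L (v (i + 1))) ^ p ^ K *
          yc p (fun i => algebraMap A L (v i)) (K + (i + 1)) M =
          ∑ i ∈ range (m + 1), (algebraMap A L (v (i + 1))) ^ p ^ K *
          yc p (fun i => algebraMap A L (v i)) (K + (i + 1)) M := by
        have hz : ∀ i, (M - K ≤ i ∨ m + 1 ≤ i) → (algebraMap A L (v (i + 1))) ^ p ^ K *
            yc p (fun i => algebraMap A L (v i)) (K + (i + 1)) M = 0 := by
          intro i hi
          rcases hi with hi | hi
          · rw [yc_zero (p := p) _ (by omega : M < K + (i + 1)), mul_zero]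
          · rw [hv.high _ (by omega), map_zero, zero_pow (pow_ne_zero _ h.prime.ne_zero), zero_mul]
        rcases le_total (M - K) (m + 1) with hle | hle
        · refine Finset.sum_subset (Finset.range_mono hle) fun i _ hi => hz i (Or.inl ?_)
          exact not_lt.1 fun h' => hi (Finset.mem_range.2 h')
        · refine (Finset.sum_subset (Finset.range_mono hle) fun i _ hi => hz i (Or.inr ?_)).symm
          exact not_lt.1 fun h' => hi (Finset.mem_range.2 h')
      rw [h2, Finset.sum_range_succ, hv.one, map_one, one_pow, one_mul,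
        ih K (by omega) (by omega)] at h1
      have h3 : yc p (fun i => algebraMap A L (v i)) (K + (m + 1)) M =
          (p : L) * ∑ i ∈ range (m + 1), algebraMap A L (cc p m v K i) *
            yc p (fun i => algebraMap A L (v i)) i M -
          ∑ j ∈ range m, algebraMap A L (v (j + 1)) ^ p ^ K *
            yc p (fun i => algebraMap A L (v i)) (K + (j + 1)) M := by
        rw [h1, add_sub_cancel_left]
      have h4 : ∀ j ∈ range m, algebraMap A L (v (j + 1)) ^ p ^ K *
            yc p (fun i => algebraMap A L (v i)) (K + (j + 1)) M =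
            ∑ i ∈ range (m + 1), algebraMap A L (v (j + 1) ^ p ^ K * cc p m v (K + (j + 1)) i) *
              yc p (fun i => algebraMap A L (v i)) i M := by
        intro j hj
        have hj' := Finset.mem_range.1 hj
        rw [ih (K + (j + 1)) (by omega) (by omega), Finset.mul_sum]
        refine Finset.sum_congr rfl fun i _ => ?_
        rw [map_mul, map_pow]
        ring
      rw [h3, Finset.sum_congr rfl h4, Finset.sum_comm, Finset.mul_sum, ← Finset.sum_sub_distrib]
      refine Finset.sum_congr rfl fun i _ => ?_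
      rw [cc_high, map_sub, map_mul, map_natCast, map_sum, sub_mul, Finset.sum_mul]
      ring

/-- the matrix of the fundamental solutions at level `r` -/
noncomputable def Bm (L : Type*) [Field L] [Algebra A L] (p m : ℕ) (v : ℕ → A) (r : ℕ) :
    Matrix (Fin (m + 1)) (Fin (m + 1)) L :=
  fun j i => (p : L) ^ r * yc p (fun i => algebraMap A L (v i)) i.val (r * (m + 1) + j.val)

end Pool.Agent.H40.CH3
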