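import Pool.Agent.H40.CH3.An2

/-!
# AN2b: bound and bounded inverse of the matrix of the fundamental solutions

`Bm_bound`: `Bm v r j i = p ^ r * lg (v ^ (p ^ i)) (r n + j - i)`, `lg_bound` for the parameters
`v ^ (p ^ i)` (`Par.pow`), `r - (r n + j - i) / n ≥ 0`.

Bounded inverse: `Bm v r j i = p ^ r * yc v i (r n + j)`.  With `Cm i j = cc v (r n + j) i` one has
`Bm * Cm = p ^ r * U`, `U j' j = yc v (r n + j) (r n + j')`, lower unitriangular, with entries in `A`
for large `r` (`yc v (r n + j) (r n + j') = lg (v ^ (p ^ (rn+j))) (j' - j)`, and `hz` of parameters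
divisible by `p ^ n` (`pow_small`) except `v_n` is divisible by `p ^ n` in degrees `1 .. m`).  So
`U` is invertible over `A` (`det U = 1`, adjugate) and the inverse of `Bm` is `p ^ (-r) Cm U⁻¹`;
bound: `p ^ (k / n)` divides `p ^ c * cc v k i` (induction on `k` with `pow_small`).
-/

open Finset Matrix

namespace Pool.Agent.H40.CH3

variable {A L : Type*} [CommRing A] [Field L] [Algebra A L] {p C : ℕ} {𝔫 : Ideal A}

theorem Bm_bound (h : Stg A L p C 𝔫) {m : ℕ} (hm : 1 ≤ m) : ∃ c : ℕ, ∀ v : ℕ → A, Par m 𝔫 v →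
    ∀ r i j, In A p (-(c : ℤ)) (Bm L p m v r i j) := by
  have hp := h.neL (L := L)
  obtain ⟨c, hc⟩ := lg_bound (L := L) h hm
  refine ⟨c, fun v hv r j i => ?_⟩
  rw [Bm, yc]
  split_ifs with hlt
  · rw [mul_zero]
    exact In.zero p _
  · have hw : (fun l => algebraMap A L (v l) ^ p ^ (i : ℕ)) =
        fun l => algebraMap A L (v l ^ p ^ (i : ℕ)) := by
      funext l
      rw [map_pow]
    rw [hw]
    have h1 := hc _ (hv.pow h.prime (i : ℕ)) (r * (m + 1) + (j : ℕ) - (i : ℕ))
    have hle : (r * (m + 1) + (j : ℕ) - (i : ℕ)) / (m + 1) ≤ r := by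
      have hj := j.2
      have h2 : r * (m + 1) + (j : ℕ) - (i : ℕ) < (r + 1) * (m + 1) := by
        have h3 : (r + 1) * (m + 1) = r * (m + 1) + (m + 1) := by ring
        omega
      exact Nat.lt_succ_iff.1 ((Nat.div_lt_iff_lt_mul (Nat.succ_pos m)).2 h2)
    have h2 := In.mul hp (In.npow (A := A) (L := L) p
      (r - (r * (m + 1) + (j : ℕ) - (i : ℕ)) / (m + 1))) h1
    rw [← mul_assoc, ← pow_add, Nat.sub_add_cancel hle] at h2
    refine In.mono hp ?_ h2
    have h3 : (0 : ℤ) ≤ ((r - (r * (m + 1) + (j : ℕ) - (i : ℕ)) / (m + 1) : ℕ) : ℤ) :=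
      Int.natCast_nonneg _
    linarith

/-- growth of the coefficients `cc` -/
private theorem cc_bound (h : Stg A L p C 𝔫) (m : ℕ) : ∃ c : ℕ, ∀ v : ℕ → A, Par m 𝔫 v →
    ∀ k i, In A p (((k / (m + 1) : ℕ) : ℤ) - (c : ℤ)) (algebraMap A L (cc p m v k i)) := by
  have hp := h.neL (L := L)
  obtain ⟨s0, hs0⟩ := pow_small h 1
  refine ⟨s0 + (m + 1), fun v hv k i => ?_⟩
  induction k using Nat.strong_induction_on with
  | _ k ih =>
    by_cases hk : k < s0 + (m + 1)
    · refine In.mono hp ?_ (In.alg p _)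
      have h1 : k / (m + 1) ≤ k := Nat.div_le_self _ _
      omega
    · obtain ⟨K, rfl⟩ : ∃ K, k = K + (m + 1) := ⟨k - (m + 1), by omega⟩
      rw [cc_high, map_sub, map_mul, map_natCast, map_sum, Nat.add_div_right K (Nat.succ_pos m)]
      refine In.sub ?_ (In.sum fun x hx => ?_)
      · have h1 := In.mul hp (In.npow (A := A) (L := L) p 1) (ih K (by omega))
        rw [pow_one] at h1
        refine In.mono hp (le_of_eq ?_) h1
        push_cast
        ring
      · have hx' := Finset.mem_range.1 hx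
        have hd := hs0 (v (x + 1)) (hv.low _ hx') K (by omega)
        have h1 := In.mul hp (In.of_dvd (L := L) hd) (ih (K + (x + 1)) (by omega))
        rw [map_mul]
        refine In.mono hp ?_ h1
        have h2 : K / (m + 1) ≤ (K + (x + 1)) / (m + 1) := Nat.div_le_div_right (by omega)
        have h3 : ((K / (m + 1) : ℕ) : ℤ) ≤ (((K + (x + 1)) / (m + 1) : ℕ) : ℤ) := by
          exact_mod_cast h2
        push_cast at h3 ⊢
        linarith

/-- small parameters: the logarithm is integral in degrees `≤ m` -/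
private theorem lg_small (hp : (p : L) ≠ 0) {m : ℕ} {u : ℕ → A}
    (hu : ∀ i, i ≤ m → (p : A) ∣ u i) (hpp : 0 < p) (t : ℕ) (ht : t ≤ m) :
    In A p 0 (lg p (fun i => algebraMap A L (u i)) t) := by
  induction t using Nat.strong_induction_on with
  | _ t ih =>
    cases t with
    | zero =>
      rw [lg, hz_zero, pow_zero, div_one, ← map_one (algebraMap A L)]
      exact In.alg p 1
    | succ t =>
      have h1 : In A p 1 ((p : L) * lg p (fun i => algebraMap A L (u i)) (t + 1)) := by
        rw [lg_succ hp]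
        refine In.sum fun j hj => ?_
        have hj' := Finset.mem_range.1 hj
        have hd : (p : A) ^ 1 ∣ u (t + 1 - j) ^ p ^ j := by
          rw [pow_one]
          exact dvd_pow (hu _ (by omega)) (Nat.pow_pos hpp).ne'
        have h2 := In.mul hp (In.of_dvd (L := L) hd) (ih j (by omega) (by omega))
        rw [map_pow] at h2
        refine In.mono hp ?_ h2
        norm_num
      have h3 := In.mul hp (In.zpow (A := A) (L := L) p (-1)) h1
      rw [← mul_assoc, _root_.zpow_neg_one, inv_mul_cancel₀ hp, one_mul] at h3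
      refine In.mono hp ?_ h3
      norm_num

theorem Bm_inv (h : Stg A L p C 𝔫) {m : ℕ} (hm : 1 ≤ m) : ∃ c r0 : ℕ, ∀ v : ℕ → A, Par m 𝔫 v →
    ∀ r, r0 ≤ r → ∃ Γ : Matrix (Fin (m + 1)) (Fin (m + 1)) L,
      (∀ i j, In A p (-(c : ℤ)) (Γ i j)) ∧ Bm L p m v r * Γ = 1 ∧ Γ * Bm L p m v r = 1 := by
  have hp := h.neL (L := L)
  obtain ⟨c, hc⟩ := cc_bound (L := L) h m
  obtain ⟨s0, hs0⟩ := pow_small h 1
  refine ⟨c, s0, fun v hv r hr => ?_⟩
  -- the integral lower unitriangular matrix
  have hU : ∀ j' j : Fin (m + 1), ∃ a : A, yc p (fun i => algebraMap A L (v i))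
      (r * (m + 1) + (j : ℕ)) (r * (m + 1) + (j' : ℕ)) = algebraMap A L a := by
    intro j' j
    have h0 : In A p 0 (yc p (fun i => algebraMap A L (v i))
      (r * (m + 1) + (j : ℕ)) (r * (m + 1) + (j' : ℕ))) := by
      rw [yc]
      split_ifs with hlt
      · exact In.zero p _
      · have hw : (fun l => algebraMap A L (v l) ^ p ^ (r * (m + 1) + (j : ℕ))) =
            fun l => algebraMap A L (v l ^ p ^ (r * (m + 1) + (j : ℕ))) := by
          funext l
          rw [map_pow]
        rw [hw]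
        refine lg_small hp (m := m) (fun i hi => ?_) h.prime.pos _ ?_
        · have h1 := hs0 (v i) (hv.low i hi) (r * (m + 1) + (j : ℕ)) (by
            have h2 : r ≤ r * (m + 1) := Nat.le_mul_of_pos_right r (Nat.succ_pos m)
            omega)
          rwa [pow_one] at h1
        · have h1 := j'.2
          omega
    obtain ⟨a, ha⟩ := h0
    exact ⟨a, by rw [ha, zpow_zero, one_mul]⟩
  choose U hU using hU
  have hdet : (Matrix.of U).det = 1 := by
    have hT : (Matrix.of U).BlockTriangular OrderDual.toDual := by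
      intro j' j hlt
      have hlt' : (j' : ℕ) < (j : ℕ) := hlt
      apply h.inj
      rw [map_zero, Matrix.of_apply, ← hU, yc, if_pos (by omega)]
    rw [Matrix.det_of_isLowerTriangular _ hT]
    refine Finset.prod_eq_one fun j _ => ?_
    apply h.inj
    rw [map_one, Matrix.of_apply, ← hU, yc, if_neg (lt_irrefl _), Nat.sub_self, lg, hz_zero,
      pow_zero, div_one]
  have hUV : Matrix.of U * (Matrix.of U).adjugate = 1 := by
    rw [Matrix.mul_adjugate, hdet, one_smul]
  -- mapped to `L`
  have hUVL : (Matrix.of U).map (algebraMap A L) * ((Matrix.of U).adjugate).map (algebraMap A L) =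
      1 := by
    have h1 := congrArg (fun M => M.map (algebraMap A L)) hUV
    simp only [Matrix.map_mul] at h1
    rw [h1, Matrix.map_one _ (map_zero _) (map_one _)]
  -- the matrix of the coefficients
  set Cm : Matrix (Fin (m + 1)) (Fin (m + 1)) L :=
    fun i j => algebraMap A L (cc p m v (r * (m + 1) + (j : ℕ)) (i : ℕ)) with hCm
  have hBC : Bm L p m v r * Cm = (p : L) ^ r • (Matrix.of U).map (algebraMap A L) := by
    ext j' j
    rw [Matrix.mul_apply, Matrix.smul_apply, Matrix.map_apply, Matrix.of_apply, ← hU,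
      yc_eq h hv (by have := j.2; omega), Finset.sum_range, smul_eq_mul, Finset.mul_sum]
    refine Finset.sum_congr rfl fun i _ => ?_
    show (p : L) ^ r * yc p (fun i => algebraMap A L (v i)) i.val (r * (m + 1) + j'.val) *
      algebraMap A L (cc p m v (r * (m + 1) + (j : ℕ)) (i : ℕ)) = _
    ring
  have hpr : (p : L) ^ r ≠ 0 := pow_ne_zero _ hp
  have hone : Bm L p m v r * (((p : L) ^ r)⁻¹ •
      (Cm * ((Matrix.of U).adjugate).map (algebraMap A L))) = 1 := by
    rw [Matrix.mul_smul, ← Matrix.mul_assoc, hBC, Matrix.smul_mul, hUVL, smul_smul,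
      inv_mul_cancel₀ hpr, one_smul]
  refine ⟨_, fun i j => ?_, hone, mul_eq_one_comm.1 hone⟩
  rw [Matrix.smul_apply, Matrix.mul_apply, smul_eq_mul]
  have h1 : In A p ((r : ℤ) - (c : ℤ)) (∑ l, Cm i l *
      ((Matrix.of U).adjugate).map (algebraMap A L) l j) := by
    refine In.sum fun l _ => ?_
    have h2 := In.mul hp (hc v hv (r * (m + 1) + (l : ℕ)) (i : ℕ))
      (In.alg (L := L) p ((Matrix.of U).adjugate l j))
    refine In.mono hp ?_ h2
    have h3 : r ≤ (r * (m + 1) + (l : ℕ)) / (m + 1) :=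
      (Nat.le_div_iff_mul_le (Nat.succ_pos m)).2 (Nat.le_add_right _ _)
    have h4 : (r : ℤ) ≤ (((r * (m + 1) + (l : ℕ)) / (m + 1) : ℕ) : ℤ) := by exact_mod_cast h3
    push_cast at h4 ⊢
    linarith
  have h2 := In.mul hp (In.zpow (A := A) (L := L) p (-(r : ℤ))) h1
  rw [_root_.zpow_neg, _root_.zpow_natCast] at h2
  refine In.mono hp (le_of_eq ?_) h2
  ring

end Pool.Agent.H40.CH3
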