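import Pool.Agent.H40.CH3.An2

/-!
# AN3: the difference formula (etaleness of the period map)

`hh x y s * (y - x) = y ^ (p ^ s) - x ^ (p ^ s)`.  For two parameter systems `v, v'` with logarithms
`l, l'`: `D_k = l'_k - l_k` satisfies
`p D_k = ∑_(j<k) v_(k-j) ^ (p^j) D_j + ∑_(j<k) l'_j (v'_(k-j) ^ (p^j) - v_(k-j) ^ (p^j))`, so
`p D_M = ∑_(k ≤ M) yc v k M * (∑_(j<k) l'_j (v'_(k-j)^(p^j) - v_(k-j)^(p^j)))`
`= ∑_i d_i ∑_s l'_s hh(v_i, v'_i, s) yc v (i+s) M` (`i = k - j`, `s = j`; `d_i = 0` for `i > m`),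
and `yc v (i+s) M = ∑_l cc v (i+s) l * yc v l M` by `yc_eq`.
-/

open Finset Matrix

namespace Pool.Agent.H40.CH3

variable {A L : Type*} [CommRing A] [Field L] [Algebra A L] {p C : ℕ} {𝔫 : Ideal A}

/-- `(y ^ (p ^ s) - x ^ (p ^ s)) / (y - x)` -/
def hh {R : Type*} [CommRing R] (p : ℕ) (x y : R) (s : ℕ) : R :=
  ∑ a ∈ range (p ^ s), y ^ a * x ^ (p ^ s - 1 - a)

theorem hh_mul {R : Type*} [CommRing R] (p : ℕ) (x y : R) (s : ℕ) :
    hh p x y s * (y - x) = y ^ p ^ s - x ^ p ^ s :=
  (Commute.all y x).geom_sum₂_mul _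

/-- the matrix of the differential of the period map (difference version) -/
noncomputable def SL (L : Type*) [Field L] [Algebra A L] (p m : ℕ) (v v' : ℕ → A) (r : ℕ)
    (i : Fin m) (l : Fin (m + 1)) : L :=
  ∑ s ∈ range ((r + 1) * (m + 1) - (i.val + 1)),
    lg p (fun i => algebraMap A L (v' i)) s *
      algebraMap A L (hh p (v (i.val + 1)) (v' (i.val + 1)) s * cc p m v (i.val + 1 + s) l.val)

private theorem yc_self (p : ℕ) (w : ℕ → L) (k : ℕ) : yc p w k k = 1 := by
  rw [yc, if_neg (lt_irrefl k), Nat.sub_self, lg, hz_zero, pow_zero, div_one]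

private theorem yc_nil (p : ℕ) (w : ℕ → L) {k M : ℕ} (hk : M < k) : yc p w k M = 0 := by
  rw [yc, if_pos hk]

private theorem yc_col (hp : (p : L) ≠ 0) (w : ℕ → L) {k M : ℕ} (hk : k ≤ M) :
    (p : L) * yc p w k (M + 1) = ∑ j ∈ range (M + 1), w (M + 1 - j) ^ p ^ j * yc p w k j := by
  obtain ⟨N, rfl⟩ : ∃ N, M = k + N := ⟨M - k, by omega⟩
  rw [yc, if_neg (by omega)]
  have h1 : k + N + 1 - k = N + 1 := by omega
  rw [h1, lg_succ hp, show k + N + 1 = k + (N + 1) from rfl,
    Finset.sum_range_add (fun j => w (k + (N + 1) - j) ^ p ^ j * yc p w k j) k (N + 1)]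
  rw [Finset.sum_eq_zero (s := range k)]
  · rw [zero_add]
    refine Finset.sum_congr rfl fun j hj => ?_
    have hj' := Finset.mem_range.1 hj
    have h2 : k + (N + 1) - (k + j) = N + 1 - j := by omega
    rw [yc, if_neg (by omega), Nat.add_sub_cancel_left, h2, ← pow_mul, ← pow_add]
  · intro j hj
    rw [yc_nil p w (Finset.mem_range.1 hj), mul_zero]

private theorem solve (hp : (p : L) ≠ 0) (w D E : ℕ → L) (hD : D 0 = 0) (hE : E 0 = 0)
    (hr : ∀ k, (p : L) * D (k + 1) = ∑ j ∈ range (k + 1), w (k + 1 - j) ^ p ^ j * D j + E (k + 1))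
    (M : ℕ) : (p : L) * D M = ∑ k ∈ range (M + 1), yc p w k M * E k := by
  induction M using Nat.strong_induction_on with
  | _ M ih =>
    cases M with
    | zero => rw [hD, mul_zero, zero_add, Finset.sum_range_one, hE, mul_zero]
    | succ M =>
      apply mul_left_cancel₀ hp
      rw [hr M, mul_add, Finset.sum_range_succ _ (M + 1), yc_self, one_mul, mul_add]
      refine congrArg₂ (· + ·) ?_ rfl
      have h1 : (p : L) * ∑ j ∈ range (M + 1), w (M + 1 - j) ^ p ^ j * D j =
          ∑ j ∈ range (M + 1), ∑ k ∈ range (M + 1), w (M + 1 - j) ^ p ^ j * yc p w k j * E k := by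
        rw [Finset.mul_sum]
        refine Finset.sum_congr rfl fun j hj => ?_
        have hj' := Finset.mem_range.1 hj
        have h2 : (p : L) * (w (M + 1 - j) ^ p ^ j * D j) = w (M + 1 - j) ^ p ^ j * (p * D j) := by
          ring
        rw [h2, ih j hj', Finset.mul_sum]
        rw [Finset.sum_subset (Finset.range_mono (by omega : j + 1 ≤ M + 1))]
        · refine Finset.sum_congr rfl fun k _ => ?_
          ring
        · intro k _ hk
          have hk' : j < k := Nat.lt_of_succ_le (not_lt.1 fun h' => hk (Finset.mem_range.2 h'))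
          rw [yc_nil p w hk', zero_mul, mul_zero]
      have h3 : (p : L) * ∑ k ∈ range (M + 1), yc p w k (M + 1) * E k =
          ∑ k ∈ range (M + 1), ∑ j ∈ range (M + 1), w (M + 1 - j) ^ p ^ j * yc p w k j * E k := by
        rw [Finset.mul_sum]
        refine Finset.sum_congr rfl fun k hk => ?_
        have hk' := Finset.mem_range.1 hk
        rw [← mul_assoc, yc_col hp w (by omega : k ≤ M), Finset.sum_mul]
      rw [h1, h3, Finset.sum_comm]

private theorem reidx (G : ℕ → ℕ → L) (T : ℕ) :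
    ∑ k ∈ range T, ∑ s ∈ range k, G k s =
      ∑ i ∈ range T, ∑ s ∈ range (T - (i + 1)), G (i + 1 + s) s := by
  rw [Finset.sum_comm' (s' := fun s => Finset.Ico (s + 1) T) (t' := range T) (by
    intro x y
    rw [Finset.mem_range, Finset.mem_range, Finset.mem_range, Finset.mem_Ico]
    omega)]
  have h1 : ∀ s ∈ range T, ∑ k ∈ Finset.Ico (s + 1) T, G k s =
      ∑ i ∈ range (T - (s + 1)), G (i + 1 + s) s := by
    intro s _
    rw [Finset.sum_Ico_eq_sum_range]
    refine Finset.sum_congr rfl fun i _ => ?_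
    have h2 : s + 1 + i = i + 1 + s := by omega
    rw [h2]
  rw [Finset.sum_congr rfl h1]
  rw [Finset.sum_comm' (s' := fun i => range (T - (i + 1))) (t' := range T) (by
    intro x y
    rw [Finset.mem_range, Finset.mem_range, Finset.mem_range, Finset.mem_range]
    omega)]

private theorem reidx2 (F : ℕ → ℕ → L) (T : ℕ) :
    ∑ k ∈ range T, ∑ s ∈ range k, F (k - s) s =
      ∑ i ∈ range T, ∑ s ∈ range (T - (i + 1)), F (i + 1) s := by
  rw [reidx (fun k s => F (k - s) s) T]
  refine Finset.sum_congr rfl fun i _ => Finset.sum_congr rfl fun s _ => ?_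
  rw [Nat.add_sub_cancel]

theorem diff_formula (h : Stg A L p C 𝔫) {m : ℕ} (hm : 1 ≤ m) {v v' : ℕ → A} (hv : Par m 𝔫 v)
    (hv' : Par m 𝔫 v') (r : ℕ) (j : Fin (m + 1)) :
    (p : L) * ((p : L) ^ r * lg p (fun i => algebraMap A L (v' i)) (r * (m + 1) + j.val) -
        (p : L) ^ r * lg p (fun i => algebraMap A L (v i)) (r * (m + 1) + j.val)) =
      ∑ l, Bm L p m v r j l *
        ∑ i : Fin m, algebraMap A L (v' (i.val + 1) - v (i.val + 1)) * SL L p m v v' r i l := by
  have hp := h.neL (L := L)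
  set w : ℕ → L := fun i => algebraMap A L (v i) with hw
  set w' : ℕ → L := fun i => algebraMap A L (v' i) with hw'
  set M : ℕ := r * (m + 1) + j.val with hM
  set T : ℕ := (r + 1) * (m + 1) with hT
  have hTM : T = r * (m + 1) + (m + 1) := by rw [hT]; ring
  have hj := j.2
  have hMT : M < T := by omega
  -- the recursion of the difference
  have h1 := solve hp w (fun k => lg p w' k - lg p w k)
    (fun k => ∑ s ∈ range k, (w' (k - s) ^ p ^ s - w (k - s) ^ p ^ s) * lg p w' s)
    (by simp only [lg, hz_zero, pow_zero, div_one, sub_self]) (by rw [Finset.sum_range_zero])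
    (fun k => by
      rw [mul_sub, lg_succ hp, lg_succ hp, ← Finset.sum_sub_distrib, ← Finset.sum_add_distrib]
      refine Finset.sum_congr rfl fun s _ => ?_
      ring) M
  -- extend the range and reindex
  have h2 : ∑ k ∈ range (M + 1), yc p w k M *
      ∑ s ∈ range k, (w' (k - s) ^ p ^ s - w (k - s) ^ p ^ s) * lg p w' s =
      ∑ i ∈ range T, ∑ s ∈ range (T - (i + 1)),
        yc p w (i + 1 + s) M * ((w' (i + 1) ^ p ^ s - w (i + 1) ^ p ^ s) * lg p w' s) := by
    rw [Finset.sum_subset (Finset.range_mono (by omega : M + 1 ≤ T))]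
    · rw [← reidx2 (fun i s => yc p w (i + s) M * ((w' i ^ p ^ s - w i ^ p ^ s) * lg p w' s)) T]
      refine Finset.sum_congr rfl fun k _ => ?_
      rw [Finset.mul_sum]
      refine Finset.sum_congr rfl fun s hs => ?_
      have hs' := Finset.mem_range.1 hs
      rw [Nat.sub_add_cancel hs'.le]
    · intro k _ hk
      have hk' : M < k := Nat.lt_of_succ_le (not_lt.1 fun h' => hk (Finset.mem_range.2 h'))
      rw [yc_nil p w hk', zero_mul]
  -- only `i < m` contributes
  have h3 : ∑ i ∈ range T, ∑ s ∈ range (T - (i + 1)),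
        yc p w (i + 1 + s) M * ((w' (i + 1) ^ p ^ s - w (i + 1) ^ p ^ s) * lg p w' s) =
      ∑ i : Fin m, ∑ s ∈ range (T - (i.val + 1)),
        yc p w (i.val + 1 + s) M *
          ((w' (i.val + 1) ^ p ^ s - w (i.val + 1) ^ p ^ s) * lg p w' s) := by
    rw [← Finset.sum_range (fun i => ∑ s ∈ range (T - (i + 1)),
        yc p w (i + 1 + s) M * ((w' (i + 1) ^ p ^ s - w (i + 1) ^ p ^ s) * lg p w' s))]
    refine (Finset.sum_subset (Finset.range_mono (by omega : m ≤ T)) fun i _ hi => ?_).symm
    have hi' : m ≤ i := not_lt.1 fun h' => hi (Finset.mem_range.2 h')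
    refine Finset.sum_eq_zero fun s _ => ?_
    have h4 : w' (i + 1) = w (i + 1) := by
      rcases hi'.eq_or_lt with he | he
      · subst he
        rw [hw, hw']
        simp only
        rw [hv.one, hv'.one]
      · rw [hw, hw']
        simp only
        rw [hv.high _ (by omega), hv'.high _ (by omega)]
    rw [h4, sub_self, zero_mul, mul_zero]
  have h5 : (p : L) * ((p : L) ^ r * lg p w' M - (p : L) ^ r * lg p w M) =
      (p : L) ^ r * ((p : L) * (lg p w' M - lg p w M)) := by ring
  rw [h5, h1, h2, h3, Finset.mul_sum]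
  -- expand `yc` and collect
  have h6 : ∀ i : Fin m, (p : L) ^ r * ∑ s ∈ range (T - (i.val + 1)),
        yc p w (i.val + 1 + s) M *
          ((w' (i.val + 1) ^ p ^ s - w (i.val + 1) ^ p ^ s) * lg p w' s) =
      ∑ l : Fin (m + 1), Bm L p m v r j l *
        (algebraMap A L (v' (i.val + 1) - v (i.val + 1)) * SL L p m v v' r i l) := by
    intro i
    have h7 : ∀ l : Fin (m + 1), Bm L p m v r j l *
        (algebraMap A L (v' (i.val + 1) - v (i.val + 1)) * SL L p m v v' r i l) =
        ∑ s ∈ range (T - (i.val + 1)), (p : L) ^ r * (algebraMap A L (cc p m v (i.val + 1 + s) l.val) *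
          yc p w l.val M * ((w' (i.val + 1) ^ p ^ s - w (i.val + 1) ^ p ^ s) * lg p w' s)) := by
      intro l
      rw [SL, Bm, Finset.mul_sum, Finset.mul_sum]
      refine Finset.sum_congr rfl fun s _ => ?_
      have h8 : w' (i.val + 1) ^ p ^ s - w (i.val + 1) ^ p ^ s =
          algebraMap A L (hh p (v (i.val + 1)) (v' (i.val + 1)) s) *
            algebraMap A L (v' (i.val + 1) - v (i.val + 1)) := by
        rw [← map_mul, hh_mul, map_sub, map_pow, map_pow]
      rw [h8, map_mul]
      ring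
    rw [Finset.sum_congr rfl fun l _ => h7 l, Finset.sum_comm, Finset.mul_sum]
    refine Finset.sum_congr rfl fun s hs => ?_
    have hs' := Finset.mem_range.1 hs
    rw [← Finset.mul_sum, ← Finset.sum_mul]
    have h9 : yc p w (i.val + 1 + s) M = ∑ l : Fin (m + 1),
        algebraMap A L (cc p m v (i.val + 1 + s) l.val) * yc p w l.val M := by
      have h10 := yc_eq h hv (k := i.val + 1 + s) (M := M) (by omega)
      rw [Finset.sum_range] at h10
      exact h10
    rw [h9]
  rw [Finset.sum_congr rfl fun i _ => h6 i, Finset.sum_comm]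
  refine Finset.sum_congr rfl fun l _ => ?_
  rw [Finset.mul_sum]

end Pool.Agent.H40.CH3
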