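import Pool.Agent.H40.CH3.An3

/-!
# AN3b: integrality

`SL_int`: if `p ^ 2 ∣ d_i` then `hh(v_i, v'_i, s) ∈ p ^ s (v_i ^ (p^s - 1) A + p A)`
(binomial theorem: `C(p^s, j) d ^ (j-1)` is divisible by `p ^ (s - v_p(j) + 2(j-1))`, and
`2(j-1) - v_p(j) ≥ 1` for `j ≥ 2`), `l'_s ∈ p ^ (-s) A`, `cc v (i+s) l ∈ A`; the term `s = 0` is
`cc v i l = δ_(i l)`.
-/

open Finset Matrix

namespace Pool.Agent.H40.CH3

variable {A L : Type*} [CommRing A] [Field L] [Algebra A L] {p C : ℕ} {𝔫 : Ideal A}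

private theorem hh_self {R : Type*} [CommRing R] (p : ℕ) (x : R) (s : ℕ) :
    hh p x x s = (p : R) ^ s * x ^ (p ^ s - 1) := by
  rw [hh]
  have h1 : ∀ a ∈ range (p ^ s), x ^ a * x ^ (p ^ s - 1 - a) = x ^ (p ^ s - 1) := by
    intro a ha
    rw [← pow_add]
    have h2 := Finset.mem_range.1 ha
    exact congrArg _ (by omega)
  rw [Finset.sum_congr rfl h1, Finset.sum_const, Finset.card_range, nsmul_eq_mul, Nat.cast_pow]

private theorem hh_dvd {R : Type*} [CommRing R] [IsDomain R] {p : ℕ} (hp : 1 ≤ p) {x y : R}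
    (hd : (p : R) ^ 2 ∣ y - x) (s : ℕ) :
    ∃ b : R, hh p x y s = (p : R) ^ s * (x ^ (p ^ s - 1) + p * b) := by
  by_cases h0 : y - x = 0
  · refine ⟨0, ?_⟩
    rw [sub_eq_zero.1 h0, hh_self, mul_zero, add_zero]
  · obtain ⟨e, he⟩ := hd
    induction s with
    | zero =>
      refine ⟨0, ?_⟩
      rw [hh, pow_zero, pow_zero, one_mul, Nat.sub_self, Finset.sum_range_one, pow_zero,
        mul_zero, add_zero, Nat.sub_self, pow_zero, mul_one]
    | succ s ih =>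
      obtain ⟨b, hb⟩ := ih
      have hYX : y ^ p ^ s - x ^ p ^ s = hh p x y s * (y - x) := (hh_mul p x y s).symm
      have h1 : hh p x y (s + 1) =
          (∑ a ∈ range p, (y ^ p ^ s) ^ a * (x ^ p ^ s) ^ (p - 1 - a)) * hh p x y s := by
        apply mul_right_cancel₀ h0
        rw [hh_mul, mul_assoc, ← hYX, geom_sum₂_mul, ← pow_mul, ← pow_mul, ← pow_succ]
      have h2 : (y ^ p ^ s - x ^ p ^ s) ∣
          (∑ a ∈ range p, (y ^ p ^ s) ^ a * (x ^ p ^ s) ^ (p - 1 - a)) -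
            p * (x ^ p ^ s) ^ (p - 1) := by
        have h3 : (p : R) * (x ^ p ^ s) ^ (p - 1) =
            ∑ a ∈ range p, (x ^ p ^ s) ^ a * (x ^ p ^ s) ^ (p - 1 - a) := by
          have h4 := hh_self p (x ^ p ^ s) 1
          rw [hh, pow_one, pow_one] at h4
          exact h4.symm
        rw [h3, ← Finset.sum_sub_distrib]
        refine Finset.dvd_sum fun a _ => ?_
        rw [← sub_mul]
        exact Dvd.dvd.mul_right (sub_dvd_pow_sub_pow _ _ a) _
      obtain ⟨c, hc⟩ := h2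
      rw [hYX, hb, he, sub_eq_iff_eq_add] at hc
      refine ⟨b * (x ^ p ^ s) ^ (p - 1) + (p : R) ^ s * (x ^ (p ^ s - 1) + p * b) ^ 2 * e * c, ?_⟩
      have h5 : x ^ (p ^ (s + 1) - 1) = (x ^ p ^ s) ^ (p - 1) * x ^ (p ^ s - 1) := by
        rw [← pow_mul, ← pow_add]
        refine congrArg _ ?_
        obtain ⟨q, rfl⟩ : ∃ q, p = q + 1 := ⟨p - 1, by omega⟩
        have h6 : 1 ≤ (q + 1) ^ s := Nat.one_le_pow _ _ (by omega)
        rw [pow_succ, Nat.add_sub_cancel, mul_add, mul_one]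
        omega
      rw [h1, hc, hb, h5]
      ring

theorem SL_int (h : Stg A L p C 𝔫) {m : ℕ} (hm : 1 ≤ m) {v v' : ℕ → A} (hv : Par m 𝔫 v)
    (hv' : Par m 𝔫 v') (hd : ∀ i : Fin m, (p : A) ^ 2 ∣ v' (i.val + 1) - v (i.val + 1)) (r : ℕ) :
    ∃ S : Fin m → Fin (m + 1) → A, (∀ i l, algebraMap A L (S i l) = SL L p m v v' r i l) ∧
      ∀ i l, S i l - (if l.val = i.val + 1 then 1 else 0) ∈ 𝔫 := by
  have hpL := h.neL (L := L)
  have hdom : IsDomain A := h.inj.isDomain (algebraMap A L)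
  have hp1 : 1 ≤ p := h.prime.one_lt.le
  choose b hb using fun (i : Fin m) (s : ℕ) => hh_dvd hp1 (hd i) s
  refine ⟨fun i l => ∑ s ∈ range ((r + 1) * (m + 1) - (i.val + 1)),
    hz p v' s * (v (i.val + 1) ^ (p ^ s - 1) + p * b i s) * cc p m v (i.val + 1 + s) l.val,
    fun i l => ?_, fun i l => ?_⟩
  · rw [map_sum, SL]
    refine Finset.sum_congr rfl fun s _ => ?_
    rw [hb i s, lg, ← hz_map (algebraMap A L), map_mul, map_mul, map_mul, map_mul, map_pow, map_natCast]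
    have h1 : (p : L) ^ s ≠ 0 := pow_ne_zero _ hpL
    field_simp
  · obtain ⟨n, hn⟩ : ∃ n, (r + 1) * (m + 1) - (i.val + 1) = n + 1 := by
      have h1 : m + 1 ≤ (r + 1) * (m + 1) := Nat.le_mul_of_pos_left _ (Nat.succ_pos r)
      have h2 := i.2
      exact ⟨(r + 1) * (m + 1) - (i.val + 1) - 1, by omega⟩
    show ∑ s ∈ range ((r + 1) * (m + 1) - (i.val + 1)), _ - _ ∈ 𝔫
    rw [hn, Finset.sum_range_succ']
    have h0 : hz p v' 0 * (v (i.val + 1) ^ (p ^ 0 - 1) + p * b i 0) * cc p m v (i.val + 1 + 0) l.val =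
        if l.val = i.val + 1 then 1 else 0 := by
      have h1 := hb i 0
      rw [pow_zero (p : A), one_mul] at h1
      rw [← h1, hz_zero, one_mul, hh, pow_zero, Finset.sum_range_one, pow_zero, Nat.sub_self,
        Nat.sub_self, pow_zero, one_mul, one_mul, add_zero,
        cc_low p m v (show i.val + 1 ≤ m from i.2)]
      by_cases hl : l.val = i.val + 1
      · rw [if_pos hl, if_pos hl.symm]
      · rw [if_neg hl, if_neg (Ne.symm hl)]
    rw [h0, add_sub_cancel_right]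
    refine 𝔫.sum_mem fun s _ => 𝔫.mul_mem_right _ (𝔫.mul_mem_left _ (𝔫.add_mem ?_ (𝔫.mul_mem_right _ h.mem)))
    refine Ideal.pow_mem_of_mem 𝔫 (hv.low _ (show i.val + 1 ≤ m from i.2)) _ ?_
    have h1 : p ^ 1 ≤ p ^ (s + 1) := Nat.pow_le_pow_right hp1 (by omega)
    have h2 := h.prime.two_le
    rw [pow_one] at h1
    omega

end Pool.Agent.H40.CH3
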