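import Pool.Agent.H40.CH3.An3

/-!
# AN3c: continuity

`SL_lim`: `n ≥ 2`: for `s ≥ s1` the terms are in `p ^ (s - s / n - c) A` (`lg_bound`), so small for
both `v'` and `v`; for `s < s1` numerators are congruent modulo `p ^ ρ0`, denominators `p ^ s1`.
-/

open Finset Matrix

namespace Pool.Agent.H40.CH3

variable {A L : Type*} [CommRing A] [Field L] [Algebra A L] {p C : ℕ} {𝔫 : Ideal A}

private theorem lim_mul {q x x' y y' : A} (hx : q ∣ x' - x) (hy : q ∣ y' - y) :
    q ∣ x' * y' - x * y := by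
  have h1 : x' * y' - x * y = x' * (y' - y) + (x' - x) * y := by ring
  rw [h1]
  exact dvd_add (Dvd.dvd.mul_left hy _) (Dvd.dvd.mul_right hx _)

private theorem lim_hz (p : ℕ) {q : A} {v v' : ℕ → A} (h : ∀ i, 1 ≤ i → q ∣ v' i - v i) (k : ℕ) :
    q ∣ hz p v' k - hz p v k := by
  induction k using Nat.strong_induction_on with
  | _ k ih =>
    cases k with
    | zero =>
      rw [hz_zero, hz_zero, sub_self]
      exact dvd_zero q
    | succ k =>
      rw [hz_succ, hz_succ, ← Finset.sum_sub_distrib]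
      refine Finset.dvd_sum fun j hj => ?_
      have hj' := Finset.mem_range.mp hj
      refine lim_mul ?_ (ih j hj')
      refine lim_mul ?_ ?_
      · rw [sub_self]
        exact dvd_zero q
      · exact (h (k + 1 - j) (by omega)).trans (sub_dvd_pow_sub_pow _ _ _)

private theorem lim_hh (p : ℕ) {q x y : A} (h : q ∣ y - x) (s : ℕ) :
    q ∣ hh p x y s - hh p x x s := by
  unfold hh
  rw [← Finset.sum_sub_distrib]
  refine Finset.dvd_sum fun a _ => ?_
  refine lim_mul (h.trans (sub_dvd_pow_sub_pow _ _ _)) ?_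
  rw [sub_self]
  exact dvd_zero q

private theorem lim_self (p : ℕ) (x : A) (s : ℕ) :
    hh p x x s = (p : A) ^ s * x ^ (p ^ s - 1) := by
  unfold hh
  have h1 : ∀ a ∈ range (p ^ s), x ^ a * x ^ (p ^ s - 1 - a) = x ^ (p ^ s - 1) := by
    intro a ha
    have ha' := Finset.mem_range.mp ha
    rw [← pow_add]
    congr 1
    omega
  rw [Finset.sum_congr rfl h1, Finset.sum_const, Finset.card_range, nsmul_eq_mul, Nat.cast_pow]

private theorem lim_dvd [IsDomain A] (p : ℕ) {x y : A} (h : (p : A) ∣ y - x) (s : ℕ) :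
    (p : A) ^ s ∣ hh p x y s := by
  by_cases hxy : y = x
  · rw [hxy, lim_self]
    exact dvd_mul_right _ _
  have hne : y - x ≠ 0 := sub_ne_zero.2 hxy
  induction s with
  | zero =>
    rw [pow_zero]
    exact one_dvd _
  | succ s ih =>
    have h1 : hh p x y (s + 1) = hh p (x ^ p ^ s) (y ^ p ^ s) 1 * hh p x y s := by
      refine mul_right_cancel₀ hne ?_
      rw [hh_mul, mul_assoc, hh_mul, hh_mul, pow_one, ← pow_mul, ← pow_mul, ← pow_succ]
    have h2 : (p : A) ∣ hh p (x ^ p ^ s) (y ^ p ^ s) 1 := by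
      have h3 : (p : A) ∣ hh p (x ^ p ^ s) (y ^ p ^ s) 1 - hh p (x ^ p ^ s) (x ^ p ^ s) 1 :=
        lim_hh p (h.trans (sub_dvd_pow_sub_pow _ _ _)) 1
      have h4 : (p : A) ∣ hh p (x ^ p ^ s) (x ^ p ^ s) 1 := by
        rw [lim_self, pow_one]
        exact dvd_mul_right _ _
      exact (dvd_sub_left h4).1 h3
    rw [h1, pow_succ, mul_comm]
    exact mul_dvd_mul h2 ih

private theorem lim_big (h : Stg A L p C 𝔫) {m : ℕ} (hm : 1 ≤ m) {c : ℕ} {w : ℕ → A} {s : ℕ}
    (hc : In A p (-(c : ℤ)) ((p : L) ^ (s / (m + 1)) * lg p (fun i => algebraMap A L (w i)) s))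
    {a : A} (ha : (p : A) ^ s ∣ a) {M : ℕ} (hs : 2 * (M + c) ≤ s) :
    In A p M (lg p (fun i => algebraMap A L (w i)) s * algebraMap A L a) := by
  have hp := h.neL
  have h1 := In.mul hp (In.mul hp (In.zpow (A := A) (L := L) p (-((s / (m + 1) : ℕ) : ℤ))) hc)
    (In.of_dvd (L := L) ha)
  have h2 : (p : L) ^ (-((s / (m + 1) : ℕ) : ℤ)) *
      ((p : L) ^ (s / (m + 1)) * lg p (fun i => algebraMap A L (w i)) s) =
      lg p (fun i => algebraMap A L (w i)) s := by
    rw [← mul_assoc, _root_.zpow_neg, zpow_natCast, inv_mul_cancel₀ (pow_ne_zero _ hp), one_mul]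
  rw [h2] at h1
  refine In.mono hp ?_ h1
  have h3 : s / (m + 1) ≤ s / 2 := Nat.div_le_div_left (by omega) (by norm_num)
  have h4 : s / 2 + s / 2 ≤ s := by omega
  omega

private theorem lim_small (h : Stg A L p C 𝔫) {w w' : ℕ → A} {s ρ M : ℕ} {a a' : A}
    (hw : (p : A) ^ ρ ∣ hz p w' s - hz p w s) (ha : (p : A) ^ ρ ∣ a' - a) (hM : M + s ≤ ρ) :
    In A p M (lg p (fun i => algebraMap A L (w' i)) s * algebraMap A L a' -
      lg p (fun i => algebraMap A L (w i)) s * algebraMap A L a) := by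
  have hp := h.neL
  have h1 : lg p (fun i => algebraMap A L (w' i)) s * algebraMap A L a' -
      lg p (fun i => algebraMap A L (w i)) s * algebraMap A L a =
      (p : L) ^ (-(s : ℤ)) * algebraMap A L (hz p w' s * a' - hz p w s * a) := by
    unfold lg
    rw [← hz_map, ← hz_map, map_sub, map_mul, map_mul, _root_.zpow_neg, zpow_natCast]
    ring
  rw [h1]
  have h2 := In.mul hp (In.zpow (A := A) (L := L) p (-(s : ℤ)))
    (In.of_dvd (L := L) (lim_mul hw ha))
  refine In.mono hp ?_ h2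
  omega

theorem SL_lim (h : Stg A L p C 𝔫) {m : ℕ} (hm : 1 ≤ m) (M : ℕ) : ∃ ρ0 : ℕ, ∀ v v' : ℕ → A,
    Par m 𝔫 v → Par m 𝔫 v' → (∀ i : Fin m, (p : A) ^ ρ0 ∣ v' (i.val + 1) - v (i.val + 1)) →
      ∀ r i l, In A p M (SL L p m v v' r i l - SL L p m v v r i l) := by
  have hdom : IsDomain A := h.inj.isDomain (algebraMap A L)
  obtain ⟨c, hc⟩ := lg_bound h hm
  refine ⟨M + 2 * (M + c) + 1, fun v v' hv hv' hd r i l => ?_⟩
  have hall : ∀ j, 1 ≤ j → (p : A) ^ (M + 2 * (M + c) + 1) ∣ v' j - v j := by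
    intro j hj
    rcases lt_trichotomy j (m + 1) with h1 | h1 | h1
    · have h2 := hd ⟨j - 1, by omega⟩
      have h3 : j - 1 + 1 = j := by omega
      simpa only [h3] using h2
    · rw [h1, hv.one, hv'.one, sub_self]
      exact dvd_zero _
    · rw [hv.high j h1, hv'.high j h1, sub_self]
      exact dvd_zero _
  have hp1 : ∀ j, 1 ≤ j → (p : A) ∣ v' j - v j := fun j hj =>
    (dvd_pow_self _ (by omega)).trans (hall j hj)
  unfold SL
  rw [← Finset.sum_sub_distrib]
  refine In.sum fun s _ => ?_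
  by_cases hs : 2 * (M + c) ≤ s
  · refine In.sub (lim_big h hm (hc v' hv' s) ?_ hs) (lim_big h hm (hc v hv s) ?_ hs)
    · exact Dvd.dvd.mul_right (lim_dvd p (hp1 _ (by omega)) s) _
    · refine Dvd.dvd.mul_right (lim_dvd p ?_ s) _
      rw [sub_self]
      exact dvd_zero _
  · refine lim_small h (lim_hz p hall s) (lim_mul (lim_hh p (hall _ (by omega)) s) ?_) (by omega)
    rw [sub_self]
    exact dvd_zero _

end Pool.Agent.H40.CH3
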