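import Pool.Agent.H40.CH3.An2

/-!
# AN4: the linear action in the limit

`K = n N + i0`, `k = r n + j`.  `τ_0 l_k = ∑_(i ≤ k) τ_i ^ (p^(k-i)) l'_(k-i)`; multiply by
`p ^ r = p ^ (k / n)`.  Terms: `i = 0`: `(τ_0^(p^k) - 1) λ'_k` small (`pow_cong`); `i = K`:
`τ_K ^ (p^(k-K)) ≡ z ^ (p^(k-K)) = z ^ (p^((k-K) % n))` (`pow_cong`, `z ^ (p^n) = z`), factor
`p ^ (k/n - (k-K)/n) = p ^ N` or `p ^ (N+1)`, `λ'_(k-K) ≡ λ'_(r n + e)`, `e = (j - i0) mod n`
(`lg_cauchy`); other `i ≤ k / 2`: `τ_i ^ (p^(k-i))` small; other `i > k / 2`: the factor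
`p ^ (k/n - (k-i)/n)` is small.  Everything is in `p ^ (2 N)` for `r` large (depending on `N`).
-/

open Finset

namespace Pool.Agent.H40.CH3

variable {A L : Type*} [CommRing A] [Field L] [Algebra A L] {p C : ℕ} {𝔫 : Ideal A}

private theorem rl_alg (p : ℕ) (v : ℕ → A) (k : ℕ) (hp : (p : L) ≠ 0) :
    algebraMap A L (hz p v k) = (p : L) ^ k * lg p (fun i => algebraMap A L (v i)) k := by
  unfold lg
  rw [hz_map, mul_div_cancel₀ _ (pow_ne_zero k hp)]

/-- the relation in the field -/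
private theorem rl_rel (p : ℕ) (hp : (p : L) ≠ 0) (v v' τ : ℕ → A) (k : ℕ)
    (hrel : τ 0 * hz p v k = ∑ i ∈ range (k + 1), (p : A) ^ i * hz p v' (k - i) * τ i ^ p ^ (k - i)) :
    algebraMap A L (τ 0) * lg p (fun i => algebraMap A L (v i)) k =
      ∑ i ∈ range (k + 1), lg p (fun i => algebraMap A L (v' i)) (k - i) *
        algebraMap A L (τ i ^ p ^ (k - i)) := by
  have h1 := congrArg (algebraMap A L) hrel
  rw [map_mul, map_sum, rl_alg p v k hp] at h1
  have hk : (p : L) ^ k ≠ 0 := pow_ne_zero k hp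
  apply mul_left_cancel₀ hk
  rw [← mul_assoc, mul_comm ((p : L) ^ k) (algebraMap A L (τ 0)), mul_assoc, h1, Finset.mul_sum]
  refine Finset.sum_congr rfl fun i hi => ?_
  have hik : i ≤ k := Nat.lt_succ_iff.1 (Finset.mem_range.1 hi)
  rw [map_mul, map_mul, map_pow, map_natCast, rl_alg p v' (k - i) hp, ← mul_assoc, ← mul_assoc, ← pow_add,
    Nat.add_sub_cancel' hik]

theorem rel_lim (h : Stg A L p C 𝔫) {m : ℕ} (hm : 1 ≤ m) (N : ℕ) (hN : 1 ≤ N) (i0 : ℕ)
    (hi0 : i0 ≤ m) (z : A) (hzz : z ^ p ^ (m + 1) = z) :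
    ∃ r0 : ℕ, ∀ r, r0 ≤ r → ∀ v v' : ℕ → A, Par m 𝔫 v → Par m 𝔫 v' → ∀ τ : ℕ → A,
      τ 0 - 1 ∈ 𝔫 → τ ((m + 1) * N + i0) - z ∈ 𝔫 →
      (∀ i, i ≠ 0 → i ≠ (m + 1) * N + i0 → τ i ∈ 𝔫) →
      (∀ k, τ 0 * hz p v k = ∑ i ∈ range (k + 1), (p : A) ^ i * hz p v' (k - i) *
        τ i ^ p ^ (k - i)) →
      ∀ j, j ≤ m → In A p ((2 * N : ℕ) : ℤ)
        (algebraMap A L (τ 0) *
            ((p : L) ^ r * lg p (fun i => algebraMap A L (v i)) (r * (m + 1) + j)) -
          (p : L) ^ r * lg p (fun i => algebraMap A L (v' i)) (r * (m + 1) + j) -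
          (p : L) ^ N * (algebraMap A L (z ^ p ^ ((j + (m + 1) - i0) % (m + 1))) *
            (if i0 ≤ j then 1 else (p : L)) *
            ((p : L) ^ r * lg p (fun i => algebraMap A L (v' i))
              (r * (m + 1) + (j + (m + 1) - i0) % (m + 1))))) := by
  have hp : (p : L) ≠ 0 := h.neL
  obtain ⟨c, hc⟩ := lg_bound h hm
  obtain ⟨k0, hk0⟩ := lg_cauchy h hm (2 * N)
  obtain ⟨s0, hs0⟩ := pow_cong h
  obtain ⟨s1, hs1⟩ := pow_small h (2 * N + c)
  obtain ⟨K, hKd⟩ : ∃ K, K = (m + 1) * N + i0 := ⟨_, rfl⟩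
  refine ⟨K + s0 + s1 + k0 + c + 2 * N, ?_⟩
  rw [← hKd]
  intro r hr v v' hv hv' τ h0 hK hoth hrel j hj
  have hKpos : 0 < K := by
    have h1 : 1 * 1 ≤ (m + 1) * N := Nat.mul_le_mul (by omega) hN
    omega
  obtain ⟨k, hk⟩ : ∃ k, k = r * (m + 1) + j := ⟨_, rfl⟩
  have hkr : k / (m + 1) = r := by
    rw [hk, Nat.add_comm, Nat.add_mul_div_right _ _ (by omega), Nat.div_eq_of_lt (by omega), zero_add]
  have hrk : r ≤ k := by
    rw [← hkr]
    exact Nat.div_le_self _ _
  obtain ⟨la, hla⟩ : ∃ la : ℕ → L, ∀ s, la s = (p : L) ^ (s / (m + 1)) * lg p (fun i => algebraMap A L (v' i)) s :=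
    ⟨_, fun s => rfl⟩
  have hlac : ∀ s, In A p (-(c : ℤ)) (la s) := fun s => by
    rw [hla]
    exact hc v' hv' s
  have hlr : ∀ s, s ≤ k → (p : L) ^ r * lg p (fun i => algebraMap A L (v' i)) s =
      (p : L) ^ (r - s / (m + 1)) * la s := by
    intro s hs
    have h1 : s / (m + 1) ≤ r := by
      rw [← hkr]
      exact Nat.div_le_div_right hs
    rw [hla, ← mul_assoc, pow_sub_mul_pow _ h1]
  obtain ⟨tm, htm⟩ : ∃ tm : ℕ → L, ∀ i, tm i = ((p : L) ^ r * lg p (fun i => algebraMap A L (v' i)) (k - i)) *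
      algebraMap A L (τ i ^ p ^ (k - i)) := ⟨_, fun s => rfl⟩
  have hsum : algebraMap A L (τ 0) * ((p : L) ^ r * lg p (fun i => algebraMap A L (v i)) k) =
      ∑ i ∈ range (k + 1), tm i := by
    have h1 := rl_rel p hp v v' τ k (hrel k)
    rw [mul_left_comm, h1, Finset.mul_sum]
    refine Finset.sum_congr rfl fun i _ => ?_
    rw [htm, mul_assoc]
  have hKk : K ≤ k := by omega
  have hm0 : (0 : ℕ) ∈ range (k + 1) := Finset.mem_range.2 (by omega)
  have hmK : K ∈ (range (k + 1)).erase 0 := Finset.mem_erase.2 ⟨by omega, Finset.mem_range.2 (by omega)⟩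
  rw [← Finset.add_sum_erase _ _ hm0, ← Finset.add_sum_erase _ _ hmK] at hsum
  -- the term `0`
  have t0 : In A p ((2 * N : ℕ) : ℤ) (tm 0 - (p : L) ^ r * lg p (fun i => algebraMap A L (v' i)) k) := by
    have h1 : tm 0 - (p : L) ^ r * lg p (fun i => algebraMap A L (v' i)) k =
        la k * algebraMap A L (τ 0 ^ p ^ k - 1) := by
      rw [htm, Nat.sub_zero, hlr k le_rfl, hkr, Nat.sub_self, pow_zero, one_mul, map_sub, map_one]
      ring
    rw [h1]
    have h2 := hs0 (τ 0) 1 h0 (k - s0)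
    rw [one_pow, Nat.add_sub_cancel' (by omega : s0 ≤ k)] at h2
    have h3 := In.mul hp (hlac k) (In.of_dvd (L := L) h2)
    refine In.mono hp ?_ h3
    push_cast
    omega
  -- the term `K`
  have tK : In A p ((2 * N : ℕ) : ℤ) (tm K - (p : L) ^ N *
      (algebraMap A L (z ^ p ^ ((j + (m + 1) - i0) % (m + 1))) * (if i0 ≤ j then 1 else (p : L)) *
        ((p : L) ^ r * lg p (fun i => algebraMap A L (v' i)) (r * (m + 1) + (j + (m + 1) - i0) % (m + 1))))) := by
    obtain ⟨e, he⟩ : ∃ e, e = (j + (m + 1) - i0) % (m + 1) := ⟨_, rfl⟩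
    rw [← he]
    have hem : e < m + 1 := by
      rw [he]
      exact Nat.mod_lt _ (by omega)
    have hrN : N + 1 ≤ r := by
      have h1 : 1 * N ≤ (m + 1) * N := Nat.mul_le_mul_right _ (by omega)
      have h2 : 1 * 1 ≤ (m + 1) * N := Nat.mul_le_mul (by omega) hN
      omega
    -- the quotient
    obtain ⟨u, q, hu, hq, huq⟩ : ∃ u q : ℕ, (k - K = (m + 1) * q + e) ∧ (r - q = N + u) ∧
        (p : L) ^ u = if i0 ≤ j then 1 else (p : L) := by
      by_cases hij : i0 ≤ j
      · refine ⟨0, r - N, ?_, by omega, by rw [if_pos hij, pow_zero]⟩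
        have h1 : e = j - i0 := by
          rw [he, Nat.sub_add_comm hij, Nat.add_mod_right, Nat.mod_eq_of_lt (by omega)]
        have h2 : (m + 1) * (r - N) + (m + 1) * N = (m + 1) * r := by
          rw [← Nat.mul_add, Nat.sub_add_cancel (by omega)]
        have h3 : r * (m + 1) = (m + 1) * r := Nat.mul_comm _ _
        omega
      · refine ⟨1, r - N - 1, ?_, by omega, by rw [if_neg hij, pow_one]⟩
        have h1 : e = j + (m + 1) - i0 := by
          rw [he, Nat.mod_eq_of_lt (by omega)]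
        have h2 : (m + 1) * (r - N - 1) + (m + 1) * (N + 1) = (m + 1) * r := by
          rw [← Nat.mul_add]
          congr 1
          omega
        have h3 : r * (m + 1) = (m + 1) * r := Nat.mul_comm _ _
        have h4 : (m + 1) * (N + 1) = (m + 1) * N + (m + 1) := by ring
        omega
    have hdq : (k - K) / (m + 1) = q := by
      rw [hu, Nat.add_comm, Nat.add_mul_div_left _ _ (by omega), Nat.div_eq_of_lt hem, zero_add]
    have hmq : (k - K) % (m + 1) = e := by
      rw [hu, Nat.add_comm, Nat.add_mul_mod_self_left, Nat.mod_eq_of_lt hem]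
    have hzq : ∀ q : ℕ, z ^ p ^ ((m + 1) * q) = z := by
      intro q
      induction q with
      | zero => rw [Nat.mul_zero, pow_zero, pow_one]
      | succ q ih => rw [Nat.mul_succ, pow_add, pow_mul, ih, hzz]
    have hze : z ^ p ^ (k - K) = z ^ p ^ e := by
      rw [hu, pow_add, pow_mul, hzq]
    have hre : (r * (m + 1) + e) / (m + 1) = r := by
      rw [Nat.add_comm, Nat.add_mul_div_right _ _ (by omega), Nat.div_eq_of_lt hem, zero_add]
    have hrm : (r * (m + 1) + e) % (m + 1) = e := by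
      rw [Nat.add_comm, Nat.add_mul_mod_self_right, Nat.mod_eq_of_lt hem]
    have hrr : r ≤ r * (m + 1) + e := by
      have h1 : r * 1 ≤ r * (m + 1) := Nat.mul_le_mul_left _ (by omega)
      omega
    have hl2 : (p : L) ^ r * lg p (fun i => algebraMap A L (v' i)) (r * (m + 1) + e) = la (r * (m + 1) + e) := by
      rw [hla, hre]
    have hkK : r ≤ k - K + K := by omega
    have h1 : tm K - (p : L) ^ N * (algebraMap A L (z ^ p ^ e) * (if i0 ≤ j then 1 else (p : L)) *
        ((p : L) ^ r * lg p (fun i => algebraMap A L (v' i)) (r * (m + 1) + e))) =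
        (p : L) ^ (N + u) * ((la (k - K) - la (r * (m + 1) + e)) * algebraMap A L (z ^ p ^ e) +
          la (k - K) * algebraMap A L (τ K ^ p ^ (k - K) - z ^ p ^ (k - K))) := by
      rw [htm, hlr _ (Nat.sub_le _ _), hdq, hq, hl2, ← huq, hze, map_sub]
      ring
    rw [h1]
    have h2 : In A p ((2 * N : ℕ) : ℤ) (la (k - K) - la (r * (m + 1) + e)) := by
      rw [hla, hla]
      refine hk0 v' hv' _ _ (by omega) (by omega) (by rw [hmq, hrm])
    have h3 : In A p ((2 * N : ℕ) : ℤ) ((la (k - K) - la (r * (m + 1) + e)) * algebraMap A L (z ^ p ^ e)) := by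
      have h4 := In.mul hp h2 (In.alg (L := L) p (z ^ p ^ e))
      rw [add_zero] at h4
      exact h4
    have h5 : In A p ((2 * N : ℕ) : ℤ) (la (k - K) * algebraMap A L (τ K ^ p ^ (k - K) - z ^ p ^ (k - K))) := by
      have h6 := hs0 (τ K) z hK (k - K - s0)
      rw [Nat.add_sub_cancel' (by omega : s0 ≤ k - K)] at h6
      refine In.mono hp ?_ (In.mul hp (hlac (k - K)) (In.of_dvd (L := L) h6))
      have h7 : s0 + c + 2 * N ≤ k - K := by omega
      push_cast
      omega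
    have h8 := In.mul hp (In.npow (A := A) (L := L) p (N + u)) (In.add h3 h5)
    exact In.mono hp (by omega) h8
  -- the other terms
  have tr : In A p ((2 * N : ℕ) : ℤ) (∑ i ∈ ((range (k + 1)).erase 0).erase K, tm i) := by
    refine In.sum fun i hi => ?_
    rw [Finset.mem_erase, Finset.mem_erase, Finset.mem_range] at hi
    have hτ : τ i ∈ 𝔫 := hoth i hi.2.1 hi.1
    rw [htm, hlr _ (Nat.sub_le _ _)]
    by_cases hs : s1 ≤ k - i
    · have h1 := In.mul hp (In.mul hp (In.npow (A := A) (L := L) p (r - (k - i) / (m + 1))) (hlac (k - i)))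
        (In.of_dvd (L := L) (hs1 (τ i) hτ (k - i) hs))
      refine In.mono hp ?_ h1
      push_cast
      omega
    · have h1 := In.mul hp (In.mul hp (In.npow (A := A) (L := L) p (r - (k - i) / (m + 1))) (hlac (k - i)))
        (In.alg (L := L) p (τ i ^ p ^ (k - i)))
      refine In.mono hp ?_ h1
      have h2 : (k - i) / (m + 1) ≤ k - i := Nat.div_le_self _ _
      push_cast
      omega
  have hfin := In.add (In.add t0 tK) tr
  rw [← hk, hsum]
  have e1 : ∀ a b c d e : L, a + (b + c) - d - e = (a - d) + (b - e) + c := by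
    intro a b c d e
    ring
  rw [e1]
  exact hfin

end Pool.Agent.H40.CH3
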