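import Pool.Agent.H40.CH3.An2b
import Pool.Agent.H40.CH3.An3b
import Pool.Agent.H40.CH3.An3c
import Pool.Agent.H40.CH3.An4

/-!
# AN5: conclusion of the analytic part
-/

open Finset Matrix

namespace Pool.Agent.H40.CH3

variable {A L : Type*} [CommRing A] [Field L] [Algebra A L] {p C : ℕ} {𝔫 : Ideal A}

private theorem mul' (hp : (p : L) ≠ 0) {i j k : ℤ} {x y : L} (hx : In A p i x) (hy : In A p j y)
    (hk : k ≤ i + j) : In A p k (x * y) := (In.mul hp hx hy).mono hp hk

private theorem Bm_zero (m : ℕ) (v : ℕ → A) (r : ℕ) (j : Fin (m + 1)) :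
    Bm L p m v r j 0 =
      (p : L) ^ r * lg p (fun i => algebraMap A L (v i)) (r * (m + 1) + j.val) := by
  simp [Bm, yc]

/-- a matrix congruent to the identity modulo `𝔫` is invertible -/
private theorem inv_of_cong (h : Stg A L p C 𝔫) {n : ℕ} (T : Matrix (Fin n) (Fin n) A)
    (hT : ∀ i l, T i l - (if l = i then 1 else 0) ∈ 𝔫) :
    ∃ T' : Matrix (Fin n) (Fin n) A, T * T' = 1 ∧ T' * T = 1 := by
  have hdet : IsUnit T.det := by
    refine h.unit _ fun hmem => h.top ((Ideal.eq_top_iff_one _).mpr ?_)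
    have h1 : (Ideal.Quotient.mk 𝔫) T.det = 1 := by
      have h2 : T.map (Ideal.Quotient.mk 𝔫) = 1 := by
        ext i l
        have := hT i l
        rw [← Ideal.Quotient.eq_zero_iff_mem, map_sub, sub_eq_zero] at this
        rw [Matrix.map_apply, this, Matrix.one_apply]
        by_cases hil : l = i
        · rw [if_pos hil, if_pos hil.symm, map_one]
        · rw [if_neg hil, if_neg (fun h => hil h.symm), map_zero]
      rw [RingHom.map_det, RingHom.mapMatrix_apply, h2, Matrix.det_one]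
    rw [Ideal.Quotient.eq_zero_iff_mem.mpr hmem] at h1
    rw [← Ideal.Quotient.eq_zero_iff_mem, map_one]
    exact h1.symm
  exact ⟨T⁻¹, Matrix.mul_nonsing_inv T hdet, Matrix.nonsing_inv_mul T hdet⟩

/-- the twisted coordinates -/
private noncomputable def Zf (L : Type*) [Field L] [Algebra A L] (p m i0 : ℕ) (z : A)
    (φ : Fin (m + 1) → L) (j : Fin (m + 1)) : L :=
  algebraMap A L (z ^ p ^ ((j.val + (m + 1) - i0) % (m + 1))) *
    (if i0 ≤ j.val then 1 else (p : L)) *
    φ ⟨(j.val + (m + 1) - i0) % (m + 1), Nat.mod_lt _ (Nat.succ_pos m)⟩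

private theorem step (h : Stg A L p C 𝔫) {m : ℕ} (hm : 1 ≤ m) {v v' : ℕ → A} (hv : Par m 𝔫 v)
    (hv' : Par m 𝔫 v') {τ0 z : A} {i0 : ℕ} {N r cB cG M1 E : ℕ}
    (hB : ∀ v : ℕ → A, Par m 𝔫 v → ∀ r i j, In A p (-(cB : ℤ)) (Bm L p m v r i j))
    {Γ : Matrix (Fin (m + 1)) (Fin (m + 1)) L} (hΓ : ∀ i j, In A p (-(cG : ℤ)) (Γ i j))
    (hΓB : Γ * Bm L p m v r = 1)
    (hd : ∀ i : Fin m, (p : A) ^ 2 ∣ v' (i.val + 1) - v (i.val + 1))
    (hSl : ∀ i l, In A p M1 (SL L p m v v' r i l - SL L p m v v r i l))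
    (hrel : ∀ j : Fin (m + 1), In A p ((2 * N : ℕ) : ℤ)
        (algebraMap A L τ0 * Bm L p m v r j 0 - Bm L p m v' r j 0 -
          (p : L) ^ N * Zf L p m i0 z (fun j => Bm L p m v' r j 0) j))
    {ω η : Fin m → A}
    (hω : ∀ i, algebraMap A L (ω i) = ∑ l, SL L p m v v r i l.succ * algebraMap A L (η l))
    (htay : ∀ ρ : ℕ, (∀ i : Fin m, (p : A) ^ ρ ∣ v' (i.val + 1) - v (i.val + 1)) →
        (p : A) ^ (2 * ρ) ∣ ∑ i : Fin m, ω i * (v' (i.val + 1) - v (i.val + 1)))
    (hE1 : E + cG + cB ≤ M1) (hE2 : E + 2 * cG + 2 * cB ≤ N) :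
    In A p E (∑ j, (∑ l, algebraMap A L (η l) * Γ l.succ j) *
      Zf L p m i0 z (fun j => Bm L p m v r j 0) j) := by
  have hp : (p : L) ≠ 0 := h.neL
  set B := Bm L p m v r with hBdef
  set B' := Bm L p m v' r with hB'def
  set S := SL L p m v v' r with hSdef
  set S0 := SL L p m v v r with hS0def
  set d : Fin m → L := fun i => algebraMap A L (v' (i.val + 1) - v (i.val + 1)) with hddef
  obtain ⟨SA, hSA, hSA'⟩ := SL_int h hm hv hv' hd r
  -- bound of `Z`
  have hw : ∀ j : Fin (m + 1), In A p 0 (if i0 ≤ j.val then (1 : L) else (p : L)) := by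
    intro j
    split_ifs
    · have := In.alg (L := L) p (1 : A)
      rwa [map_one] at this
    · have := In.alg (L := L) p (p : A)
      rwa [map_natCast] at this
  have hZ : ∀ (c : ℤ) (φ : Fin (m + 1) → L), (∀ j, In A p c (φ j)) → ∀ j,
      In A p c (Zf L p m i0 z φ j) := by
    intro c φ hφ j
    exact mul' hp (mul' hp (In.alg p _) (hw j) (le_refl _)) (hφ _) (by omega)
  have hZsub : ∀ (φ φ' : Fin (m + 1) → L) (j), Zf L p m i0 z φ' j - Zf L p m i0 z φ j =
      Zf L p m i0 z (fun j => φ' j - φ j) j := by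
    intro φ φ' j
    simp only [Zf]
    ring
  -- (a)
  have ha : ∀ j, (p : L) * (B' j 0 - B j 0) = ∑ l, B j l * ∑ i, d i * S i l := by
    intro j
    rw [hBdef, hB'def, Bm_zero, Bm_zero]
    exact diff_formula h hm hv hv' r j
  have ha' : ∀ l, ∑ i, d i * S i l = ∑ j, Γ l j * ((p : L) * (B' j 0 - B j 0)) := by
    intro l
    have h1 : (Γ * B).mulVec (fun l => ∑ i, d i * S i l) l = ∑ i, d i * S i l := by
      rw [hΓB, Matrix.one_mulVec]
    rw [← h1, ← Matrix.mulVec_mulVec]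
    simp only [Matrix.mulVec, dotProduct]
    refine Finset.sum_congr rfl fun j _ => ?_
    rw [ha j]
  -- (b), (c)
  have hΓφ : ∀ l : Fin m, ∑ j, Γ l.succ j * B j 0 = 0 := by
    intro l
    have := congrFun (congrFun hΓB l.succ) 0
    rw [Matrix.mul_apply] at this
    rw [this, Matrix.one_apply_ne (Fin.succ_ne_zero l)]
  set err : Fin (m + 1) → L := fun j => algebraMap A L τ0 * B j 0 - B' j 0 -
          (p : L) ^ N * Zf L p m i0 z (fun j => B' j 0) j with herr
  have hX : ∀ l : Fin m, ∑ i, d i * S i l.succ =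
      -((p : L) ^ (N + 1) * ∑ j, Γ l.succ j * Zf L p m i0 z (fun j => B' j 0) j) -
        (p : L) * ∑ j, Γ l.succ j * err j := by
    intro l
    rw [ha' l.succ]
    have h1 : ∀ j, Γ l.succ j * ((p : L) * (B' j 0 - B j 0)) =
        (p : L) * (algebraMap A L τ0 - 1) * (Γ l.succ j * B j 0) -
          (p : L) ^ (N + 1) * (Γ l.succ j * Zf L p m i0 z (fun j => B' j 0) j) -
          (p : L) * (Γ l.succ j * err j) := by
      intro j
      simp only [herr]
      ring
    rw [Finset.sum_congr rfl fun j _ => h1 j, Finset.sum_sub_distrib, Finset.sum_sub_distrib,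
      ← Finset.mul_sum, ← Finset.mul_sum, ← Finset.mul_sum, hΓφ l]
    ring
  have hXin : ∀ l : Fin m, In A p ((N : ℤ) + 1 - cG - cB) (∑ i, d i * S i l.succ) := by
    intro l
    rw [hX l]
    refine In.sub (In.neg (mul' hp (In.npow p (N + 1)) (In.sum (j := -(cG : ℤ) - cB) fun j _ =>
      mul' hp (hΓ _ _) (hZ _ _ (fun j => hB v' hv' r j 0) j) (by omega)) (by push_cast; omega)))
      (mul' hp (In.npow (A := A) (L := L) p 1 |> fun h => by simpa using h)
        (In.sum (j := -(cG : ℤ) + (2 * N : ℕ)) fun j _ =>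
        mul' hp (hΓ _ _) (hrel j) (le_refl _)) (by push_cast; omega) : In A p _ ((p : L) * _))
  -- (d)
  obtain ⟨T', hT1, hT2⟩ := inv_of_cong h (Matrix.of fun i l : Fin m => SA i l.succ) (by
    intro i l
    have := hSA' i l.succ
    rw [Matrix.of_apply]
    by_cases hil : l = i
    · rw [if_pos hil]
      rwa [if_pos (by rw [hil, Fin.val_succ])] at this
    · rw [if_neg hil]
      rwa [if_neg (by rw [Fin.val_succ]; intro h; exact hil (Fin.ext (by omega)))] at this)
  have hdin : ∀ i, In A p ((N : ℤ) + 1 - cG - cB) (d i) := by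
    intro i
    have h1 : d i = ∑ l, (∑ i, d i * S i l.succ) * algebraMap A L (T' l i) := by
      have h2 : ∀ i', ∑ l, algebraMap A L (SA i' l.succ) * algebraMap A L (T' l i) =
          if i' = i then 1 else 0 := by
        intro i'
        have := congrFun (congrFun hT1 i') i
        rw [Matrix.mul_apply, Matrix.one_apply] at this
        simp only [Matrix.of_apply] at this
        have h3 := congrArg (algebraMap A L) this
        rw [map_sum] at h3
        rw [Finset.sum_congr rfl fun l _ => (map_mul (algebraMap A L) _ _).symm, h3]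
        split_ifs <;> simp
      calc d i = ∑ i', d i' * (if i' = i then 1 else 0) := by simp
        _ = ∑ i', d i' * ∑ l, algebraMap A L (SA i' l.succ) * algebraMap A L (T' l i) := by
          refine Finset.sum_congr rfl fun i' _ => ?_
          rw [h2 i']
        _ = ∑ l, (∑ i, d i * S i l.succ) * algebraMap A L (T' l i) := by
          simp only [Finset.mul_sum, Finset.sum_mul]
          rw [Finset.sum_comm]
          refine Finset.sum_congr rfl fun l _ => Finset.sum_congr rfl fun i' _ => ?_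
          rw [hSA i' l.succ]
          ring
    rw [h1]
    exact In.sum fun l _ => mul' hp (hXin l) (In.alg p _) (by omega)
  have hSin : ∀ i l, In A p 0 (S i l) := by
    intro i l
    rw [hSdef, ← hSA i l]
    exact In.alg p _
  -- (e)
  have hφ : ∀ j, In A p ((N : ℤ) - cG - 2 * cB) (B' j 0 - B j 0) := by
    intro j
    have h1 : B' j 0 - B j 0 = (p : L) ^ (-1 : ℤ) * ∑ l, B j l * ∑ i, d i * S i l := by
      rw [← ha j, _root_.zpow_neg_one, ← mul_assoc, inv_mul_cancel₀ hp, one_mul]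
    rw [h1]
    exact mul' hp (In.zpow p (-1)) (In.sum (j := -(cB : ℤ) + (N + 1 - cG - cB)) fun l _ =>
      mul' hp (hB v hv r j l) (In.sum (j := (N : ℤ) + 1 - cG - cB) fun i _ =>
        mul' hp (hdin i) (hSin i l) (by omega)) (le_refl _)) (by omega)
  -- (g)
  have hg : ∀ l : Fin m, In A p ((N : ℤ) + 1 + E)
      ((∑ i, d i * S0 i l.succ) + (p : L) ^ (N + 1) *
        ∑ j, Γ l.succ j * Zf L p m i0 z (fun j => B j 0) j) := by
    intro l
    have h1 : (∑ i, d i * S0 i l.succ) + (p : L) ^ (N + 1) *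
        ∑ j, Γ l.succ j * Zf L p m i0 z (fun j => B j 0) j =
        -(∑ i, d i * (S i l.succ - S0 i l.succ)) -
        (p : L) ^ (N + 1) * ∑ j, Γ l.succ j * Zf L p m i0 z (fun j => B' j 0 - B j 0) j -
        (p : L) * ∑ j, Γ l.succ j * err j := by
      have h2 : ∑ i, d i * (S i l.succ - S0 i l.succ) =
          (∑ i, d i * S i l.succ) - ∑ i, d i * S0 i l.succ := by
        rw [← Finset.sum_sub_distrib]
        exact Finset.sum_congr rfl fun i _ => by ring
      have h3 : ∑ j, Γ l.succ j * Zf L p m i0 z (fun j => B' j 0 - B j 0) j =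
          (∑ j, Γ l.succ j * Zf L p m i0 z (fun j => B' j 0) j) -
            ∑ j, Γ l.succ j * Zf L p m i0 z (fun j => B j 0) j := by
        rw [← Finset.sum_sub_distrib]
        refine Finset.sum_congr rfl fun j _ => ?_
        rw [← hZsub (fun j => B j 0) (fun j => B' j 0)]
        ring
      rw [h2, h3, hX l]
      ring
    rw [h1]
    refine In.sub (In.sub (In.neg (In.sum fun i _ => mul' hp (hdin i) (hSl i l.succ) ?_))
      (mul' hp (In.npow p (N + 1)) (In.sum (j := -(cG : ℤ) + (N - cG - 2 * cB)) fun j _ =>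
        mul' hp (hΓ _ _) (hZ _ _ hφ j) (le_refl _)) ?_))
      (mul' hp (In.npow (A := A) (L := L) p 1 |> fun h => by simpa using h)
        (In.sum (j := -(cG : ℤ) + (2 * N : ℕ)) fun j _ =>
        mul' hp (hΓ _ _) (hrel j) (le_refl _)) ?_ : In A p _ ((p : L) * _))
    · omega
    · push_cast; omega
    · push_cast; omega
  -- (h)
  have hh' : In A p ((N : ℤ) + 1 + E) (∑ i, algebraMap A L (ω i) * d i) := by
    have hle : cG + cB ≤ N + 1 := by omega
    have h1 := htay (N + 1 - (cG + cB)) (by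
      intro i
      have h2 := hdin i
      have h3 : ((N : ℤ) + 1 - cG - cB) = ((N + 1 - (cG + cB) : ℕ) : ℤ) := by
        rw [Nat.cast_sub hle]; push_cast; ring
      rw [h3] at h2
      exact In.dvd h h2)
    have h2 := In.of_dvd (L := L) h1
    rw [map_sum] at h2
    have h3 : ∑ i : Fin m, algebraMap A L (ω i * (v' (i.val + 1) - v (i.val + 1))) =
        ∑ i, algebraMap A L (ω i) * d i := Finset.sum_congr rfl fun i _ => map_mul _ _ _
    rw [h3] at h2
    exact h2.mono hp (by rw [Nat.cast_mul, Nat.cast_sub hle]; push_cast; omega)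
  -- (i)
  have hi : (p : L) ^ (N + 1) * (∑ j, (∑ l, algebraMap A L (η l) * Γ l.succ j) *
      Zf L p m i0 z (fun j => B j 0) j) =
      (∑ l, algebraMap A L (η l) * ((∑ i, d i * S0 i l.succ) + (p : L) ^ (N + 1) *
        ∑ j, Γ l.succ j * Zf L p m i0 z (fun j => B j 0) j)) -
        ∑ i, algebraMap A L (ω i) * d i := by
    have h1 : ∑ i, algebraMap A L (ω i) * d i =
        ∑ l, algebraMap A L (η l) * ∑ i, d i * S0 i l.succ := by
      simp only [hω, Finset.sum_mul, Finset.mul_sum]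
      rw [Finset.sum_comm]
      exact Finset.sum_congr rfl fun l _ => Finset.sum_congr rfl fun i _ => by ring
    have h2 : ∑ j, (∑ l, algebraMap A L (η l) * Γ l.succ j) *
        Zf L p m i0 z (fun j => B j 0) j =
        ∑ l, algebraMap A L (η l) * ∑ j, Γ l.succ j * Zf L p m i0 z (fun j => B j 0) j := by
      simp only [Finset.sum_mul, Finset.mul_sum]
      rw [Finset.sum_comm]
      exact Finset.sum_congr rfl fun l _ => Finset.sum_congr rfl fun i _ => by ring
    rw [h1, h2]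
    simp only [mul_add, Finset.sum_add_distrib]
    rw [Finset.mul_sum]
    have h3 : ∀ l : Fin m, (p : L) ^ (N + 1) * (algebraMap A L (η l) *
        ∑ j, Γ l.succ j * Zf L p m i0 z (fun j => B j 0) j) =
        algebraMap A L (η l) * ((p : L) ^ (N + 1) *
        ∑ j, Γ l.succ j * Zf L p m i0 z (fun j => B j 0) j) := fun l => by ring
    rw [Finset.sum_congr rfl fun l _ => h3 l]
    ring
  have hfin : In A p ((N : ℤ) + 1 + E) ((p : L) ^ (N + 1) *
      (∑ j, (∑ l, algebraMap A L (η l) * Γ l.succ j) *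
        Zf L p m i0 z (fun j => B j 0) j)) := by
    rw [hi]
    exact In.sub (In.sum fun l _ => mul' hp (In.alg p _) (hg l) (by omega)) hh'
  have h9 := mul' hp (In.zpow (A := A) p (-((N : ℤ) + 1))) hfin
    (k := (E : ℤ)) (by omega)
  rwa [← mul_assoc, ← zpow_natCast, ← zpow_add₀ hp, Nat.cast_add, Nat.cast_one, neg_add_cancel,
    zpow_zero, one_mul] at h9

/-- Vandermonde: small values of `∑_e x_e (z_0 ^ (p ^ e)) ^ t` imply small `x_e` -/
private theorem vander (h : Stg A L p C 𝔫) {m : ℕ} (z0 : A)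
    (hz1 : ∀ e e' : ℕ, e < e' → e' ≤ m → IsUnit (z0 ^ p ^ e - z0 ^ p ^ e')) {E : ℤ}
    (x : Fin (m + 1) → L)
    (hx : ∀ t : Fin (m + 1), In A p E (∑ e : Fin (m + 1),
      algebraMap A L ((z0 ^ p ^ e.val) ^ t.val) * x e)) (e : Fin (m + 1)) : In A p E (x e) := by
  have hp : (p : L) ≠ 0 := h.neL
  set V : Matrix (Fin (m + 1)) (Fin (m + 1)) A :=
    (Matrix.vandermonde fun e : Fin (m + 1) => z0 ^ p ^ e.val) with hV
  have hdet : IsUnit V.det := by
    rw [hV, Matrix.det_vandermonde]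
    refine IsUnit.prod_iff.mpr fun i _ => IsUnit.prod_iff.mpr fun j hj => ?_
    have := hz1 i.val j.val (Fin.lt_def.mp (Finset.mem_Ioi.mp hj)) (Nat.lt_succ_iff.mp j.2)
    rw [← IsUnit.neg_iff, neg_sub]
    exact this
  have h1 : x e = ∑ t, (∑ e' : Fin (m + 1),
      algebraMap A L ((z0 ^ p ^ e'.val) ^ t.val) * x e') * algebraMap A L (V⁻¹ t e) := by
    have h2 : ∀ e' : Fin (m + 1), ∑ t : Fin (m + 1), algebraMap A L ((z0 ^ p ^ e'.val) ^ t.val) *
        algebraMap A L (V⁻¹ t e) = if e' = e then 1 else 0 := by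
      intro e'
      have h3 := congrFun (congrFun (Matrix.mul_nonsing_inv V hdet) e') e
      rw [Matrix.mul_apply, Matrix.one_apply] at h3
      have h4 := congrArg (algebraMap A L) h3
      rw [map_sum] at h4
      have h5 : ∀ t : Fin (m + 1), algebraMap A L (V e' t * V⁻¹ t e) =
          algebraMap A L ((z0 ^ p ^ e'.val) ^ t.val) * algebraMap A L (V⁻¹ t e) := by
        intro t
        rw [map_mul]
        simp only [hV, Matrix.vandermonde_apply]
      rw [Finset.sum_congr rfl fun t _ => (h5 t).symm, h4]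
      split_ifs <;> simp
    calc x e = ∑ e', x e' * (if e' = e then 1 else 0) := by simp
      _ = ∑ e', x e' * ∑ t : Fin (m + 1), algebraMap A L ((z0 ^ p ^ e'.val) ^ t.val) *
        algebraMap A L (V⁻¹ t e) := Finset.sum_congr rfl fun e' _ => by rw [h2 e']
      _ = _ := by
        simp only [Finset.mul_sum, Finset.sum_mul]
        rw [Finset.sum_comm]
        exact Finset.sum_congr rfl fun l _ => Finset.sum_congr rfl fun i _ => by ring
  rw [h1]
  exact In.sum fun t _ => mul' hp (hx t) (In.alg p _) (by omega)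

theorem analysis (h : Stg A L p C 𝔫) {m : ℕ} (hm : 1 ≤ m) {v : ℕ → A} (hv : Par m 𝔫 v)
    (ω : Fin m → A) (z0 : A) (hz0 : z0 ^ p ^ (m + 1) = z0)
    (hz1 : ∀ e e' : ℕ, e < e' → e' ≤ m → IsUnit (z0 ^ p ^ e - z0 ^ p ^ e'))
    (H : ∀ t i0 : ℕ, t ≤ m → i0 ≤ m → ∃ N0 : ℕ, ∀ N, N0 ≤ N → ∃ v' τ : ℕ → A, Par m 𝔫 v' ∧
      τ 0 - 1 ∈ 𝔫 ∧ τ ((m + 1) * N + i0) - z0 ^ t ∈ 𝔫 ∧
      (∀ i, i ≠ 0 → i ≠ (m + 1) * N + i0 → τ i ∈ 𝔫) ∧
      (∀ k, τ 0 * hz p v k = ∑ i ∈ range (k + 1), (p : A) ^ i * hz p v' (k - i) *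
        τ i ^ p ^ (k - i)) ∧
      (∀ i : Fin m, v' (i.val + 1) - v (i.val + 1) ∈ 𝔫 ^ N) ∧
      ∀ ρ : ℕ, (∀ i : Fin m, (p : A) ^ ρ ∣ v' (i.val + 1) - v (i.val + 1)) →
        (p : A) ^ (2 * ρ) ∣ ∑ i : Fin m, ω i * (v' (i.val + 1) - v (i.val + 1))) :
    ∀ i, ω i = 0 := by
  have hp : (p : L) ≠ 0 := h.neL
  obtain ⟨cB, hB⟩ := Bm_bound h hm
  obtain ⟨cG, rG, hG⟩ := Bm_inv h hm
  intro i
  refine In.eq_zero (L := L) h fun M => ?_
  set E : ℕ := M + 1 + cG + cB with hE
  set M1 : ℕ := E + cG + cB with hM1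
  obtain ⟨ρ0, hρ0⟩ := SL_lim h hm M1
  obtain ⟨N1, hN1⟩ := pow_mem_dvd h (max 2 ρ0)
  choose N0 hN0 using H
  -- a common `N`
  obtain ⟨N, hNN0, hNN1, hNE, hN1'⟩ : ∃ N : ℕ, (∀ t i0 : ℕ, ∀ (ht : t ≤ m) (hi : i0 ≤ m),
      N0 t i0 ht hi ≤ N) ∧ N1 ≤ N ∧ E + 2 * cG + 2 * cB ≤ N ∧ 1 ≤ N := by
    refine ⟨(∑ t : Fin (m + 1), ∑ i0 : Fin (m + 1), N0 t.val i0.val (Nat.lt_succ_iff.mp t.2)
      (Nat.lt_succ_iff.mp i0.2)) + N1 + (E + 2 * cG + 2 * cB) + 1, ?_, by omega, by omega,
      by omega⟩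
    intro t i0 ht hi
    have h1 : N0 t i0 ht hi ≤ ∑ i0 : Fin (m + 1), N0 t i0.val ht (Nat.lt_succ_iff.mp i0.2) :=
      Finset.single_le_sum (f := fun i0 : Fin (m + 1) => N0 t i0.val ht (Nat.lt_succ_iff.mp i0.2))
        (fun _ _ => Nat.zero_le _) (Finset.mem_univ (⟨i0, Nat.lt_succ_iff.mpr hi⟩ : Fin (m + 1)))
    have h2 : ∑ i0 : Fin (m + 1), N0 t i0.val ht (Nat.lt_succ_iff.mp i0.2) ≤
        ∑ t : Fin (m + 1), ∑ i0 : Fin (m + 1), N0 t.val i0.val (Nat.lt_succ_iff.mp t.2)
          (Nat.lt_succ_iff.mp i0.2) :=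
      Finset.single_le_sum (f := fun t : Fin (m + 1) => ∑ i0 : Fin (m + 1), N0 t.val i0.val
          (Nat.lt_succ_iff.mp t.2) (Nat.lt_succ_iff.mp i0.2))
        (fun _ _ => Nat.zero_le _) (Finset.mem_univ (⟨t, Nat.lt_succ_iff.mpr ht⟩ : Fin (m + 1)))
    omega
  -- a common `r`
  have hzt : ∀ t : ℕ, (z0 ^ t) ^ p ^ (m + 1) = z0 ^ t := by
    intro t
    rw [← pow_mul, mul_comm, pow_mul, hz0]
  have hrl : ∀ t i0 : ℕ, ∀ (_ : t ≤ m) (hi : i0 ≤ m), ∃ r0 : ℕ, ∀ r, r0 ≤ r → ∀ v v' : ℕ → A,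
      Par m 𝔫 v → Par m 𝔫 v' → ∀ τ : ℕ → A,
      τ 0 - 1 ∈ 𝔫 → τ ((m + 1) * N + i0) - z0 ^ t ∈ 𝔫 →
      (∀ i, i ≠ 0 → i ≠ (m + 1) * N + i0 → τ i ∈ 𝔫) →
      (∀ k, τ 0 * hz p v k = ∑ i ∈ range (k + 1), (p : A) ^ i * hz p v' (k - i) *
        τ i ^ p ^ (k - i)) →
      ∀ j, j ≤ m → In A p ((2 * N : ℕ) : ℤ)
        (algebraMap A L (τ 0) *
            ((p : L) ^ r * lg p (fun i => algebraMap A L (v i)) (r * (m + 1) + j)) -
          (p : L) ^ r * lg p (fun i => algebraMap A L (v' i)) (r * (m + 1) + j) -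
          (p : L) ^ N * (algebraMap A L ((z0 ^ t) ^ p ^ ((j + (m + 1) - i0) % (m + 1))) *
            (if i0 ≤ j then 1 else (p : L)) *
            ((p : L) ^ r * lg p (fun i => algebraMap A L (v' i))
              (r * (m + 1) + (j + (m + 1) - i0) % (m + 1))))) :=
    fun t i0 _ hi => rel_lim h hm N hN1' i0 hi (z0 ^ t) (hzt t)
  choose r0 hr0 using hrl
  obtain ⟨r, hrr0, hrG⟩ : ∃ r : ℕ, (∀ t i0 : ℕ, ∀ (ht : t ≤ m) (hi : i0 ≤ m),
      r0 t i0 ht hi ≤ r) ∧ rG ≤ r := by
    refine ⟨(∑ t : Fin (m + 1), ∑ i0 : Fin (m + 1), r0 t.val i0.val (Nat.lt_succ_iff.mp t.2)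
      (Nat.lt_succ_iff.mp i0.2)) + rG, ?_, by omega⟩
    intro t i0 ht hi
    have h1 : r0 t i0 ht hi ≤ ∑ i0 : Fin (m + 1), r0 t i0.val ht (Nat.lt_succ_iff.mp i0.2) :=
      Finset.single_le_sum (f := fun i0 : Fin (m + 1) => r0 t i0.val ht (Nat.lt_succ_iff.mp i0.2))
        (fun _ _ => Nat.zero_le _) (Finset.mem_univ (⟨i0, Nat.lt_succ_iff.mpr hi⟩ : Fin (m + 1)))
    have h2 : ∑ i0 : Fin (m + 1), r0 t i0.val ht (Nat.lt_succ_iff.mp i0.2) ≤
        ∑ t : Fin (m + 1), ∑ i0 : Fin (m + 1), r0 t.val i0.val (Nat.lt_succ_iff.mp t.2)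
          (Nat.lt_succ_iff.mp i0.2) :=
      Finset.single_le_sum (f := fun t : Fin (m + 1) => ∑ i0 : Fin (m + 1), r0 t.val i0.val
          (Nat.lt_succ_iff.mp t.2) (Nat.lt_succ_iff.mp i0.2))
        (fun _ _ => Nat.zero_le _) (Finset.mem_univ (⟨t, Nat.lt_succ_iff.mpr ht⟩ : Fin (m + 1)))
    omega
  obtain ⟨Γ, hΓ, hBΓ, hΓB⟩ := hG v hv r hrG
  set B := Bm L p m v r with hBdef
  -- the matrix at `d = 0`
  obtain ⟨S0, hS0, hS0'⟩ := SL_int h hm hv hv (fun i => by rw [sub_self]; exact dvd_zero _) r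
  obtain ⟨T', hT1, hT2⟩ := inv_of_cong h (Matrix.of fun i l : Fin m => S0 i l.succ) (by
    intro i l
    have := hS0' i l.succ
    rw [Matrix.of_apply]
    by_cases hil : l = i
    · rw [if_pos hil]
      rwa [if_pos (by rw [hil, Fin.val_succ])] at this
    · rw [if_neg hil]
      rwa [if_neg (by rw [Fin.val_succ]; intro h; exact hil (Fin.ext (by omega)))] at this)
  set η : Fin m → A := T'.mulVec ω with hη
  have hωη : ∀ i, ω i = ∑ l, S0 i l.succ * η l := by
    intro i
    have h1 : ((Matrix.of fun i l : Fin m => S0 i l.succ) * T').mulVec ω i = ω i := by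
      rw [hT1, Matrix.one_mulVec]
    rw [← Matrix.mulVec_mulVec] at h1
    rw [← h1]
    simp only [Matrix.mulVec, dotProduct, Matrix.of_apply]
    rfl
  have hωL : ∀ i, algebraMap A L (ω i) = ∑ l, SL L p m v v r i l.succ * algebraMap A L (η l) := by
    intro i
    rw [hωη i, map_sum]
    exact Finset.sum_congr rfl fun l _ => by rw [map_mul, hS0 i l.succ]
  set θ : Fin (m + 1) → L := fun j => ∑ l, algebraMap A L (η l) * Γ l.succ j with hθ
  -- the key estimate
  have hkey : ∀ t i0 : ℕ, t ≤ m → i0 ≤ m → In A p E (∑ j, θ j *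
      Zf L p m i0 (z0 ^ t) (fun j => B j 0) j) := by
    intro t i0 ht hi
    obtain ⟨v', τ, hv', h0, hK, hrest, hrec, hdn, htay⟩ := hN0 t i0 ht hi N (hNN0 t i0 ht hi)
    have hdd : ∀ i : Fin m, (p : A) ^ (max 2 ρ0) ∣ v' (i.val + 1) - v (i.val + 1) :=
      fun i => hN1 N hNN1 _ (hdn i)
    refine step h hm hv hv' (τ0 := τ 0) (z := z0 ^ t) (i0 := i0) (N := N) (r := r) (cB := cB)
      (cG := cG) (M1 := M1) (E := E) hB hΓ hΓB
      (fun i => dvd_trans (pow_dvd_pow _ (le_max_left _ _)) (hdd i))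
      (hρ0 v v' hv hv' (fun i => dvd_trans (pow_dvd_pow _ (le_max_right _ _)) (hdd i)) r) ?_ hωL
      htay (by omega) hNE
    intro j
    have := hr0 t i0 ht hi r (hrr0 t i0 ht hi) v v' hv hv' τ h0 hK hrest hrec j.val
      (Nat.lt_succ_iff.mp j.2)
    rw [Zf]
    simp only [Bm_zero]
    exact this
  -- Vandermonde
  have hθφ : ∀ j e : Fin (m + 1), In A p ((E : ℤ) - 1) (θ j * B e 0) := by
    intro j e
    -- `i0 = (j - e) mod n`
    set i0 : ℕ := (j.val + (m + 1) - e.val) % (m + 1) with hi0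
    have hi0m : i0 ≤ m := Nat.lt_succ_iff.mp (Nat.mod_lt _ (Nat.succ_pos m))
    set ef : Fin (m + 1) → Fin (m + 1) := fun j =>
      ⟨(j.val + (m + 1) - i0) % (m + 1), Nat.mod_lt _ (Nat.succ_pos m)⟩ with hef
    set jf : Fin (m + 1) → Fin (m + 1) := fun e =>
      ⟨(e.val + i0) % (m + 1), Nat.mod_lt _ (Nat.succ_pos m)⟩ with hjf
    have hmod : ∀ a : ℕ, a < 2 * (m + 1) → a % (m + 1) = if a < m + 1 then a else a - (m + 1) := by
      intro a ha
      split_ifs with h
      · exact Nat.mod_eq_of_lt h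
      · rw [Nat.mod_eq_sub_mod (by omega), Nat.mod_eq_of_lt (by omega)]
    have hej : ∀ e, ef (jf e) = e := by
      intro e
      apply Fin.ext
      simp only [hef, hjf]
      have := e.2
      rw [hmod (e.val + i0) (by omega), hmod _ (by split_ifs <;> omega)]
      split_ifs <;> omega
    have hje : ∀ j, jf (ef j) = j := by
      intro j
      apply Fin.ext
      simp only [hef, hjf]
      have := j.2
      rw [hmod (j.val + (m + 1) - i0) (by omega), hmod _ (by split_ifs <;> omega)]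
      split_ifs <;> omega
    have hjfe : jf e = j := by
      apply Fin.ext
      simp only [hjf, hi0]
      have h1 := e.2
      have h2 := j.2
      rw [hmod (j.val + (m + 1) - e.val) (by omega), hmod _ (by split_ifs <;> omega)]
      split_ifs <;> omega
    have hx := vander h z0 hz1 (E := (E : ℤ)) (fun e => θ (jf e) *
      (if i0 ≤ (jf e).val then 1 else (p : L)) * B e 0) (by
        intro t
        have h1 := hkey t.val i0 (Nat.lt_succ_iff.mp t.2) hi0m
        have h2 : ∑ j, θ j * Zf L p m i0 (z0 ^ t.val) (fun j => B j 0) j =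
            ∑ e : Fin (m + 1), algebraMap A L ((z0 ^ p ^ e.val) ^ t.val) * (θ (jf e) *
              (if i0 ≤ (jf e).val then 1 else (p : L)) * B e 0) := by
          refine Finset.sum_bij' (fun j _ => ef j) (fun e _ => jf e) (fun _ _ => Finset.mem_univ _)
            (fun _ _ => Finset.mem_univ _) (fun j _ => hje j) (fun e _ => hej e) ?_
          intro j _
          rw [hje j, Zf]
          have h3 : (z0 ^ t.val) ^ p ^ ((j.val + (m + 1) - i0) % (m + 1)) =
              (z0 ^ p ^ (ef j).val) ^ t.val := by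
            rw [← pow_mul, ← pow_mul, mul_comm]
          rw [h3]
          simp only [hef]
          ring
        rw [← h2]
        exact h1) e
    rw [hjfe] at hx
    by_cases hle : i0 ≤ j.val
    · rw [if_pos hle, mul_one] at hx
      exact hx.mono hp (by omega)
    · rw [if_neg hle] at hx
      have h1 := mul' hp (In.zpow (A := A) p (-1 : ℤ)) hx (k := (E : ℤ) - 1) (by omega)
      have h2 : (p : L) ^ (-1 : ℤ) * (θ j * (p : L) * B e 0) = θ j * B e 0 := by
        rw [_root_.zpow_neg_one]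
        field_simp
      rwa [h2] at h1
  -- `θ_j` is small
  have hθin : ∀ j, In A p ((E : ℤ) - 1 - cG) (θ j) := by
    intro j
    have h1 : θ j = ∑ e, Γ 0 e * (θ j * B e 0) := by
      have h2 := congrFun (congrFun hΓB 0) 0
      rw [Matrix.mul_apply, Matrix.one_apply_eq] at h2
      calc θ j = θ j * ∑ e, Γ 0 e * B e 0 := by rw [h2, mul_one]
        _ = _ := by
          rw [Finset.mul_sum]
          exact Finset.sum_congr rfl fun e _ => by ring
    rw [h1]
    exact In.sum fun e _ => mul' hp (hΓ 0 e) (hθφ j e) (by omega)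
  have hηin : ∀ l, In A p ((E : ℤ) - 1 - cG - cB) (algebraMap A L (η l)) := by
    intro l
    have h1 : algebraMap A L (η l) = ∑ j, θ j * B j l.succ := by
      have h2 : ∀ l', ∑ j, Γ l' j * B j l.succ = if l' = l.succ then 1 else 0 := by
        intro l'
        have h3 := congrFun (congrFun hΓB l') l.succ
        rw [Matrix.mul_apply, Matrix.one_apply] at h3
        exact h3
      calc algebraMap A L (η l) = ∑ l', algebraMap A L (η l') * (if l' = l then 1 else 0) := by simp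
        _ = ∑ l' : Fin m, algebraMap A L (η l') * ∑ j, Γ l'.succ j * B j l.succ := by
          refine Finset.sum_congr rfl fun l' _ => ?_
          rw [h2 l'.succ]
          by_cases hll : l' = l
          · rw [if_pos hll, if_pos (by rw [hll])]
          · rw [if_neg hll, if_neg (fun h => hll (Fin.succ_injective _ h))]
        _ = _ := by
          simp only [hθ, Finset.mul_sum, Finset.sum_mul]
          rw [Finset.sum_comm]
          exact Finset.sum_congr rfl fun l _ => Finset.sum_congr rfl fun i _ => by ring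
    rw [h1]
    exact In.sum fun j _ => mul' hp (hθin j) (hB v hv r j l.succ) (by omega)
  have hfin : In A p ((E : ℤ) - 1 - cG - cB) (algebraMap A L (ω i)) := by
    rw [hωη i, map_sum]
    refine In.sum fun l _ => ?_
    rw [map_mul]
    exact mul' hp (In.alg p _) (hηin l) (by omega)
  exact hfin.mono hp (by rw [hE]; push_cast; omega)

end Pool.Agent.H40.CH3
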