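import Pool.Agent.H13.CA.Defs

/-!
# Chai's Hope in mixed characteristic, primes not containing `p` (elementary Gross-Hopkins):
definitions

`W` is a discrete valuation ring with uniformiser `p` and residue map `π : W → k`
(`W = W(k)`), `R = W⟦v_1, .., v_m⟧ = MvPowerSeries (Fin m) W`, `n = m + 1`; the variable `X i`
(`i : Fin m`) is `v_(i+1)`.
-/

namespace Pool.Agent.H40.CH3

open Pool.Agent.H13.CA

section Rec

variable {A : Type*} [CommRing A]

/-- `hz p v k = p ^ k * l_k`, where `l_k` are the coefficients of the Hazewinkel logarithm with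
parameters `v_1, v_2, ..`: `l_0 = 1`, `p l_k = ∑_(j < k) l_j * v_(k-j) ^ (p ^ j)`. -/
def hz (p : ℕ) (v : ℕ → A) : ℕ → A
  | 0 => 1
  | k + 1 => ∑ j : Fin (k + 1),
      (p : A) ^ (k - j.val) * v (k + 1 - j.val) ^ p ^ j.val * hz p v j.val
  decreasing_by exact j.2

theorem hz_zero (p : ℕ) (v : ℕ → A) : hz p v 0 = 1 := by rw [hz]

theorem hz_succ (p : ℕ) (v : ℕ → A) (k : ℕ) :
    hz p v (k + 1) = ∑ j ∈ Finset.range (k + 1),
      (p : A) ^ (k - j) * v (k + 1 - j) ^ p ^ j * hz p v j := by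
  rw [hz, Finset.sum_range]

theorem hz_map {B : Type*} [CommRing B] (φ : A →+* B) (p : ℕ) (v : ℕ → A) (k : ℕ) :
    φ (hz p v k) = hz p (fun i => φ (v i)) k := by
  induction k using Nat.strong_induction_on with
  | _ k ih =>
    cases k with
    | zero => rw [hz_zero, hz_zero, map_one]
    | succ k =>
      rw [hz_succ, hz_succ, map_sum]
      refine Finset.sum_congr rfl fun j hj => ?_
      rw [map_mul, map_mul, map_pow, map_pow, map_natCast, ih j (Finset.mem_range.mp hj)]

/-- the coefficients `l_k` of the Hazewinkel logarithm, in a field -/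
def lg {L : Type*} [Field L] (p : ℕ) (v : ℕ → L) (k : ℕ) : L := hz p v k / (p : L) ^ k

/-- admissible parameters for height `m + 1`: `v_i` in the ideal `𝔫` for `i ≤ m`, `v_(m+1) = 1`,
`v_i = 0` for `i > m + 1` (`v_0` is never used). -/
structure Par (m : ℕ) (𝔫 : Ideal A) (v : ℕ → A) : Prop where
  low : ∀ i, i ≤ m → v i ∈ 𝔫
  one : v (m + 1) = 1
  high : ∀ i, m + 1 < i → v i = 0

end Rec

section Haz

variable (W : Type*) [CommRing W]

/-- the universal parameters: `vv i = X (i - 1)` for `1 ≤ i ≤ m`, `vv (m + 1) = 1`, else `0` -/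
noncomputable def vv (m : ℕ) (i : ℕ) : MvPowerSeries (Fin m) W :=
  if h : 1 ≤ i ∧ i ≤ m then MvPowerSeries.X ⟨i - 1, by omega⟩ else if i = m + 1 then 1 else 0

variable {W}

/-- `F` over `W⟦v_1, .., v_m⟧` is the `p`-typical formal group law with the Hazewinkel logarithm
`l(X) = ∑ l_k X ^ (p ^ k)`, `v_(m+1) = 1`, `v_i = 0` for `i > m + 1`. -/
structure IsHaz [IsDomain W] (p m : ℕ) (F : FormalGroup (MvPowerSeries (Fin m) W)) : Prop where
  comm : F.IsComm
  log : ∃ l : PowerSeries (FractionRing (MvPowerSeries (Fin m) W)),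
    IsHom (F.map (algebraMap (MvPowerSeries (Fin m) W) (FractionRing (MvPowerSeries (Fin m) W))))
      FormalGroup.𝔾ₐ l ∧
    (∀ k, (p : FractionRing (MvPowerSeries (Fin m) W)) ^ k * PowerSeries.coeff (p ^ k) l =
      algebraMap _ _ (hz p (vv W m) k)) ∧
    ∀ j, (∀ k, j ≠ p ^ k) → PowerSeries.coeff j l = 0

variable {k : Type*} [Field k]

/-- the residue map of `W⟦v_1, .., v_m⟧` -/
noncomputable def resd (π : W →+* k) (m : ℕ) : MvPowerSeries (Fin m) W →+* k :=
  π.comp (MvPowerSeries.constantCoeff (σ := Fin m) (R := W))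

/-- the maximal ideal `(p, v_1, .., v_m)` -/
noncomputable def mI (π : W →+* k) (m : ℕ) : Ideal (MvPowerSeries (Fin m) W) :=
  RingHom.ker (resd π m)

/-- the special fibre -/
noncomputable def spc (π : W →+* k) {m : ℕ} (F : FormalGroup (MvPowerSeries (Fin m) W)) :
    FormalGroup k := F.map (resd π m)

/-- `W` is a domain of characteristic `0` with `p` prime, residue field `k`, a lift of Frobenius and
multiplicative lifts of the elements of the field with `p ^ n` elements -/
structure IsWitt (p n : ℕ) (π : W →+* k) : Prop where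
  surj : Function.Surjective π
  ker : ∀ w, π w = 0 ↔ (p : W) ∣ w
  ne : (p : W) ≠ 0
  unit : ∀ w, π w ≠ 0 → IsUnit w
  sep : ∀ w, (∀ j : ℕ, (p : W) ^ j ∣ w) → w = 0
  frob : ∃ σ : W →+* W, ∀ w, π (σ w) = π w ^ p
  teich : ∀ a : k, a ^ p ^ n = a → ∃ z : W, π z = a ∧ z ^ p ^ n = z

/-- the sum `F(a, b)` of two series -/
noncomputable def fa {R : Type*} [CommRing R] (F : FormalGroup R) (a b : PowerSeries R) :
    PowerSeries R := MvPowerSeries.subst ![a, b] F.toPowerSeries

/-- the partial sums `∑^F_(i < k) t_i X ^ (p ^ i)` -/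
noncomputable def psum {R : Type*} [CommRing R] (F : FormalGroup R) (p : ℕ) (t : ℕ → R) :
    ℕ → PowerSeries R
  | 0 => 0
  | k + 1 => fa F (psum F p t k) (PowerSeries.C (t k) * PowerSeries.X ^ p ^ k)

/-- the endomorphism `X + z X ^ (p ^ K)` (formal sum) -/
noncomputable def thet {R : Type*} [CommRing R] (F : FormalGroup R) (p : ℕ) (z : R) (K : ℕ) :
    PowerSeries R := fa F PowerSeries.X (PowerSeries.C z * PowerSeries.X ^ p ^ K)

end Haz

section Fil

variable (A : Type*) {L : Type*} [CommRing A] [Field L] [Algebra A L]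

/-- `x ∈ p ^ j A` in the field `L` -/
def In (p : ℕ) (j : ℤ) (x : L) : Prop := ∃ a : A, x = (p : L) ^ j * algebraMap A L a

/-- the setting of the analytic part: `A ⊆ L` a local domain with maximal ideal `𝔫`, `p ≠ 0`,
`𝔫 ^ C ⊆ (p)`, `A` is `p`-adically separated -/
structure Stg (L : Type*) [Field L] [Algebra A L] (p C : ℕ) (𝔫 : Ideal A) : Prop where
  inj : Function.Injective (algebraMap A L)
  prime : p.Prime
  ne : (p : A) ≠ 0
  unit : ∀ x, x ∉ 𝔫 → IsUnit x
  top : 𝔫 ≠ ⊤
  mem : (p : A) ∈ 𝔫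
  pow : 𝔫 ^ C ≤ Ideal.span {(p : A)}
  sep : ∀ x : A, (∀ j : ℕ, (p : A) ^ j ∣ x) → x = 0

end Fil

end Pool.Agent.H40.CH3
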