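import Pool.Agent.H40.CH3.Defs
import Pool.Agent.H13.CA.Grp

/-!
# FG0: sums of series with respect to a formal group law
-/

open PowerSeries

namespace Pool.Agent.H40.CH3

open Pool.Agent.H13.CA

variable {R S : Type*} [CommRing R] [CommRing S]

theorem fa_const (F : FormalGroup R) {a b : R⟦X⟧} (ha : constantCoeff a = 0)
    (hb : constantCoeff b = 0) : constantCoeff (fa F a b) = 0 :=
  cc_F_subst F ha hb

theorem fa_map (F : FormalGroup R) (φ : R →+* S) {a b : R⟦X⟧} (ha : constantCoeff a = 0)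
    (hb : constantCoeff b = 0) :
    PowerSeries.map φ (fa F a b) = fa (F.map φ) (PowerSeries.map φ a) (PowerSeries.map φ b) :=
  map_pair (hs_zero ha) (hs_zero hb) φ F.toPowerSeries

theorem fa_zero (F : FormalGroup R) {a : R⟦X⟧} (ha : constantCoeff a = 0) : fa F a 0 = a :=
  F.add_zero (hs_zero ha)

theorem zero_fa (F : FormalGroup R) {a : R⟦X⟧} (ha : constantCoeff a = 0) : fa F 0 a = a :=
  F.zero_add (hs_zero ha)

theorem fa_comm {F : FormalGroup R} (hF : F.IsComm) {a b : R⟦X⟧} (ha : constantCoeff a = 0)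
    (hb : constantCoeff b = 0) : fa F a b = fa F b a := by
  have := hF
  exact F.comm' (hs_zero ha) (hs_zero hb)

theorem fa_assoc (F : FormalGroup R) {a b c : R⟦X⟧} (ha : constantCoeff a = 0)
    (hb : constantCoeff b = 0) (hc : constantCoeff c = 0) :
    fa F (fa F a b) c = fa F a (fa F b c) :=
  F.assoc' (hs_zero ha) (hs_zero hb) (hs_zero hc)

theorem fa_Ga (a b : R⟦X⟧) (ha : constantCoeff a = 0) (hb : constantCoeff b = 0) :
    fa FormalGroup.𝔾ₐ a b = a + b := by
  have h := hasSubst_pair (hs_zero ha) (hs_zero hb)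
  unfold fa
  rw [FormalGroup.𝔾ₐ_toPowerSeries, MvPowerSeries.subst_add h, MvPowerSeries.subst_X h,
    MvPowerSeries.subst_X h]
  rfl

/-- substitution `X ↦ c` in a sum -/
theorem fa_subst (F : FormalGroup R) {a b c : R⟦X⟧} (ha : constantCoeff a = 0)
    (hb : constantCoeff b = 0) (hc : constantCoeff c = 0) :
    PowerSeries.subst c (fa F a b) = fa F (PowerSeries.subst c a) (PowerSeries.subst c b) :=
  subst_pair (hs_zero ha) (hs_zero hb) (hs_zero hc) F.toPowerSeries

/-- a homomorphism maps sums to sums -/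
theorem hom_fa {F G : FormalGroup R} {f : R⟦X⟧} (hf : IsHom F G f) {a b : R⟦X⟧}
    (ha : constantCoeff a = 0) (hb : constantCoeff b = 0) :
    PowerSeries.subst (fa F a b) f = fa G (PowerSeries.subst a f) (PowerSeries.subst b f) :=
  hf.eval (hs_zero ha) (hs_zero hb)

/-- the sum of two homomorphisms into a commutative group is a homomorphism -/
theorem fa_hom {F G : FormalGroup R} (hG : G.IsComm) {f g : R⟦X⟧} (hf : IsHom F G f)
    (hg : IsHom F G g) : IsHom F G (fa G f g) := by
  have := hG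
  have hX0 := PowerSeries.HasSubst.X (S := R) (0 : Fin 2)
  have hX1 := PowerSeries.HasSubst.X (S := R) (1 : Fin 2)
  refine ⟨fa_const G hf.1 hg.1, ?_⟩
  unfold fa
  rw [subst_pair (hs_zero hf.1) (hs_zero hg.1) (hs_F F),
    subst_pair (hs_zero hf.1) (hs_zero hg.1) hX0, subst_pair (hs_zero hf.1) (hs_zero hg.1) hX1,
    hf.2, hg.2]
  exact congrArg Subtype.val (@add_add_add_comm (G.Point (Fin 2)) _
    ⟨PowerSeries.subst (MvPowerSeries.X 0) f, hs_subst hX0 hf.1⟩
    ⟨PowerSeries.subst (MvPowerSeries.X 1) f, hs_subst hX1 hf.1⟩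
    ⟨PowerSeries.subst (MvPowerSeries.X 0) g, hs_subst hX0 hg.1⟩
    ⟨PowerSeries.subst (MvPowerSeries.X 1) g, hs_subst hX1 hg.1⟩)

end Pool.Agent.H40.CH3
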