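import Pool.Agent.H40.CH3.Fg0b

/-!
# FG1: a pair `(g, f)` in terms of the logarithm

`l'` = image of the logarithm `l` of `F` under the extension of `a.g` to the fraction field
(`IsFractionRing.lift`); it is the logarithm of `F.map a.g`.  `l' ∘ f = t_0 l` (`hom_Ga_unique`).
By induction: `σ_k = psum (F.map a.g) p t k`, `l'(f) - l'(σ_k) = (t_0 l_k - ∑_(i<k) l'_(k-i)
t_i ^ (p^(k-i))) X ^ (p^k) + ..`, so by `lead` `f - σ_k = c_k X ^ (p^k) + ..` with the same `c_k`, which
is therefore in `R`; `t_k := c_k = coeff (p ^ k) (f - σ_k)`.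

`red_t`: reduce the congruences `f - σ_k ≡ t_k X ^ (p^k)`; `a.g` acts trivially on the residue field,
so `σ_k` reduces to the partial sum in the special fibre; strong induction on `k`.
-/

open PowerSeries

namespace Pool.Agent.H40.CH3

open Pool.Agent.H13.CA

section aux1

variable {R S : Type*} [CommRing R] [CommRing S]

private theorem coeff_sub1 {a l : R⟦X⟧} (ha : constantCoeff a = 0) (j : ℕ) :
    coeff j (PowerSeries.subst a l : R⟦X⟧) =
      ∑ d ∈ Finset.range (j + 1), coeff d l * coeff j (a ^ d) := by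
  rw [PowerSeries.coeff_subst' (hs_zero ha),
    finsum_eq_sum_of_support_subset (s := Finset.range (j + 1))]
  · rfl
  · intro d hd
    rw [Finset.coe_range, Set.mem_Iio]
    by_contra h
    apply hd
    show coeff d l • coeff j (a ^ d) = 0
    have h1 : (X : R⟦X⟧) ^ d ∣ a ^ d := pow_dvd_pow_of_dvd (PowerSeries.X_dvd_iff.2 ha) d
    rw [PowerSeries.X_pow_dvd_iff.1 h1 j (by omega), smul_zero]

private theorem cx_const1 (c : R) {q : ℕ} (hq : 0 < q) :
    constantCoeff (C c * X ^ q : R⟦X⟧) = 0 := by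
  rw [map_mul, map_pow, PowerSeries.constantCoeff_X, zero_pow hq.ne', mul_zero]

private theorem coeff_cx1 (c : R) {q : ℕ} (hq : 0 < q) (l : R⟦X⟧) (n : ℕ) :
    coeff n (PowerSeries.subst (C c * X ^ q : R⟦X⟧) l : R⟦X⟧) =
      if q ∣ n then coeff (n / q) l * c ^ (n / q) else 0 := by
  rw [coeff_sub1 (cx_const1 c hq)]
  have h1 : ∀ d, coeff n ((C c * X ^ q : R⟦X⟧) ^ d) = if n = q * d then c ^ d else 0 := by
    intro d
    rw [mul_pow, ← map_pow, ← pow_mul, PowerSeries.coeff_C_mul, PowerSeries.coeff_X_pow]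
    split_ifs with h
    · rw [mul_one]
    · rw [mul_zero]
  by_cases hd : q ∣ n
  · rw [if_pos hd]
    obtain ⟨d, rfl⟩ := hd
    rw [Nat.mul_div_cancel_left d hq, Finset.sum_eq_single d]
    · rw [h1, if_pos rfl]
    · intro b _ hb
      rw [h1, if_neg, mul_zero]
      intro h2
      exact hb (Nat.eq_of_mul_eq_mul_left hq h2).symm
    · intro h2
      exfalso
      apply h2
      rw [Finset.mem_range]
      have : 1 * d ≤ q * d := Nat.mul_le_mul_right d hq
      omega
  · rw [if_neg hd]
    refine Finset.sum_eq_zero fun d _ => ?_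
    rw [h1, if_neg, mul_zero]
    rintro rfl
    exact hd (dvd_mul_right _ _)

private theorem psum_const (F : FormalGroup R) {p : ℕ} (hp : 0 < p) (t : ℕ → R) (n : ℕ) :
    constantCoeff (psum F p t n) = 0 := by
  induction n with
  | zero => exact map_zero _
  | succ n ih => exact fa_const F ih (cx_const1 _ (pow_pos hp _))

private theorem psum_map (F : FormalGroup R) {p : ℕ} (hp : 0 < p) (t : ℕ → R) (φ : R →+* S)
    (n : ℕ) : PowerSeries.map φ (psum F p t n) = psum (F.map φ) p (fun i => φ (t i)) n := by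
  induction n with
  | zero => exact map_zero _
  | succ n ih =>
    show PowerSeries.map φ (fa F (psum F p t n) (C (t n) * X ^ p ^ n)) = _
    rw [fa_map F φ (psum_const F hp t n) (cx_const1 _ (pow_pos hp _)), ih, map_mul, map_pow,
      PowerSeries.map_X, PowerSeries.map_C]
    rfl

private theorem hom_psum {F : FormalGroup R} {l : R⟦X⟧} (hl : IsHom F FormalGroup.𝔾ₐ l) {p : ℕ}
    (hp : 0 < p) (t : ℕ → R) (n : ℕ) :
    PowerSeries.subst (psum F p t n) l =
      ∑ i ∈ Finset.range n, (PowerSeries.subst (C (t i) * X ^ p ^ i : R⟦X⟧) l : R⟦X⟧) := by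
  induction n with
  | zero =>
    rw [Finset.sum_range_zero]
    exact PowerSeries.subst_zero_of_constantCoeff_zero hl.1
  | succ n ih =>
    show PowerSeries.subst (fa F (psum F p t n) (C (t n) * X ^ p ^ n)) l = _
    rw [hom_fa hl (psum_const F hp t n) (cx_const1 _ (pow_pos hp _)),
      fa_Ga _ _ (cc_subst (psum_const F hp t n) hl.1)
        (cc_subst (cx_const1 _ (pow_pos hp _)) hl.1), ih, Finset.sum_range_succ]

/-- the next partial sum to first order -/
private theorem psum_succ_dvd (F : FormalGroup R) {p : ℕ} (hp : 0 < p) (t : ℕ → R) (n : ℕ) :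
    (X : R⟦X⟧) ^ (p ^ n + 1) ∣ psum F p t (n + 1) - psum F p t n - C (t n) * X ^ p ^ n := by
  have h1 := fa_sub_dvd F (psum_const F hp t n) (cx_const1 (t n) (pow_pos hp n))
  refine dvd_trans ?_ h1
  rw [pow_succ', mul_comm (C (t n))]
  exact mul_dvd_mul (PowerSeries.X_dvd_iff.2 (psum_const F hp t n)) (dvd_mul_right _ _)

/-- the sequence `t` -/
private theorem exists_seq (F : FormalGroup R) (p : ℕ) (f : R⟦X⟧) :
    ∃ t : ℕ → R, ∀ j, t j = coeff (p ^ j) (f - psum F p t j) := by
  let s : ℕ → R⟦X⟧ := fun j => Nat.rec 0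
    (fun k x => fa F x (C (coeff (p ^ k) (f - x)) * X ^ p ^ k)) j
  have hs : ∀ k, s (k + 1) = fa F (s k) (C (coeff (p ^ k) (f - s k)) * X ^ p ^ k) := fun k => rfl
  refine ⟨fun j => coeff (p ^ j) (f - s j), fun j => ?_⟩
  have h1 : ∀ j, psum F p (fun j => coeff (p ^ j) (f - s j)) j = s j := by
    intro j
    induction j with
    | zero => rfl
    | succ j ih => rw [hs, psum, ih]
  rw [h1]

private theorem dvd_map_iff {φ : R →+* S} (hφ : Function.Injective φ) (N : ℕ) (a : R⟦X⟧) :
    (X : S⟦X⟧) ^ N ∣ PowerSeries.map φ a ↔ (X : R⟦X⟧) ^ N ∣ a := by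
  rw [PowerSeries.X_pow_dvd_iff, PowerSeries.X_pow_dvd_iff]
  refine forall_congr' fun n => forall_congr' fun _ => ?_
  rw [PowerSeries.coeff_map]
  exact map_eq_zero_iff φ hφ

private theorem X_pow_succ_dvd {N : ℕ} {a : R⟦X⟧} (h : (X : R⟦X⟧) ^ N ∣ a) (h0 : coeff N a = 0) :
    (X : R⟦X⟧) ^ (N + 1) ∣ a := by
  rw [PowerSeries.X_pow_dvd_iff] at h ⊢
  intro n hn
  rcases Nat.lt_or_ge n N with h1 | h1
  · exact h n h1
  · have : n = N := by omega
    rw [this, h0]

/-- the main induction -/
private theorem main_ind {K : Type*} [Field K] {φ : R →+* K} (hφ : Function.Injective φ)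
    {p : ℕ} (hp : 2 ≤ p) {F : FormalGroup R} {l : K⟦X⟧}
    (hl : IsHom (F.map φ) FormalGroup.𝔾ₐ l) (hl1 : coeff 1 l = 1)
    (hlp : ∀ j, (∀ k, j ≠ p ^ k) → coeff j l = 0) {f : R⟦X⟧} (hf : constantCoeff f = 0)
    {L : K⟦X⟧} (hL : PowerSeries.subst (PowerSeries.map φ f) l = L)
    (hLp : ∀ j, (∀ k, j ≠ p ^ k) → coeff j L = 0) {t : ℕ → R}
    (ht : ∀ j, t j = coeff (p ^ j) (f - psum F p t j)) (j : ℕ) :
    (X : R⟦X⟧) ^ (p ^ j) ∣ f - psum F p t j ∧
      coeff (p ^ j) L = ∑ i ∈ Finset.range (j + 1),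
        coeff (p ^ (j - i)) l * φ (t i) ^ p ^ (j - i) := by
  have hp0 : 0 < p := by omega
  have hfc : constantCoeff (PowerSeries.map φ f) = 0 := map_hs hf φ
  have hsc : ∀ j, constantCoeff (psum (F.map φ) p (fun i => φ (t i)) j) = 0 := fun j =>
    psum_const _ hp0 _ j
  -- comparison of coefficients
  have key : ∀ j N, (X : R⟦X⟧) ^ N ∣ f - psum F p t j →
      φ (coeff N (f - psum F p t j)) = coeff N L - ∑ i ∈ Finset.range j,
        (if p ^ i ∣ N then coeff (N / p ^ i) l * φ (t i) ^ (N / p ^ i) else 0) := by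
    intro j N h
    rw [← dvd_map_iff hφ, map_sub, psum_map F hp0] at h
    have h1 := lead l hl.1 hl1 hfc (hsc j) h
    rw [PowerSeries.X_pow_dvd_iff] at h1
    have h2 := h1 N (Nat.lt_succ_self N)
    rw [map_sub, sub_eq_zero, hL, map_sub, hom_psum hl hp0, map_sum] at h2
    have h3 : ∀ i, coeff N (PowerSeries.subst (C (φ (t i)) * X ^ p ^ i : K⟦X⟧) l : K⟦X⟧) =
        if p ^ i ∣ N then coeff (N / p ^ i) l * φ (t i) ^ (N / p ^ i) else 0 := fun i =>
      coeff_cx1 _ (pow_pos hp0 i) l N
    rw [Finset.sum_congr rfl fun i _ => h3 i] at h2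
    rw [h2, ← psum_map F hp0, ← map_sub, PowerSeries.coeff_map]
  have hnp : ∀ j N, (∀ k, N ≠ p ^ k) → (X : R⟦X⟧) ^ N ∣ f - psum F p t j →
      (X : R⟦X⟧) ^ (N + 1) ∣ f - psum F p t j := by
    intro j N hN h
    refine X_pow_succ_dvd h ?_
    have h1 := key j N h
    rw [hLp N hN, Finset.sum_eq_zero, sub_zero] at h1
    · exact (map_eq_zero_iff φ hφ).1 h1
    · intro i _
      split_ifs with hd
      · rw [hlp, zero_mul]
        intro k hk
        apply hN (i + k)
        rw [pow_add, ← hk, Nat.mul_div_cancel' hd]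
      · rfl
  have hdvd : ∀ j, (X : R⟦X⟧) ^ (p ^ j) ∣ f - psum F p t j := by
    intro j
    induction j with
    | zero =>
      rw [pow_zero, pow_one]
      show X ∣ f - 0
      rw [sub_zero]
      exact PowerSeries.X_dvd_iff.2 hf
    | succ j ih =>
      have h1 : (X : R⟦X⟧) ^ (p ^ j + 1) ∣ f - psum F p t j - C (t j) * X ^ p ^ j := by
        refine X_pow_succ_dvd (dvd_sub ih (dvd_mul_left _ _)) ?_
        rw [map_sub, ← ht, PowerSeries.coeff_C_mul, PowerSeries.coeff_X_pow, if_pos rfl, mul_one,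
          sub_self]
      have h2 := psum_succ_dvd F hp0 t j
      have h3 : (X : R⟦X⟧) ^ (p ^ j + 1) ∣ f - psum F p t (j + 1) := by
        have e : f - psum F p t (j + 1) = (f - psum F p t j - C (t j) * X ^ p ^ j) -
            (psum F p t (j + 1) - psum F p t j - C (t j) * X ^ p ^ j) := by ring
        rw [e]
        exact dvd_sub h1 h2
      have h4 : ∀ N, p ^ j + 1 ≤ N → N ≤ p ^ (j + 1) →
          (X : R⟦X⟧) ^ N ∣ f - psum F p t (j + 1) := by
        intro N hN
        induction N, hN using Nat.le_induction with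
        | base => exact fun _ => h3
        | succ N hN ih2 =>
          intro hN2
          refine hnp (j + 1) N ?_ (ih2 (by omega))
          rintro k rfl
          have h5 : j < k := (Nat.pow_lt_pow_iff_right (by omega)).1 (by omega : p ^ j < p ^ k)
          have h6 : k < j + 1 :=
            (Nat.pow_lt_pow_iff_right (by omega)).1 (by omega : p ^ k < p ^ (j + 1))
          omega
      exact h4 _ (Nat.pow_lt_pow_right (by omega) (Nat.lt_succ_self j)) le_rfl
  refine ⟨hdvd j, ?_⟩
  have h1 := key j (p ^ j) (hdvd j)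
  rw [← ht, eq_sub_iff_add_eq] at h1
  rw [Finset.sum_range_succ, Nat.sub_self, pow_zero, pow_one, hl1, one_mul, ← h1, add_comm]
  congr 1
  refine Finset.sum_congr rfl fun i hi => ?_
  rw [Finset.mem_range] at hi
  have h2 : p ^ j = p ^ i * p ^ (j - i) := by rw [← pow_add]; congr 1; omega
  rw [if_pos (Dvd.intro _ h2.symm), h2, Nat.mul_div_cancel_left _ (pow_pos hp0 i)]

private theorem Ga_map (φ : R →+* S) :
    (FormalGroup.𝔾ₐ : FormalGroup R).map φ = FormalGroup.𝔾ₐ := by
  apply FormalGroup.ext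
  show MvPowerSeries.map φ (MvPowerSeries.X 0 + MvPowerSeries.X 1) =
    (MvPowerSeries.X 0 + MvPowerSeries.X 1 : MvPowerSeries (Fin 2) S)
  rw [map_add, MvPowerSeries.map_X, MvPowerSeries.map_X]

private theorem Ga_iff {F : FormalGroup R} {f : R⟦X⟧} (hf : constantCoeff f = 0) :
    IsHom F FormalGroup.𝔾ₐ f ↔ PowerSeries.subst F.toPowerSeries f =
      PowerSeries.subst (MvPowerSeries.X 0 : MvPowerSeries (Fin 2) R) f +
        PowerSeries.subst (MvPowerSeries.X 1 : MvPowerSeries (Fin 2) R) f := by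
  have hs := hasSubst_pair (hs_subst (PowerSeries.HasSubst.X (S := R) (0 : Fin 2)) hf)
    (hs_subst (PowerSeries.HasSubst.X (S := R) (1 : Fin 2)) hf)
  have h1 : MvPowerSeries.subst ![PowerSeries.subst (MvPowerSeries.X 0 : MvPowerSeries (Fin 2) R) f,
        PowerSeries.subst (MvPowerSeries.X 1 : MvPowerSeries (Fin 2) R) f]
        (FormalGroup.𝔾ₐ : FormalGroup R).toPowerSeries =
      PowerSeries.subst (MvPowerSeries.X 0 : MvPowerSeries (Fin 2) R) f +
        PowerSeries.subst (MvPowerSeries.X 1 : MvPowerSeries (Fin 2) R) f := by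
    show MvPowerSeries.subst _ (MvPowerSeries.X 0 + MvPowerSeries.X 1) = _
    rw [MvPowerSeries.subst_add hs, MvPowerSeries.subst_X hs, MvPowerSeries.subst_X hs]
    rfl
  unfold IsHom
  rw [h1]
  exact and_iff_right hf

private theorem Ga_smul {F : FormalGroup R} {f : R⟦X⟧} (hf : IsHom F FormalGroup.𝔾ₐ f) (c : R) :
    IsHom F FormalGroup.𝔾ₐ (C c * f) := by
  have h0 : constantCoeff (C c * f) = 0 := by rw [map_mul, hf.1, mul_zero]
  rw [Ga_iff h0]
  have h1 := (Ga_iff hf.1).1 hf
  have h2 : ∀ {a : MvPowerSeries (Fin 2) R}, PowerSeries.HasSubst a →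
      PowerSeries.subst a (C c * f) = MvPowerSeries.C c * PowerSeries.subst a f := by
    intro a ha
    rw [PowerSeries.subst_mul ha, PowerSeries.subst_C]
  rw [h2 (hs_F F), h2 (PowerSeries.HasSubst.X 0), h2 (PowerSeries.HasSubst.X 1), h1, mul_add]

end aux1

variable {W : Type*} [CommRing W] [IsDomain W] {k : Type*} [Field k] {π : W →+* k} {p m : ℕ}
  [Fact p.Prime]

/-- an automorphism over `W` acts trivially on the residue field -/
theorem resd_aut (hW : IsWitt p (m + 1) π)
    (g : MvPowerSeries (Fin m) W ≃ₐ[W] MvPowerSeries (Fin m) W) (x : MvPowerSeries (Fin m) W) :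
    resd π m (g x) = resd π m x := by
  have h0 : ∀ y : MvPowerSeries (Fin m) W, MvPowerSeries.constantCoeff y = 0 →
      resd π m (g y) = 0 := by
    intro y hy
    by_contra h
    have h1 : IsUnit (MvPowerSeries.constantCoeff (g y)) := hW.unit _ h
    have h2 : IsUnit (g y) := MvPowerSeries.isUnit_iff_constantCoeff.2 h1
    have h3 : IsUnit y := (MulEquiv.isUnit_map g).1 h2
    have h4 := MvPowerSeries.isUnit_iff_constantCoeff.1 h3
    rw [hy] at h4
    exact not_isUnit_zero h4
  have h1 := h0 (x - algebraMap W _ (MvPowerSeries.constantCoeff x)) (by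
    rw [map_sub, MvPowerSeries.algebraMap_apply]
    show _ - MvPowerSeries.constantCoeff (MvPowerSeries.C _) = 0
    rw [MvPowerSeries.constantCoeff_C]
    exact sub_self _)
  rw [map_sub, map_sub, g.commutes, sub_eq_zero] at h1
  rw [h1, MvPowerSeries.algebraMap_apply]
  show π (MvPowerSeries.constantCoeff (MvPowerSeries.C _)) = π (MvPowerSeries.constantCoeff x)
  rw [MvPowerSeries.constantCoeff_C]
  rfl

/-- `W` has characteristic zero -/
private theorem charZero (hW : IsWitt p (m + 1) π) : CharZero W := by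
  have hp : p.Prime := Fact.out
  have hpk : (p : k) = 0 := by
    rw [← map_natCast π]
    exact (hW.ker _).2 dvd_rfl
  refine charZero_of_inj_zero fun n hn => ?_
  by_contra hne
  -- write `n = p ^ a * b`, `p` prime to `b`
  obtain ⟨a, b, hb, rfl⟩ := Nat.exists_eq_pow_mul_and_not_dvd hne p hp.ne_one
  rw [Nat.cast_mul, Nat.cast_pow, mul_eq_zero] at hn
  rcases hn with h1 | h1
  · exact pow_ne_zero a hW.ne h1
  · have h2 : (b : k) = 0 := by rw [← map_natCast π, h1, map_zero]
    have hco : Nat.Coprime p b := (Nat.Prime.coprime_iff_not_dvd hp).2 hb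
    have h3 := Nat.gcd_eq_gcd_ab p b
    rw [hco.gcd_eq_one] at h3
    have h4 := congrArg (fun z : ℤ => (z : k)) h3
    push_cast at h4
    rw [hpk, h2, zero_mul, zero_mul, add_zero] at h4
    exact one_ne_zero h4

theorem exists_t (hW : IsWitt p (m + 1) π) {F : FormalGroup (MvPowerSeries (Fin m) W)}
    (hF : IsHaz p m F) (a : Lift W F) :
    ∃ t : ℕ → MvPowerSeries (Fin m) W,
      (∀ j, t 0 * hz p (vv W m) j = ∑ i ∈ Finset.range (j + 1),
        (p : MvPowerSeries (Fin m) W) ^ i * a.g (hz p (vv W m) (j - i)) * t i ^ p ^ (j - i)) ∧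
      ∀ j, (X : (MvPowerSeries (Fin m) W)⟦X⟧) ^ (p ^ j + 1) ∣
        a.f - psum (F.map (a.g : MvPowerSeries (Fin m) W →+* MvPowerSeries (Fin m) W)) p t j -
          C (t j) * X ^ p ^ j := by
  have hp : p.Prime := Fact.out
  obtain ⟨l, hl, hlz, hlp⟩ := hF.log
  have hW0 := charZero hW
  have hcR : CharZero (MvPowerSeries (Fin m) W) :=
    charZero_of_injective_ringHom (f := (MvPowerSeries.C : W →+* MvPowerSeries (Fin m) W))
      (fun x y hxy => by
        have h1 := congrArg (MvPowerSeries.constantCoeff (σ := Fin m) (R := W)) hxy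
        rwa [MvPowerSeries.constantCoeff_C, MvPowerSeries.constantCoeff_C] at h1)
  have hinj : Function.Injective
      (algebraMap (MvPowerSeries (Fin m) W) (FractionRing (MvPowerSeries (Fin m) W))) :=
    IsFractionRing.injective _ _
  have hcK : CharZero (FractionRing (MvPowerSeries (Fin m) W)) :=
    charZero_of_injective_ringHom hinj
  set φ := algebraMap (MvPowerSeries (Fin m) W) (FractionRing (MvPowerSeries (Fin m) W)) with hφ
  set g : MvPowerSeries (Fin m) W →+* MvPowerSeries (Fin m) W :=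
    (a.g : MvPowerSeries (Fin m) W →+* MvPowerSeries (Fin m) W) with hg
  have hgi : Function.Injective (φ.comp g) := hinj.comp a.g.injective
  let gh : FractionRing (MvPowerSeries (Fin m) W) →+* FractionRing (MvPowerSeries (Fin m) W) :=
    IsFractionRing.lift hgi
  have hgh : ∀ x, gh (φ x) = φ (a.g x) := fun x => IsFractionRing.lift_algebraMap hgi x
  have hghc : gh.comp φ = φ.comp g := RingHom.ext hgh
  -- the logarithm of `F.map a.g`
  have hl' : IsHom ((F.map g).map φ) FormalGroup.𝔾ₐ (PowerSeries.map gh l) := by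
    have h1 := hl.map gh
    rw [Ga_map, fmap_map, hghc, ← fmap_map] at h1
    exact h1
  have hl1 : coeff 1 l = 1 := by
    have h1 := hlz 0
    rw [pow_zero, pow_zero, one_mul, hz_zero, map_one] at h1
    exact h1
  have hl1' : coeff 1 (PowerSeries.map gh l) = 1 := by
    rw [PowerSeries.coeff_map, hl1, map_one]
  have hlp' : ∀ j, (∀ k, j ≠ p ^ k) → coeff j (PowerSeries.map gh l) = 0 := by
    intro j hj
    rw [PowerSeries.coeff_map, hlp j hj, map_zero]
  obtain ⟨t, ht⟩ := exists_seq (F.map g) p a.f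
  have hf0 : constantCoeff a.f = 0 := a.hom.1
  have ht0 : t 0 = coeff 1 a.f := by
    rw [ht, pow_zero]
    show coeff 1 (a.f - 0) = _
    rw [sub_zero]
  have hL : PowerSeries.subst (PowerSeries.map φ a.f) (PowerSeries.map gh l) =
      C (φ (t 0)) * l := by
    refine hom_Ga_unique ((a.hom.map φ).comp hl') (Ga_smul hl _) ?_
    rw [coeff_one_subst (map_hs hf0 φ) hl'.1, hl1', mul_one, PowerSeries.coeff_C_mul, hl1,
      mul_one, PowerSeries.coeff_map, ht0]
  have hLp : ∀ j, (∀ k, j ≠ p ^ k) → coeff j (C (φ (t 0)) * l) = 0 := by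
    intro j hj
    rw [PowerSeries.coeff_C_mul, hlp j hj, mul_zero]
  have main := fun j => main_ind hinj hp.two_le hl' hl1' hlp' hf0 hL hLp ht j
  refine ⟨t, ?_, ?_⟩
  · intro j
    apply hinj
    have h1 := (main j).2
    rw [PowerSeries.coeff_C_mul] at h1
    have h2 := congrArg (fun z => (p : FractionRing (MvPowerSeries (Fin m) W)) ^ j * z) h1
    rw [mul_left_comm, hlz, ← map_mul, Finset.mul_sum] at h2
    refine h2.trans ?_
    rw [map_sum]
    refine Finset.sum_congr rfl fun i hi => ?_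
    have hi' : i ≤ j := Nat.lt_succ_iff.1 (Finset.mem_range.1 hi)
    have h3 : (p : FractionRing (MvPowerSeries (Fin m) W)) ^ (j - i) *
        coeff (p ^ (j - i)) (PowerSeries.map gh l) = φ (a.g (hz p (vv W m) (j - i))) := by
      have h4 := congrArg gh (hlz (j - i))
      rw [map_mul, map_pow, map_natCast, ← PowerSeries.coeff_map] at h4
      rw [h4]
      exact hgh _
    have h5 : (p : FractionRing (MvPowerSeries (Fin m) W)) ^ j =
        (p : FractionRing (MvPowerSeries (Fin m) W)) ^ i *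
          (p : FractionRing (MvPowerSeries (Fin m) W)) ^ (j - i) := by
      rw [← pow_add]
      congr 1
      omega
    rw [map_mul, map_mul, map_pow, map_pow, map_natCast, ← h3, h5]
    ring
  · intro j
    refine X_pow_succ_dvd (dvd_sub (main j).1 (dvd_mul_left _ _)) ?_
    rw [map_sub, ← ht, PowerSeries.coeff_C_mul, PowerSeries.coeff_X_pow, if_pos rfl, mul_one,
      sub_self]

theorem red_t (hW : IsWitt p (m + 1) π) {F : FormalGroup (MvPowerSeries (Fin m) W)} {a : Lift W F}
    {t : ℕ → MvPowerSeries (Fin m) W}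
    (ht : ∀ j, (X : (MvPowerSeries (Fin m) W)⟦X⟧) ^ (p ^ j + 1) ∣
        a.f - psum (F.map (a.g : MvPowerSeries (Fin m) W →+* MvPowerSeries (Fin m) W)) p t j -
          C (t j) * X ^ p ^ j) {z : k} {K : ℕ} (hK : 1 ≤ K)
    (hf : PowerSeries.map (resd π m) a.f = thet (spc π F) p z K) :
    resd π m (t 0) = 1 ∧ resd π m (t K) = z ∧ ∀ i, i ≠ 0 → i ≠ K → resd π m (t i) = 0 := by
  have hp : p.Prime := Fact.out
  set Γ := spc π F with hΓ
  set τ : ℕ → k := fun i => resd π m (t i) with hτ
  have hgr : (F.map (a.g : MvPowerSeries (Fin m) W →+* MvPowerSeries (Fin m) W)).map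
      (resd π m) = Γ := by
    rw [fmap_map]
    have h1 : (resd π m).comp (a.g : MvPowerSeries (Fin m) W →+* MvPowerSeries (Fin m) W) =
        resd π m := RingHom.ext fun x => resd_aut hW a.g x
    rw [h1]
    rfl
  -- the reduced congruences
  have hred : ∀ j, (X : k⟦X⟧) ^ (p ^ j + 1) ∣ thet Γ p z K - psum Γ p τ j -
      C (τ j) * X ^ p ^ j := by
    intro j
    obtain ⟨y, hy⟩ := ht j
    refine ⟨PowerSeries.map (resd π m) y, ?_⟩
    have h1 := congrArg (PowerSeries.map (resd π m)) hy
    rw [map_sub, map_sub, map_mul, map_mul, map_pow, map_pow, PowerSeries.map_X,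
      PowerSeries.map_C, psum_map _ hp.pos, hgr, hf] at h1
    exact h1
  have hco : ∀ j, τ j = coeff (p ^ j) (thet Γ p z K - psum Γ p τ j) := by
    intro j
    have h1 := PowerSeries.X_pow_dvd_iff.1 (hred j) (p ^ j) (Nat.lt_succ_self _)
    rw [map_sub, PowerSeries.coeff_C_mul, PowerSeries.coeff_X_pow, if_pos rfl, mul_one,
      sub_eq_zero] at h1
    exact h1.symm
  have hXc : constantCoeff (X : k⟦X⟧) = 0 := PowerSeries.constantCoeff_X
  have hzc : constantCoeff (C z * X ^ p ^ K : k⟦X⟧) = 0 := cx_const1 z (pow_pos hp.pos K)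
  have hth : constantCoeff (thet Γ p z K) = 0 := fa_const Γ hXc hzc
  have hpK : 1 < p ^ K := Nat.one_lt_pow (by omega) hp.one_lt
  -- `θ = X + z X ^ (p ^ K) + ..`
  have hthe : (X : k⟦X⟧) ^ (p ^ K + 1) ∣ thet Γ p z K - X - C z * X ^ p ^ K := by
    refine dvd_trans ?_ (fa_sub_dvd Γ hXc hzc)
    rw [pow_succ', mul_comm (C z)]
    exact mul_dvd_mul dvd_rfl (dvd_mul_right _ _)
  have hthc : ∀ n, n ≤ p ^ K → coeff n (thet Γ p z K) = coeff n X + if n = p ^ K then z else 0 := by
    intro n hn
    have h1 := PowerSeries.X_pow_dvd_iff.1 hthe n (by omega)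
    rw [map_sub, map_sub, PowerSeries.coeff_C_mul, PowerSeries.coeff_X_pow, sub_sub,
      sub_eq_zero] at h1
    rw [h1]
    split_ifs
    · rw [mul_one]
    · rw [mul_zero]
  have h0 : τ 0 = 1 := by
    rw [hco, pow_zero]
    show coeff 1 (thet Γ p z K - 0) = 1
    rw [sub_zero, hthc 1 hpK.le, if_neg (by omega), add_zero, PowerSeries.coeff_one_X]
  -- partial sums up to `K`
  have h1 : ∀ j, 1 ≤ j → j ≤ K → psum Γ p τ j = X ∧ ∀ i, 1 ≤ i → i < j → τ i = 0 := by
    intro j hj
    induction j, hj using Nat.le_induction with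
    | base =>
      intro _
      refine ⟨?_, fun i h1 h2 => by omega⟩
      show fa Γ 0 (C (τ 0) * X ^ p ^ 0) = X
      rw [h0, map_one, one_mul, pow_zero, pow_one]
      exact zero_fa Γ hXc
    | succ j hj ih =>
      intro hjK
      obtain ⟨h2, h3⟩ := ih (by omega)
      have hlt : p ^ j < p ^ K := Nat.pow_lt_pow_right hp.one_lt (by omega)
      have h4 : τ j = 0 := by
        rw [hco, h2, map_sub, hthc _ hlt.le, if_neg hlt.ne, add_zero, sub_self]
      refine ⟨?_, ?_⟩
      · show fa Γ (psum Γ p τ j) (C (τ j) * X ^ p ^ j) = X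
        rw [h2, h4, map_zero, zero_mul]
        exact fa_zero Γ hXc
      · intro i hi hij
        rcases Nat.lt_or_ge i j with h | h
        · exact h3 i hi h
        · have : i = j := by omega
          rw [this]
          exact h4
  obtain ⟨h2, h3⟩ := h1 K hK le_rfl
  have h4 : τ K = z := by
    rw [hco, h2, map_sub, hthc _ le_rfl, if_pos rfl, add_sub_cancel_left]
  have h5 : ∀ j, K + 1 ≤ j → psum Γ p τ j = thet Γ p z K ∧ ∀ i, K < i → i < j → τ i = 0 := by
    intro j hj
    induction j, hj using Nat.le_induction with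
    | base =>
      refine ⟨?_, fun i h1 h2 => by omega⟩
      show fa Γ (psum Γ p τ K) (C (τ K) * X ^ p ^ K) = _
      rw [h2, h4]
      rfl
    | succ j hj ih =>
      obtain ⟨h6, h7⟩ := ih
      have h8 : τ j = 0 := by
        rw [hco, h6, sub_self, map_zero]
      refine ⟨?_, ?_⟩
      · show fa Γ (psum Γ p τ j) (C (τ j) * X ^ p ^ j) = _
        rw [h6, h8, map_zero, zero_mul]
        exact fa_zero Γ hth
      · intro i hi hij
        rcases Nat.lt_or_ge i j with h | h
        · exact h7 i hi h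
        · have : i = j := by omega
          rw [this]
          exact h8
  refine ⟨h0, h4, ?_⟩
  intro i hi hiK
  rcases Nat.lt_or_ge i K with h | h
  · exact h3 i (by omega) h
  · exact (h5 (i + 1) (by omega)).2 i (by omega) (Nat.lt_succ_self i)

end Pool.Agent.H40.CH3
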