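import Pool.Agent.H40.CH3.Fg0b

/-!
# FG2: `[p]_F ≡ ∑^F v_i X ^ (p ^ i) mod p`

Over the fraction field `l([p]_F) = p l(X) = p X + ∑_(i=1..n) l(v_i X ^ (p^i))` (the recursion).  Put
`E := [p]_F - (formal) ∑^F v_i X ^ (p^i)`, a series over `R` with `l(E) = p X`.  `E ≡ 0 mod p`: strong
induction on `j`: if `p` divides `E_i` for `i < j`, then `p ^ r` divides `coeff j (E ^ r)` for `r ≥ 2`
(compositions of `j`), so `0 = coeff j (p X) = E_j + ∑_(k≥1) l_k coeff j (E ^ (p^k))` and
`l_k p ^ (p^k) ∈ p ^ (p^k - k) R ⊆ p R`.  (To have a formal difference without an inverse series: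
compare `[p]_F` with `G := ∑^F v_i X^(p^i)` directly: `l([p]_F) - l(G) = p X`, and show
`[p]_F ≡ G mod p` by strong induction on the coefficient in the same way.)
Over `k⟦v⟧` this gives `IsLT`; in the special fibre (`v_i = 0` for `i ≤ m`, `v_(m+1) = 1`)
`[p] = X ^ (p ^ (m+1))`.
-/

open PowerSeries

namespace Pool.Agent.H40.CH3

open Pool.Agent.H13.CA

variable {W : Type*} [CommRing W] [IsDomain W] {k : Type*} [Field k] {π : W →+* k} {p m : ℕ}
  [Fact p.Prime]

/-- the formal sum `∑^F_(1 ≤ i ≤ j) v_i X ^ (p ^ i)` -/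
noncomputable def vsum {R : Type*} [CommRing R] (F : FormalGroup R) (p : ℕ) (v : ℕ → R) :
    ℕ → PowerSeries R
  | 0 => 0
  | j + 1 => fa F (vsum F p v j) (C (v (j + 1)) * X ^ p ^ (j + 1))

section aux

variable {R S : Type*} [CommRing R] [CommRing S]

private theorem coeff_sub {a l : R⟦X⟧} (ha : constantCoeff a = 0) (j : ℕ) :
    coeff j (PowerSeries.subst a l : R⟦X⟧) = ∑ d ∈ Finset.range (j + 1), coeff d l * coeff j (a ^ d) := by
  rw [PowerSeries.coeff_subst' (hs_zero ha), finsum_eq_sum_of_support_subset (s := Finset.range (j + 1))]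
  · rfl
  · intro d hd
    rw [Finset.coe_range, Set.mem_Iio]
    by_contra h
    apply hd
    show coeff d l • coeff j (a ^ d) = 0
    have h1 : (X : R⟦X⟧) ^ d ∣ a ^ d := pow_dvd_pow_of_dvd (PowerSeries.X_dvd_iff.2 ha) d
    rw [PowerSeries.X_pow_dvd_iff.1 h1 j (by omega), smul_zero]

private theorem mulSer_Ga' (n : ℕ) : mulSer (FormalGroup.𝔾ₐ (R := R)) n = (n : R⟦X⟧) * X := by
  induction n with
  | zero =>
    show (0 : R⟦X⟧) = _
    rw [Nat.cast_zero, zero_mul]
  | succ n ih =>
    show fa FormalGroup.𝔾ₐ (mulSer (FormalGroup.𝔾ₐ (R := R)) n) X = _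
    rw [fa_Ga _ _ (cc_mulSer _ n) PowerSeries.constantCoeff_X, ih, Nat.cast_add, Nat.cast_one]
    ring

private theorem cx_const (c : R) {q : ℕ} (hq : 0 < q) : constantCoeff (C c * X ^ q : R⟦X⟧) = 0 := by
  rw [map_mul, map_pow, PowerSeries.constantCoeff_X, zero_pow hq.ne', mul_zero]

omit [Fact p.Prime] in
private theorem vsum_const (F : FormalGroup R) (hp : 0 < p) (v : ℕ → R) (n : ℕ) :
    constantCoeff (vsum F p v n) = 0 := by
  induction n with
  | zero => exact map_zero _
  | succ n ih => exact fa_const F ih (cx_const _ (pow_pos hp _))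

omit [Fact p.Prime] in
private theorem vsum_map (F : FormalGroup R) (hp : 0 < p) (v : ℕ → R) (φ : R →+* S) (n : ℕ) :
    PowerSeries.map φ (vsum F p v n) = vsum (F.map φ) p (fun i => φ (v i)) n := by
  induction n with
  | zero => exact map_zero _
  | succ n ih =>
    show PowerSeries.map φ (fa F (vsum F p v n) (C (v (n + 1)) * X ^ p ^ (n + 1))) = _
    rw [fa_map F φ (vsum_const F hp v n) (cx_const _ (pow_pos hp _)), ih, map_mul, map_pow, PowerSeries.map_X,
      PowerSeries.map_C]
    rfl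

omit [Fact p.Prime] in
private theorem hom_vsum {F : FormalGroup R} {l : R⟦X⟧} (hl : IsHom F FormalGroup.𝔾ₐ l) (hp : 0 < p) (v : ℕ → R) (n : ℕ) :
    PowerSeries.subst (vsum F p v n) l =
      ∑ i ∈ Finset.range n, (PowerSeries.subst (C (v (i + 1)) * X ^ p ^ (i + 1) : R⟦X⟧) l : R⟦X⟧) := by
  induction n with
  | zero =>
    rw [Finset.sum_range_zero]
    exact PowerSeries.subst_zero_of_constantCoeff_zero hl.1
  | succ n ih =>
    show PowerSeries.subst (fa F (vsum F p v n) (C (v (n + 1)) * X ^ p ^ (n + 1))) l = _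
    rw [hom_fa hl (vsum_const F hp v n) (cx_const _ (pow_pos hp _)),
      fa_Ga _ _ (cc_subst (vsum_const F hp v n) hl.1) (cc_subst (cx_const _ (pow_pos hp _)) hl.1), ih,
      Finset.sum_range_succ]

private theorem coeff_cx (c : R) {q : ℕ} (hq : 0 < q) (l : R⟦X⟧) (n : ℕ) :
    coeff n (PowerSeries.subst (C c * X ^ q : R⟦X⟧) l : R⟦X⟧) = if q ∣ n then coeff (n / q) l * c ^ (n / q) else 0 := by
  rw [coeff_sub (cx_const c hq)]
  have h1 : ∀ d, coeff n ((C c * X ^ q : R⟦X⟧) ^ d) = if n = q * d then c ^ d else 0 := by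
    intro d
    rw [mul_pow, ← map_pow, ← pow_mul, PowerSeries.coeff_C_mul, PowerSeries.coeff_X_pow]
    split_ifs with h
    · rw [mul_one]
    · rw [mul_zero]
  by_cases hd : q ∣ n
  · rw [if_pos hd]
    obtain ⟨d, rfl⟩ := hd
    rw [Nat.mul_div_cancel_left d hq, Finset.sum_eq_single d]
    · rw [h1, if_pos rfl]
    · intro b _ hb
      rw [h1, if_neg, mul_zero]
      intro h2
      exact hb (Nat.eq_of_mul_eq_mul_left hq h2).symm
    · intro h2
      exfalso
      apply h2
      rw [Finset.mem_range]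
      have : 1 * d ≤ q * d := Nat.mul_le_mul_right d hq
      omega
  · rw [if_neg hd]
    refine Finset.sum_eq_zero fun d _ => ?_
    rw [h1, if_neg, mul_zero]
    rintro rfl
    exact hd (dvd_mul_right _ _)

omit [Fact p.Prime] in
private theorem pow_close {f G : R⟦X⟧} (hf : constantCoeff f = 0) (hG : constantCoeff G = 0) {j k : ℕ} (hj : 0 < j)
    (hk : 0 < k) (hp : 2 ≤ p) (h : ∀ i < j, (p : R) ∣ coeff i f - coeff i G) :
    (p : R) ^ (k + 1) ∣ coeff j (f ^ p ^ k) - coeff j (G ^ p ^ k) := by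
  classical
  have h' : ∀ i : ℕ, ∃ r : R, i < j → coeff i f - coeff i G = p * r := by
    intro i
    by_cases hi : i < j
    · obtain ⟨r, hr⟩ := h i hi
      exact ⟨r, fun _ => hr⟩
    · exact ⟨0, fun h2 => absurd h2 hi⟩
  choose r hr using h'
  set T : R⟦X⟧ := PowerSeries.mk fun i => if i < j then coeff i f - coeff i G else 0 with hT
  have hTp : (p : R⟦X⟧) ∣ (G + T) - G := by
    refine ⟨PowerSeries.mk fun i => if i < j then r i else 0, ?_⟩
    ext i
    have e : (p : R⟦X⟧) = C (p : R) := (map_natCast (C (R := R)) p).symm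
    rw [add_sub_cancel_left, e, PowerSeries.coeff_C_mul, hT, PowerSeries.coeff_mk, PowerSeries.coeff_mk]
    split_ifs with hi
    · exact hr i hi
    · rw [mul_zero]
  have h1 := dvd_sub_pow_of_dvd_sub hTp k
  obtain ⟨s, hs⟩ := h1
  have hXT : (X : R⟦X⟧) ^ j ∣ f - (G + T) := by
    rw [PowerSeries.X_pow_dvd_iff]
    intro i hi
    rw [map_sub, map_add, hT, PowerSeries.coeff_mk, if_pos hi]
    ring
  have hf0 : (X : R⟦X⟧) ∣ f := PowerSeries.X_dvd_iff.2 hf
  have hG0 : (X : R⟦X⟧) ∣ G + T := by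
    rw [PowerSeries.X_dvd_iff, map_add, hG, zero_add, hT, ← PowerSeries.coeff_zero_eq_constantCoeff_apply,
      PowerSeries.coeff_mk, if_pos hj, PowerSeries.coeff_zero_eq_constantCoeff_apply,
      PowerSeries.coeff_zero_eq_constantCoeff_apply, hf, hG, sub_zero]
  have hd : 2 ≤ p ^ k := hp.trans (Nat.le_self_pow hk.ne' p)
  have hX : (X : R⟦X⟧) ^ (j + 1) ∣ f ^ p ^ k - (G + T) ^ p ^ k := by
    rw [← Commute.geom_sum₂_mul (Commute.all f (G + T)), pow_succ', ]
    refine mul_dvd_mul (Finset.dvd_sum fun i hi => ?_) hXT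
    rw [Finset.mem_range] at hi
    rcases Nat.eq_zero_or_pos i with h0 | h0
    · refine Dvd.dvd.mul_left (dvd_pow hG0 (by omega)) _
    · exact Dvd.dvd.mul_right (dvd_pow hf0 (by omega)) _
  have h2 := PowerSeries.X_pow_dvd_iff.1 hX j (Nat.lt_succ_self j)
  rw [map_sub] at h2
  refine ⟨coeff j s, ?_⟩
  have h3 := congrArg (coeff j) hs
  have e : ((p : R⟦X⟧)) ^ (k + 1) = C ((p : R) ^ (k + 1)) := by
    rw [map_pow, map_natCast]
  rw [e, PowerSeries.coeff_C_mul, map_sub] at h3
  rw [← h3, sub_eq_zero.1 h2]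

omit [Fact p.Prime] in
/-- the recursion of the logarithm as an identity of series -/
private theorem log_vsum {L : Type*} [Field L] {F : FormalGroup L} {l : L⟦X⟧} (hl : IsHom F FormalGroup.𝔾ₐ l)
    (hp : 2 ≤ p) (hpL : (p : L) ≠ 0) (v : ℕ → L) (hlog : ∀ k, (p : L) ^ k * coeff (p ^ k) l = hz p v k)
    (hoff : ∀ j, (∀ k, j ≠ p ^ k) → coeff j l = 0) (N : ℕ) (hv : ∀ i, N < i → v i = 0) :
    PowerSeries.subst (vsum F p v N) l = (p : L⟦X⟧) * l - (p : L⟦X⟧) * X := by
  classical
  have hp0 : 0 < p := by omega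
  rw [hom_vsum hl hp0]
  ext n
  have e : (p : L⟦X⟧) = C (p : L) := (map_natCast (C (R := L)) p).symm
  rw [map_sum, map_sub, e, PowerSeries.coeff_C_mul, PowerSeries.coeff_C_mul, PowerSeries.coeff_X]
  have h1 : ∀ i ∈ Finset.range N, coeff n (PowerSeries.subst (C (v (i + 1)) * X ^ p ^ (i + 1) : L⟦X⟧) l : L⟦X⟧) =
      if p ^ (i + 1) ∣ n then coeff (n / p ^ (i + 1)) l * v (i + 1) ^ (n / p ^ (i + 1)) else 0 :=
    fun i _ => coeff_cx _ (pow_pos hp0 _) l n
  rw [Finset.sum_congr rfl h1]
  by_cases hn : ∃ K, n = p ^ K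
  · obtain ⟨K, rfl⟩ := hn
    rcases K with - | K
    · rw [pow_zero, if_pos rfl, Finset.sum_eq_zero]
      · have h2 := hlog 0
        rw [pow_zero, one_mul, pow_zero, hz_zero] at h2
        rw [h2, sub_self]
      · intro i _
        rw [if_neg]
        intro h3
        have h4 := Nat.le_of_dvd one_pos h3
        have h5 : p ≤ p ^ (i + 1) := Nat.le_self_pow (by omega) p
        omega
    · have hne : p ^ (K + 1) ≠ 1 := by
        have h5 : p ≤ p ^ (K + 1) := Nat.le_self_pow (by omega) p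
        omega
      rw [if_neg hne, mul_zero, sub_zero]
      -- the sum over all `i ≤ K`
      have h2 : ∀ i, (if p ^ (i + 1) ∣ p ^ (K + 1) then
          coeff (p ^ (K + 1) / p ^ (i + 1)) l * v (i + 1) ^ (p ^ (K + 1) / p ^ (i + 1)) else 0) =
          if i ∈ Finset.range (K + 1) then coeff (p ^ (K - i)) l * v (i + 1) ^ p ^ (K - i) else 0 := by
        intro i
        by_cases hi : i ≤ K
        · rw [if_pos (pow_dvd_pow p (by omega)), if_pos (Finset.mem_range.2 (by omega)), Nat.pow_div (by omega) hp0]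
          have : K + 1 - (i + 1) = K - i := by omega
          rw [this]
        · rw [if_neg, if_neg]
          · rw [Finset.mem_range]
            omega
          · intro h3
            have h4 := (Nat.pow_dvd_pow_iff_le_right (by omega : 1 < p)).1 h3
            omega
      have h3 : ∑ i ∈ Finset.range N, (if i ∈ Finset.range (K + 1) then coeff (p ^ (K - i)) l * v (i + 1) ^ p ^ (K - i) else 0) =
          ∑ i ∈ Finset.range (K + 1), coeff (p ^ (K - i)) l * v (i + 1) ^ p ^ (K - i) := by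
        rw [← Finset.sum_filter]
        refine Finset.sum_subset (fun i hi => (Finset.mem_filter.1 hi).2) fun i hi hi' => ?_
        have h4 : N ≤ i := by
          by_contra h5
          exact hi' (Finset.mem_filter.2 ⟨Finset.mem_range.2 (by omega), hi⟩)
        rw [hv (i + 1) (by omega), zero_pow (pow_pos hp0 _).ne', mul_zero]
      rw [Finset.sum_congr rfl fun i _ => h2 i, h3]
      have h4 : ∑ i ∈ Finset.range (K + 1), coeff (p ^ (K - i)) l * v (i + 1) ^ p ^ (K - i) =
          ∑ j ∈ Finset.range (K + 1), coeff (p ^ j) l * v (K + 1 - j) ^ p ^ j := by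
        rw [← Finset.sum_range_reflect]
        refine Finset.sum_congr rfl fun j hj => ?_
        rw [Finset.mem_range] at hj
        have e1 : K - (K + 1 - 1 - j) = j := by omega
        have e2 : K + 1 - 1 - j + 1 = K + 1 - j := by omega
        rw [e1, e2]
      rw [h4]
      have h5 := hlog (K + 1)
      rw [hz_succ] at h5
      have h6 : (p : L) ^ K * ∑ j ∈ Finset.range (K + 1), coeff (p ^ j) l * v (K + 1 - j) ^ p ^ j =
          (p : L) ^ K * ((p : L) * coeff (p ^ (K + 1)) l) := by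
        rw [← mul_assoc, ← pow_succ, h5, Finset.mul_sum]
        refine Finset.sum_congr rfl fun j hj => ?_
        rw [Finset.mem_range] at hj
        rw [← hlog j]
        have e3 : (p : L) ^ K = (p : L) ^ (K - j) * (p : L) ^ j := by
          rw [← pow_add]
          congr 1
          omega
        rw [e3]
        ring
      exact mul_left_cancel₀ (pow_ne_zero K hpL) h6
  · have hn' : ∀ k, n ≠ p ^ k := fun k h => hn ⟨k, h⟩
    have hn1 : n ≠ 1 := by
      have := hn' 0
      rwa [pow_zero] at this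
    rw [hoff n hn', if_neg hn1, mul_zero, sub_zero]
    refine Finset.sum_eq_zero fun i _ => ?_
    split_ifs with h2
    · rw [hoff, zero_mul]
      intro k hk
      apply hn' (i + 1 + k)
      rw [pow_add, ← hk, Nat.mul_div_cancel' h2]
    · rfl

omit [Fact p.Prime] in
private theorem key {L : Type*} [Field L] (ι : R →+* L) (hι : Function.Injective ι) (hp : 2 ≤ p) (hpL : (p : L) ≠ 0)
    {F : FormalGroup R} {l : L⟦X⟧} (hl : IsHom (F.map ι) FormalGroup.𝔾ₐ l) (v : ℕ → R)
    (hlog : ∀ k, (p : L) ^ k * coeff (p ^ k) l = ι (hz p v k))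
    (hoff : ∀ j, (∀ k, j ≠ p ^ k) → coeff j l = 0) (N : ℕ) (hv : ∀ i, N < i → v i = 0) (j : ℕ) :
    (p : R) ∣ coeff j (mulSer F p) - coeff j (vsum F p v N) := by
  classical
  have hp0 : 0 < p := by omega
  have hf0 := cc_mulSer F p
  have hG0 := vsum_const F hp0 v N
  -- the logarithms
  have h1 : PowerSeries.subst (PowerSeries.map ι (mulSer F p)) l = (p : L⟦X⟧) * l := by
    rw [← mulSer_map, hl.mulSer p, mulSer_Ga']
    rw [PowerSeries.subst_mul (hs_zero hl.1), PowerSeries.subst_X (hs_zero hl.1), ← PowerSeries.coe_substAlgHom (hs_zero hl.1),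
      map_natCast]
  have h2 : PowerSeries.subst (PowerSeries.map ι (vsum F p v N)) l = (p : L⟦X⟧) * l - (p : L⟦X⟧) * X := by
    rw [vsum_map F hp0 v ι N]
    refine log_vsum hl hp hpL _ (fun k => ?_) hoff N fun i hi => ?_
    · rw [hlog k, hz_map]
    · show ι (v i) = 0
      rw [hv i hi, map_zero]
  induction j using Nat.strong_induction_on with
  | _ j ih =>
    rcases Nat.eq_zero_or_pos j with hj | hj
    · rw [hj, PowerSeries.coeff_zero_eq_constantCoeff_apply, PowerSeries.coeff_zero_eq_constantCoeff_apply, hf0, hG0, sub_zero]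
      exact dvd_zero _
    have h3 := congrArg (coeff j) h1
    have h4 := congrArg (coeff j) h2
    rw [coeff_sub (map_hs hf0 ι)] at h3
    rw [coeff_sub (map_hs hG0 ι), map_sub, ← h3] at h4
    have e : (p : L⟦X⟧) = C (p : L) := (map_natCast (C (R := L)) p).symm
    rw [e, PowerSeries.coeff_C_mul, PowerSeries.coeff_X] at h4
    -- all the terms except the linear one
    have h5 : ∀ d : ℕ, ∃ r : R, d ≠ 1 → coeff d l * (coeff j (PowerSeries.map ι (mulSer F p) ^ d) -
        coeff j (PowerSeries.map ι (vsum F p v N) ^ d)) = ι (p * r) := by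
      intro d
      by_cases hd1 : d = 1
      · exact ⟨0, fun h => absurd hd1 h⟩
      by_cases hd : ∃ k, d = p ^ k
      · obtain ⟨k, rfl⟩ := hd
        have hk : 0 < k := by
          rcases Nat.eq_zero_or_pos k with h | h
          · rw [h, pow_zero] at hd1
            exact absurd rfl hd1
          · exact h
        obtain ⟨s, hs⟩ := pow_close hf0 hG0 hj hk hp ih
        refine ⟨hz p v k * s, fun _ => ?_⟩
        rw [← map_pow, ← map_pow, PowerSeries.coeff_map, PowerSeries.coeff_map, ← map_sub, hs, map_mul, map_pow,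
          map_mul, map_mul, ← hlog k, map_natCast]
        ring
      · refine ⟨0, fun _ => ?_⟩
        rw [hoff d (fun k h => hd ⟨k, h⟩), zero_mul, mul_zero, map_zero]
    choose r hr using h5
    have hmem : 1 ∈ Finset.range (j + 1) := Finset.mem_range.2 (by omega)
    have h6 : ∑ d ∈ Finset.range (j + 1), coeff d l * (coeff j (PowerSeries.map ι (mulSer F p) ^ d) -
        coeff j (PowerSeries.map ι (vsum F p v N) ^ d)) = (p : L) * if j = 1 then 1 else 0 := by
      rw [Finset.sum_congr rfl fun d _ => mul_sub _ _ _, Finset.sum_sub_distrib, h4]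
      ring
    rw [← Finset.add_sum_erase _ _ hmem, pow_one, pow_one] at h6
    have hl1 : coeff 1 l = 1 := by
      have h7 := hlog 0
      rw [pow_zero, one_mul, pow_zero, hz_zero, map_one] at h7
      exact h7
    rw [hl1, one_mul, PowerSeries.coeff_map, PowerSeries.coeff_map,
      Finset.sum_congr rfl fun d hd => hr d (Finset.ne_of_mem_erase hd)] at h6
    refine ⟨(if j = 1 then 1 else 0) - ∑ d ∈ (Finset.range (j + 1)).erase 1, r d, hι ?_⟩
    rw [map_sub, eq_sub_of_add_eq h6, mul_sub, map_sub, Finset.mul_sum, map_sum, map_mul, map_natCast]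
    congr 2
    split_ifs
    · rw [map_one]
    · rw [map_zero]

omit [Fact p.Prime] in
/-- the leading term of the formal sum -/
private theorem vsum_lead (F : FormalGroup R) (hp : 2 ≤ p) (v : ℕ → R) {j : ℕ} (hv : ∀ i, 1 ≤ i → i ≤ j → v i = 0) (n : ℕ) :
    vsum F p v j = 0 ∧ (X : R⟦X⟧) ^ (p ^ (j + 1) + 1) ∣ vsum F p v (j + 1 + n) - C (v (j + 1)) * X ^ p ^ (j + 1) := by
  have hp0 : 0 < p := by omega
  have h0 : ∀ i ≤ j, vsum F p v i = 0 := by
    intro i
    induction i with
    | zero => exact fun _ => rfl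
    | succ i ih =>
      intro hi
      show fa F (vsum F p v i) (C (v (i + 1)) * X ^ p ^ (i + 1)) = 0
      rw [ih (by omega), hv (i + 1) (by omega) hi, map_zero, zero_mul, fa_zero F (map_zero _)]
  refine ⟨h0 j le_rfl, ?_⟩
  induction n with
  | zero =>
    show _ ∣ fa F (vsum F p v j) (C (v (j + 1)) * X ^ p ^ (j + 1)) - _
    rw [h0 j le_rfl, zero_fa F (cx_const _ (pow_pos hp0 _)), sub_self]
    exact dvd_zero _
  | succ n ih =>
    show _ ∣ fa F (vsum F p v (j + 1 + n)) (C (v (j + 1 + n + 1)) * X ^ p ^ (j + 1 + n + 1)) - _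
    have h1 := fa_sub_dvd F (vsum_const F hp0 v (j + 1 + n)) (cx_const (v (j + 1 + n + 1)) (pow_pos hp0 (j + 1 + n + 1)))
    have h2 : (X : R⟦X⟧) ^ (p ^ (j + 1) + 1) ∣ C (v (j + 1 + n + 1)) * X ^ p ^ (j + 1 + n + 1) := by
      refine Dvd.dvd.mul_left (pow_dvd_pow _ ?_) _
      have : p ^ (j + 1) < p ^ (j + 1 + n + 1) := Nat.pow_lt_pow_right (by omega) (by omega)
      omega
    have h3 : (X : R⟦X⟧) ^ (p ^ (j + 1) + 1) ∣ fa F (vsum F p v (j + 1 + n)) (C (v (j + 1 + n + 1)) * X ^ p ^ (j + 1 + n + 1)) -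
        vsum F p v (j + 1 + n) - C (v (j + 1 + n + 1)) * X ^ p ^ (j + 1 + n + 1) := (Dvd.dvd.mul_left h2 _).trans h1
    have e : fa F (vsum F p v (j + 1 + n)) (C (v (j + 1 + n + 1)) * X ^ p ^ (j + 1 + n + 1)) - C (v (j + 1)) * X ^ p ^ (j + 1) =
        (fa F (vsum F p v (j + 1 + n)) (C (v (j + 1 + n + 1)) * X ^ p ^ (j + 1 + n + 1)) -
          vsum F p v (j + 1 + n) - C (v (j + 1 + n + 1)) * X ^ p ^ (j + 1 + n + 1)) +
        C (v (j + 1 + n + 1)) * X ^ p ^ (j + 1 + n + 1) +
        (vsum F p v (j + 1 + n) - C (v (j + 1)) * X ^ p ^ (j + 1)) := by ring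
    rw [e]
    exact dvd_add (dvd_add h3 h2) ih

end aux

omit [IsDomain W] in
private theorem vv_zero {i : ℕ} (hi : m + 1 < i) : vv W m i = 0 := by
  unfold vv
  rw [dif_neg (by omega), if_neg (by omega)]

omit [IsDomain W] in
private theorem vv_top : vv W m (m + 1) = 1 := by
  unfold vv
  rw [dif_neg (by omega), if_pos rfl]

omit [IsDomain W] in
private theorem vv_low (j : Fin m) : vv W m (j.val + 1) = MvPowerSeries.X j := by
  unfold vv
  rw [dif_pos ⟨by omega, by omega⟩]
  congr 1

theorem mulSer_mod (hW : IsWitt p (m + 1) π) {F : FormalGroup (MvPowerSeries (Fin m) W)}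
    (hF : IsHaz p m F) (i : ℕ) :
    (p : MvPowerSeries (Fin m) W) ∣
      coeff i (mulSer F p) - coeff i (vsum F p (vv W m) (m + 1)) := by
  obtain ⟨l, hl, hlog, hoff⟩ := hF.log
  have hp : p.Prime := Fact.out
  refine key (algebraMap (MvPowerSeries (Fin m) W) (FractionRing (MvPowerSeries (Fin m) W)))
    (IsFractionRing.injective _ _) hp.two_le ?_ hl (vv W m) hlog hoff (m + 1) (fun i hi => vv_zero hi) i
  intro h
  have h1 : algebraMap (MvPowerSeries (Fin m) W) (FractionRing (MvPowerSeries (Fin m) W)) (p : MvPowerSeries (Fin m) W) = 0 := by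
    rw [map_natCast, h]
  have h2 : (p : MvPowerSeries (Fin m) W) = 0 := (IsFractionRing.injective (MvPowerSeries (Fin m) W)
    (FractionRing (MvPowerSeries (Fin m) W))) (h1.trans (map_zero _).symm)
  have h3 := congrArg (MvPowerSeries.constantCoeff (σ := Fin m) (R := W)) h2
  rw [map_natCast, map_zero] at h3
  exact hW.ne h3

omit [Fact p.Prime] in
/-- reduction of the leading coefficients modulo the first parameters -/
private theorem lead_coeff {R' : Type*} [CommRing R'] (F : FormalGroup R') (hp : 2 ≤ p) (v : ℕ → R') {j : ℕ} (hj : j ≤ m)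
    (I : Ideal R') (hI : ∀ i, 1 ≤ i → i ≤ j → v i ∈ I) :
    (∀ i, i < p ^ (j + 1) → coeff i (vsum F p v (m + 1)) ∈ I) ∧
      coeff (p ^ (j + 1)) (vsum F p v (m + 1)) - v (j + 1) ∈ I := by
  have hp0 : 0 < p := by omega
  have h1 := (vsum_lead (p := p) (F.map (Ideal.Quotient.mk I)) hp (fun i => Ideal.Quotient.mk I (v i)) (j := j)
    (fun i h2 h3 => Ideal.Quotient.eq_zero_iff_mem.2 (hI i h2 h3)) (m - j)).2
  have e : j + 1 + (m - j) = m + 1 := by omega
  rw [e, ← vsum_map F hp0 v (Ideal.Quotient.mk I)] at h1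
  have h2 := PowerSeries.X_pow_dvd_iff.1 h1
  constructor
  · intro i hi
    have h3 := h2 i (by omega)
    rw [map_sub, PowerSeries.coeff_map, PowerSeries.coeff_C_mul, PowerSeries.coeff_X_pow, if_neg (by omega), mul_zero,
      sub_zero] at h3
    exact Ideal.Quotient.eq_zero_iff_mem.1 h3
  · have h3 := h2 (p ^ (j + 1)) (by omega)
    rw [map_sub, PowerSeries.coeff_map, PowerSeries.coeff_C_mul, PowerSeries.coeff_X_pow, if_pos rfl, mul_one,
      ← map_sub] at h3
    exact Ideal.Quotient.eq_zero_iff_mem.1 h3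

/-- the reduction modulo `p` is a universal deformation in the sense of the closed fibre theorem -/
theorem isLT_mod (hW : IsWitt p (m + 1) π) {F : FormalGroup (MvPowerSeries (Fin m) W)}
    (hF : IsHaz p m F) : IsLT k p m (F.map (MvPowerSeries.map (σ := Fin m) π)) := by
  have hp : p.Prime := Fact.out
  have hp0 : 0 < p := hp.pos
  have hπp : MvPowerSeries.map (σ := Fin m) π (p : MvPowerSeries (Fin m) W) = 0 := by
    rw [map_natCast]
    have h1 : ((p : k)) = 0 := by
      rw [← map_natCast π]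
      exact (hW.ker _).2 dvd_rfl
    have h2 : ((p : MvPowerSeries (Fin m) k)) = MvPowerSeries.C (p : k) := (map_natCast (MvPowerSeries.C (σ := Fin m)) p).symm
    rw [h2, h1, map_zero]
  have hco : ∀ i, coeff i (mulSer (F.map (MvPowerSeries.map (σ := Fin m) π)) p) =
      coeff i (vsum (F.map (MvPowerSeries.map (σ := Fin m) π)) p (fun i => MvPowerSeries.map (σ := Fin m) π (vv W m i)) (m + 1)) := by
    intro i
    rw [mulSer_map, ← vsum_map F hp0, PowerSeries.coeff_map, PowerSeries.coeff_map]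
    obtain ⟨r, hr⟩ := mulSer_mod hW hF i
    have h1 := congrArg (MvPowerSeries.map (σ := Fin m) π) hr
    rw [map_sub, map_mul, hπp, zero_mul] at h1
    exact sub_eq_zero.1 h1
  have hlow : ∀ j : Fin m, MvPowerSeries.map (σ := Fin m) π (vv W m (j.val + 1)) = MvPowerSeries.X j := by
    intro j
    rw [vv_low, MvPowerSeries.map_X]
  have hmem : ∀ j ≤ m, ∀ i, 1 ≤ i → i ≤ j → MvPowerSeries.map (σ := Fin m) π (vv W m i) ∈ Istd k m j := by
    intro j hj i h1 h2
    refine Ideal.subset_span ⟨⟨i - 1, by omega⟩, by show i - 1 < j; omega, ?_⟩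
    have h3 := hlow ⟨i - 1, by omega⟩
    have e : (⟨i - 1, by omega⟩ : Fin m).val + 1 = i := by
      show i - 1 + 1 = i
      omega
    rw [e] at h3
    exact h3
  refine ⟨IsComm.map' hF.comm _, ?_, ?_, ?_⟩
  · intro j hj i hi
    rw [hco]
    exact (lead_coeff _ hp.two_le _ hj _ (hmem j hj)).1 i hi
  · intro j
    rw [hco, ← hlow j]
    exact (lead_coeff _ hp.two_le _ j.2.le _ (hmem j.val j.2.le)).2
  · rw [hco]
    have h1 := (lead_coeff (F.map (MvPowerSeries.map (σ := Fin m) π)) hp.two_le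
      (fun i => MvPowerSeries.map (σ := Fin m) π (vv W m i)) le_rfl _ (hmem m le_rfl)).2
    rw [vv_top, map_one] at h1
    rw [MvPowerSeries.isUnit_iff_constantCoeff]
    have h2 : Istd k m m ≤ RingHom.ker (MvPowerSeries.constantCoeff (σ := Fin m) (R := k)) := by
      refine Ideal.span_le.2 ?_
      rintro x ⟨i, _, rfl⟩
      exact MvPowerSeries.constantCoeff_X i
    have h3 := h2 h1
    rw [RingHom.mem_ker, map_sub, map_one] at h3
    rw [sub_eq_zero.1 h3]
    exact isUnit_one

theorem mulSer_spc (hW : IsWitt p (m + 1) π) {F : FormalGroup (MvPowerSeries (Fin m) W)}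
    (hF : IsHaz p m F) : mulSer (spc π F) p = (X : k⟦X⟧) ^ p ^ (m + 1) := by
  have hp : p.Prime := Fact.out
  have hp0 : 0 < p := hp.pos
  have hrp : resd π m (p : MvPowerSeries (Fin m) W) = 0 := by
    rw [map_natCast, ← map_natCast π]
    exact (hW.ker _).2 dvd_rfl
  have h1 : mulSer (spc π F) p = vsum (spc π F) p (fun i => resd π m (vv W m i)) (m + 1) := by
    unfold spc
    rw [mulSer_map, ← vsum_map F hp0]
    ext i
    rw [PowerSeries.coeff_map, PowerSeries.coeff_map]
    obtain ⟨r, hr⟩ := mulSer_mod hW hF i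
    have h2 := congrArg (resd π m) hr
    rw [map_sub, map_mul, hrp, zero_mul] at h2
    exact sub_eq_zero.1 h2
  rw [h1]
  show fa (spc π F) (vsum (spc π F) p (fun i => resd π m (vv W m i)) m)
    (C (resd π m (vv W m (m + 1))) * X ^ p ^ (m + 1)) = _
  have h2 := (vsum_lead (spc π F) hp.two_le (fun i => resd π m (vv W m i)) (j := m) (fun i h3 h4 => by
    have e : (⟨i - 1, by omega⟩ : Fin m).val + 1 = i := by
      show i - 1 + 1 = i
      omega
    have h5 := vv_low (W := W) (⟨i - 1, by omega⟩ : Fin m)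
    rw [e] at h5
    show π (MvPowerSeries.constantCoeff (vv W m i)) = 0
    rw [h5, MvPowerSeries.constantCoeff_X, map_zero]) 0).1
  rw [h2, vv_top, map_one, map_one, one_mul, zero_fa]
  rw [map_pow, PowerSeries.constantCoeff_X, zero_pow (pow_pos hp0 _).ne']

/-- the coefficients of `[p]_F` of index `p ^ (j+1)` -/
theorem coeff_mulSer (hW : IsWitt p (m + 1) π) {F : FormalGroup (MvPowerSeries (Fin m) W)}
    (hF : IsHaz p m F) (j : Fin m) :
    coeff (p ^ (j.val + 1)) (mulSer F p) - MvPowerSeries.X j ∈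
      Ideal.span ({x | ∃ i : Fin m, i.val < j.val ∧ x = MvPowerSeries.X i} ∪
        {(p : MvPowerSeries (Fin m) W)}) := by
  have hp : p.Prime := Fact.out
  set I : Ideal (MvPowerSeries (Fin m) W) := Ideal.span ({x | ∃ i : Fin m, i.val < j.val ∧ x = MvPowerSeries.X i} ∪
        {(p : MvPowerSeries (Fin m) W)}) with hI
  have h1 := (lead_coeff F hp.two_le (vv W m) j.2.le I (fun i h3 h4 => by
    have e : (⟨i - 1, by omega⟩ : Fin m).val + 1 = i := by
      show i - 1 + 1 = i
      omega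
    have h5 := vv_low (W := W) (⟨i - 1, by omega⟩ : Fin m)
    rw [e] at h5
    exact Ideal.subset_span (Or.inl ⟨⟨i - 1, by omega⟩, by show i - 1 < j.val; omega, h5⟩))).2
  rw [vv_low j] at h1
  obtain ⟨r, hr⟩ := mulSer_mod hW hF (p ^ (j.val + 1))
  have h2 : coeff (p ^ (j.val + 1)) (mulSer F p) - coeff (p ^ (j.val + 1)) (vsum F p (vv W m) (m + 1)) ∈ I := by
    rw [hr]
    exact I.mul_mem_right _ (Ideal.subset_span (Or.inr rfl))
  have h3 := I.add_mem h2 h1
  rwa [sub_add_sub_cancel] at h3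

end Pool.Agent.H40.CH3
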