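import Pool.Agent.H40.CH3.Fg1
import Pool.Agent.H40.CH3.Fg2
import Pool.Agent.H77.CA.Pow
import Pool.Agent.H86.NF.Nf

/-!
# FG3: continuity of the action

Claim(s), `s ≥ 1`: `f ≡ X mod (𝔪^s, X ^ (p ^ (K - n(s-1))))` and `g(v_i) - v_i ∈ 𝔪^s`, where `f = a.f`,
`g = a.g`, `𝔪 = mI π m`, `n = m + 1`, `K - n (s - 1) ≥ n`.
`s = 1`: hypothesis, and `g` preserves `𝔪`.
Step: `[p]_F' (f) = f ([p]_F)`, `F' = F.map g`.  Write `f = X + e` modulo `X ^ (p^(K - n(s-1)))`,
`e ∈ 𝔪^s`.  `[p]_F' (X + e) ≡ [p]_F' (X) mod 𝔪^(s+1)` (the derivative of `[p]_F'` is in `𝔪`, as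
`[p] ≡ X ^ (p^n)`; only coefficients of index divisible by `p` are nonzero modulo `𝔪`), and
`f ([p]_F) ≡ [p]_F + e (X ^ (p^n)) mod 𝔪^(s+1)`.  So `[p]_F' - [p]_F ≡ e (X ^ (p^n))`: coefficients
of index `< p^n` vanish modulo `𝔪^(s+1)`; those of index `p^l`, `l = 1, .., m` give
`d_l + ∑_(i<l) c_i d_i ≡ 0`, (`coeff_mulSer`; `g b - b ∈ 𝔪^s` for all `b`), so all `d_l ∈ 𝔪^(s+1)`,
hence `[p]_F' ≡ [p]_F` and `e ≡ 0 mod (𝔪^(s+1), X ^ (p^(K - n s)))`.
(See also `pert`, `Sm.comp`, `comp_mul` in Pool.Agent.H86.NF.Nf.)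
-/

open PowerSeries

namespace Pool.Agent.H40.CH3

open Pool.Agent.H13.CA Pool.Agent.H86.NF

section aux3

variable {B : Type*} [CommRing B]

/-- `g ∘ w ≡ g mod I ^ (j + 1)` if `w ≡ X mod I ^ j`, `p ∈ I` and only coefficients of index divisible by `p` of `g`
are nonzero modulo `I` -/
private theorem pert3 {q : ℕ} [Fact q.Prime] {I : Ideal B} (hq : (q : B) ∈ I) {j : ℕ} (hj : 1 ≤ j) {g w : B⟦X⟧}
    (hp : ∀ i, ¬ q ∣ i → coeff i g ∈ I) (hw0 : constantCoeff w = 0) (hw : Sm (I ^ j) w X) :
    Sm (I ^ (j + 1)) (cm g w) g := by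
  have hpp : q.Prime := Fact.out
  have hp0 : q ≠ 0 := hpp.ne_zero
  obtain ⟨h, hh⟩ : ∃ h : B⟦X⟧, h = PowerSeries.mk fun i => coeff (q * i) g := ⟨_, rfl⟩
  obtain ⟨gp, hgp⟩ : ∃ gp : B⟦X⟧, gp = cm h (X ^ q : B⟦X⟧) := ⟨_, rfl⟩
  have hXp : constantCoeff (X ^ q : B⟦X⟧) = 0 := by
    rw [map_pow, constantCoeff_X, zero_pow hp0]
  have hr : ∀ i, coeff i (g - gp) ∈ I := by
    intro i
    rw [map_sub, hgp, coeff_comp_X_pow hp0]
    split_ifs with hd
    · obtain ⟨c, rfl⟩ := hd
      rw [Nat.mul_div_cancel_left _ hpp.pos, hh, coeff_mk, sub_self]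
      exact zero_mem _
    · rw [sub_zero]
      exact hp i hd
  have h1 : Sm (I ^ (j + 1)) (cm (g - gp) w) (g - gp) := by
    have := comp_mul hr hw0 (constantCoeff_X) hw
    rw [comp_X, ← pow_succ'] at this
    exact this
  have h2 : Sm (I ^ (j + 1)) (w ^ q) (X ^ q) := by
    intro i
    rw [← map_sub, ← (Commute.all w X).geom_sum₂_mul q, mul_comm, coeff_mul, pow_succ]
    refine Ideal.sum_mem _ fun x _ => Ideal.mul_mem_mul ?_ ?_
    · rw [map_sub]
      exact hw _
    · have hw1 : Sm I w X := hw.mono (Ideal.pow_le_self (by omega))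
      have h4 : PowerSeries.map (Ideal.Quotient.mk I) (∑ i ∈ Finset.range q, w ^ i * X ^ (q - 1 - i)) = 0 := by
        rw [map_sum]
        have h5 : ∀ i ∈ Finset.range q, PowerSeries.map (Ideal.Quotient.mk I) (w ^ i * X ^ (q - 1 - i)) =
            (X : (B ⧸ I)⟦X⟧) ^ (q - 1) := by
          intro i hi
          rw [Finset.mem_range] at hi
          rw [map_mul, map_pow, map_pow, sm_iff_map.1 hw1, PowerSeries.map_X, ← pow_add]
          congr 1
          omega
        rw [Finset.sum_congr rfl h5, Finset.sum_const, Finset.card_range, nsmul_eq_mul]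
        have h6 : ((q : ℕ) : (B ⧸ I)⟦X⟧) = 0 := by
          have h7 : (Ideal.Quotient.mk I) (q : B) = 0 := Ideal.Quotient.eq_zero_iff_mem.2 hq
          have h8 : ((q : ℕ) : (B ⧸ I)⟦X⟧) = C ((Ideal.Quotient.mk I) (q : B)) := by
            rw [map_natCast, map_natCast]
          rw [h8, h7, map_zero]
        rw [h6, zero_mul]
      have h5 := congrArg (coeff x.2) h4
      rw [PowerSeries.coeff_map, map_zero] at h5
      exact Ideal.Quotient.eq_zero_iff_mem.1 h5
  have h3 : Sm (I ^ (j + 1)) (cm gp w) gp := by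
    have h4 : cm gp w = cm h (w ^ q) := by
      rw [hgp, comp_assoc _ hXp hw0, X_pow_comp hw0]
    rw [h4, hgp]
    refine (Sm.refl _ h).comp ?_ hXp h2
    rw [map_pow, hw0, zero_pow hp0]
  have h5 := h1.add h3
  rw [← comp_add _ _ hw0] at h5
  simpa using h5

/-- congruence modulo `X ^ M` of a composition, right argument -/
private theorem cm_right (g : B⟦X⟧) {M : ℕ} {a b : B⟦X⟧} (ha : constantCoeff a = 0)
    (hb : constantCoeff b = 0) (h : (X : B⟦X⟧) ^ M ∣ a - b) : (X : B⟦X⟧) ^ M ∣ cm g a - cm g b := by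
  rw [PowerSeries.X_pow_dvd_iff]
  intro n hn
  rw [map_sub, sub_eq_zero, PowerSeries.coeff_subst' (hs_zero ha), PowerSeries.coeff_subst' (hs_zero hb)]
  refine finsum_congr fun d => ?_
  congr 1
  have h1 := PowerSeries.X_pow_dvd_iff.1 (h.trans (sub_dvd_pow_sub_pow a b d)) n hn
  rw [map_sub] at h1
  exact sub_eq_zero.1 h1

/-- congruence modulo `X ^ M` of a composition, left argument -/
private theorem cm_left {M : ℕ} {u v g : B⟦X⟧} (hg : constantCoeff g = 0)
    (h : (X : B⟦X⟧) ^ M ∣ u - v) : (X : B⟦X⟧) ^ M ∣ cm u g - cm v g := by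
  obtain ⟨t, ht⟩ := h
  have h1 : cm u g - cm v g = cm (u - v) g := (PowerSeries.subst_sub (hs_zero hg) u v).symm
  rw [h1, ht]
  show _ ∣ PowerSeries.subst g (X ^ M * t)
  rw [PowerSeries.subst_mul (hs_zero hg), PowerSeries.subst_pow (hs_zero hg), PowerSeries.subst_X (hs_zero hg)]
  exact Dvd.dvd.mul_right (pow_dvd_pow_of_dvd (PowerSeries.X_dvd_iff.2 hg) M) _

end aux3

variable {W : Type*} [CommRing W] [IsDomain W] {k : Type*} [Field k] {π : W →+* k} {p m : ℕ}
  [Fact p.Prime]


/-- `g b ≡ b mod 𝔪 ^ s` for all `b` if this holds for the variables -/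
private theorem cont_all {π : W →+* k} (g : MvPowerSeries (Fin m) W ≃ₐ[W] MvPowerSeries (Fin m) W) (s : ℕ)
    (h : ∀ i : Fin m, g (MvPowerSeries.X i) - MvPowerSeries.X i ∈ mI π m ^ s) (b : MvPowerSeries (Fin m) W) :
    g b - b ∈ mI π m ^ s := by
  have hX : ∀ i : Fin m, (MvPowerSeries.X i : MvPowerSeries (Fin m) W) ∈ mI π m := by
    intro i
    show π (MvPowerSeries.constantCoeff (MvPowerSeries.X i)) = 0
    rw [MvPowerSeries.constantCoeff_X, map_zero]
  have key : ∀ j ≤ s, ∀ b : MvPowerSeries (Fin m) W, g b - b ∈ mI π m ^ j := by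
    intro j
    induction j with
    | zero =>
      intro _ b
      rw [pow_zero, Ideal.one_eq_top]
      trivial
    | succ j ih =>
      intro hj b
      obtain ⟨c, hc⟩ : ∃ c : MvPowerSeries (Fin m) W, c = algebraMap W _ (MvPowerSeries.constantCoeff b) := ⟨_, rfl⟩
      have hc1 : g c = c := by
        rw [hc]
        exact g.commutes _
      have hbc : b - c ∈ Ideal.span (Set.range (MvPowerSeries.X : Fin m → MvPowerSeries (Fin m) W)) := by
        rw [Pool.Agent.H77.CA.mem_span_X, map_sub, hc, MvPowerSeries.algebraMap_apply]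
        show _ - MvPowerSeries.constantCoeff (MvPowerSeries.C _) = 0
        rw [MvPowerSeries.constantCoeff_C]
        exact sub_self _
      have h1 : g b - b = g (b - c) - (b - c) := by
        rw [map_sub, hc1]
        ring
      rw [h1]
      have h2 : ∀ x ∈ Ideal.span (Set.range (MvPowerSeries.X : Fin m → MvPowerSeries (Fin m) W)),
          x ∈ mI π m ∧ g x - x ∈ mI π m ^ (j + 1) := by
        intro x hx
        induction hx using Submodule.span_induction with
        | mem x hx =>
          obtain ⟨i, rfl⟩ := hx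
          exact ⟨hX i, Ideal.pow_le_pow_right hj (h i)⟩
        | zero =>
          rw [map_zero, sub_self]
          exact ⟨zero_mem _, zero_mem _⟩
        | add x y _ _ h3 h4 =>
          refine ⟨add_mem h3.1 h4.1, ?_⟩
          rw [map_add, add_sub_add_comm]
          exact add_mem h3.2 h4.2
        | smul t x _ h3 =>
          refine ⟨Ideal.mul_mem_left _ _ h3.1, ?_⟩
          have h4 : g (t • x) - t • x = g t * (g x - x) + (g t - t) * x := by
            rw [smul_eq_mul, map_mul]
            ring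
          rw [h4]
          refine add_mem (Ideal.mul_mem_left _ _ h3.2) ?_
          rw [pow_succ]
          exact Ideal.mul_mem_mul (ih (by omega) t) h3.1
      exact (h2 _ hbc).2
  exact key s le_rfl b

/-- the step for the parameters -/
private theorem cont_par {π : W →+* k} (hp : (p : MvPowerSeries (Fin m) W) ∈ mI π m)
    (g : MvPowerSeries (Fin m) W ≃ₐ[W] MvPowerSeries (Fin m) W) (s : ℕ)
    (hall : ∀ b : MvPowerSeries (Fin m) W, g b - b ∈ mI π m ^ s) (c : Fin m → MvPowerSeries (Fin m) W)
    (hc : ∀ j : Fin m, c j - MvPowerSeries.X j ∈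
      Ideal.span ({x | ∃ i : Fin m, i.val < j.val ∧ x = MvPowerSeries.X i} ∪
        {(p : MvPowerSeries (Fin m) W)}))
    (hg : ∀ j : Fin m, g (c j) - c j ∈ mI π m ^ (s + 1)) (j : Fin m) :
    g (MvPowerSeries.X j) - MvPowerSeries.X j ∈ mI π m ^ (s + 1) := by
  have hX : ∀ i : Fin m, (MvPowerSeries.X i : MvPowerSeries (Fin m) W) ∈ mI π m := by
    intro i
    show π (MvPowerSeries.constantCoeff (MvPowerSeries.X i)) = 0
    rw [MvPowerSeries.constantCoeff_X, map_zero]
  have key : ∀ n : ℕ, ∀ j : Fin m, j.val = n →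
      g (MvPowerSeries.X j) - MvPowerSeries.X j ∈ mI π m ^ (s + 1) := by
    intro n
    induction n using Nat.strong_induction_on with
    | _ n ih =>
      intro j hj
      have h2 : ∀ x ∈ Ideal.span ({x | ∃ i : Fin m, i.val < j.val ∧ x = MvPowerSeries.X i} ∪
          {(p : MvPowerSeries (Fin m) W)}), x ∈ mI π m ∧ g x - x ∈ mI π m ^ (s + 1) := by
        intro x hx
        induction hx using Submodule.span_induction with
        | mem x hx =>
          rcases hx with ⟨i, hi, rfl⟩ | hx
          · exact ⟨hX i, ih i.val (by omega) i rfl⟩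
          · rw [Set.mem_singleton_iff] at hx
            subst hx
            refine ⟨hp, ?_⟩
            rw [map_natCast, sub_self]
            exact zero_mem _
        | zero =>
          rw [map_zero, sub_self]
          exact ⟨zero_mem _, zero_mem _⟩
        | add x y _ _ h3 h4 =>
          refine ⟨add_mem h3.1 h4.1, ?_⟩
          rw [map_add, add_sub_add_comm]
          exact add_mem h3.2 h4.2
        | smul t x _ h3 =>
          refine ⟨Ideal.mul_mem_left _ _ h3.1, ?_⟩
          have h4 : g (t • x) - t • x = g t * (g x - x) + (g t - t) * x := by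
            rw [smul_eq_mul, map_mul]
            ring
          rw [h4]
          refine add_mem (Ideal.mul_mem_left _ _ h3.2) ?_
          rw [pow_succ]
          exact Ideal.mul_mem_mul (hall t) h3.1
      have h3 := (h2 _ (hc j)).2
      have h4 : g (MvPowerSeries.X j) - MvPowerSeries.X j =
          (g (c j) - c j) - (g (c j - MvPowerSeries.X j) - (c j - MvPowerSeries.X j)) := by
        rw [map_sub]
        ring
      rw [h4]
      exact sub_mem (hg j) h3
  exact key j.val j rfl

theorem cont (hW : IsWitt p (m + 1) π) {F : FormalGroup (MvPowerSeries (Fin m) W)}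
    (hF : IsHaz p m F) (a : Lift W F) (N K : ℕ) (hK : (m + 1) * (N + 1) ≤ K)
    (hf : (X : k⟦X⟧) ^ p ^ K ∣ PowerSeries.map (resd π m) a.f - X) (i : Fin m) :
    a.g (MvPowerSeries.X i) - MvPowerSeries.X i ∈ mI π m ^ (N + 1) := by
  have hpp : p.Prime := Fact.out
  have hpm : (p : MvPowerSeries (Fin m) W) ∈ mI π m := by
    show resd π m (p : MvPowerSeries (Fin m) W) = 0
    rw [map_natCast, ← map_natCast π]
    exact (hW.ker _).2 dvd_rfl
  obtain ⟨g, hg⟩ : ∃ g : MvPowerSeries (Fin m) W ≃ₐ[W] MvPowerSeries (Fin m) W, g = a.g := ⟨_, rfl⟩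
  obtain ⟨f, hf'⟩ : ∃ f : (MvPowerSeries (Fin m) W)⟦X⟧, f = a.f := ⟨_, rfl⟩
  obtain ⟨P, hP⟩ : ∃ P : (MvPowerSeries (Fin m) W)⟦X⟧, P = mulSer F p := ⟨_, rfl⟩
  obtain ⟨P', hP'⟩ : ∃ P' : (MvPowerSeries (Fin m) W)⟦X⟧,
    P' = PowerSeries.map (g : MvPowerSeries (Fin m) W →+* MvPowerSeries (Fin m) W) P := ⟨_, rfl⟩
  have hPc : constantCoeff P = 0 := by rw [hP]; exact cc_mulSer F p
  have hhom := a.hom
  rw [← hg, ← hf'] at hhom
  rw [← hf'] at hf
  rw [← hg]
  have hf0 : constantCoeff f = 0 := hhom.1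
  have hcomm : cm f P = cm P' f := by
    have h1 := hhom.mulSer p
    rw [mulSer_map, ← hP, ← hP'] at h1
    exact h1
  obtain ⟨q, hq⟩ : ∃ q : ℕ, q = p ^ (m + 1) := ⟨_, rfl⟩
  have hq0 : q ≠ 0 := by rw [hq]; exact pow_ne_zero _ hpp.ne_zero
  -- `[p]` modulo `𝔪`
  have hPX : Sm (mI π m) P (X ^ q) := by
    intro n
    show resd π m _ = 0
    have h1 := mulSer_spc hW hF
    unfold spc at h1
    rw [mulSer_map, ← hP, ← hq] at h1
    have h2 := congrArg (coeff n) h1
    rw [PowerSeries.coeff_map] at h2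
    rw [map_sub, h2, PowerSeries.coeff_X_pow, PowerSeries.coeff_X_pow]
    split_ifs
    · rw [map_one, sub_self]
    · rw [map_zero, sub_self]
  have hP'p : ∀ n, ¬ p ∣ n → coeff n P' ∈ mI π m := by
    intro n hn
    show resd π m _ = 0
    rw [hP', PowerSeries.coeff_map]
    show resd π m (g (coeff n P)) = 0
    rw [resd_aut hW g]
    have h1 : resd π m (coeff n P - coeff n (X ^ q : (MvPowerSeries (Fin m) W)⟦X⟧)) = 0 := hPX n
    have h2 : n ≠ q := by
      rintro rfl
      apply hn
      rw [hq]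
      exact dvd_pow_self p (Nat.succ_ne_zero m)
    rw [PowerSeries.coeff_X_pow, if_neg h2, sub_zero] at h1
    exact h1
  -- the induction
  have main : ∀ t ≤ N, (∀ n < p ^ (K - (m + 1) * t), coeff n f - coeff n X ∈ mI π m ^ (t + 1)) ∧
      ∀ j : Fin m, g (MvPowerSeries.X j) - MvPowerSeries.X j ∈ mI π m ^ (t + 1) := by
    intro t
    induction t with
    | zero =>
      intro _
      refine ⟨?_, ?_⟩
      · intro n hn
        rw [mul_zero, Nat.sub_zero] at hn
        rw [zero_add, pow_one]
        show resd π m _ = 0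
        have h1 := PowerSeries.X_pow_dvd_iff.1 hf n hn
        rw [map_sub, PowerSeries.coeff_map] at h1
        rw [map_sub]
        have h2 : resd π m (coeff n (X : (MvPowerSeries (Fin m) W)⟦X⟧)) = coeff n (X : k⟦X⟧) := by
          rw [PowerSeries.coeff_X, PowerSeries.coeff_X]
          split_ifs
          · rw [map_one]
          · rw [map_zero]
        rw [h2]
        exact h1
      · intro j
        rw [zero_add, pow_one]
        show resd π m _ = 0
        rw [map_sub, resd_aut hW g, sub_self]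
    | succ t ih =>
      intro ht
      obtain ⟨h1, h2⟩ := ih (by omega)
      have hKt : (m + 1) * t + (m + 1) ≤ K := by
        refine le_trans ?_ hK
        have h3 : (m + 1) * t + (m + 1) = (m + 1) * (t + 1) := by ring
        rw [h3]
        exact Nat.mul_le_mul_left _ (by omega)
      obtain ⟨M, hM⟩ : ∃ M : ℕ, M = p ^ (K - (m + 1) * t) := ⟨_, rfl⟩
      rw [← hM] at h1
      have hMq : M = p ^ (K - (m + 1) * (t + 1)) * q := by
        rw [hM, hq, ← pow_add]
        congr 1
        have h3 : (m + 1) * (t + 1) = (m + 1) * t + (m + 1) := by ring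
        omega
      have hMp : 0 < p ^ (K - (m + 1) * (t + 1)) := pow_pos hpp.pos _
      have hqM : q ≤ M := by
        rw [hMq]
        exact Nat.le_mul_of_pos_left _ hMp
      have hall := cont_all g (t + 1) h2
      -- the truncation
      obtain ⟨e, he⟩ : ∃ e : (MvPowerSeries (Fin m) W)⟦X⟧,
        e = PowerSeries.mk fun n => if n < M then coeff n f - coeff n X else 0 := ⟨_, rfl⟩
      have hec : ∀ n, coeff n e = if n < M then coeff n f - coeff n X else 0 := by
        intro n
        rw [he, PowerSeries.coeff_mk]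
      have hem : ∀ n, coeff n e ∈ mI π m ^ (t + 1) := by
        intro n
        rw [hec]
        split_ifs with h3
        · exact h1 n h3
        · exact zero_mem _
      have he0 : constantCoeff e = 0 := by
        rw [← PowerSeries.coeff_zero_eq_constantCoeff_apply, hec,
          if_pos (lt_of_lt_of_le (Nat.pos_of_ne_zero hq0) hqM), PowerSeries.coeff_zero_eq_constantCoeff_apply,
          PowerSeries.coeff_zero_eq_constantCoeff_apply, hf0, PowerSeries.constantCoeff_X, sub_self]
      obtain ⟨f₀, hf₀⟩ : ∃ f₀ : (MvPowerSeries (Fin m) W)⟦X⟧, f₀ = X + e := ⟨_, rfl⟩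
      have hf00 : constantCoeff f₀ = 0 := by
        rw [hf₀, map_add, PowerSeries.constantCoeff_X, he0, add_zero]
      have hff : (X : (MvPowerSeries (Fin m) W)⟦X⟧) ^ M ∣ f - f₀ := by
        rw [PowerSeries.X_pow_dvd_iff]
        intro n hn
        rw [hf₀, map_sub, map_add, hec, if_pos hn]
        ring
      have hSm : Sm (mI π m ^ (t + 1)) f₀ X := by
        intro n
        rw [hf₀, map_add, add_sub_cancel_left]
        exact hem n
      have h3 : Sm (mI π m ^ (t + 1 + 1)) (cm P' f₀) P' := pert3 hpm (by omega) hP'p hf00 hSm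
      have h4 : cm f₀ P = P + cm e P := by
        have h5 := left_eq f₀ hPc
        rw [hf₀, add_sub_cancel_left] at h5
        rw [hf₀]
        exact h5
      have h5 : Sm (mI π m ^ (t + 1 + 1)) (cm e P) (cm e (X ^ q)) := by
        have h6 := comp_mul hem hPc (by rw [map_pow, PowerSeries.constantCoeff_X, zero_pow hq0]) hPX
        rwa [← pow_succ] at h6
      -- the basic congruence
      have star : ∀ n < M, g (coeff n P) - coeff n P - (if q ∣ n then coeff (n / q) e else 0) ∈
          mI π m ^ (t + 1 + 1) := by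
        intro n hn
        have h6 := PowerSeries.X_pow_dvd_iff.1 (cm_right P' hf0 hf00 hff) n hn
        have h7 := PowerSeries.X_pow_dvd_iff.1 (cm_left hPc hff) n hn
        rw [map_sub, sub_eq_zero] at h6 h7
        have h8 : coeff n (cm f P) = coeff n (cm P' f) := by rw [hcomm]
        have h9 := h3 n
        have h10 := h5 n
        rw [← h6, ← h8, h7, h4, map_add] at h9
        rw [coeff_comp_X_pow hq0] at h10
        have h11 : coeff n P' = g (coeff n P) := by
          rw [hP', PowerSeries.coeff_map]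
          rfl
        rw [h11] at h9
        have h12 : g (coeff n P) - coeff n P - (if q ∣ n then coeff (n / q) e else 0) =
            (coeff n (cm e P) - (if q ∣ n then coeff (n / q) e else 0)) -
            (coeff n P + coeff n (cm e P) - g (coeff n P)) := by ring
        rw [h12]
        exact sub_mem h10 h9
      have hpar : ∀ j : Fin m, g (MvPowerSeries.X j) - MvPowerSeries.X j ∈ mI π m ^ (t + 1 + 1) := by
        refine cont_par hpm g (t + 1) hall (fun j => coeff (p ^ (j.val + 1)) P) ?_ ?_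
        · intro j
          rw [hP]
          exact coeff_mulSer hW hF j
        · intro j
          have h6 : p ^ (j.val + 1) < q := by
            rw [hq]
            exact Nat.pow_lt_pow_right hpp.one_lt (by have := j.2; omega)
          have h7 := star (p ^ (j.val + 1)) (by omega)
          have h8 : ¬ q ∣ p ^ (j.val + 1) := by
            intro h9
            have := Nat.le_of_dvd (pow_pos hpp.pos _) h9
            omega
          rw [if_neg h8, sub_zero] at h7
          exact h7
      refine ⟨?_, hpar⟩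
      intro n hn
      have hall2 := cont_all g (t + 1 + 1) hpar
      have h6 : n * q < M := by
        rw [hMq]
        exact (Nat.mul_lt_mul_right (Nat.pos_of_ne_zero hq0)).2 hn
      have h7 := star (n * q) h6
      rw [if_pos (Dvd.intro_left n rfl), Nat.mul_div_cancel _ (Nat.pos_of_ne_zero hq0), hec,
        if_pos (lt_of_le_of_lt (Nat.le_mul_of_pos_right n (Nat.pos_of_ne_zero hq0)) h6)] at h7
      have h8 := sub_mem (hall2 (coeff (n * q) P)) h7
      rwa [sub_sub_cancel] at h8
  exact (main N le_rfl).2 i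

end Pool.Agent.H40.CH3
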