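import Pool.Agent.H40.CH3.Fg2

/-!
# FG4: the automorphisms `X +_Γ z X ^ (p ^ K)` of the special fibre

`F₀ = F.map constantCoeff` over `W` has logarithm `l₀ = ∑_j X ^ (p^(n j)) / p^j` (`hz` of the
parameters `v_n = 1`, others `0`; it has coefficients in the prime field of `Frac W`).
For a Frobenius lift `σ` of `W`: `F₀.map σ` has the same logarithm, so `F₀.map σ = F₀`
(`group_unique`, injectivity of `W → Frac W`), hence `Γ.map (x ↦ x ^ p) = Γ` and
`Γ(X ^ p, Y ^ p) = Γ(X, Y) ^ p`.
For `z ^ (p^n) = z` in `W`: `l₀ (z X) = z l₀ (X)`, so `F₀ (z X, z Y) = z F₀ (X, Y)`.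
So `z X ^ (p^K)` is an endomorphism of `Γ`; add `X` (`fa_hom`).
-/

open PowerSeries

namespace Pool.Agent.H40.CH3

open Pool.Agent.H13.CA

variable {W : Type*} [CommRing W] [IsDomain W] {k : Type*} [Field k] {π : W →+* k} {p m : ℕ}
  [Fact p.Prime]

private theorem fg4_inj {R S : Type*} [CommRing R] [CommRing S] (φ : R →+* S)
    (hφ : Function.Injective φ) {F G : FormalGroup R} {f : R⟦X⟧}
    (h : IsHom (F.map φ) (G.map φ) (PowerSeries.map φ f)) : IsHom F G f := by
  have h0 : constantCoeff f = 0 := by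
    apply hφ
    have h1 := h.1
    rw [← PowerSeries.coeff_zero_eq_constantCoeff_apply, PowerSeries.coeff_map,
      PowerSeries.coeff_zero_eq_constantCoeff_apply] at h1
    rw [h1, map_zero]
  refine ⟨h0, ?_⟩
  have hi : Function.Injective (MvPowerSeries.map (σ := Fin 2) φ) := by
    intro a b hab
    ext n
    apply hφ
    have h2 := congrArg (MvPowerSeries.coeff n) hab
    rw [MvPowerSeries.coeff_map, MvPowerSeries.coeff_map] at h2
    exact h2
  apply hi
  have h3 := h.2
  rw [PowerSeries.map_subst (hs_F F), map_pair (hs_subst (PowerSeries.HasSubst.X 0) h0)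
    (hs_subst (PowerSeries.HasSubst.X 1) h0), PowerSeries.map_subst (PowerSeries.HasSubst.X 0),
    PowerSeries.map_subst (PowerSeries.HasSubst.X 1), MvPowerSeries.map_X,
    MvPowerSeries.map_X]
  exact h3

private theorem fg4_Ga {R S : Type*} [CommRing R] [CommRing S] (φ : R →+* S) :
    (FormalGroup.𝔾ₐ (R := R)).map φ = FormalGroup.𝔾ₐ := by
  apply FormalGroup.ext
  rw [FormalGroup.map_toPowerSeries, FormalGroup.𝔾ₐ_toPowerSeries, FormalGroup.𝔾ₐ_toPowerSeries,
    map_add, MvPowerSeries.map_X, MvPowerSeries.map_X]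

/-- specialisation of the logarithm -/
private theorem fg4_spec {R : Type*} [CommRing R] [IsDomain R] {L : Type*} [Field L] (q : R)
    (hq : q ≠ 0) (ψ₀ : R →+* L) (hψ : ψ₀ q ≠ 0) {F : FormalGroup R} {l : (FractionRing R)⟦X⟧}
    (hl : IsHom (F.map (algebraMap R (FractionRing R))) FormalGroup.𝔾ₐ l) (c : ℕ → R) (e : ℕ → ℕ)
    (hc : ∀ j, algebraMap R (FractionRing R) q ^ e j * coeff j l = algebraMap _ _ (c j)) :
    ∃ l₀ : L⟦X⟧, IsHom (F.map ψ₀) FormalGroup.𝔾ₐ l₀ ∧
      ∀ j, ψ₀ q ^ e j * coeff j l₀ = ψ₀ (c j) := by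
  have hq' : algebraMap R (FractionRing R) q ≠ 0 := by
    intro h
    exact hq ((IsFractionRing.injective R (FractionRing R)) (h.trans (map_zero _).symm))
  have hu : ∀ y : Submonoid.powers q, IsUnit (algebraMap R (FractionRing R) y) := by
    rintro ⟨_, n, rfl⟩
    rw [map_pow]
    exact (IsUnit.mk0 _ hq').pow n
  have hu' : ∀ y : Submonoid.powers q, IsUnit (ψ₀ y) := by
    rintro ⟨_, n, rfl⟩
    rw [map_pow]
    exact (IsUnit.mk0 _ hψ).pow n
  obtain ⟨φ, hφ⟩ : ∃ φ : Localization.Away q →+* FractionRing R,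
    φ = IsLocalization.lift hu := ⟨_, rfl⟩
  obtain ⟨ψ, hψ'⟩ : ∃ ψ : Localization.Away q →+* L, ψ = IsLocalization.lift hu' := ⟨_, rfl⟩
  have hle : Submonoid.powers q ≤ nonZeroDivisors R :=
    powers_le_nonZeroDivisors_of_noZeroDivisors hq
  have hφi : Function.Injective φ := by
    rw [hφ, IsLocalization.lift_injective_iff]
    intro x y
    rw [(IsLocalization.injective (Localization.Away q) hle).eq_iff,
      (IsFractionRing.injective R (FractionRing R)).eq_iff]
  have hφc : φ.comp (algebraMap R (Localization.Away q)) = algebraMap R (FractionRing R) := by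
    rw [hφ]
    exact IsLocalization.lift_comp hu
  have hψc : ψ.comp (algebraMap R (Localization.Away q)) = ψ₀ := by
    rw [hψ']
    exact IsLocalization.lift_comp hu'
  obtain ⟨lq, hlq⟩ : ∃ lq : (Localization.Away q)⟦X⟧, lq = PowerSeries.mk fun j =>
    IsLocalization.mk' (Localization.Away q) (c j) (⟨q ^ e j, e j, rfl⟩ : Submonoid.powers q) :=
    ⟨_, rfl⟩
  have h1 : PowerSeries.map φ lq = l := by
    ext j
    rw [PowerSeries.coeff_map, hlq, PowerSeries.coeff_mk, hφ, IsLocalization.lift_mk'_spec,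
      ← hc j, map_pow]
  have h2 : IsHom (F.map (algebraMap R (Localization.Away q))) FormalGroup.𝔾ₐ lq := by
    apply fg4_inj φ hφi
    rw [fmap_map, hφc, fg4_Ga, h1]
    exact hl
  refine ⟨PowerSeries.map ψ lq, ?_, ?_⟩
  · have h3 := h2.map ψ
    rw [fmap_map, hψc, fg4_Ga] at h3
    exact h3
  · intro j
    have h4 : ψ (IsLocalization.mk' (Localization.Away q) (c j)
        (⟨q ^ e j, e j, rfl⟩ : Submonoid.powers q)) = coeff j (PowerSeries.map ψ lq) := by
      rw [PowerSeries.coeff_map, hlq, PowerSeries.coeff_mk]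
    rw [hψ', IsLocalization.lift_mk'_spec, ← hψ', map_pow] at h4
    exact h4.symm

private theorem fg4_hz (p m : ℕ) (hp : p ≠ 0) (w : ℕ → ℤ)
    (hw : ∀ i, 1 ≤ i → i ≠ m + 1 → w i = 0) (k : ℕ) (h : ¬ (m + 1) ∣ k) : hz p w k = 0 := by
  induction k using Nat.strong_induction_on with
  | _ k ih =>
    cases k with
    | zero => exact absurd (dvd_zero _) h
    | succ k =>
      rw [hz_succ]
      refine Finset.sum_eq_zero fun j hj => ?_
      rw [Finset.mem_range] at hj
      by_cases h1 : k + 1 - j = m + 1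
      · have h2 : ¬ (m + 1) ∣ j := by
          intro h3
          apply h
          have h4 : k + 1 = j + (m + 1) := by omega
          rw [h4]
          exact Dvd.dvd.add h3 (dvd_refl _)
        rw [ih j hj h2, mul_zero]
      · rw [hw _ (by omega) h1, zero_pow (pow_ne_zero _ hp), mul_zero, zero_mul]

private theorem fg4_scal {L : Type*} [Field L] {G : FormalGroup L} {l : L⟦X⟧}
    (hl : IsHom G FormalGroup.𝔾ₐ l) (hu : coeff 1 l ≠ 0) (z : L)
    (hz : ∀ j, coeff j l * z ^ j = z * coeff j l) : IsHom G G (C z * X) := by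
  obtain ⟨l', hl', e1, e2⟩ := hl.inv (IsUnit.mk0 _ hu)
  have hzX : constantCoeff (C z * X : L⟦X⟧) = 0 := by
    rw [map_mul, PowerSeries.constantCoeff_X, mul_zero]
  have hsm : (C z * X : L⟦X⟧) = z • X := (PowerSeries.smul_eq_C_mul X z).symm
  have h1 : ∀ {σ : Type} (a : MvPowerSeries σ L), PowerSeries.HasSubst a →
      PowerSeries.subst a (C z * X : L⟦X⟧) = z • a := by
    intro σ a ha
    rw [hsm, PowerSeries.subst_smul ha, PowerSeries.subst_X ha]
  have hX0 : PowerSeries.HasSubst (MvPowerSeries.X 0 : MvPowerSeries (Fin 2) L) :=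
    PowerSeries.HasSubst.X 0
  have hX1 : PowerSeries.HasSubst (MvPowerSeries.X 1 : MvPowerSeries (Fin 2) L) :=
    PowerSeries.HasSubst.X 1
  have h2 : IsHom (FormalGroup.𝔾ₐ (R := L)) FormalGroup.𝔾ₐ (C z * X) := by
    refine ⟨hzX, ?_⟩
    have ha := hasSubst_pair (hs_subst hX0 hzX) (hs_subst hX1 hzX)
    rw [h1 _ (hs_F _), FormalGroup.𝔾ₐ_toPowerSeries, MvPowerSeries.subst_add ha,
      MvPowerSeries.subst_X ha, MvPowerSeries.subst_X ha]
    show z • (MvPowerSeries.X 0 + MvPowerSeries.X 1 : MvPowerSeries (Fin 2) L) =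
      PowerSeries.subst (MvPowerSeries.X 0 : MvPowerSeries (Fin 2) L) (C z * X : L⟦X⟧) +
      PowerSeries.subst (MvPowerSeries.X 1 : MvPowerSeries (Fin 2) L) (C z * X : L⟦X⟧)
    rw [h1 _ hX0, h1 _ hX1, smul_add]
  have h3 := (hl.comp h2).comp hl'
  have h4 : PowerSeries.subst l (C z * X : L⟦X⟧) = PowerSeries.subst (C z * X : L⟦X⟧) l := by
    rw [h1 l (hs_zero hl.1), hsm, ← PowerSeries.rescale_eq_subst]
    ext j
    rw [PowerSeries.coeff_rescale, PowerSeries.coeff_smul, smul_eq_mul, ← hz j, mul_comm]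
  rw [h4, ← subst_subst' hl.1 hzX, e1, PowerSeries.subst_X (hs_zero hzX)] at h3
  exact h3

theorem thet_hom (hW : IsWitt p (m + 1) π) {F : FormalGroup (MvPowerSeries (Fin m) W)}
    (hF : IsHaz p m F) {z : k} (hz : z ^ p ^ (m + 1) = z) (K : ℕ) :
    IsHom (spc π F) (spc π F) (thet (spc π F) p z K) := by
  have hpp : p.Prime := Fact.out
  have hdom : IsDomain (MvPowerSeries (Fin m) W) := NoZeroDivisors.to_isDomain _
  obtain ⟨l, hl, hlk, hl0⟩ := hF.log
  obtain ⟨σ, hσ⟩ := hW.frob
  obtain ⟨z', hz', hzz⟩ := hW.teich z hz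
  obtain ⟨cc, hcc⟩ : ∃ cc : MvPowerSeries (Fin m) W →+* W,
    cc = MvPowerSeries.constantCoeff (σ := Fin m) (R := W) := ⟨_, rfl⟩
  obtain ⟨al, hal⟩ : ∃ al : W →+* FractionRing W, al = algebraMap W (FractionRing W) := ⟨_, rfl⟩
  have hali : Function.Injective al := by
    rw [hal]
    exact IsFractionRing.injective W (FractionRing W)
  -- the parameters of the special fibre are integers
  obtain ⟨w, hw1, hw0⟩ : ∃ w : ℕ → ℤ, w (m + 1) = 1 ∧ ∀ i, i ≠ m + 1 → w i = 0 :=
    ⟨fun i => if i = m + 1 then 1 else 0, if_pos rfl, fun i hi => if_neg hi⟩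
  have hvv : ∀ i, cc (vv W m i) = ((w i : ℤ) : W) := by
    intro i
    rw [hcc]
    unfold vv
    by_cases h1 : i = m + 1
    · rw [dif_neg (by omega), if_pos h1, h1, hw1, map_one, Int.cast_one]
    · by_cases h2 : 1 ≤ i ∧ i ≤ m
      · rw [dif_pos h2, hw0 i h1, MvPowerSeries.constantCoeff_X, Int.cast_zero]
      · rw [dif_neg h2, if_neg h1, hw0 i h1, map_zero, Int.cast_zero]
  have hint : ∀ j, cc (CH3.hz p (vv W m) j) = ((CH3.hz p w j : ℤ) : W) := by
    intro j
    rw [hz_map]
    have h1 := hz_map (Int.castRingHom W) p w j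
    have h2 : (fun i => cc (vv W m i)) = fun i => Int.castRingHom W (w i) := by
      funext i
      exact hvv i
    rw [h2, ← h1]
    rfl
  -- the logarithm of a specialisation
  obtain ⟨c, hc⟩ : ∃ c : ℕ → MvPowerSeries (Fin m) W,
    c = fun j => if j = p ^ Nat.log p j then CH3.hz p (vv W m) (Nat.log p j) else 0 := ⟨_, rfl⟩
  have hpR : (p : MvPowerSeries (Fin m) W) ≠ 0 := by
    intro h
    have h1 := congrArg (MvPowerSeries.constantCoeff (σ := Fin m) (R := W)) h
    rw [map_natCast, map_zero] at h1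
    exact hW.ne h1
  have hpL : al (p : W) ≠ 0 := by
    intro h
    exact hW.ne (hali (h.trans (map_zero al).symm))
  have hck : ∀ j, algebraMap (MvPowerSeries (Fin m) W) (FractionRing (MvPowerSeries (Fin m) W))
      (p : MvPowerSeries (Fin m) W) ^ (if j = p ^ Nat.log p j then Nat.log p j else 0) *
      coeff j l = algebraMap _ _ (c j) := by
    intro j
    rw [hc]
    by_cases h1 : j = p ^ Nat.log p j
    · have h2 := hlk (Nat.log p j)
      rw [← h1] at h2
      simp only [if_pos h1]
      rw [map_natCast]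
      exact h2
    · simp only [if_neg h1]
      rw [hl0 j, mul_zero, map_zero]
      intro k hk
      apply h1
      rw [hk, Nat.log_pow hpp.one_lt]
  have hspec : ∀ τ : W →+* W, ∃ l₀ : (FractionRing W)⟦X⟧,
      IsHom (F.map ((al.comp τ).comp cc)) FormalGroup.𝔾ₐ l₀ ∧ ∀ j,
        al (p : W) ^ (if j = p ^ Nat.log p j then Nat.log p j else 0) * coeff j l₀ =
          al (τ (cc (c j))) := by
    intro τ
    have h1 := fg4_spec (p : MvPowerSeries (Fin m) W) hpR ((al.comp τ).comp cc) (by
      rw [map_natCast, ← map_natCast al p]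
      exact hpL) hl c _ hck
    obtain ⟨l₀, h2, h3⟩ := h1
    refine ⟨l₀, h2, fun j => ?_⟩
    have h4 := h3 j
    rw [map_natCast, ← map_natCast al p] at h4
    exact h4
  have hcj : ∀ (τ : W →+* W) (j : ℕ), τ (cc (c j)) =
      if j = p ^ Nat.log p j then ((CH3.hz p w (Nat.log p j) : ℤ) : W) else 0 := by
    intro τ j
    rw [hc]
    by_cases h1 : j = p ^ Nat.log p j
    · simp only [if_pos h1]
      rw [hint, map_intCast]
    · simp only [if_neg h1]
      rw [map_zero, map_zero]
  obtain ⟨l₀, hl₀, hl₀c⟩ := hspec (RingHom.id W)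
  obtain ⟨l₁, hl₁, hl₁c⟩ := hspec σ
  have hll : l₁ = l₀ := by
    ext j
    have h1 := hl₁c j
    rw [hcj, ← hcj (RingHom.id W), ← hl₀c j] at h1
    exact mul_left_cancel₀ (pow_ne_zero _ hpL) h1
  have hone : coeff 1 l₀ = 1 := by
    have h1 := hl₀c 1
    rw [hcj, Nat.log_one_right, pow_zero, if_pos rfl, if_pos rfl, pow_zero, one_mul,
      hz_zero, Int.cast_one, map_one] at h1
    exact h1
  rw [hll] at hl₁
  have hgr := group_unique hl₁ hl₀ (by rw [hone]; exact one_ne_zero)
  obtain ⟨F₀, hF₀⟩ : ∃ F₀ : FormalGroup W, F₀ = F.map cc := ⟨_, rfl⟩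
  have hspc : spc π F = F₀.map π := by
    rw [hF₀, fmap_map, hcc]
    rfl
  have hgr2 : F₀.map σ = F₀ := by
    have h1 : (F₀.map σ).map al = F₀.map al := by
      rw [hF₀, fmap_map, fmap_map, fmap_map]
      exact hgr
    apply FormalGroup.ext
    ext n
    apply hali
    have h2 := congrArg (fun G : FormalGroup (FractionRing W) =>
      MvPowerSeries.coeff n G.toPowerSeries) h1
    simp only [FormalGroup.map_toPowerSeries, MvPowerSeries.coeff_map] at h2
    rw [FormalGroup.map_toPowerSeries, MvPowerSeries.coeff_map]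
    exact h2
  have hp0 : (p : k) = 0 := by
    have h1 := (hW.ker (p : W)).2 (dvd_refl _)
    rw [map_natCast] at h1
    exact h1
  have hch : CharP k p := (CharP.charP_iff_prime_eq_zero hpp).2 hp0
  have hfr : (spc π F).map (frobenius k p) = spc π F := by
    have h1 : (frobenius k p).comp π = π.comp σ := by
      ext x
      rw [RingHom.comp_apply, RingHom.comp_apply, frobenius_def, hσ]
    rw [hspc, fmap_map, h1, ← fmap_map, hgr2]
  have hX0 : PowerSeries.HasSubst (MvPowerSeries.X 0 : MvPowerSeries (Fin 2) k) :=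
    PowerSeries.HasSubst.X 0
  have hX1 : PowerSeries.HasSubst (MvPowerSeries.X 1 : MvPowerSeries (Fin 2) k) :=
    PowerSeries.HasSubst.X 1
  have hXp : IsHom (spc π F) (spc π F) (X ^ p : k⟦X⟧) := by
    refine ⟨?_, ?_⟩
    · rw [map_pow, PowerSeries.constantCoeff_X, zero_pow hpp.ne_zero]
    · rw [PowerSeries.subst_pow (hs_F _), PowerSeries.subst_X (hs_F _),
        PowerSeries.subst_pow hX0, PowerSeries.subst_X hX0,
        PowerSeries.subst_pow hX1, PowerSeries.subst_X hX1]
      have h2 : MvPowerSeries.subst ![(MvPowerSeries.X 0 : MvPowerSeries (Fin 2) k) ^ p,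
          MvPowerSeries.X 1 ^ p] (spc π F).toPowerSeries =
          MvPowerSeries.expand p hpp.ne_zero (spc π F).toPowerSeries := by
        unfold MvPowerSeries.expand
        rw [MvPowerSeries.substAlgHom_apply]
        refine congrArg (fun z => MvPowerSeries.subst z (spc π F).toPowerSeries) ?_
        funext s
        fin_cases s <;> rfl
      rw [h2, ← MvPowerSeries.map_frobenius_expand p hpp.ne_zero, MvPowerSeries.map_expand,
        ← FormalGroup.map_toPowerSeries, hfr]
  have hXK : ∀ j : ℕ, IsHom (spc π F) (spc π F) (X ^ p ^ j : k⟦X⟧) := by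
    intro j
    induction j with
    | zero =>
      rw [pow_zero, pow_one]
      exact IsHom.refl _
    | succ j ih =>
      have h1 := ih.comp hXp
      rw [PowerSeries.subst_pow (hs_zero ih.1), PowerSeries.subst_X (hs_zero ih.1), ← pow_mul,
        ← pow_succ] at h1
      exact h1
  have hzX : IsHom (spc π F) (spc π F) (C z * X : k⟦X⟧) := by
    have h1 : IsHom (F₀.map al) (F₀.map al) (C (al z') * X) := by
      have h2 : IsHom (F₀.map al) FormalGroup.𝔾ₐ l₀ := by
        rw [hF₀, fmap_map]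
        exact hl₀
      refine fg4_scal h2 (by rw [hone]; exact one_ne_zero) (al z') ?_
      intro j
      by_cases h3 : j = p ^ Nat.log p j
      · by_cases h4 : (m + 1) ∣ Nat.log p j
        · have h5 : z' ^ j = z' := by
            obtain ⟨r, hr⟩ := h4
            have h6 : ∀ r : ℕ, z' ^ p ^ ((m + 1) * r) = z' := by
              intro r
              induction r with
              | zero => rw [mul_zero, pow_zero, pow_one]
              | succ r ih => rw [mul_add, mul_one, pow_add, pow_mul, ih, hzz]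
            rw [h3, hr, h6]
          rw [← map_pow, h5, mul_comm]
        · have h5 : coeff j l₀ = 0 := by
            have h6 := hl₀c j
            rw [hcj, if_pos h3, if_pos h3, fg4_hz p m hpp.ne_zero w (fun i _ hi => hw0 i hi) _ h4,
              Int.cast_zero, map_zero] at h6
            exact (mul_eq_zero.1 h6).resolve_left (pow_ne_zero _ hpL)
          rw [h5, zero_mul, mul_zero]
      · have h5 : coeff j l₀ = 0 := by
          have h6 := hl₀c j
          rw [hcj, if_neg h3, if_neg h3, map_zero] at h6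
          exact (mul_eq_zero.1 h6).resolve_left (pow_ne_zero _ hpL)
        rw [h5, zero_mul, mul_zero]
    have h2 : IsHom F₀ F₀ (C z' * X) := by
      apply fg4_inj al hali
      rw [map_mul, PowerSeries.map_C, PowerSeries.map_X]
      exact h1
    have h3 := h2.map π
    rw [map_mul, PowerSeries.map_C, PowerSeries.map_X, hz', ← hspc] at h3
    exact h3
  have hzK : IsHom (spc π F) (spc π F) (C z * X ^ p ^ K : k⟦X⟧) := by
    have h1 := (hXK K).comp hzX
    have h2 : (C z * X : k⟦X⟧) = z • X := (PowerSeries.smul_eq_C_mul X z).symm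
    have h3 : (C z * X ^ p ^ K : k⟦X⟧) = z • X ^ p ^ K := (PowerSeries.smul_eq_C_mul _ z).symm
    rw [h2, PowerSeries.subst_smul (hs_zero (hXK K).1), PowerSeries.subst_X (hs_zero (hXK K).1)]
      at h1
    rw [h3]
    exact h1
  have hcomm : (spc π F).IsComm := IsComm.map' hF.comm _
  exact fa_hom hcomm (IsHom.refl _) hzK

/-- `thet = X + z X ^ (p ^ K) + ..` -/
theorem thet_lead (F : FormalGroup k) (z : k) (K : ℕ) :
    (X : k⟦X⟧) ^ p ^ K ∣ thet F p z K - X := by
  have hp : 0 < p ^ K := pow_pos (Fact.out : p.Prime).pos K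
  have h0 : constantCoeff (C z * X ^ p ^ K : k⟦X⟧) = 0 := by
    rw [map_mul, map_pow, PowerSeries.constantCoeff_X, zero_pow hp.ne', mul_zero]
  have h1 := fa_sub_dvd F PowerSeries.constantCoeff_X h0
  have h2 : (X : k⟦X⟧) ^ p ^ K ∣ C z * X ^ p ^ K := Dvd.intro_left _ rfl
  have h3 : thet F p z K - X = (fa F X (C z * X ^ p ^ K) - X - C z * X ^ p ^ K) +
      C z * X ^ p ^ K := by
    unfold thet
    ring
  rw [h3]
  exact dvd_add (((h2.mul_left X).trans h1)) h2

end Pool.Agent.H40.CH3
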