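import Pool.Agent.H40.CH3.Al1

/-!
# HX1: a Frobenius lift on `W⟦v_1, .., v_m⟧`

`σ (∑ w_α v^α) = ∑ σ_W(w_α) v^(p α)` (`MvPowerSeries.map`, `MvPowerSeries.expand`), `σ_W` from
`IsWitt.frob`.  `σ a - a ^ p` is divisible by `p`: modulo `p` (coefficients in `k`, characteristic
`p`, `MvPowerSeries.map_frobenius_expand` or similar).  Injective: `σ_W` is (`w = p ^ j u`, `u` a unit).
-/

namespace Pool.Agent.H40.CH3

variable {W : Type*} [CommRing W] [IsDomain W] {k : Type*} [Field k] {π : W →+* k} {p m : ℕ}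
  [Fact p.Prime]

private theorem frobW_eq_zero (hW : IsWitt p (m + 1) π) (s : W →+* W)
    (hs : ∀ w, π (s w) = π w ^ p) {w : W} (hw : s w = 0) : w = 0 := by
  by_contra hne
  have h1 : ∃ j : ℕ, ¬ (p : W) ^ j ∣ w := by
    by_contra h
    push Not at h
    exact hne (hW.sep w h)
  classical
  have h2 := Nat.find_spec h1
  have h3 : Nat.find h1 ≠ 0 := by
    intro h0
    rw [h0, pow_zero] at h2
    exact h2 (one_dvd _)
  obtain ⟨j, hj⟩ := Nat.exists_eq_succ_of_ne_zero h3
  have h4 : (p : W) ^ j ∣ w := by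
    by_contra h
    have := Nat.find_min' h1 h
    omega
  obtain ⟨u, hu⟩ := h4
  have h5 : ¬ (p : W) ∣ u := by
    rintro ⟨v, hv⟩
    apply h2
    rw [hj]
    exact ⟨v, by rw [hu, hv, Nat.succ_eq_add_one, pow_succ]; ring⟩
  have h6 : π u ≠ 0 := fun h => h5 ((hW.ker u).1 h)
  have h7 : π (s u) ≠ 0 := by rw [hs]; exact pow_ne_zero _ h6
  have h8 : s u ≠ 0 := by
    intro h
    rw [h, map_zero] at h7
    exact h7 rfl
  rw [hu, map_mul, map_pow, map_natCast] at hw
  exact (mul_ne_zero (pow_ne_zero _ hW.ne) h8) hw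

theorem exists_sigma (hW : IsWitt p (m + 1) π) :
    ∃ σ : MvPowerSeries (Fin m) W →+* MvPowerSeries (Fin m) W, Function.Injective σ ∧
      (∀ a, (p : MvPowerSeries (Fin m) W) ∣ σ a - a ^ p) ∧
      ∀ i, σ (MvPowerSeries.X i) = MvPowerSeries.X i ^ p := by
  obtain ⟨s, hs⟩ := hW.frob
  have hp : p ≠ 0 := (Fact.out : p.Prime).ne_zero
  have hk : CharP k p := by
    rw [CharP.charP_iff_prime_eq_zero (Fact.out : p.Prime)]
    have := (hW.ker (p : W)).2 dvd_rfl
    rwa [map_natCast] at this
  have : ExpChar k p := ExpChar.prime (Fact.out : p.Prime)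
  refine ⟨(MvPowerSeries.expand p hp).toRingHom.comp (MvPowerSeries.map s), ?_, ?_, ?_⟩
  · rw [injective_iff_map_eq_zero]
    intro a ha
    ext n
    rw [map_zero]
    apply frobW_eq_zero hW s hs
    have h1 : MvPowerSeries.coeff (p • n) (MvPowerSeries.expand p hp (MvPowerSeries.map s a)) = 0 := by
      have h2 : MvPowerSeries.expand p hp (MvPowerSeries.map s a) = 0 := ha
      rw [h2, map_zero]
    rw [MvPowerSeries.coeff_expand_smul, MvPowerSeries.coeff_map] at h1
    exact h1
  · intro a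
    have h1 : MvPowerSeries.map π (MvPowerSeries.expand p hp (MvPowerSeries.map s a) - a ^ p) = 0 := by
      rw [map_sub, map_pow, MvPowerSeries.map_expand, sub_eq_zero,
        ← MvPowerSeries.map_frobenius_expand p hp, MvPowerSeries.map_expand]
      congr 1
      ext n
      rw [MvPowerSeries.coeff_map, MvPowerSeries.coeff_map, MvPowerSeries.coeff_map,
        MvPowerSeries.coeff_map, hs]
      rfl
    have h2 : ∀ n, (p : W) ∣ MvPowerSeries.coeff n
        (MvPowerSeries.expand p hp (MvPowerSeries.map s a) - a ^ p) := by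
      intro n
      rw [← hW.ker, ← MvPowerSeries.coeff_map, h1, map_zero]
    choose c hc using h2
    refine ⟨fun n => c n, ?_⟩
    have h3 : (p : MvPowerSeries (Fin m) W) = MvPowerSeries.C (p : W) := by
      rw [map_natCast]
    rw [h3]
    ext n
    rw [MvPowerSeries.coeff_C_mul]
    exact hc n
  · intro i
    change MvPowerSeries.expand p hp (MvPowerSeries.map s (MvPowerSeries.X i)) = _
    rw [MvPowerSeries.map_X, MvPowerSeries.expand_X]

end Pool.Agent.H40.CH3
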