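import Pool.Agent.H40.CH3.Mn0
import Pool.Agent.H13.CA.Gnd
import Pool.Agent.H13.CA.Gal

/-!
# MN: Chai's Hope in mixed characteristic

Reduction modulo `p` of a stable prime containing `p`, closed fibre theorem.
-/

open PowerSeries

namespace Pool.Agent.H40.CH3

open Pool.Agent.H13.CA

variable {W : Type*} [CommRing W] [IsDomain W] {k : Type*} [Field k]
  {π : W →+* k} {p m : ℕ} [Fact p.Prime]

/-- reduction of coefficients modulo `p` -/
noncomputable abbrev rd (π : W →+* k) (m : ℕ) : MvPowerSeries (Fin m) W →+* MvPowerSeries (Fin m) k :=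
  MvPowerSeries.map (σ := Fin m) π

theorem rd_surj (hW : IsWitt p (m + 1) π) : Function.Surjective (rd π m) := by
  intro y
  choose s hs using hW.surj
  refine ⟨fun n => s (y n), ?_⟩
  ext n
  rw [MvPowerSeries.coeff_map]
  exact hs _

theorem rd_ker (hW : IsWitt p (m + 1) π) (x : MvPowerSeries (Fin m) W) :
    rd π m x = 0 ↔ (p : MvPowerSeries (Fin m) W) ∣ x := by
  constructor
  · intro h
    have h1 : ∀ n, ∃ y : W, MvPowerSeries.coeff n x = (p : W) * y := by
      intro n
      have h2 : π (MvPowerSeries.coeff n x) = 0 := by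
        rw [← MvPowerSeries.coeff_map, h, map_zero]
      exact (hW.ker _).mp h2
    choose y hy using h1
    refine ⟨fun n => y n, ?_⟩
    ext n
    rw [hy n]
    have h3 : (p : MvPowerSeries (Fin m) W) = MvPowerSeries.C (p : W) := (map_natCast _ _).symm
    rw [h3, MvPowerSeries.coeff_C_mul]
    rfl
  · rintro ⟨y, rfl⟩
    rw [map_mul, map_natCast]
    have : ((p : ℕ) : MvPowerSeries (Fin m) k) = MvPowerSeries.C ((p : ℕ) : k) :=
      (map_natCast _ _).symm
    rw [this]
    have h1 := (hW.ker (p : W)).mpr dvd_rfl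
    rw [map_natCast] at h1
    rw [h1, map_zero, zero_mul]

theorem const_rd (x : MvPowerSeries (Fin m) W) :
    MvPowerSeries.constantCoeff (rd π m x) = resd π m x := by
  rw [MvPowerSeries.constantCoeff_map]
  rfl

theorem special_rd (F : FormalGroup (MvPowerSeries (Fin m) W)) :
    special (F.map (rd π m)) = spc π F := by
  rw [special, fmap_map, spc]
  congr 1

/-- the induced automorphism -/
theorem exists_rdg (hW : IsWitt p (m + 1) π)
    (g : MvPowerSeries (Fin m) W ≃ₐ[W] MvPowerSeries (Fin m) W) :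
    ∃ g' : MvPowerSeries (Fin m) k ≃ₐ[k] MvPowerSeries (Fin m) k,
      ∀ x, g' (rd π m x) = rd π m (g x) := by
  have hs := rd_surj hW
  have key : ∀ h : MvPowerSeries (Fin m) W ≃ₐ[W] MvPowerSeries (Fin m) W, ∀ x y,
      rd π m x = rd π m y → rd π m (h x) = rd π m (h y) := by
    intro h x y hxy
    rw [← sub_eq_zero, ← map_sub, rd_ker hW] at hxy
    obtain ⟨c, hc⟩ := hxy
    rw [← sub_eq_zero, ← map_sub, ← map_sub, hc, rd_ker hW]
    exact ⟨h c, by rw [map_mul, map_natCast]⟩
  choose s hsec using hs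
  have e1 : ∀ h : MvPowerSeries (Fin m) W ≃ₐ[W] MvPowerSeries (Fin m) W, ∀ x,
      rd π m (h (s (rd π m x))) = rd π m (h x) := fun h x => key h _ _ (hsec _)
  have hC : ∀ c : W, (algebraMap k (MvPowerSeries (Fin m) k)) (π c) =
      rd π m (algebraMap W (MvPowerSeries (Fin m) W) c) := by
    intro c
    show MvPowerSeries.C (π c) = MvPowerSeries.map π (MvPowerSeries.C c)
    rw [MvPowerSeries.map_C]
  refine ⟨{ toFun := fun y => rd π m (g (s y))
            invFun := fun y => rd π m (g.symm (s y))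
            left_inv := ?_
            right_inv := ?_
            map_mul' := ?_
            map_add' := ?_
            commutes' := ?_ }, fun x => e1 g x⟩
  · intro y
    show rd π m (g.symm (s (rd π m (g (s y))))) = y
    rw [e1 g.symm, g.symm_apply_apply, hsec]
  · intro y
    show rd π m (g (s (rd π m (g.symm (s y))))) = y
    rw [e1 g, g.apply_symm_apply, hsec]
  · intro x y
    rw [← map_mul, ← map_mul]
    exact key g _ _ (by rw [map_mul, hsec, hsec, hsec])
  · intro x y
    rw [← map_add, ← map_add]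
    exact key g _ _ (by rw [map_add, hsec, hsec, hsec])
  · intro c
    obtain ⟨c, rfl⟩ := hW.surj c
    rw [hC, e1 g, g.commutes]

/-- the reduction of a pair -/
theorem exists_rdL (hW : IsWitt p (m + 1) π) {F : FormalGroup (MvPowerSeries (Fin m) W)}
    (a : Lift W F) : ∃ b : Lift k (F.map (rd π m)), b.f = PowerSeries.map (rd π m) a.f ∧
      ∀ x, b.g (rd π m x) = rd π m (a.g x) := by
  obtain ⟨g', hg'⟩ := exists_rdg hW a.g
  have hcomp : (g' : MvPowerSeries (Fin m) k →+* MvPowerSeries (Fin m) k).comp (rd π m) =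
      (rd π m).comp (a.g : MvPowerSeries (Fin m) W →+* MvPowerSeries (Fin m) W) :=
    RingHom.ext hg'
  have hh : (F.map (rd π m)).map (g' : MvPowerSeries (Fin m) k →+* MvPowerSeries (Fin m) k) =
      (F.map (a.g : MvPowerSeries (Fin m) W →+* MvPowerSeries (Fin m) W)).map (rd π m) := by
    rw [fmap_map, fmap_map, hcomp]
  refine ⟨{ g := g'
            f := PowerSeries.map (rd π m) a.f
            f' := PowerSeries.map (rd π m) a.f'
            hom := ?_
            zero' := ?_
            left := ?_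
            right := ?_ }, rfl, hg'⟩
  · rw [hh]
    exact a.hom.map _
  · rw [← PowerSeries.coeff_zero_eq_constantCoeff_apply, PowerSeries.coeff_map,
      PowerSeries.coeff_zero_eq_constantCoeff_apply, a.zero', map_zero]
  · rw [← map_subst' (hs_zero a.hom.1), a.left, map_X']
  · rw [← map_subst' (hs_zero a.zero'), a.right, map_X']

/-- Chai's Hope, in terms of `IsWitt` -/
theorem chai_witt [IsNoetherianRing W] [CharP k p] (hW : IsWitt p (m + 1) π)
    (hζ : ∃ ζ : k, IsPrimitiveRoot ζ (p ^ (m + 1) - 1))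
    {F : FormalGroup (MvPowerSeries (Fin m) W)} (hF : IsHaz p m F) (N : ℕ)
    (P : Ideal (MvPowerSeries (Fin m) W)) (hP : P.IsPrime)
    (hst : ∀ θ : PowerSeries k, IsHom (spc π F) (spc π F) θ → IsUnit (coeff 1 θ) →
      (X : k⟦X⟧) ^ N ∣ θ - X → ∃ a : Lift W F, PowerSeries.map (resd π m) a.f = θ ∧
        P.map (a.g : MvPowerSeries (Fin m) W →+* MvPowerSeries (Fin m) W) ≤ P) :
    P = ⊥ ∨ ∃ j, j ≤ m ∧ P = Ideal.span ({x | ∃ i : Fin m, i.val < j ∧ x = MvPowerSeries.X i} ∪
      {(p : MvPowerSeries (Fin m) W)}) := by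
  by_cases hp : (p : MvPowerSeries (Fin m) W) ∈ P
  swap
  · exact Or.inl (chai_zero hW hζ hF N P hP hp hst)
  right
  have hs := rd_surj hW
  have hker : RingHom.ker (rd π m) ≤ P := by
    intro x hx
    obtain ⟨c, rfl⟩ := (rd_ker hW x).mp hx
    exact P.mul_mem_right c hp
  have hPm : (P.map (rd π m)).IsPrime := Ideal.map_isPrime_of_surjective hs hker
  have hcomap : (P.map (rd π m)).comap (rd π m) = P := by
    rw [Ideal.comap_map_of_surjective _ hs]
    refine le_antisymm (sup_le le_rfl ?_) le_sup_left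
    intro x hx
    exact hker (by simpa [RingHom.mem_ker] using hx)
  obtain ⟨ζ, hζ⟩ := hζ
  have hsp : mulSer (special (F.map (rd π m))) p = (X : k⟦X⟧) ^ p ^ (m + 1) := by
    rw [special_rd]
    exact mulSer_spc hW hF
  obtain ⟨j, hj, hPj⟩ := chai_ground (k' := AlgebraicClosure k) p (F.map (rd π m))
    (isLT_mod hW hF) (autDef_of_prim p (Nat.succ_le_succ (Nat.zero_le m)) hζ hsp) N
    (P.map (rd π m)) hPm (by
    intro θ h1 h2 h3
    rw [special_rd] at h1
    obtain ⟨a, ha1, ha2⟩ := hst θ h1 h2 h3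
    obtain ⟨b, hb1, hb2⟩ := exists_rdL hW a
    refine ⟨b, ?_, ?_⟩
    · rw [red, hb1, ← ha1, map_map']
      congr 1
    · rw [Ideal.map_le_iff_le_comap, Ideal.map_le_iff_le_comap]
      intro x hx
      rw [Ideal.mem_comap, Ideal.mem_comap]
      show b.g (rd π m x) ∈ _
      rw [hb2]
      exact Ideal.mem_map_of_mem _ (ha2 (Ideal.mem_map_of_mem _ hx)))
  refine ⟨j, hj, ?_⟩
  have himg : (Ideal.span ({x | ∃ i : Fin m, i.val < j ∧ x = MvPowerSeries.X i} ∪
      {(p : MvPowerSeries (Fin m) W)})).map (rd π m) = Istd k m j := by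
    rw [Ideal.map_span, Istd]
    refine le_antisymm (Ideal.span_le.mpr ?_) (Ideal.span_le.mpr ?_)
    · rintro _ ⟨x, hx | hx, rfl⟩
      · obtain ⟨i, hi, rfl⟩ := hx
        rw [MvPowerSeries.map_X]
        exact Ideal.subset_span ⟨i, hi, rfl⟩
      · rw [Set.mem_singleton_iff.mp hx, (rd_ker hW _).mpr dvd_rfl]
        exact zero_mem _
    · rintro _ ⟨i, hi, rfl⟩
      refine Ideal.subset_span ⟨MvPowerSeries.X i, Or.inl ⟨i, hi, rfl⟩, ?_⟩
      rw [MvPowerSeries.map_X]
  rw [← hcomap, hPj, ← himg, Ideal.comap_map_of_surjective _ hs]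
  refine le_antisymm (sup_le le_rfl ?_) le_sup_left
  intro x hx
  have hx' : rd π m x = 0 := by simpa [RingHom.mem_ker] using hx
  obtain ⟨c, rfl⟩ := (rd_ker hW x).mp hx'
  exact Ideal.mul_mem_right c _ (Ideal.subset_span (Or.inr rfl))

end Pool.Agent.H40.CH3
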