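import Pool.Agent.H40.CH3.An5
import Pool.Agent.H40.CH3.Fg3
import Pool.Agent.H40.CH3.Fg4
import Pool.Agent.H40.CH3.Al2

/-!
# MN0: stable primes not containing `p` are zero
-/

open PowerSeries

namespace Pool.Agent.H40.CH3

open Pool.Agent.H13.CA

variable {W : Type*} [CommRing W] [IsDomain W] {k : Type*} [Field k]
  {π : W →+* k} {p m : ℕ} [Fact p.Prime]

theorem p_mem_mI (hW : IsWitt p (m + 1) π) : (p : MvPowerSeries (Fin m) W) ∈ mI π m := by
  rw [mI, RingHom.mem_ker, map_natCast]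
  have := (hW.ker (p : W)).mpr dvd_rfl
  rwa [map_natCast] at this

theorem X_mem_mI (i : Fin m) : (MvPowerSeries.X i : MvPowerSeries (Fin m) W) ∈ mI π m := by
  rw [mI, RingHom.mem_ker, resd, RingHom.comp_apply, MvPowerSeries.constantCoeff_X, map_zero]

theorem mI_ne_top : mI π m ≠ ⊤ := RingHom.ker_ne_top _

theorem localW (hW : IsWitt p (m + 1) π) : IsLocalRing W := by
  haveI : Nontrivial W := inferInstance
  refine IsLocalRing.of_isUnit_or_isUnit_one_sub_self fun a => ?_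
  by_cases h : π a = 0
  · right
    refine hW.unit _ ?_
    rw [map_sub, map_one, h, sub_zero]
    exact one_ne_zero
  · exact Or.inl (hW.unit a h)

theorem vv_par (A : Type*) [CommRing A] (g : MvPowerSeries (Fin m) W →+* A)
    (𝔫 : Ideal A) (hg : ∀ i : Fin m, g (MvPowerSeries.X i) ∈ 𝔫) :
    Par m 𝔫 (fun i => g (vv W m i)) where
  low i hi := by
    simp only [vv]
    split_ifs with h1 h2
    · exact hg _
    · omega
    · rw [map_zero]; exact zero_mem _
  one := by
    show g (vv W m (m + 1)) = 1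
    rw [vv, dif_neg (by omega), if_pos rfl, map_one]
  high i hi := by
    show g (vv W m i) = 0
    rw [vv, dif_neg (by omega), if_neg (by omega), map_zero]

theorem vv_succ (i : Fin m) : vv W m (i.val + 1) = MvPowerSeries.X i := by
  rw [vv, dif_pos ⟨by omega, by omega⟩]
  congr 1

/-- the setting for a quotient of dimension one -/
theorem stg_quot [IsNoetherianRing W] (hW : IsWitt p (m + 1) π)
    (Q : Ideal (MvPowerSeries (Fin m) W)) (hQ : Q.IsPrime)
    (hpQ : (p : MvPowerSeries (Fin m) W) ∉ Q)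
    (hmax : ∀ Q' : Ideal (MvPowerSeries (Fin m) W), Q'.IsPrime → Q < Q' → Q' = mI π m) :
    ∃ C : ℕ, Stg (MvPowerSeries (Fin m) W ⧸ Q) (FractionRing (MvPowerSeries (Fin m) W ⧸ Q)) p C
      ((mI π m).map (Ideal.Quotient.mk Q)) := by
  set R := MvPowerSeries (Fin m) W with hR
  have hQm : Q ≤ mI π m := by
    intro x hx
    by_contra hcon
    exact hQ.ne_top (Ideal.eq_top_of_isUnit_mem _ hx (isUnit_of_not_mem_mI hW hcon))
  have hmem : ∀ x : R, Ideal.Quotient.mk Q x ∈ (mI π m).map (Ideal.Quotient.mk Q) ↔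
      x ∈ mI π m := by
    intro x
    rw [Ideal.mem_map_iff_of_surjective _ Ideal.Quotient.mk_surjective]
    constructor
    · rintro ⟨y, hy, hxy⟩
      have h1 := Ideal.Quotient.eq.mp hxy
      have h2 := (mI π m).sub_mem hy (hQm h1)
      rwa [sub_sub_cancel] at h2
    · intro h
      exact ⟨x, h, rfl⟩
  have htop : (mI π m).map (Ideal.Quotient.mk Q) ≠ ⊤ := by
    intro h
    have h1 : Ideal.Quotient.mk Q 1 ∈ (mI π m).map (Ideal.Quotient.mk Q) := by
      rw [h]; trivial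
    rw [hmem] at h1
    exact mI_ne_top ((Ideal.eq_top_iff_one _).mpr h1)
  have hpn : (p : R ⧸ Q) ≠ 0 := by
    intro h
    apply hpQ
    rw [← Ideal.Quotient.eq_zero_iff_mem, map_natCast]
    exact h
  have hpm : (p : R ⧸ Q) ∈ (mI π m).map (Ideal.Quotient.mk Q) := by
    have := (hmem (p : R)).mpr (p_mem_mI hW)
    rwa [map_natCast] at this
  have hrad : (mI π m).map (Ideal.Quotient.mk Q) ≤ (Ideal.span {(p : R ⧸ Q)}).radical := by
    rw [Ideal.radical_eq_sInf]
    refine le_sInf ?_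
    rintro J ⟨hJ1, hJ2⟩
    have h1 : (J.comap (Ideal.Quotient.mk Q)) = mI π m := by
      refine hmax _ (Ideal.comap_isPrime _ _) (lt_of_le_of_ne ?_ ?_)
      · intro x hx
        rw [Ideal.mem_comap, Ideal.Quotient.eq_zero_iff_mem.mpr hx]
        exact zero_mem _
      · intro h
        apply hpQ
        rw [h, Ideal.mem_comap, map_natCast]
        exact hJ1 (Ideal.subset_span rfl)
    rw [Ideal.map_le_iff_le_comap, h1]
  obtain ⟨C, hC⟩ := Ideal.exists_pow_le_of_le_radical_of_fg hrad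
    ((isNoetherian_def.mp inferInstance) _)
  refine ⟨C, ?_⟩
  refine ⟨IsFractionRing.injective _ _, Fact.out, hpn, ?_, htop, hpm, hC, ?_⟩
  · intro x hx
    obtain ⟨y, rfl⟩ := Ideal.Quotient.mk_surjective x
    rw [hmem] at hx
    exact (isUnit_of_not_mem_mI hW hx).map _
  · intro x hx
    have h1 : (⨅ i : ℕ, Ideal.span {(p : R ⧸ Q)} ^ i) = ⊥ := by
      refine Ideal.iInf_pow_eq_bot_of_isDomain _ fun h => htop ?_
      rw [eq_top_iff, ← h, Ideal.span_le, Set.singleton_subset_iff]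
      exact hpm
    have h2 : x ∈ (⨅ i : ℕ, Ideal.span {(p : R ⧸ Q)} ^ i) := by
      rw [Ideal.mem_iInf]
      intro i
      rw [Ideal.span_singleton_pow, Ideal.mem_span_singleton]
      exact hx i
    rw [h1] at h2
    exact h2

/-- a generator of the multiplicative group of the field with `p ^ (m + 1)` elements -/
theorem exists_root (hζ : ∃ ζ : k, IsPrimitiveRoot ζ (p ^ (m + 1) - 1)) (hm : 1 ≤ m) :
    ∃ z : k, z ^ p ^ (m + 1) = z ∧ ∀ e e' : ℕ, e < e' → e' ≤ m → z ^ p ^ e ≠ z ^ p ^ e' := by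
  have hp : p.Prime := Fact.out
  have h2 : 2 ≤ p := hp.two_le
  have h1 : 1 < p ^ (m + 1) := Nat.one_lt_pow (by omega) (by omega)
  obtain ⟨z, hz⟩ := hζ
  refine ⟨z, ?_, ?_⟩
  · conv_lhs => rw [← Nat.sub_add_cancel h1.le, pow_succ, hz.pow_eq_one, one_mul]
  · intro e e' hee he' heq
    have hlt : ∀ j, j ≤ m → p ^ j < p ^ (m + 1) - 1 := by
      intro j hj
      have h3 : p ^ j ≤ p ^ m := Nat.pow_le_pow_right (by omega) hj
      have h4 : p ^ (m + 1) = p * p ^ m := by rw [pow_succ, mul_comm]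
      have h5 : 2 ≤ p ^ m := by
        calc 2 ≤ p ^ 1 := by simpa using h2
          _ ≤ p ^ m := Nat.pow_le_pow_right (by omega) hm
      have h6 : 2 * p ^ m ≤ p * p ^ m := Nat.mul_le_mul_right _ h2
      omega
    have := hz.pow_inj (hlt e (by omega)) (hlt e' he') heq
    have h7 := Nat.pow_right_injective h2 this
    omega

/-- the derivatives of the elements of a stable prime lie in all one-dimensional primes above -/
theorem deriv_mem [IsNoetherianRing W] (hW : IsWitt p (m + 1) π)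
    (hζ : ∃ ζ : k, IsPrimitiveRoot ζ (p ^ (m + 1) - 1)) (hm : 1 ≤ m) {F : FormalGroup (MvPowerSeries (Fin m) W)} (hF : IsHaz p m F) (N₀ : ℕ)
    (P : Ideal (MvPowerSeries (Fin m) W))
    (hst : ∀ θ : PowerSeries k, IsHom (spc π F) (spc π F) θ → IsUnit (coeff 1 θ) →
      (X : k⟦X⟧) ^ N₀ ∣ θ - X → ∃ a : Lift W F, PowerSeries.map (resd π m) a.f = θ ∧
        P.map (a.g : MvPowerSeries (Fin m) W →+* MvPowerSeries (Fin m) W) ≤ P)
    (Q : Ideal (MvPowerSeries (Fin m) W)) (hQ : Q.IsPrime) (hPQ : P ≤ Q)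
    (hpQ : (p : MvPowerSeries (Fin m) W) ∉ Q)
    (hmax : ∀ Q' : Ideal (MvPowerSeries (Fin m) W), Q'.IsPrime → Q < Q' → Q' = mI π m)
    (h : MvPowerSeries (Fin m) W) (hh : h ∈ P) (i : Fin m) : MvPowerSeries.pderiv W i h ∈ Q := by
  classical
  obtain ⟨C, hS⟩ := stg_quot hW Q hQ hpQ hmax
  set 𝔫 : Ideal (MvPowerSeries (Fin m) W ⧸ Q) := (mI π m).map (Ideal.Quotient.mk Q) with h𝔫
  set x : MvPowerSeries (Fin m) W →+* MvPowerSeries (Fin m) W ⧸ Q := Ideal.Quotient.mk Q with hx
  obtain ⟨ζ, hζ1, hζ'⟩ := exists_root hζ hm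
  obtain ⟨z, hz, hz'⟩ := hW.teich ζ hζ1
  set z0 : MvPowerSeries (Fin m) W ⧸ Q := x (MvPowerSeries.C z) with hz0def
  have hzz : ∀ j : ℕ, z0 ^ j = x (MvPowerSeries.C (z ^ j)) := by
    intro j
    rw [hz0def, map_pow, map_pow]
  have hmemn : ∀ y : MvPowerSeries (Fin m) W, resd π m y = 0 → x y ∈ 𝔫 := fun y hy =>
    Ideal.mem_map_of_mem _ (by rw [mI, RingHom.mem_ker]; exact hy)
  have hres : ∀ y : W, resd π m (MvPowerSeries.C y) = π y := by
    intro y
    rw [resd, RingHom.comp_apply, MvPowerSeries.constantCoeff_C]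
  have hpar : Par m 𝔫 (fun i => x (vv W m i)) :=
    vv_par _ x 𝔫 fun i => Ideal.mem_map_of_mem _ (X_mem_mI i)
  suffices hω : ∀ i, x (MvPowerSeries.pderiv W i h) = 0 from
    Ideal.Quotient.eq_zero_iff_mem.mp (hω i)
  refine analysis hS hm hpar (fun i => x (MvPowerSeries.pderiv W i h)) z0 ?_ ?_ ?_
  · rw [hzz, hz']
  · intro e e' hee he'
    rw [hzz, hzz, ← map_sub, ← map_sub]
    refine IsUnit.map x (IsUnit.map (MvPowerSeries.C (σ := Fin m) (R := W)) (hW.unit _ ?_))
    rw [map_sub, map_pow, map_pow, hz]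
    exact sub_ne_zero.mpr (hζ' e e' hee he')
  · intro t i0 ht hi0
    refine ⟨N₀ + 1, fun N hN => ?_⟩
    set K : ℕ := (m + 1) * N + i0 with hK
    have hNK : N ≤ K := by rw [hK]; nlinarith
    have hζt : (ζ ^ t) ^ p ^ (m + 1) = ζ ^ t := by
      rw [← pow_mul, mul_comm, pow_mul, hζ1]
    have hp2 : 2 ≤ p := (Fact.out : p.Prime).two_le
    have hKlt : K < p ^ K := Nat.lt_pow_self (by omega)
    have hθl := thet_lead (p := p) (spc π F) (ζ ^ t) K
    obtain ⟨a, ha1, ha2⟩ := hst (thet (spc π F) p (ζ ^ t) K) (thet_hom hW hF hζt K) (by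
      have h1 : (X : k⟦X⟧) ^ 2 ∣ thet (spc π F) p (ζ ^ t) K - X :=
        dvd_trans (pow_dvd_pow _ (by omega)) hθl
      have h2 := PowerSeries.X_pow_dvd_iff.mp h1 1 (by omega)
      rw [map_sub, sub_eq_zero] at h2
      rw [h2, coeff_one_X]
      exact isUnit_one) (dvd_trans (pow_dvd_pow _ (by omega)) hθl)
    obtain ⟨τ, hτ1, hτ2⟩ := exists_t hW hF a
    obtain ⟨hr0, hrK, hri⟩ := red_t hW hτ2 (z := ζ ^ t) (K := K) (by omega) ha1
    have haut : ∀ y, resd π m (a.g y) = resd π m y := resd_aut hW a.g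
    refine ⟨fun i => x (a.g (vv W m i)), fun i => x (τ i), ?_, ?_, ?_, ?_, ?_, ?_, ?_⟩
    · refine vv_par _ (x.comp (a.g : MvPowerSeries (Fin m) W →+* MvPowerSeries (Fin m) W)) 𝔫 fun i => ?_
      rw [RingHom.comp_apply]
      refine hmemn _ ?_
      change resd π m (a.g (MvPowerSeries.X i)) = 0
      rw [haut]
      exact (RingHom.mem_ker).mp (X_mem_mI i)
    · show x (τ 0) - 1 ∈ 𝔫
      rw [← map_one x, ← map_sub]
      refine hmemn _ ?_
      rw [map_sub, hr0, map_one, sub_self]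
    · show x (τ K) - z0 ^ t ∈ 𝔫
      rw [hzz, ← map_sub]
      refine hmemn _ ?_
      rw [map_sub, hrK, hres, map_pow, hz, sub_self]
    · intro j hj0 hjK
      exact hmemn _ (hri j hj0 hjK)
    · intro j
      have h1 := congrArg x (hτ1 j)
      rw [map_mul, map_sum, hz_map x] at h1
      rw [h1]
      refine Finset.sum_congr rfl fun l _ => ?_
      rw [map_mul, map_mul, map_pow, map_pow, map_natCast]
      congr 2
      have h2 := hz_map (x.comp (a.g : MvPowerSeries (Fin m) W →+* MvPowerSeries (Fin m) W)) p (vv W m) (j - l)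
      exact h2
    · intro l
      show x (a.g (vv W m (l.val + 1))) - x (vv W m (l.val + 1)) ∈ 𝔫 ^ N
      rw [vv_succ, ← map_sub, h𝔫, ← Ideal.map_pow]
      refine Ideal.mem_map_of_mem _ ?_
      obtain ⟨N', rfl⟩ : ∃ N', N = N' + 1 := ⟨N - 1, by omega⟩
      refine cont hW hF a N' K (by rw [hK]; omega) ?_ l
      rw [ha1]
      exact hθl
    · intro ρ hρ
      have hxT : ∀ j : ℕ, ∃ T : ℕ, ∀ y ∈
          Ideal.span (Set.range (MvPowerSeries.X (σ := Fin m) (R := W))) ^ T, (p : MvPowerSeries (Fin m) W ⧸ Q) ^ j ∣ x y := by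
        intro j
        obtain ⟨T, hT⟩ := pow_mem_dvd hS j
        refine ⟨T, fun y hy => hT T le_rfl _ ?_⟩
        rw [h𝔫, ← Ideal.map_pow]
        refine Ideal.mem_map_of_mem _ (Ideal.pow_right_mono ?_ T hy)
        rw [Ideal.span_le]
        rintro _ ⟨l, rfl⟩
        exact X_mem_mI l
      have hxT' : ∀ j : ℕ, ∃ T : ℕ, ∀ y ∈
          Ideal.span (Set.range (MvPowerSeries.X (σ := Fin m) (R := W))) ^ T,
            (p : MvPowerSeries (Fin m) W ⧸ Q) ^ j ∣ (x.comp (a.g : MvPowerSeries (Fin m) W →+* MvPowerSeries (Fin m) W)) y := by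
        intro j
        obtain ⟨T, hT⟩ := pow_mem_dvd hS j
        refine ⟨T, fun y hy => hT T le_rfl _ ?_⟩
        have h1 : (x.comp (a.g : MvPowerSeries (Fin m) W →+* MvPowerSeries (Fin m) W)) y ∈
            (Ideal.span (Set.range (MvPowerSeries.X (σ := Fin m) (R := W)))).map
              (x.comp (a.g : MvPowerSeries (Fin m) W →+* MvPowerSeries (Fin m) W)) ^ T := by
          rw [← Ideal.map_pow]
          exact Ideal.mem_map_of_mem _ hy
        refine Ideal.pow_right_mono ?_ T h1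
        rw [Ideal.map_le_iff_le_comap, Ideal.span_le]
        rintro _ ⟨l, rfl⟩
        show x (a.g (MvPowerSeries.X l)) ∈ 𝔫
        refine hmemn _ ?_
        rw [haut]
        exact (RingHom.mem_ker).mp (X_mem_mI l)
      have h1 := taylor x (x.comp (a.g : MvPowerSeries (Fin m) W →+* MvPowerSeries (Fin m) W)) (p : MvPowerSeries (Fin m) W ⧸ Q) (fun w => by
        rw [RingHom.comp_apply]
        congr 1
        exact a.g.commutes w) hxT hxT' ρ (fun l => by
          have := hρ l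
          simp only [vv_succ] at this
          exact this) h
      have hx0 : x h = 0 := Ideal.Quotient.eq_zero_iff_mem.mpr (hPQ hh)
      have hx1 : (x.comp (a.g : MvPowerSeries (Fin m) W →+* MvPowerSeries (Fin m) W)) h = 0 := by
        rw [RingHom.comp_apply]
        exact Ideal.Quotient.eq_zero_iff_mem.mpr (hPQ (ha2 (Ideal.mem_map_of_mem _ hh)))
      rw [hx0, hx1, sub_zero, zero_sub] at h1
      obtain ⟨c, hc⟩ := h1
      refine ⟨-c, ?_⟩
      simp only [vv_succ]
      have h2 : ∑ l, x (MvPowerSeries.pderiv W l h) * (x (a.g (MvPowerSeries.X l)) -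
          x (MvPowerSeries.X l)) = -((p : MvPowerSeries (Fin m) W ⧸ Q) ^ (2 * ρ) * c) := by
        rw [← hc, neg_neg]
        rfl
      rw [h2]
      ring

/-- stable primes not containing `p` are zero -/
theorem chai_zero [IsNoetherianRing W] (hW : IsWitt p (m + 1) π)
    (hζ : ∃ ζ : k, IsPrimitiveRoot ζ (p ^ (m + 1) - 1))
    {F : FormalGroup (MvPowerSeries (Fin m) W)} (hF : IsHaz p m F) (N : ℕ)
    (P : Ideal (MvPowerSeries (Fin m) W)) (hP : P.IsPrime)
    (hp : (p : MvPowerSeries (Fin m) W) ∉ P)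
    (hst : ∀ θ : PowerSeries k, IsHom (spc π F) (spc π F) θ → IsUnit (coeff 1 θ) →
      (X : k⟦X⟧) ^ N ∣ θ - X → ∃ a : Lift W F, PowerSeries.map (resd π m) a.f = θ ∧
        P.map (a.g : MvPowerSeries (Fin m) W →+* MvPowerSeries (Fin m) W) ≤ P) :
    P = ⊥ := by
  refine endP hW P hP hp fun h hh i => ?_
  by_contra hcon
  haveI := localW hW
  obtain ⟨Q, hQ, hPQ, hpQ, haQ, hmax⟩ := jac P hP (p : MvPowerSeries (Fin m) W)
    (MvPowerSeries.pderiv W i h) hp hcon
  refine haQ (deriv_mem hW hζ (by have := i.2; omega) hF N P hst Q hQ hPQ hpQ ?_ h hh i)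
  intro Q' hQ' hlt
  rw [hmax Q' hQ' hlt]
  ext y
  rw [IsLocalRing.mem_maximalIdeal, mem_nonunits_iff]
  constructor
  · intro hy
    by_contra h2
    exact hy (isUnit_of_not_mem_mI hW h2)
  · intro hy hu
    exact mI_ne_top (Ideal.eq_top_of_isUnit_mem _ hy hu)

end Pool.Agent.H40.CH3
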